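import Pool.Agent.Q173.JD.Trn

set_option autoImplicit false

/-! # Affine arguments -/

namespace Pool.Agent.Q173.JD

open Filter Topology MeasureTheory Complex Set
open Pool.Agent.Q173.JL (Dd)

noncomputable section

lemma HH_id : HH (fun T => T) :=
  ⟨1, 1, one_pos, one_pos, Eventually.of_forall fun T => by rw [Real.rpow_one]; exact ⟨le_rfl, le_rfl⟩⟩

/-- affine functions are admissible -/
lemma Adm_affine {q : ℝ → ℝ} {lam μ : ℝ} (hlam : 0 < lam) (hq : ∀ t, q t = lam * t + μ) : Adm q := by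
  refine ⟨fun _ => lam, fun T => lam / 2 * T, 1, 5, one_pos, by norm_num, HH_id.scale (half_pos hlam), ?_⟩
  filter_upwards [eventually_gt_atTop 0, eventually_ge_atTop (2 * |μ| / lam)] with T h1 h2
  rw [div_le_iff₀ hlam] at h2
  have h3 := abs_le.1 (le_refl |μ|)
  refine ⟨fun t _ => ⟨?_, ?_⟩, ?_, ?_⟩
  · have h4 : HasDerivAt (fun t : ℝ => lam * t + μ) lam t := by
      simpa using ((hasDerivAt_id t).const_mul lam).add_const μ
    have e : q = fun t => lam * t + μ := funext hq
    rw [e]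
    exact h4
  · rw [one_mul, div_le_iff₀ h1]
    nlinarith
  · rw [hq]; nlinarith
  · rw [hq]; nlinarith

/-- the exponential integrals of a linear function -/
lemma Osc_lin {d : ℝ} (hd : 0 < d) : Osc (fun (_ : Fin 1) t => t / d) := by
  refine ⟨2 * d, 1, 1, by positivity, one_pos, Eventually.of_forall fun T ρ hρ _ lam h1 _ h2 => ?_⟩
  obtain ⟨i, hi⟩ := h2
  have hi0 : i = 0 := Subsingleton.elim _ _
  subst hi0
  have hl : ρ ≤ |lam 0| := (h1 0).resolve_left hi
  set c : ℂ := I * ((lam 0 / d : ℝ) : ℂ) with hc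
  have hc0 : c ≠ 0 := mul_ne_zero I_ne_zero (by rw [Complex.ofReal_ne_zero]; positivity)
  have e : ∀ t : ℝ, cexp (I * ((∑ i : Fin 1, lam i * (t / d) : ℝ) : ℂ)) = cexp (c * (t : ℂ)) := by
    intro t
    congr 1
    rw [hc]
    simp
    ring
  simp_rw [e]
  rw [integral_exp_mul_complex hc0, norm_div]
  have h3 : ∀ t : ℝ, ‖cexp (c * (t : ℂ))‖ = 1 := by
    intro t
    have : c * (t : ℂ) = I * ((lam 0 / d * t : ℝ) : ℂ) := by rw [hc]; push_cast; ring
    rw [this, norm_exp_I_mul_ofReal]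
  have h4 : ‖cexp (c * ((2 * T : ℝ) : ℂ)) - cexp (c * (T : ℂ))‖ ≤ 2 := by
    refine (norm_sub_le _ _).trans ?_
    rw [h3, h3]; norm_num
  have h5 : ‖c‖ = |lam 0| / d := by
    rw [hc, norm_mul, Complex.norm_I, one_mul, Complex.norm_real, Real.norm_eq_abs, abs_div, abs_of_pos hd]
  rw [h5, sub_self, Real.rpow_zero, mul_one, pow_one]
  have hl0 : 0 < |lam 0| := lt_of_lt_of_le hρ hl
  calc ‖cexp (c * ((2 * T : ℝ) : ℂ)) - cexp (c * (T : ℂ))‖ / (|lam 0| / d) ≤ 2 / (|lam 0| / d) :=
        div_le_div_of_nonneg_right h4 (by positivity)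
    _ = 2 * d * |lam 0|⁻¹ := by field_simp
    _ ≤ 2 * d * ρ⁻¹ := mul_le_mul_of_nonneg_left (inv_anti₀ hρ hl) (by positivity)

/-- **affine arguments with rational slopes** -/
theorem affine_char {k : ℕ} (lam : Fin k → ℚ) (μ : Fin k → ℝ) (hlam : ∀ j, 0 < lam j)
    (hinj : ∀ i j, lam i = lam j → μ i = μ j → i = j) (c : Fin k → ℝ) :
    Tendsto (fun T => ∫ t, cexp (I * ((∑ j, c j * (zT T * Dd (lam j * t + μ j)) : ℝ) : ℂ)) ∂(muT T)) atTop
      (𝓝 ((Real.exp (-(1 / 2 * ∑ j, c j ^ 2)) : ℝ) : ℂ)) := by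
  -- the common denominator
  set d : ℕ := ∏ j, (lam j).den with hd
  have hd0 : 0 < d := Finset.prod_pos fun j _ => (lam j).den_pos
  have hdR : (0 : ℝ) < d := by exact_mod_cast hd0
  have hn : ∀ j, ∃ n : ℤ, (n : ℚ) = lam j * d := by
    intro j
    obtain ⟨e, he⟩ : (lam j).den ∣ d := Finset.dvd_prod_of_mem _ (Finset.mem_univ j)
    refine ⟨(lam j).num * e, ?_⟩
    rw [he]
    push_cast
    rw [← mul_assoc, Rat.mul_den_eq_num]
  choose n hn using hn
  have hnR : ∀ j, (n j : ℝ) = (lam j : ℝ) * d := fun j => by exact_mod_cast hn j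
  have hnpos : ∀ j, 0 < n j := fun j => by
    have : (0 : ℚ) < (n j : ℚ) := by
      rw [hn j]
      exact mul_pos (hlam j) (by exact_mod_cast hd0)
    exact_mod_cast this
  set D : Dat k 1 := ⟨fun j _ => n j, μ⟩ with hD
  have hOk : D.Ok := by
    refine ⟨fun j h => ?_, fun j j' h => ?_, fun j j' h1 h2 => ?_⟩
    · have := congrFun h 0
      simp only [hD, Pi.zero_apply] at this
      exact absurd this (hnpos j).ne'
    · have := congrFun h 0
      simp only [hD, Pi.neg_apply] at this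
      have h1 := hnpos j
      have h2 := hnpos j'
      omega
    · have h3 := congrFun h1 0
      simp only [hD] at h3 h2
      refine hinj j j' ?_ h2
      have h4 : lam j * d = lam j' * d := by rw [← hn j, ← hn j', h3]
      exact mul_right_cancel₀ (by exact_mod_cast hd0.ne') h4
  have harg : ∀ j t, D.arg (fun (_ : Fin 1) t => t / (d : ℝ)) j t = lam j * t + μ j := by
    intro j t
    unfold Dat.arg
    simp only [hD, Finset.univ_unique, Finset.sum_const, Finset.card_singleton, one_smul]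
    rw [hnR]
    field_simp
  have h := disp_char hOk (φ := fun (_ : Fin 1) t => t / (d : ℝ)) (fun _ => by fun_prop) (nr_of_osc (Osc_lin hdR))
    (fun j => Adm_affine (lam := lam j) (μ := μ j) (by exact_mod_cast hlam j) (harg j)) c
  simp_rw [harg] at h
  exact h

end

end Pool.Agent.Q173.JD
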