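import Pool.Agent.Q173.JD.Lim

set_option autoImplicit false

/-! # The characteristic functions of combinations of the sums over the small primes -/

namespace Pool.Agent.Q173.JD

open Filter Topology MeasureTheory Complex
open Pool.Agent.Y745.SW (Py Px xT)
open Pool.Agent.Y655.SW (VV VV_lim)

noncomputable section

/-- linear forms in the logarithms of primes are not too small -/
lemma lin_low {y : ℝ} {M : ℕ} (hy : 1 ≤ ⌊y⌋₊) (E : ↥(SS y) → ℤ) (hE : E ≠ 0) (hM : ∑ p, |E p| ≤ M) :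
    ((⌊y⌋₊ : ℝ) ^ M)⁻¹ ≤ |∑ p, (E p : ℝ) * wP y p| := by
  classical
  set f : (↥(SS y) → ℕ) → ℕ := fun e => ∏ p : ↥(SS y), (p : ℕ) ^ e p with hf
  have hpos : ∀ e, 0 < f e := fun e => Finset.prod_pos fun p _ => pow_pos (mem_SS p.2).1.pos _
  have hlog : ∀ e, Real.log (f e) = ∑ p, (e p : ℝ) * wP y p := by
    intro e
    simp only [hf]
    push_cast
    rw [Real.log_prod (fun p _ => by
      have := (mem_SS p.2).1.pos
      positivity)]
    refine Finset.sum_congr rfl fun p _ => ?_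
    rw [Real.log_pow]; rfl
  have hfac : ∀ e (q : ↥(SS y)), (f e).factorization (q : ℕ) = e q := by
    intro e q
    simp only [hf]
    rw [Nat.factorization_prod (fun p _ => pow_ne_zero _ (mem_SS p.2).1.ne_zero), Finsupp.finset_sum_apply]
    have h1 : ∀ p : ↥(SS y), ((p : ℕ) ^ e p).factorization (q : ℕ) = if p = q then e p else 0 := by
      intro p
      rw [(mem_SS p.2).1.factorization_pow, Finsupp.single_apply]
      by_cases h : p = q
      · rw [if_pos h, if_pos (by rw [h])]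
      · rw [if_neg h, if_neg (fun h' => h (Subtype.ext h'))]
    simp_rw [h1]
    rw [Finset.sum_ite_eq']
    simp
  have hle : ∀ e, (∀ p, (e p : ℤ) ≤ |E p|) → (f e : ℝ) ≤ (⌊y⌋₊ : ℝ) ^ M := by
    intro e he
    have h1 : f e ≤ ⌊y⌋₊ ^ (∑ p, e p) := by
      rw [← Finset.prod_pow_eq_pow_sum]
      exact Finset.prod_le_prod' fun p _ => Nat.pow_le_pow_left (mem_SS p.2).2 _
    have h2 : ∑ p, e p ≤ M := by
      have : ((∑ p, e p : ℕ) : ℤ) ≤ M := by
        push_cast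
        exact (Finset.sum_le_sum fun p _ => he p).trans hM
      exact_mod_cast this
    exact_mod_cast h1.trans (Nat.pow_le_pow_right hy h2)
  set u := f (fun p => (E p).toNat) with hu
  set v := f (fun p => (-E p).toNat) with hv
  have e1 : ∑ p, (E p : ℝ) * wP y p = Real.log u - Real.log v := by
    rw [hu, hv, hlog, hlog, ← Finset.sum_sub_distrib]
    refine Finset.sum_congr rfl fun p _ => ?_
    have h3 : (E p : ℝ) = ((E p).toNat : ℝ) - ((-E p).toNat : ℝ) := by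
      have := Int.toNat_sub_toNat_neg (E p)
      exact_mod_cast this.symm
    rw [← sub_mul, ← h3]
  have hne : u ≠ v := by
    intro h
    apply hE
    funext q
    have h1 := hfac (fun p => (E p).toNat) q
    have h2 := hfac (fun p => (-E p).toNat) q
    rw [← hu] at h1
    rw [← hv, ← h, h1] at h2
    have := Int.toNat_sub_toNat_neg (E q)
    rw [← this, h2]
    simp
  have hu1 : (u : ℝ) ≤ (⌊y⌋₊ : ℝ) ^ M := hle _ fun p => by
    rw [Int.toNat_eq_max]; exact max_le (le_abs_self _) (abs_nonneg _)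
  have hv1 : (v : ℝ) ≤ (⌊y⌋₊ : ℝ) ^ M := hle _ fun p => by
    rw [Int.toNat_eq_max]; exact max_le (neg_le_abs _) (abs_nonneg _)
  rw [e1]
  have key : ∀ a b : ℕ, 0 < a → 0 < b → a < b → (b : ℝ) ≤ (⌊y⌋₊ : ℝ) ^ M →
      ((⌊y⌋₊ : ℝ) ^ M)⁻¹ ≤ Real.log b - Real.log a := by
    intro a b ha hb hab hbM
    have ha' : (0 : ℝ) < a := by exact_mod_cast ha
    have hb' : (0 : ℝ) < b := by exact_mod_cast hb
    rw [← Real.log_div hb'.ne' ha'.ne']
    have h1 := Real.one_sub_inv_le_log_of_pos (div_pos hb' ha')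
    rw [inv_div] at h1
    have h2 : (a : ℝ) + 1 ≤ b := by exact_mod_cast hab
    have h3 : (b : ℝ)⁻¹ ≤ 1 - a / b := by
      rw [one_sub_div hb'.ne', inv_eq_one_div]
      exact div_le_div_of_nonneg_right (by linarith) hb'.le
    have h4 : ((⌊y⌋₊ : ℝ) ^ M)⁻¹ ≤ (b : ℝ)⁻¹ := inv_anti₀ hb' hbM
    linarith
  rcases lt_or_gt_of_ne hne with h | h
  · have := key u v (hpos _) (hpos _) h hv1
    rw [abs_sub_comm]
    exact this.trans (le_abs_self _)
  · exact (key v u (hpos _) (hpos _) h hu1).trans (le_abs_self _)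

/-- the uniform distribution on `(T, 2T]` -/
def muT (T : ℝ) : Measure ℝ := (ENNReal.ofReal T)⁻¹ • volume.restrict (Set.Ioc T (2 * T))

lemma muT_prob {T : ℝ} (hT : 0 < T) : IsProbabilityMeasure (muT T) := by
  refine ⟨?_⟩
  unfold muT
  rw [Measure.smul_apply, Measure.restrict_apply_univ, Real.volume_Ioc, smul_eq_mul]
  have e : 2 * T - T = T := by ring
  rw [e]
  exact ENNReal.inv_mul_cancel (by rw [Ne, ENNReal.ofReal_eq_zero, not_le]; exact hT) ENNReal.ofReal_ne_top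

lemma muT_int {E : Type*} [NormedAddCommGroup E] [NormedSpace ℝ E] {T : ℝ} (hT : 0 < T) (f : ℝ → E) :
    ∫ t, f t ∂(muT T) = T⁻¹ • ∫ t in T..2 * T, f t := by
  unfold muT
  rw [integral_smul_measure, intervalIntegral.integral_of_le (by linarith), ENNReal.toReal_inv,
    ENNReal.toReal_ofReal hT.le]

/-- the exponential integrals of the base functions -/
def Osc {m : ℕ} (φ : Fin m → ℝ → ℝ) : Prop := ∃ (C κ : ℝ) (B : ℕ), 0 < C ∧ 0 < κ ∧ ∀ᶠ T : ℝ in atTop,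
  ∀ ρ : ℝ, 0 < ρ → ρ ≤ 1 → ∀ lam : Fin m → ℝ, (∀ i, lam i = 0 ∨ ρ ≤ |lam i|) → (∀ i, |lam i| ≤ ρ⁻¹) →
    (∃ i, lam i ≠ 0) →
    ‖∫ t in T..2 * T, cexp (I * ((∑ i, lam i * φ i t : ℝ) : ℂ))‖ ≤ C * ρ⁻¹ ^ B * T ^ (1 - κ)

variable {k m : ℕ} {D : Dat k m} {φ : Fin m → ℝ → ℝ}

/-- no resonances of bounded order -/
def Nrc {m : ℕ} (φ : Fin m → ℝ → ℝ) : Prop := ∃ (C κ : ℝ), 0 < C ∧ 0 < κ ∧ ∀ M : ℕ, ∃ B : ℕ, ∀ᶠ T : ℝ in atTop,
    NR (muT T) φ (wP (xT T)) M (C * ((⌊xT T⌋₊ : ℝ) ^ M) ^ B * T ^ (-κ))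

lemma nr_of_osc (h : Osc φ) : Nrc φ := by
  obtain ⟨C, κ, B, hC, hκ, hev⟩ := h
  refine ⟨C, κ, hC, hκ, fun M => ⟨B, ?_⟩⟩
  filter_upwards [hev, Pool.Agent.Y41.SW.N_bound 1] with T h1 h2 E hE hM
  obtain ⟨hx, -, hT1, -⟩ := h2
  have hT0 : 0 < T := by linarith
  set N : ℝ := (⌊xT T⌋₊ : ℝ) ^ M with hN
  have hN1 : 1 ≤ N := one_le_pow₀ (by exact_mod_cast hx)
  have hN0 : 0 < N := by linarith
  have e1 : ∀ t, ∑ p, ∑ i, (E p i : ℂ) * ((wP (xT T) p * φ i t : ℝ) : ℂ) =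
      ((∑ i, (∑ p, (E p i : ℝ) * wP (xT T) p) * φ i t : ℝ) : ℂ) := by
    intro t
    rw [Finset.sum_comm]
    push_cast
    refine Finset.sum_congr rfl fun i _ => ?_
    rw [Finset.sum_mul]
    refine Finset.sum_congr rfl fun p _ => ?_
    ring
  simp_rw [e1]
  rw [muT_int hT0, norm_smul, Real.norm_eq_abs, abs_of_pos (inv_pos.2 hT0)]
  have hcol : ∀ i, (∑ p, (E p i : ℝ) * wP (xT T) p) = 0 ∨ N⁻¹ ≤ |∑ p, (E p i : ℝ) * wP (xT T) p| := by
    intro i
    by_cases h0 : (fun p => E p i) = 0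
    · left
      refine Finset.sum_eq_zero fun p _ => ?_
      have := congrFun h0 p
      simp only [Pi.zero_apply] at this
      rw [this]; simp
    · right
      exact lin_low hx (fun p => E p i) h0 (hM i)
  have hne : ∃ i, (∑ p, (E p i : ℝ) * wP (xT T) p) ≠ 0 := by
    obtain ⟨p, hp⟩ := Function.ne_iff.1 hE
    obtain ⟨i, hi⟩ := Function.ne_iff.1 hp
    refine ⟨i, fun h0 => ?_⟩
    have h3 := lin_low hx (fun p => E p i) (fun h4 => hi (congrFun h4 p)) (hM i)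
    rw [h0, abs_zero] at h3
    have : 0 < ((⌊xT T⌋₊ : ℝ) ^ M)⁻¹ := inv_pos.2 hN0
    linarith
  have hup : ∀ i, |∑ p, (E p i : ℝ) * wP (xT T) p| ≤ (N⁻¹)⁻¹ := by
    intro i
    rw [inv_inv]
    have h6 : ∀ p, wP (xT T) p ≤ Real.log ⌊xT T⌋₊ := fun p => by
      unfold wP
      exact Real.log_le_log (by exact_mod_cast (mem_SS p.2).1.pos) (by exact_mod_cast (mem_SS p.2).2)
    have h7 : ∀ p, 0 ≤ wP (xT T) p := fun p => Real.log_natCast_nonneg _
    have hlog0 : 0 ≤ Real.log (⌊xT T⌋₊ : ℝ) := Real.log_natCast_nonneg _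
    calc |∑ p, (E p i : ℝ) * wP (xT T) p| ≤ ∑ p, |(E p i : ℝ)| * Real.log ⌊xT T⌋₊ := by
          refine (Finset.abs_sum_le_sum_abs _ _).trans (Finset.sum_le_sum fun p _ => ?_)
          rw [abs_mul, abs_of_nonneg (h7 p)]
          exact mul_le_mul_of_nonneg_left (h6 p) (abs_nonneg _)
      _ = (∑ p, |(E p i : ℝ)|) * Real.log ⌊xT T⌋₊ := by rw [Finset.sum_mul]
      _ ≤ M * Real.log ⌊xT T⌋₊ := by
          refine mul_le_mul_of_nonneg_right ?_ hlog0
          have := hM i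
          have h8 : ((∑ p, |E p i| : ℤ) : ℝ) ≤ M := by exact_mod_cast this
          push_cast at h8
          exact h8
      _ = Real.log N := by rw [hN, Real.log_pow]
      _ ≤ N := (Real.log_le_sub_one_of_pos hN0).trans (by linarith)
  have h5 := h1 N⁻¹ (inv_pos.2 hN0) (inv_le_one_of_one_le₀ hN1) _ hcol hup hne
  rw [inv_inv] at h5
  calc T⁻¹ * ‖∫ t in T..2 * T, cexp (I * ((∑ i, (∑ p, (E p i : ℝ) * wP (xT T) p) * φ i t : ℝ) : ℂ))‖
      ≤ T⁻¹ * (C * N ^ B * T ^ (1 - κ)) := mul_le_mul_of_nonneg_left h5 (inv_pos.2 hT0).le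
    _ = C * N ^ B * T ^ (-κ) := by
        have : T ^ (1 - κ) = T * T ^ (-κ) := by
          rw [sub_eq_add_neg, Real.rpow_add hT0, Real.rpow_one]
        rw [this]
        field_simp

lemma xT_pow (M : ℕ) {κ : ℝ} (hκ : 0 < κ) : ∀ᶠ T : ℝ in atTop, (xT T) ^ M ≤ T ^ κ := by
  filter_upwards [Pool.Agent.Y41.SW.LL_tendsto.eventually_ge_atTop (max 1 (M / κ)),
    Real.tendsto_log_atTop.eventually_ge_atTop (1:ℝ), eventually_gt_atTop (1 : ℝ)] with T h1 h2 h3
  have hL : 0 < Real.log (Real.log T) := by linarith [(le_max_left (1 : ℝ) (M / κ)).trans h1]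
  have h4 := (le_max_right (1 : ℝ) (M / κ)).trans h1
  rw [div_le_iff₀ hκ] at h4
  unfold xT
  rw [← Real.exp_nat_mul, Real.rpow_def_of_pos (by linarith)]
  apply Real.exp_le_exp.mpr
  rw [← mul_div_assoc, div_le_iff₀ hL]
  nlinarith

lemma sum_sP_le (y : ℝ) : ∑ p, sP y p ≤ ⌊y⌋₊ := by
  calc ∑ p, sP y p ≤ ∑ _p : ↥(SS y), (1 : ℝ) := Finset.sum_le_sum fun p _ => sP_le y p
    _ = ((SS y).card : ℝ) := by simp
    _ ≤ ⌊y⌋₊ := by
        have : (SS y).card ≤ ⌊y⌋₊ := by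
          unfold SS
          refine (Finset.card_filter_le _ _).trans ?_
          rw [Nat.card_Icc]; simp
        exact_mod_cast this

/-- the normalisation -/
def zT (T : ℝ) : ℝ := Real.sqrt 2 / Real.sqrt (Real.log (Real.log T))

lemma zT_sq {T : ℝ} (hT : 0 < Real.log (Real.log T)) : zT T ^ 2 = 2 / Real.log (Real.log T) := by
  unfold zT
  rw [div_pow, Real.sq_sqrt (by norm_num), Real.sq_sqrt hT.le]

lemma zT_lim : Tendsto zT atTop (𝓝 0) := by
  unfold zT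
  exact tendsto_const_nhds.div_atTop (Real.tendsto_sqrt_atTop.comp Pool.Agent.Y41.SW.LL_tendsto)

lemma zT_nonneg (T : ℝ) : 0 ≤ zT T := by unfold zT; positivity

/-- the model -/
def GT (D : Dat k m) (c : Fin k → ℝ) (T : ℝ) : ℂ :=
  ∫ θ, cexp (I * ((zT T * Ys (fun p => gg D c (sP (xT T) p) (wP (xT T) p)) θ : ℝ) : ℂ)) ∂(mu ↥(SS (xT T)) m)

lemma Dat.Ok.GT_lim (hD : D.Ok) (c : Fin k → ℝ) :
    Tendsto (GT D c) atTop (𝓝 ((Real.exp (-(1 / 2 * ∑ j, c j ^ 2)) : ℝ) : ℂ)) := by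
  obtain ⟨C, hC, hvar⟩ := hD.var_sum c
  set A : ℝ := ∑ j, |c j| with hA
  have hA0 : 0 ≤ A := Finset.sum_nonneg fun j _ => abs_nonneg _
  set V : ℝ → ℝ := fun T => ∑ p, (∫ x, gg D c (sP (xT T) p) (wP (xT T) p) x ^ 2 ∂(nu m)) with hV
  have h1 : Tendsto (fun T => zT T ^ 2 / 2 * V T) atTop (𝓝 (1 / 2 * ∑ j, c j ^ 2)) := by
    have h2 : Tendsto (fun T : ℝ => 1 / 2 * (∑ j, c j ^ 2) * (VV (xT T) / Real.log (Real.log T)) +
        (V T - 1 / 2 * (∑ j, c j ^ 2) * VV (xT T)) / Real.log (Real.log T)) atTop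
        (𝓝 (1 / 2 * (∑ j, c j ^ 2) * 1 + 0)) := by
      refine (VV_lim.const_mul _).add ?_
      rw [tendsto_zero_iff_abs_tendsto_zero]
      refine squeeze_zero' (Eventually.of_forall fun T => abs_nonneg _) ?_
        (tendsto_const_nhds (x := C) |>.div_atTop Pool.Agent.Y41.SW.LL_tendsto)
      filter_upwards [Pool.Agent.Y41.SW.LL_tendsto.eventually_gt_atTop 0] with T hT
      show |(V T - 1 / 2 * (∑ j, c j ^ 2) * VV (xT T)) / Real.log (Real.log T)| ≤ C / Real.log (Real.log T)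
      rw [abs_div, abs_of_pos hT]
      exact div_le_div_of_nonneg_right (hvar _) hT.le
    rw [mul_one, add_zero] at h2
    refine h2.congr' ?_
    filter_upwards [Pool.Agent.Y41.SW.LL_tendsto.eventually_gt_atTop 0] with T hT
    rw [zT_sq hT]
    field_simp
    ring
  have h3 : Tendsto (fun T => ((Real.exp (-(zT T ^ 2 / 2 * V T)) : ℝ) : ℂ)) atTop
      (𝓝 ((Real.exp (-(1 / 2 * ∑ j, c j ^ 2)) : ℝ) : ℂ)) :=
    (Complex.continuous_ofReal.tendsto _).comp ((Real.continuous_exp.tendsto _).comp h1.neg)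
  have h4 : Tendsto (fun T => |zT T| ^ 3 * (A ^ 3 * Z3) + zT T ^ 4 * (A ^ 4 * Z3)) atTop (𝓝 0) := by
    have : Tendsto (fun T => |zT T| ^ 3 * (A ^ 3 * Z3) + zT T ^ 4 * (A ^ 4 * Z3)) atTop
        (𝓝 (|0| ^ 3 * (A ^ 3 * Z3) + 0 ^ 4 * (A ^ 4 * Z3))) :=
      ((zT_lim.abs.pow 3).mul_const _).add ((zT_lim.pow 4).mul_const _)
    simpa using this
  have h5 : Tendsto (fun T => GT D c T - ((Real.exp (-(zT T ^ 2 / 2 * V T)) : ℝ) : ℂ)) atTop (𝓝 0) := by
    rw [tendsto_zero_iff_norm_tendsto_zero]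
    refine squeeze_zero (fun T => norm_nonneg _) (fun T => ?_) h4
    have h6 := (hD.cent c (s := sP (xT T)) (w := wP (xT T)) (sP_nonneg _)).char (zT T)
    refine h6.trans ?_
    rw [Finset.sum_add_distrib, ← Finset.mul_sum, ← Finset.mul_sum]
    have h7 : ∑ p, (A * sP (xT T) p) ^ 3 ≤ A ^ 3 * Z3 := by
      simp_rw [mul_pow]
      rw [← Finset.mul_sum]
      exact mul_le_mul_of_nonneg_left (sum_sP3 _) (by positivity)
    have h8 : ∑ p, (A * sP (xT T) p) ^ 4 ≤ A ^ 4 * Z3 := by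
      simp_rw [mul_pow]
      rw [← Finset.mul_sum]
      refine mul_le_mul_of_nonneg_left ?_ (by positivity)
      refine (Finset.sum_le_sum fun p _ => ?_).trans (sum_sP3 (xT T))
      exact pow_le_pow_of_le_one (sP_nonneg _ _) (sP_le _ _) (by norm_num)
    exact add_le_add (mul_le_mul_of_nonneg_left h7 (by positivity)) (mul_le_mul_of_nonneg_left h8 (by positivity))
  have h9 := h5.add h3
  simpa using h9

/-- **the characteristic functions of combinations of the sums over the small primes** -/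
theorem Dat.Ok.char_lim (hD : D.Ok) (hφ : ∀ i, Measurable (φ i)) (hO : Nrc φ) (c : Fin k → ℝ) :
    Tendsto (fun T => ∫ t, cexp (I * ((zT T * ∑ j, c j * (Px T (D.arg φ j t)).im : ℝ) : ℂ)) ∂(muT T)) atTop
      (𝓝 ((Real.exp (-(1 / 2 * ∑ j, c j ^ 2)) : ℝ) : ℂ)) := by
  obtain ⟨C, κ, hC, hκ, hNR0⟩ := hO
  set A : ℝ := ∑ j, |c j| with hA
  have hA0 : 0 ≤ A := Finset.sum_nonneg fun j _ => abs_nonneg _
  obtain ⟨A', hA'⟩ : ∃ A' : ℕ, ∀ j i, |D.a j i| ≤ A' := by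
    refine ⟨(∑ j, ∑ i, |D.a j i|).toNat, fun j i => ?_⟩
    have h0 : 0 ≤ ∑ j, ∑ i, |D.a j i| := Finset.sum_nonneg fun j _ => Finset.sum_nonneg fun i _ => abs_nonneg _
    rw [Int.toNat_of_nonneg h0]
    calc |D.a j i| ≤ ∑ i, |D.a j i| := Finset.single_le_sum (f := fun i => |D.a j i|) (fun i _ => abs_nonneg _) (Finset.mem_univ i)
      _ ≤ ∑ j, ∑ i, |D.a j i| := Finset.single_le_sum (f := fun j => ∑ i, |D.a j i|)
        (fun j _ => Finset.sum_nonneg fun i _ => abs_nonneg _) (Finset.mem_univ j)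
  have hdiff : Tendsto (fun T => (∫ t, cexp (I * ((zT T * ∑ j, c j * (Px T (D.arg φ j t)).im : ℝ) : ℂ)) ∂(muT T)) -
      GT D c T) atTop (𝓝 0) := by
    rw [Metric.tendsto_nhds]
    intro ε hε
    -- the choice of `K`
    set Q : ℝ := Real.exp (64 * A ^ 2) with hQ
    have hQ0 : 0 < Q := Real.exp_pos _
    obtain ⟨K0, hK0⟩ : ∃ K0 : ℕ, 4 * Q * (1 / 4 : ℝ) ^ K0 < ε / 2 := by
      have h1 : Tendsto (fun n : ℕ => 4 * Q * (1 / 4 : ℝ) ^ n) atTop (𝓝 (4 * Q * 0)) :=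
        (tendsto_pow_atTop_nhds_zero_of_lt_one (by norm_num) (by norm_num)).const_mul _
      rw [mul_zero] at h1
      exact (h1.eventually (gt_mem_nhds (half_pos hε))).exists
    set K : ℕ := 2 * K0 with hK
    have hKe : Even K := ⟨K0, by omega⟩
    have hK1 : 4 * Q * (1 / 4 : ℝ) ^ K < ε / 2 := by
      refine lt_of_le_of_lt ?_ hK0
      exact mul_le_mul_of_nonneg_left (pow_le_pow_of_le_one (by norm_num) (by norm_num) (by omega)) (by positivity)
    obtain ⟨B, hNR⟩ := hNR0 (K * A')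
    -- the first error
    have hE1 : Tendsto (fun T : ℝ => C * (K + 1) * (1 + A) ^ K * T ^ (-(κ / 2))) atTop (𝓝 0) := by
      have := (tendsto_rpow_neg_atTop (half_pos hκ)).const_mul (C * (K + 1) * (1 + A) ^ K)
      simpa using this
    filter_upwards [hNR, xT_pow (K * A' * B + K) (half_pos hκ), hE1.eventually (gt_mem_nhds (half_pos hε)),
      zT_lim.eventually (gt_mem_nhds (show (0 : ℝ) < 1 / (4 * (A + 1)) by positivity)),
      VV_lim.eventually (gt_mem_nhds (show (1 : ℝ) < 2 by norm_num)),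
      Pool.Agent.Y41.SW.N_bound 1] with T t1 t2 t3 t4 t5 t6
    obtain ⟨hx, -, hT1, hLL⟩ := t6
    have hT0 : 0 < T := by linarith
    have hz0 := zT_nonneg T
    have := muT_prob hT0
    have hxf : (⌊xT T⌋₊ : ℝ) ≤ xT T := Nat.floor_le (Real.exp_pos _).le
    have hx1 : (1 : ℝ) ≤ ⌊xT T⌋₊ := by exact_mod_cast hx
    have hx2 : 1 ≤ xT T := hx1.trans hxf
    rw [dist_zero_right]
    have hcmp := main_cmp D (muT T) hφ c (s := sP (xT T)) (w := wP (xT T)) hA' hKe (by positivity) t1 (zT T)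
    rw [uu_sum c (sP_nonneg _)] at hcmp
    simp_rw [Ys_eq] at hcmp
    have hz4 : zT T * (4 * (A + 1)) < 1 := by rwa [lt_div_iff₀ (by positivity)] at t4
    -- the second error
    have hcent := hD.cent c (s := sP (xT T)) (w := wP (xT T)) (sP_nonneg _)
    have hs : ∀ p, |4 * zT T| * ((∑ j, |c j|) * sP (xT T) p) ≤ 1 := by
      intro p
      rw [abs_of_nonneg (by positivity)]
      have h1 := sP_le (xT T) p
      have h2 := sP_nonneg (xT T) p
      have h3 : A * sP (xT T) p ≤ A + 1 := by nlinarith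
      have h4 : 4 * zT T * (A * sP (xT T) p) ≤ 4 * zT T * (A + 1) := mul_le_mul_of_nonneg_left h3 (by positivity)
      linarith
    have hmom := hcent.mom hs hKe
    have e1 : (4 * zT T) ^ 2 * ∑ p, ((∑ j, |c j|) * sP (xT T) p) ^ 2 ≤ 64 * A ^ 2 := by
      simp_rw [mul_pow (∑ j, |c j|)]
      rw [← Finset.mul_sum, sum_sP2, mul_pow, zT_sq hLL]
      rw [div_lt_iff₀ hLL] at t5
      have h1 : (2 / Real.log (Real.log T)) * VV (xT T) ≤ 4 := by
        rw [div_mul_eq_mul_div, div_le_iff₀ hLL]; linarith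
      have h2 : 4 ^ 2 * (2 / Real.log (Real.log T)) * (A ^ 2 * VV (xT T)) =
          16 * A ^ 2 * ((2 / Real.log (Real.log T)) * VV (xT T)) := by ring
      rw [h2]
      nlinarith [sq_nonneg A]
    have hmom2 : |4 * zT T| ^ K / (K.factorial : ℝ) *
        ∫ θ, Ys (fun p => gg D c (sP (xT T) p) (wP (xT T) p)) θ ^ K ∂(mu ↥(SS (xT T)) m) ≤ 2 * Q :=
      hmom.trans (mul_le_mul_of_nonneg_left (Real.exp_le_exp.2 e1) (by norm_num))
    have hmom3 : 2 * (|zT T| ^ K / (K.factorial : ℝ) *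
        ∫ θ, Ys (fun p => gg D c (sP (xT T) p) (wP (xT T) p)) θ ^ K ∂(mu ↥(SS (xT T)) m)) ≤ 4 * Q * (1 / 4) ^ K := by
      have e2 : |zT T| ^ K / (K.factorial : ℝ) *
        ∫ θ, Ys (fun p => gg D c (sP (xT T) p) (wP (xT T) p)) θ ^ K ∂(mu ↥(SS (xT T)) m) =
        (1 / 4) ^ K * (|4 * zT T| ^ K / (K.factorial : ℝ) *
        ∫ θ, Ys (fun p => gg D c (sP (xT T) p) (wP (xT T) p)) θ ^ K ∂(mu ↥(SS (xT T)) m)) := by
        rw [abs_mul, mul_pow, abs_of_pos (by norm_num : (0:ℝ) < 4)]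
        have : (1 / 4 : ℝ) ^ K * 4 ^ K = 1 := by rw [← mul_pow]; norm_num
        have e3 : ∀ a b : ℝ, (1 / 4 : ℝ) ^ K * (4 ^ K * a * b) = ((1 / 4 : ℝ) ^ K * 4 ^ K) * (a * b) := fun a b => by ring
        rw [mul_div_assoc, e3, this, one_mul]
      rw [e2]
      have h1 : 0 ≤ (1 / 4 : ℝ) ^ K := by positivity
      nlinarith [mul_le_mul_of_nonneg_left hmom2 h1]
    -- the first error
    have hfirst : C * ((⌊xT T⌋₊ : ℝ) ^ (K * A')) ^ B * T ^ (-κ) * (K + 1) * (1 + |zT T| * (A * ∑ p, sP (xT T) p)) ^ K ≤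
        C * (K + 1) * (1 + A) ^ K * T ^ (-(κ / 2)) := by
      have h1 : |zT T| ≤ 1 := by
        rw [abs_of_nonneg hz0]
        nlinarith
      have h2 : 1 + |zT T| * (A * ∑ p, sP (xT T) p) ≤ (1 + A) * xT T := by
        have h3 : A * ∑ p, sP (xT T) p ≤ A * xT T := mul_le_mul_of_nonneg_left ((sum_sP_le _).trans hxf) hA0
        have h4 : 0 ≤ A * ∑ p, sP (xT T) p := mul_nonneg hA0 (Finset.sum_nonneg fun p _ => sP_nonneg _ _)
        have h5 : |zT T| * (A * ∑ p, sP (xT T) p) ≤ 1 * (A * ∑ p, sP (xT T) p) := mul_le_mul_of_nonneg_right h1 h4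
        linarith
      have h3 : (1 + |zT T| * (A * ∑ p, sP (xT T) p)) ^ K ≤ (1 + A) ^ K * xT T ^ K := by
        rw [← mul_pow]
        refine pow_le_pow_left₀ ?_ h2 K
        have h4 : 0 ≤ A * ∑ p, sP (xT T) p := mul_nonneg hA0 (Finset.sum_nonneg fun p _ => sP_nonneg _ _)
        have := mul_nonneg (abs_nonneg (zT T)) h4
        linarith
      have h4 : ((⌊xT T⌋₊ : ℝ) ^ (K * A')) ^ B ≤ xT T ^ (K * A' * B) := by
        rw [← pow_mul]
        exact pow_le_pow_left₀ (by positivity) hxf _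
      have h5 : xT T ^ (K * A' * B) * xT T ^ K ≤ T ^ (κ / 2) := by rw [← pow_add]; exact t2
      have h6 : T ^ (-κ) * T ^ (κ / 2) = T ^ (-(κ / 2)) := by
        rw [← Real.rpow_add hT0]; congr 1; ring
      have hTk : 0 < T ^ (-κ) := Real.rpow_pos_of_pos hT0 _
      calc C * ((⌊xT T⌋₊ : ℝ) ^ (K * A')) ^ B * T ^ (-κ) * (K + 1) * (1 + |zT T| * (A * ∑ p, sP (xT T) p)) ^ K
          ≤ C * xT T ^ (K * A' * B) * T ^ (-κ) * (K + 1) * ((1 + A) ^ K * xT T ^ K) := by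
            refine mul_le_mul ?_ h3 ?_ (by positivity)
            · refine mul_le_mul_of_nonneg_right (mul_le_mul_of_nonneg_right
                (mul_le_mul_of_nonneg_left h4 hC.le) hTk.le) (by positivity)
            · have h7 : 0 ≤ A * ∑ p, sP (xT T) p := mul_nonneg hA0 (Finset.sum_nonneg fun p _ => sP_nonneg _ _)
              have := mul_nonneg (abs_nonneg (zT T)) h7
              positivity
        _ = C * (K + 1) * (1 + A) ^ K * (T ^ (-κ) * (xT T ^ (K * A' * B) * xT T ^ K)) := by ring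
        _ ≤ C * (K + 1) * (1 + A) ^ K * (T ^ (-κ) * T ^ (κ / 2)) := by
            refine mul_le_mul_of_nonneg_left (mul_le_mul_of_nonneg_left h5 hTk.le) (by positivity)
        _ = _ := by rw [h6]
    have hfin := hcmp.trans (add_le_add hfirst hmom3)
    refine lt_of_le_of_lt hfin ?_
    linarith
  have := hdiff.add (hD.GT_lim c)
  simpa using this

end

end Pool.Agent.Q173.JD
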