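import Pool.Agent.Y586.SW.GM

set_option autoImplicit false

/-! # Comparison of two random sums of characters through their moments -/

namespace Pool.Agent.Q173.JD

open Filter Topology MeasureTheory Complex

noncomputable section

variable {α Ω₁ Ω₂ : Type*} [Fintype α] [MeasurableSpace Ω₁] [MeasurableSpace Ω₂]

lemma prod_meas {Ω : Type*} [MeasurableSpace Ω] {n : ℕ} {e : α → Ω → ℂ} (h : ∀ a, Measurable (e a)) (v : Fin n → α) :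
    Measurable fun x => ∏ i, e (v i) x := Finset.measurable_prod _ fun i _ => h (v i)

lemma prod_bd {Ω : Type*} {n : ℕ} {e : α → Ω → ℂ} (b : ∀ a x, ‖e a x‖ ≤ 1) (v : Fin n → α) (x : Ω) :
    ‖∏ i, e (v i) x‖ ≤ 1 := by
  rw [norm_prod]
  exact Finset.prod_le_one (fun i _ => norm_nonneg _) fun i _ => b _ _

lemma int_pow {Ω : Type*} [MeasurableSpace Ω] (μ : Measure Ω) [IsFiniteMeasure μ] {e : α → Ω → ℂ}
    (h : ∀ a, Measurable (e a)) (b : ∀ a x, ‖e a x‖ ≤ 1) (u : α → ℂ) (n : ℕ) :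
    ∫ x, (∑ a, u a * e a x) ^ n ∂μ = ∑ v : Fin n → α, (∏ i, u (v i)) * ∫ x, ∏ i, e (v i) x ∂μ := by
  have e1 : ∀ x, (∑ a, u a * e a x) ^ n = ∑ v : Fin n → α, (∏ i, u (v i)) * ∏ i, e (v i) x := by
    intro x
    rw [Fintype.sum_pow]
    refine Finset.sum_congr rfl fun v _ => ?_
    rw [Finset.prod_mul_distrib]
  simp_rw [e1]
  rw [integral_finset_sum]
  · refine Finset.sum_congr rfl fun v _ => ?_
    rw [integral_const_mul]
  · intro v _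
    refine Integrable.const_mul ?_ _
    exact Integrable.of_bound (prod_meas h v).aestronglyMeasurable 1 (Eventually.of_forall (prod_bd b v))

lemma pow_cmp (μ₁ : Measure Ω₁) (μ₂ : Measure Ω₂) [IsFiniteMeasure μ₁] [IsFiniteMeasure μ₂]
    {e₁ : α → Ω₁ → ℂ} {e₂ : α → Ω₂ → ℂ} (h₁ : ∀ a, Measurable (e₁ a)) (h₂ : ∀ a, Measurable (e₂ a))
    (b₁ : ∀ a x, ‖e₁ a x‖ ≤ 1) (b₂ : ∀ a x, ‖e₂ a x‖ ≤ 1) (u : α → ℂ) (n : ℕ) (η : ℝ)
    (h : ∀ v : Fin n → α, ‖(∫ x, ∏ i, e₁ (v i) x ∂μ₁) - ∫ x, ∏ i, e₂ (v i) x ∂μ₂‖ ≤ η) :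
    ‖(∫ x, (∑ a, u a * e₁ a x) ^ n ∂μ₁) - ∫ x, (∑ a, u a * e₂ a x) ^ n ∂μ₂‖ ≤ η * (∑ a, ‖u a‖) ^ n := by
  rw [int_pow μ₁ h₁ b₁, int_pow μ₂ h₂ b₂, ← Finset.sum_sub_distrib]
  refine (norm_sum_le _ _).trans ?_
  rw [Fintype.sum_pow, Finset.mul_sum]
  refine Finset.sum_le_sum fun v _ => ?_
  rw [← mul_sub, norm_mul, norm_prod, mul_comm η]
  exact mul_le_mul_of_nonneg_left (h v) (Finset.prod_nonneg fun i _ => norm_nonneg _)

lemma sum_bd {Ω : Type*} {e : α → Ω → ℂ} (b : ∀ a x, ‖e a x‖ ≤ 1) (u : α → ℂ) (x : Ω) :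
    ‖∑ a, u a * e a x‖ ≤ ∑ a, ‖u a‖ := by
  refine (norm_sum_le _ _).trans (Finset.sum_le_sum fun a _ => ?_)
  rw [norm_mul]
  exact mul_le_of_le_one_right (norm_nonneg _) (b a x)

open Pool.Agent.Y586.SW (Sm tay)

/-- one side of the comparison: a Taylor polynomial of the exponential -/
lemma tay_int {Ω : Type*} [MeasurableSpace Ω] (μ : Measure Ω) [IsProbabilityMeasure μ] {L : Ω → ℝ}
    (hL : Measurable L) {U : ℝ} (hU : ∀ x, |L x| ≤ U) (z : ℝ) {K : ℕ} (hK : Even K) :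
    ‖(∫ x, cexp (I * ((z * L x : ℝ) : ℂ)) ∂μ) -
      ∑ j ∈ Finset.range K, (I * z) ^ j / (j.factorial : ℂ) * ∫ x, ((L x : ℝ) : ℂ) ^ j ∂μ‖ ≤
      |z| ^ K / (K.factorial : ℝ) * ∫ x, L x ^ K ∂μ := by
  have hLi : ∀ j : ℕ, Integrable (fun x => ((L x : ℝ) : ℂ) ^ j) μ := fun j =>
    Integrable.of_bound ((Complex.measurable_ofReal.comp hL).pow_const j).aestronglyMeasurable (U ^ j)
      (Eventually.of_forall fun x => by
        rw [norm_pow, Complex.norm_real, Real.norm_eq_abs]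
        exact pow_le_pow_left₀ (abs_nonneg _) (hU x) j)
  have hLr : Integrable (fun x => L x ^ K) μ :=
    Integrable.of_bound (hL.pow_const K).aestronglyMeasurable (U ^ K)
      (Eventually.of_forall fun x => by
        rw [norm_pow, Real.norm_eq_abs]
        exact pow_le_pow_left₀ (abs_nonneg _) (hU x) K)
  have hE : Integrable (fun x => cexp (I * ((z * L x : ℝ) : ℂ))) μ := by
    refine Integrable.of_bound ?_ 1 (Eventually.of_forall fun x => ?_)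
    · exact (Complex.measurable_exp.comp ((Complex.measurable_ofReal.comp (hL.const_mul z)).const_mul I)).aestronglyMeasurable
    · rw [norm_exp_I_mul_ofReal]
  have e1 : ∑ j ∈ Finset.range K, (I * z) ^ j / (j.factorial : ℂ) * ∫ x, ((L x : ℝ) : ℂ) ^ j ∂μ =
      ∫ x, Sm K (z * L x) ∂μ := by
    unfold Sm
    rw [integral_finset_sum]
    · refine Finset.sum_congr rfl fun j _ => ?_
      rw [← integral_const_mul]
      refine integral_congr_ae (Eventually.of_forall fun x => ?_)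
      show _ = (I * ((z * L x : ℝ) : ℂ)) ^ j / _
      push_cast
      rw [mul_pow, mul_pow, mul_pow]
      ring
    · intro j _
      have := (hLi j).const_mul ((I * z) ^ j / (j.factorial : ℂ))
      refine this.congr (Eventually.of_forall fun x => ?_)
      show _ = (I * ((z * L x : ℝ) : ℂ)) ^ j / _
      push_cast
      rw [mul_pow, mul_pow, mul_pow]
      ring
  have hSi : Integrable (fun x => Sm K (z * L x)) μ := by
    unfold Sm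
    refine integrable_finset_sum _ fun j _ => ?_
    have := (hLi j).const_mul ((I * z) ^ j / (j.factorial : ℂ))
    refine this.congr (Eventually.of_forall fun x => ?_)
    show _ = (I * ((z * L x : ℝ) : ℂ)) ^ j / _
    push_cast
    rw [mul_pow, mul_pow, mul_pow]
    ring
  rw [e1, ← integral_sub hE hSi, ← integral_const_mul]
  refine (norm_integral_le_integral_norm _).trans ?_
  refine integral_mono (hE.sub hSi).norm (hLr.const_mul _) fun x => ?_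
  have h1 := tay K (z * L x)
  refine h1.trans (le_of_eq ?_)
  show |z * L x| ^ K / _ = _
  rw [abs_mul, mul_pow, hK.pow_abs]
  rw [hK.pow_abs]
  ring

/-- **comparison of the characteristic functions** -/
theorem char_cmp (μ₁ : Measure Ω₁) (μ₂ : Measure Ω₂) [IsProbabilityMeasure μ₁] [IsProbabilityMeasure μ₂]
    {e₁ : α → Ω₁ → ℂ} {e₂ : α → Ω₂ → ℂ} (h₁ : ∀ a, Measurable (e₁ a)) (h₂ : ∀ a, Measurable (e₂ a))
    (b₁ : ∀ a x, ‖e₁ a x‖ ≤ 1) (b₂ : ∀ a x, ‖e₂ a x‖ ≤ 1) (u : α → ℂ) {L₁ : Ω₁ → ℝ} {L₂ : Ω₂ → ℝ}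
    (m₁ : Measurable L₁) (m₂ : Measurable L₂)
    (r₁ : ∀ x, ((L₁ x : ℝ) : ℂ) = ∑ a, u a * e₁ a x) (r₂ : ∀ x, ((L₂ x : ℝ) : ℂ) = ∑ a, u a * e₂ a x)
    {K : ℕ} (hK : Even K) {η : ℝ} (hη : 0 ≤ η)
    (h : ∀ n ≤ K, ∀ v : Fin n → α, ‖(∫ x, ∏ i, e₁ (v i) x ∂μ₁) - ∫ x, ∏ i, e₂ (v i) x ∂μ₂‖ ≤ η) (z : ℝ) :
    ‖(∫ x, cexp (I * ((z * L₁ x : ℝ) : ℂ)) ∂μ₁) - ∫ x, cexp (I * ((z * L₂ x : ℝ) : ℂ)) ∂μ₂‖ ≤
      η * (K + 1) * (1 + |z| * ∑ a, ‖u a‖) ^ K + 2 * (|z| ^ K / (K.factorial : ℝ) * ∫ x, L₂ x ^ K ∂μ₂) := by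
  set U : ℝ := ∑ a, ‖u a‖ with hU
  have hU0 : 0 ≤ U := Finset.sum_nonneg fun a _ => norm_nonneg _
  have hz := abs_nonneg z
  have B₁ : ∀ x, |L₁ x| ≤ U := fun x => by
    rw [← Real.norm_eq_abs, ← Complex.norm_real, r₁ x]; exact sum_bd b₁ u x
  have B₂ : ∀ x, |L₂ x| ≤ U := fun x => by
    rw [← Real.norm_eq_abs, ← Complex.norm_real, r₂ x]; exact sum_bd b₂ u x
  have hmom : ∀ n ≤ K, ‖(∫ x, ((L₁ x : ℝ) : ℂ) ^ n ∂μ₁) - ∫ x, ((L₂ x : ℝ) : ℂ) ^ n ∂μ₂‖ ≤ η * U ^ n := by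
    intro n hn
    have := pow_cmp μ₁ μ₂ h₁ h₂ b₁ b₂ u n η (h n hn)
    simp_rw [r₁, r₂]
    exact this
  have hterm : ∀ n ≤ K, |z| ^ n / (n.factorial : ℝ) * (η * U ^ n) ≤ η * (1 + |z| * U) ^ K := by
    intro n hn
    have h1 : |z| ^ n / (n.factorial : ℝ) * (η * U ^ n) = η * ((|z| * U) ^ n / (n.factorial : ℝ)) := by
      rw [mul_pow]; ring
    rw [h1]
    refine mul_le_mul_of_nonneg_left ?_ hη
    have h2 : 0 ≤ |z| * U := mul_nonneg hz hU0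
    have h3 : (1 : ℝ) ≤ n.factorial := by exact_mod_cast Nat.one_le_iff_ne_zero.2 (Nat.factorial_ne_zero n)
    calc (|z| * U) ^ n / (n.factorial : ℝ) ≤ (|z| * U) ^ n := div_le_self (by positivity) h3
      _ ≤ (1 + |z| * U) ^ n := pow_le_pow_left₀ h2 (by linarith) n
      _ ≤ (1 + |z| * U) ^ K := pow_le_pow_right₀ (by linarith) hn
  have t₁ := tay_int μ₁ m₁ B₁ z hK
  have t₂ := tay_int μ₂ m₂ B₂ z hK
  set S₁ : ℂ := ∑ j ∈ Finset.range K, (I * z) ^ j / (j.factorial : ℂ) * ∫ x, ((L₁ x : ℝ) : ℂ) ^ j ∂μ₁ with hS₁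
  set S₂ : ℂ := ∑ j ∈ Finset.range K, (I * z) ^ j / (j.factorial : ℂ) * ∫ x, ((L₂ x : ℝ) : ℂ) ^ j ∂μ₂ with hS₂
  have hS : ‖S₁ - S₂‖ ≤ K * (η * (1 + |z| * U) ^ K) := by
    rw [hS₁, hS₂, ← Finset.sum_sub_distrib]
    refine (norm_sum_le _ _).trans ?_
    have h1 : ∀ j ∈ Finset.range K, ‖(I * z) ^ j / (j.factorial : ℂ) * (∫ x, ((L₁ x : ℝ) : ℂ) ^ j ∂μ₁) -
        (I * z) ^ j / (j.factorial : ℂ) * ∫ x, ((L₂ x : ℝ) : ℂ) ^ j ∂μ₂‖ ≤ η * (1 + |z| * U) ^ K := by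
      intro j hj
      have hj' : j ≤ K := (Finset.mem_range.1 hj).le
      refine le_trans ?_ (hterm j hj')
      rw [← mul_sub, norm_mul]
      refine mul_le_mul (le_of_eq ?_) (hmom j hj') (norm_nonneg _) (by positivity)
      rw [norm_div, norm_pow, norm_mul, Complex.norm_I, one_mul, Complex.norm_real, Real.norm_eq_abs,
        Complex.norm_natCast]
    refine (Finset.sum_le_sum h1).trans ?_
    rw [Finset.sum_const, Finset.card_range, nsmul_eq_mul]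
  have hKm : ∫ x, L₁ x ^ K ∂μ₁ ≤ (∫ x, L₂ x ^ K ∂μ₂) + η * U ^ K := by
    have h1 := hmom K le_rfl
    have e1 : (∫ x, ((L₁ x : ℝ) : ℂ) ^ K ∂μ₁) = ((∫ x, L₁ x ^ K ∂μ₁ : ℝ) : ℂ) := by
      rw [← integral_complex_ofReal]; push_cast; rfl
    have e2 : (∫ x, ((L₂ x : ℝ) : ℂ) ^ K ∂μ₂) = ((∫ x, L₂ x ^ K ∂μ₂ : ℝ) : ℂ) := by
      rw [← integral_complex_ofReal]; push_cast; rfl
    rw [e1, e2, ← Complex.ofReal_sub, Complex.norm_real, Real.norm_eq_abs] at h1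
    linarith [(abs_le.1 h1).2]
  have hc : 0 ≤ |z| ^ K / (K.factorial : ℝ) := by positivity
  have h5 := mul_le_mul_of_nonneg_left hKm hc
  have h6 := hterm K le_rfl
  have h7 : ‖(∫ x, cexp (I * ((z * L₁ x : ℝ) : ℂ)) ∂μ₁) - ∫ x, cexp (I * ((z * L₂ x : ℝ) : ℂ)) ∂μ₂‖ ≤
      ‖(∫ x, cexp (I * ((z * L₁ x : ℝ) : ℂ)) ∂μ₁) - S₁‖ + ‖S₁ - S₂‖ +
      ‖(∫ x, cexp (I * ((z * L₂ x : ℝ) : ℂ)) ∂μ₂) - S₂‖ := by
    have e : (∫ x, cexp (I * ((z * L₁ x : ℝ) : ℂ)) ∂μ₁) - ∫ x, cexp (I * ((z * L₂ x : ℝ) : ℂ)) ∂μ₂ =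
      ((∫ x, cexp (I * ((z * L₁ x : ℝ) : ℂ)) ∂μ₁) - S₁) + (S₁ - S₂) -
        ((∫ x, cexp (I * ((z * L₂ x : ℝ) : ℂ)) ∂μ₂) - S₂) := by ring
    rw [e]
    exact (norm_sub_le _ _).trans (add_le_add_left (norm_add_le _ _) _)
  have h8 : (K + 1 : ℝ) * (η * (1 + |z| * U) ^ K) = η * (K + 1) * (1 + |z| * U) ^ K := by ring
  have h9 : |z| ^ K / (K.factorial : ℝ) * ((∫ x, L₂ x ^ K ∂μ₂) + η * U ^ K) =
    |z| ^ K / (K.factorial : ℝ) * (∫ x, L₂ x ^ K ∂μ₂) + |z| ^ K / (K.factorial : ℝ) * (η * U ^ K) := by ring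
  rw [← h8]
  linarith

end

end Pool.Agent.Q173.JD
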