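import Pool.Agent.Q173.JD.Tor

set_option autoImplicit false

/-! # Sums over primes at several arguments, and the random model -/

namespace Pool.Agent.Q173.JD

open Filter Topology MeasureTheory Complex

noncomputable section

/-- the arguments `∑ i, a j i * φ i + b j` -/
structure Dat (k m : ℕ) where
  a : Fin k → Fin m → ℤ
  b : Fin k → ℝ

/-- the conditions -/
structure Dat.Ok {k m : ℕ} (D : Dat k m) : Prop where
  nz : ∀ j, D.a j ≠ 0
  opp : ∀ j j', D.a j ≠ -D.a j'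
  inj : ∀ j j', D.a j = D.a j' → D.b j = D.b j' → j = j'

variable {k m : ℕ} (D : Dat k m)

/-- the phase -/
def ph (w : ℝ) (j : Fin k) (x : Fin m → ℝ) : ℝ := ∑ i, (D.a j i : ℝ) * x i + D.b j * w

/-- the summand of a prime: `s = p ^ (-1/2)`, `w = log p` -/
def gg (c : Fin k → ℝ) (s w : ℝ) (x : Fin m → ℝ) : ℝ := ∑ j, c j * (-(s * Real.sin (ph D w j x)))

lemma ph_meas (w : ℝ) (j : Fin k) : Measurable (ph D w j) := by
  unfold ph
  exact (Finset.measurable_sum _ fun i _ => (measurable_pi_apply i).const_mul _).add_const _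

lemma gg_meas (c : Fin k → ℝ) (s w : ℝ) : Measurable (gg D c s w) := by
  unfold gg
  refine Finset.measurable_sum _ fun j _ => ?_
  exact (((Real.measurable_sin.comp (ph_meas D w j)).const_mul s).neg).const_mul _

lemma gg_bd (c : Fin k → ℝ) {s : ℝ} (hs : 0 ≤ s) (w : ℝ) (x : Fin m → ℝ) :
    |gg D c s w x| ≤ (∑ j, |c j|) * s := by
  unfold gg
  refine (Finset.abs_sum_le_sum_abs _ _).trans ?_
  rw [Finset.sum_mul]
  refine Finset.sum_le_sum fun j _ => ?_
  rw [abs_mul, abs_neg, abs_mul, abs_of_nonneg hs]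
  refine mul_le_mul_of_nonneg_left ?_ (abs_nonneg _)
  exact mul_le_of_le_one_right hs (Real.abs_sin_le_one _)

/-- averages of characters with a phase -/
lemma nu_phase (e : Fin m → ℤ) (β : ℝ) :
    ∫ x, cexp (I * ((∑ i, (e i : ℝ) * x i + β : ℝ) : ℂ)) ∂(nu m) = if e = 0 then cexp (I * β) else 0 := by
  have e1 : ∀ x : Fin m → ℝ, cexp (I * ((∑ i, (e i : ℝ) * x i + β : ℝ) : ℂ)) =
      cexp (I * β) * cexp (I * ∑ i, (e i : ℂ) * (x i : ℂ)) := by
    intro x
    rw [← Complex.exp_add]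
    congr 1
    push_cast
    ring
  simp_rw [e1]
  rw [integral_const_mul, nu_char]
  split_ifs <;> simp

lemma nu_cos (e : Fin m → ℤ) (β : ℝ) :
    ∫ x, Real.cos (∑ i, (e i : ℝ) * x i + β) ∂(nu m) = if e = 0 then Real.cos β else 0 := by
  have h := congrArg Complex.re (nu_phase e β)
  have hm : Measurable fun x : Fin m → ℝ => ∑ i, (e i : ℝ) * x i + β :=
    (Finset.measurable_sum _ fun i _ => (measurable_pi_apply i).const_mul _).add_const _
  have hi : Integrable (fun x : Fin m → ℝ => cexp (I * ((∑ i, (e i : ℝ) * x i + β : ℝ) : ℂ))) (nu m) := by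
    refine Integrable.of_bound ?_ 1 (Eventually.of_forall fun x => ?_)
    · exact (Complex.measurable_exp.comp ((Complex.measurable_ofReal.comp hm).const_mul I)).aestronglyMeasurable
    · rw [norm_exp_I_mul_ofReal]
  have e1 : (∫ x, cexp (I * ((∑ i, (e i : ℝ) * x i + β : ℝ) : ℂ)) ∂(nu m)).re =
      ∫ x, (cexp (I * ((∑ i, (e i : ℝ) * x i + β : ℝ) : ℂ))).re ∂(nu m) := by
    have := integral_re hi
    simp only [RCLike.re_to_complex] at this
    exact this.symm
  rw [e1] at h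
  have e2 : ∀ x : ℝ, (cexp (I * (x : ℂ))).re = Real.cos x := fun x => by
    rw [mul_comm, Complex.exp_ofReal_mul_I_re]
  simp_rw [e2] at h
  rw [h]
  split_ifs
  · rw [e2]
  · rfl

lemma nu_sin (e : Fin m → ℤ) (he : e ≠ 0) (β : ℝ) : ∫ x, Real.sin (∑ i, (e i : ℝ) * x i + β) ∂(nu m) = 0 := by
  have h := nu_cos e (β - Real.pi / 2)
  rw [if_neg he] at h
  rw [← h]
  refine integral_congr_ae (Eventually.of_forall fun x => ?_)
  show Real.sin _ = Real.cos _
  rw [← Real.cos_sub_pi_div_two]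
  congr 1
  ring

lemma cos_int (e : Fin m → ℤ) (β : ℝ) : Integrable (fun x => Real.cos (∑ i, (e i : ℝ) * x i + β)) (nu m) := by
  have hm : Measurable fun x : Fin m → ℝ => ∑ i, (e i : ℝ) * x i + β :=
    (Finset.measurable_sum _ fun i _ => (measurable_pi_apply i).const_mul _).add_const _
  refine Integrable.of_bound (Real.measurable_cos.comp hm).aestronglyMeasurable 1 (Eventually.of_forall fun x => ?_)
  rw [Real.norm_eq_abs]
  exact Real.abs_cos_le_one _

variable {D}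

lemma Dat.Ok.cent0 (hD : D.Ok) (c : Fin k → ℝ) (s w : ℝ) : ∫ x, gg D c s w x ∂(nu m) = 0 := by
  unfold gg
  rw [integral_finsetSum]
  · refine Finset.sum_eq_zero fun j _ => ?_
    rw [integral_const_mul, integral_neg, integral_const_mul]
    unfold ph
    rw [nu_sin (D.a j) (hD.nz j)]
    ring
  · intro j _
    refine Integrable.const_mul (Integrable.neg (Integrable.const_mul ?_ _)) _
    refine Integrable.of_bound (Real.measurable_sin.comp (ph_meas D w j)).aestronglyMeasurable 1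
      (Eventually.of_forall fun x => ?_)
    rw [Real.norm_eq_abs]
    exact Real.abs_sin_le_one _

/-- the variance of a summand -/
lemma Dat.Ok.var (hD : D.Ok) (c : Fin k → ℝ) (s w : ℝ) : ∫ x, gg D c s w x ^ 2 ∂(nu m) =
    s ^ 2 / 2 * ∑ j, ∑ j', c j * c j' * (if D.a j = D.a j' then Real.cos ((D.b j - D.b j') * w) else 0) := by
  have e1 : ∀ x, gg D c s w x ^ 2 = ∑ j, ∑ j', (s ^ 2 / 2 * (c j * c j')) *
      (Real.cos (∑ i, ((D.a j - D.a j') i : ℝ) * x i + (D.b j - D.b j') * w) -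
        Real.cos (∑ i, ((D.a j + D.a j') i : ℝ) * x i + (D.b j + D.b j') * w)) := by
    intro x
    unfold gg
    rw [sq, Finset.sum_mul_sum]
    refine Finset.sum_congr rfl fun j _ => Finset.sum_congr rfl fun j' _ => ?_
    have h1 : ∑ i, ((D.a j - D.a j') i : ℝ) * x i + (D.b j - D.b j') * w = ph D w j x - ph D w j' x := by
      unfold ph
      have : ∑ i, (((D.a j - D.a j') i : ℤ) : ℝ) * x i = ∑ i, (D.a j i : ℝ) * x i - ∑ i, (D.a j' i : ℝ) * x i := by
        rw [← Finset.sum_sub_distrib]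
        refine Finset.sum_congr rfl fun i _ => ?_
        rw [Pi.sub_apply]; push_cast; ring
      rw [this]; ring
    have h2 : ∑ i, ((D.a j + D.a j') i : ℝ) * x i + (D.b j + D.b j') * w = ph D w j x + ph D w j' x := by
      unfold ph
      have : ∑ i, (((D.a j + D.a j') i : ℤ) : ℝ) * x i = ∑ i, (D.a j i : ℝ) * x i + ∑ i, (D.a j' i : ℝ) * x i := by
        rw [← Finset.sum_add_distrib]
        refine Finset.sum_congr rfl fun i _ => ?_
        rw [Pi.add_apply]; push_cast; ring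
      rw [this]; ring
    rw [h1, h2, Real.cos_sub, Real.cos_add]
    ring
  simp_rw [e1]
  have hi : ∀ j j', Integrable (fun x => (s ^ 2 / 2 * (c j * c j')) *
      (Real.cos (∑ i, ((D.a j - D.a j') i : ℝ) * x i + (D.b j - D.b j') * w) -
        Real.cos (∑ i, ((D.a j + D.a j') i : ℝ) * x i + (D.b j + D.b j') * w))) (nu m) := fun j j' =>
    ((cos_int _ _).sub (cos_int _ _)).const_mul _
  rw [integral_finsetSum _ (fun j _ => integrable_finset_sum _ fun j' _ => hi j j'), Finset.mul_sum]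
  refine Finset.sum_congr rfl fun j _ => ?_
  rw [integral_finsetSum _ (fun j' _ => hi j j'), Finset.mul_sum]
  refine Finset.sum_congr rfl fun j' _ => ?_
  rw [integral_const_mul, integral_sub (cos_int _ _) (cos_int _ _), nu_cos, nu_cos]
  have h3 : D.a j + D.a j' ≠ 0 := fun h => hD.opp j j' (eq_neg_of_add_eq_zero_left h)
  rw [if_neg h3, sub_zero]
  by_cases h4 : D.a j = D.a j'
  · rw [if_pos h4, if_pos (sub_eq_zero.2 h4)]; ring
  · rw [if_neg h4, if_neg (fun h => h4 (sub_eq_zero.1 h))]; ring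

variable {ι : Type*} [Fintype ι]

lemma Dat.Ok.cent (hD : D.Ok) (c : Fin k → ℝ) {s w : ι → ℝ} (hs : ∀ p, 0 ≤ s p) :
    Cent (fun p => gg D c (s p) (w p)) (fun p => (∑ j, |c j|) * s p) :=
  ⟨fun p => gg_meas D c _ _, fun p x => gg_bd D c (hs p) _ x, fun p => hD.cent0 c _ _⟩

/-! ### characters -/

/-- the sign -/
def sg (s : Bool) : ℤ := if s then 1 else -1

lemma sg_abs (s : Bool) : |sg s| = 1 := by cases s <;> simp [sg]

variable (D)

/-- the characters -/
def ee (w : ι → ℝ) (v : ι × Fin k × Bool) (θ : ι → Fin m → ℝ) : ℂ :=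
  cexp (I * (((sg v.2.2 : ℝ) * ph D (w v.1) v.2.1 (θ v.1) : ℝ) : ℂ))

/-- the coefficients -/
def uu (c : Fin k → ℝ) (s : ι → ℝ) (v : ι × Fin k × Bool) : ℂ :=
  ((c v.2.1 * s v.1 : ℝ) : ℂ) * (-(sg v.2.2 : ℂ) / (2 * I))

lemma ee_meas (w : ι → ℝ) (v : ι × Fin k × Bool) : Measurable (ee D w v) := by
  unfold ee
  exact Complex.measurable_exp.comp ((Complex.measurable_ofReal.comp
    (((ph_meas D (w v.1) v.2.1).comp (measurable_pi_apply v.1)).const_mul _)).const_mul I)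

lemma ee_bd (w : ι → ℝ) (v : ι × Fin k × Bool) (θ : ι → Fin m → ℝ) : ‖ee D w v θ‖ ≤ 1 := by
  unfold ee
  rw [norm_exp_I_mul_ofReal]

lemma rep (c : Fin k → ℝ) (s w : ι → ℝ) (θ : ι → Fin m → ℝ) :
    ((Ys (fun p => gg D c (s p) (w p)) θ : ℝ) : ℂ) = ∑ v : ι × Fin k × Bool, uu c s v * ee D w v θ := by
  unfold Ys gg
  rw [Fintype.sum_prod_type]
  push_cast
  refine Finset.sum_congr rfl fun p _ => ?_
  rw [Fintype.sum_prod_type]
  refine Finset.sum_congr rfl fun j _ => ?_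
  rw [Fintype.sum_bool]
  unfold uu ee sg
  simp only [if_true, Bool.false_eq_true, if_false]
  rw [Complex.sin]
  set X : ℂ := ((ph D (w p) j (θ p) : ℝ) : ℂ) with hX
  have e1 : cexp (I * (((1 : ℤ) : ℝ) * ph D (w p) j (θ p) : ℝ)) = cexp (X * I) := by
    congr 1; push_cast; rw [hX]; ring
  have e2 : cexp (I * (((-1 : ℤ) : ℝ) * ph D (w p) j (θ p) : ℝ)) = cexp (-X * I) := by
    congr 1; push_cast; rw [hX]; ring
  rw [e1, e2]
  push_cast
  have hI : (I : ℂ) ≠ 0 := I_ne_zero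
  field_simp
  rw [Complex.I_sq]
  ring

lemma uu_sum (c : Fin k → ℝ) {s : ι → ℝ} (hs : ∀ p, 0 ≤ s p) :
    ∑ v : ι × Fin k × Bool, ‖uu c s v‖ = (∑ j, |c j|) * ∑ p, s p := by
  rw [Fintype.sum_prod_type, Finset.mul_sum]
  refine Finset.sum_congr rfl fun p _ => ?_
  rw [Fintype.sum_prod_type, Finset.sum_mul]
  refine Finset.sum_congr rfl fun j _ => ?_
  rw [Fintype.sum_bool]
  have h : ∀ b : Bool, ‖uu c s (p, j, b)‖ = |c j| * s p / 2 := by
    intro b
    unfold uu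
    rw [norm_mul, Complex.norm_real, Real.norm_eq_abs, abs_mul, abs_of_nonneg (hs p), norm_div, norm_neg, norm_mul,
      Complex.norm_I]
    have : ‖((sg b : ℤ) : ℂ)‖ = 1 := by cases b <;> simp [sg]
    rw [this]
    simp
    ring
  rw [h, h]
  ring

/-- the exponent of a product of characters -/
def EE [DecidableEq ι] {n : ℕ} (v : Fin n → ι × Fin k × Bool) (p : ι) (i : Fin m) : ℤ :=
  ∑ l, if (v l).1 = p then sg (v l).2.2 * D.a (v l).2.1 i else 0

lemma prod_ee [DecidableEq ι] (w : ι → ℝ) {n : ℕ} (v : Fin n → ι × Fin k × Bool) (θ : ι → Fin m → ℝ) :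
    ∏ l, ee D w (v l) θ = cexp (I * ((∑ l, (sg (v l).2.2 : ℝ) * (D.b (v l).2.1 * w (v l).1) : ℝ) : ℂ)) *
      cexp (I * ∑ p, ∑ i, (EE D v p i : ℂ) * (θ p i : ℂ)) := by
  unfold ee
  rw [← Complex.exp_sum, ← Complex.exp_add]
  congr 1
  rw [← Finset.mul_sum, ← mul_add]
  congr 1
  have h1 : ∑ p, ∑ i, (EE D v p i : ℂ) * (θ p i : ℂ) =
      ((∑ l, ∑ i, ((sg (v l).2.2 * D.a (v l).2.1 i : ℤ) : ℝ) * θ (v l).1 i : ℝ) : ℂ) := by
    have h2 : ∀ p i, (EE D v p i : ℂ) * (θ p i : ℂ) =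
        ∑ l, if (v l).1 = p then ((sg (v l).2.2 * D.a (v l).2.1 i : ℤ) : ℂ) * (θ p i : ℂ) else 0 := by
      intro p i
      unfold EE
      push_cast
      rw [Finset.sum_mul]
      refine Finset.sum_congr rfl fun l _ => ?_
      split_ifs <;> simp
    simp_rw [h2]
    have h3 : ∀ p, ∑ i, ∑ l, (if (v l).1 = p then ((sg (v l).2.2 * D.a (v l).2.1 i : ℤ) : ℂ) * (θ p i : ℂ) else 0) =
        ∑ l, ∑ i, (if (v l).1 = p then ((sg (v l).2.2 * D.a (v l).2.1 i : ℤ) : ℂ) * (θ p i : ℂ) else 0) := fun p =>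
      Finset.sum_comm
    simp_rw [h3]
    rw [Finset.sum_comm]
    push_cast
    refine Finset.sum_congr rfl fun l _ => ?_
    rw [Finset.sum_comm]
    refine Finset.sum_congr rfl fun i _ => ?_
    rw [Finset.sum_ite_eq]
    simp
  rw [h1, ← Complex.ofReal_add, ← Complex.ofReal_sum]
  congr 1
  rw [← Finset.sum_add_distrib]
  refine Finset.sum_congr rfl fun l _ => ?_
  unfold ph
  rw [mul_add, Finset.mul_sum, add_comm]
  congr 1
  refine Finset.sum_congr rfl fun i _ => ?_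
  push_cast
  ring

lemma EE_bd [DecidableEq ι] {A : ℕ} (hA : ∀ j i, |D.a j i| ≤ A) {n : ℕ} (v : Fin n → ι × Fin k × Bool) (i : Fin m) :
    ∑ p, |EE D v p i| ≤ n * A := by
  have h1 : ∀ p, |EE D v p i| ≤ ∑ l, if (v l).1 = p then |D.a (v l).2.1 i| else 0 := by
    intro p
    unfold EE
    refine (Finset.abs_sum_le_sum_abs _ _).trans (Finset.sum_le_sum fun l _ => ?_)
    split_ifs
    · rw [abs_mul, sg_abs, one_mul]
    · simp
  refine (Finset.sum_le_sum fun p _ => h1 p).trans ?_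
  rw [Finset.sum_comm]
  have h2 : ∀ l, ∑ p, (if (v l).1 = p then |D.a (v l).2.1 i| else 0) = |D.a (v l).2.1 i| := by
    intro l
    rw [Finset.sum_ite_eq]; simp
  simp_rw [h2]
  calc ∑ l, |D.a (v l).2.1 i| ≤ ∑ _l : Fin n, (A : ℤ) := Finset.sum_le_sum fun l _ => hA _ _
    _ = n * A := by simp

/-- the points on the tori -/
def Th (φ : Fin m → ℝ → ℝ) (w : ι → ℝ) (t : ℝ) : ι → Fin m → ℝ := fun p i => w p * φ i t

/-- no resonance up to the order `M`, with error `η` -/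
def NR (μ₁ : Measure ℝ) (φ : Fin m → ℝ → ℝ) (w : ι → ℝ) (M : ℕ) (η : ℝ) : Prop :=
  ∀ E : ι → Fin m → ℤ, E ≠ 0 → (∀ i, ∑ p, |E p i| ≤ M) →
    ‖∫ t, cexp (I * ∑ p, ∑ i, (E p i : ℂ) * ((w p * φ i t : ℝ) : ℂ)) ∂μ₁‖ ≤ η

/-- **comparison of the sum over the primes with the model** -/
theorem main_cmp (μ₁ : Measure ℝ) [IsProbabilityMeasure μ₁] {φ : Fin m → ℝ → ℝ} (hφ : ∀ i, Measurable (φ i))
    (c : Fin k → ℝ) {s w : ι → ℝ} {A : ℕ} (hA : ∀ j i, |D.a j i| ≤ A) {K : ℕ} (hK : Even K)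
    {η : ℝ} (hη : 0 ≤ η) (hNR : NR μ₁ φ w (K * A) η) (z : ℝ) :
    ‖(∫ t, cexp (I * ((z * Ys (fun p => gg D c (s p) (w p)) (Th φ w t) : ℝ) : ℂ)) ∂μ₁) -
      ∫ θ, cexp (I * ((z * Ys (fun p => gg D c (s p) (w p)) θ : ℝ) : ℂ)) ∂(mu ι m)‖ ≤
      η * (K + 1) * (1 + |z| * ∑ v : ι × Fin k × Bool, ‖uu c s v‖) ^ K +
      2 * (|z| ^ K / (K.factorial : ℝ) * ∫ θ, Ys (fun p => gg D c (s p) (w p)) θ ^ K ∂(mu ι m)) := by
  classical
  have hTh : Measurable (Th φ w) := by
    refine measurable_pi_lambda _ fun p => measurable_pi_lambda _ fun i => ?_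
    exact (hφ i).const_mul _
  have hYm : Measurable (Ys (fun p => gg D c (s p) (w p))) :=
    Finset.measurable_sum _ fun p _ => (gg_meas D c _ _).comp (measurable_pi_apply p)
  refine char_cmp μ₁ (mu ι m) (e₁ := fun v t => ee D w v (Th φ w t)) (e₂ := ee D w)
    (fun v => (ee_meas D w v).comp hTh) (ee_meas D w) (fun v t => ee_bd D w v _) (ee_bd D w)
    (uu c s) (hYm.comp hTh) hYm (fun t => rep D c s w _) (rep D c s w) hK hη (fun n hn v => ?_) z
  have hAn : ∀ i, ∑ p, |EE D v p i| ≤ ((K * A : ℕ) : ℤ) := fun i => (EE_bd D hA v i).trans (by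
    push_cast
    exact mul_le_mul_of_nonneg_right (by exact_mod_cast hn) (by positivity))
  have e1 : ∀ θ, ∏ l, ee D w (v l) θ = cexp (I * ((∑ l, (sg (v l).2.2 : ℝ) * (D.b (v l).2.1 * w (v l).1) : ℝ) : ℂ)) *
      cexp (I * ∑ p, ∑ i, (EE D v p i : ℂ) * (θ p i : ℂ)) := prod_ee D w v
  simp_rw [e1]
  rw [integral_const_mul, integral_const_mul, ← mul_sub, norm_mul, norm_exp_I_mul_ofReal, one_mul, mu_char]
  split_ifs with h0
  · have h1 : ∀ p i, EE D v p i = 0 := fun p i => by rw [h0]; rfl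
    simp [h1, hη]
  · rw [sub_zero]
    exact hNR _ h0 hAn

end

end Pool.Agent.Q173.JD
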