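import Pool.Agent.Q173.JD.Pol

set_option autoImplicit false

/-! # Generic leading coefficients -/

namespace Pool.Agent.Q173.JD

open Filter Topology MeasureTheory Complex Set
open Pool.Agent.Q173.JL (Dd)
open Pool.Agent.Y745.SW (Px xT)

noncomputable section

/-! ### slabs have small measure -/

lemma slab1 {a c ε : ℝ} (ha : a ≠ 0) : volume {x : ℝ | |a * x + c| < ε} ≤ ENNReal.ofReal (2 * ε / |a|) := by
  have hsub : {x : ℝ | |a * x + c| < ε} ⊆ Set.Ioo (-c / a - ε / |a|) (-c / a + ε / |a|) := by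
    intro x hx
    have hx' : |a * x + c| < ε := hx
    have h1 : |x - -c / a| < ε / |a| := by
      rw [lt_div_iff₀ (abs_pos.2 ha), ← abs_mul]
      have : (x - -c / a) * a = a * x + c := by field_simp; ring
      rwa [this]
    have h2 := abs_lt.1 h1
    exact ⟨by linarith, by linarith⟩
  refine (measure_mono hsub).trans ?_
  rw [Real.volume_Ioo]
  refine ENNReal.ofReal_le_ofReal (le_of_eq ?_)
  ring

/-- the slab in a cube -/
lemma slab {k : ℕ} (L : Fin k → ℝ) (i : Fin k) (hL : L i ≠ 0) {R ε : ℝ} :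
    volume {x : Fin k → ℝ | (∀ j, |x j| ≤ R) ∧ |∑ j, L j * x j| < ε} ≤
      ENNReal.ofReal (2 * ε / |L i|) * ENNReal.ofReal (2 * R) ^ (k - 1) := by
  obtain ⟨k, rfl⟩ : ∃ k', k = k' + 1 := ⟨k - 1, by have := i.pos; omega⟩
  have hmp := volume_preserving_piFinSuccAbove (fun _ : Fin (k + 1) => ℝ) i
  set S : Set (ℝ × (Fin k → ℝ)) := {z | |L i * z.1 + ∑ j, L (i.succAbove j) * z.2 j| < ε} ∩
    (Set.univ ×ˢ Set.Icc (fun _ => -R) (fun _ => R)) with hS
  have hSm : MeasurableSet S := by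
    refine MeasurableSet.inter ?_ (MeasurableSet.univ.prod measurableSet_Icc)
    exact measurableSet_lt (by fun_prop) measurable_const
  have h1 : {x : Fin (k + 1) → ℝ | (∀ j, |x j| ≤ R) ∧ |∑ j, L j * x j| < ε} ⊆
      (MeasurableEquiv.piFinSuccAbove (fun _ : Fin (k + 1) => ℝ) i) ⁻¹' S := by
    rintro x ⟨hx1, hx2⟩
    refine ⟨?_, Set.mem_univ _, ?_⟩
    · show |L i * x i + ∑ j, L (i.succAbove j) * x (i.succAbove j)| < ε
      rw [← Fin.sum_univ_succAbove (fun j => L j * x j) i]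
      exact hx2
    · constructor
      · intro j
        exact (abs_le.1 (hx1 (i.succAbove j))).1
      · intro j
        exact (abs_le.1 (hx1 (i.succAbove j))).2
  refine (measure_mono h1).trans ?_
  rw [hmp.measure_preimage hSm.nullMeasurableSet, Measure.volume_eq_prod, Measure.prod_apply_symm hSm]
  have h2 : ∀ y : Fin k → ℝ, volume ((fun x : ℝ => (x, y)) ⁻¹' S) ≤
      (Set.Icc (fun _ : Fin k => -R) (fun _ => R)).indicator (fun _ => ENNReal.ofReal (2 * ε / |L i|)) y := by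
    intro y
    by_cases hy : y ∈ Set.Icc (fun _ : Fin k => -R) (fun _ => R)
    · rw [Set.indicator_of_mem hy]
      refine (measure_mono ?_).trans (slab1 (a := L i) (c := ∑ j, L (i.succAbove j) * y j) (ε := ε) hL)
      rintro x ⟨hx, -⟩
      exact hx
    · rw [Set.indicator_of_notMem hy]
      have : (fun x : ℝ => (x, y)) ⁻¹' S = ∅ := by
        ext x
        simp only [Set.mem_preimage, Set.mem_empty_iff_false, iff_false]
        rintro ⟨-, -, h⟩
        exact hy h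
      rw [this, measure_empty]
  refine (lintegral_mono h2).trans ?_
  rw [lintegral_indicator measurableSet_Icc, setLIntegral_const, Real.volume_Icc_pi]
  refine mul_le_mul' le_rfl ?_
  rw [Finset.prod_const, Finset.card_univ, Fintype.card_fin, Nat.add_sub_cancel]
  refine pow_le_pow_left' (ENNReal.ofReal_le_ofReal (by linarith)) _

/-! ### linear forms in logarithms with generic coefficients -/

lemma log_sep {a b : ℕ} (ha : 0 < a) (hab : a < b) {N : ℝ} (hbN : (b : ℝ) ≤ N) : N⁻¹ ≤ Real.log b - Real.log a := by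
  have ha' : (0 : ℝ) < a := by exact_mod_cast ha
  have hb' : (0 : ℝ) < b := by exact_mod_cast ha.trans hab
  rw [← Real.log_div hb'.ne' ha'.ne']
  have h1 := Real.one_sub_inv_le_log_of_pos (div_pos hb' ha')
  rw [inv_div] at h1
  have h2 : (a : ℝ) + 1 ≤ b := by exact_mod_cast hab
  have h3 : (b : ℝ)⁻¹ ≤ 1 - a / b := by
    rw [one_sub_div hb'.ne', inv_eq_one_div]
    exact div_le_div_of_nonneg_right (by linarith) hb'.le
  have h4 : N⁻¹ ≤ (b : ℝ)⁻¹ := inv_anti₀ hb' hbN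
  linarith

lemma log_sep' {a b : ℕ} (ha : 0 < a) (hb : 0 < b) (hab : a ≠ b) {N : ℝ} (haN : (a : ℝ) ≤ N) (hbN : (b : ℝ) ≤ N) :
    N⁻¹ ≤ |Real.log a - Real.log b| := by
  rcases lt_or_gt_of_ne hab with h | h
  · rw [abs_sub_comm]
    exact (log_sep ha h hbN).trans (le_abs_self _)
  · exact (log_sep hb h haN).trans (le_abs_self _)

lemma lin_rep {y : ℝ} {M : ℕ} (hy : 1 ≤ ⌊y⌋₊) (E : ↥(SS y) → ℤ) (hM : ∑ p, |E p| ≤ M) :
    ∃ u v : ℕ, 1 ≤ u ∧ 1 ≤ v ∧ u ≤ ⌊y⌋₊ ^ M ∧ v ≤ ⌊y⌋₊ ^ M ∧ (E ≠ 0 → u ≠ v) ∧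
      ∑ p, (E p : ℝ) * wP y p = Real.log u - Real.log v := by
  classical
  set f : (↥(SS y) → ℕ) → ℕ := fun e => ∏ p : ↥(SS y), (p : ℕ) ^ e p with hf
  have hpos : ∀ e, 0 < f e := fun e => Finset.prod_pos fun p _ => pow_pos (mem_SS p.2).1.pos _
  have hlog : ∀ e, Real.log (f e) = ∑ p, (e p : ℝ) * wP y p := by
    intro e
    simp only [hf]
    push_cast
    rw [Real.log_prod (fun p _ => by
      have := (mem_SS p.2).1.pos
      positivity)]
    refine Finset.sum_congr rfl fun p _ => ?_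
    rw [Real.log_pow]; rfl
  have hfac : ∀ e (q : ↥(SS y)), (f e).factorization (q : ℕ) = e q := by
    intro e q
    simp only [hf]
    rw [Nat.factorization_prod (fun p _ => pow_ne_zero _ (mem_SS p.2).1.ne_zero), Finsupp.finsetSum_apply]
    have h1 : ∀ p : ↥(SS y), ((p : ℕ) ^ e p).factorization (q : ℕ) = if p = q then e p else 0 := by
      intro p
      rw [(mem_SS p.2).1.factorization_pow, Finsupp.single_apply]
      by_cases h : p = q
      · rw [if_pos h, if_pos (by rw [h])]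
      · rw [if_neg h, if_neg (fun h' => h (Subtype.ext h'))]
    simp_rw [h1]
    rw [Finset.sum_ite_eq']
    simp
  have hle : ∀ e, (∀ p, (e p : ℤ) ≤ |E p|) → f e ≤ ⌊y⌋₊ ^ M := by
    intro e he
    have h1 : f e ≤ ⌊y⌋₊ ^ (∑ p, e p) := by
      rw [← Finset.prod_pow_eq_pow_sum]
      exact Finset.prod_le_prod' fun p _ => Nat.pow_le_pow_left (mem_SS p.2).2 _
    have h2 : ∑ p, e p ≤ M := by
      have : ((∑ p, e p : ℕ) : ℤ) ≤ M := by
        push_cast
        exact (Finset.sum_le_sum fun p _ => he p).trans hM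
      exact_mod_cast this
    exact h1.trans (Nat.pow_le_pow_right hy h2)
  refine ⟨f (fun p => (E p).toNat), f (fun p => (-E p).toNat), hpos _, hpos _, hle _ fun p => ?_, hle _ fun p => ?_,
    fun hE h => hE ?_, ?_⟩
  · rw [Int.toNat_eq_max]; exact max_le (le_abs_self _) (abs_nonneg _)
  · rw [Int.toNat_eq_max]; exact max_le (neg_le_abs _) (abs_nonneg _)
  · funext q
    have h1 := hfac (fun p => (E p).toNat) q
    have h2 := hfac (fun p => (-E p).toNat) q
    rw [← h, h1] at h2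
    have := Int.toNat_sub_toNat_neg (E q)
    rw [← this, h2]
    simp
  · rw [hlog, hlog, ← Finset.sum_sub_distrib]
    refine Finset.sum_congr rfl fun p _ => ?_
    have h3 : (E p : ℝ) = ((E p).toNat : ℝ) - ((-E p).toNat : ℝ) := by
      have := Int.toNat_sub_toNat_neg (E p)
      exact_mod_cast this.symm
    rw [← sub_mul, ← h3]

/-- the coefficients are generic -/
def Genc {k : ℕ} (x : Fin k → ℝ) : Prop := ∀ M : ℕ, ∀ᶠ X : ℕ in atTop, ∀ n n' : Fin k → ℕ,
  (∀ i, 1 ≤ n i ∧ n i ≤ X ^ M) → (∀ i, 1 ≤ n' i ∧ n' i ≤ X ^ M) → (∃ i, n i ≠ n' i) →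
  ((X : ℝ) ^ (2 * k * M + M + 2))⁻¹ ≤ |∑ i, (Real.log (n i) - Real.log (n' i)) * x i|

/-- the pairs of integer vectors -/
def FF (k M X : ℕ) : Finset ((Fin k → ℕ) × (Fin k → ℕ)) :=
  ((Fintype.piFinset fun _ => Finset.Icc 1 (X ^ M)) ×ˢ (Fintype.piFinset fun _ => Finset.Icc 1 (X ^ M))).filter
    fun z => ∃ i, z.1 i ≠ z.2 i

lemma FF_card (k M X : ℕ) : (FF k M X).card ≤ X ^ (2 * k * M) := by
  unfold FF
  refine (Finset.card_filter_le _ _).trans ?_
  rw [Finset.card_product, Fintype.card_piFinset]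
  simp only [Nat.card_Icc, Nat.add_sub_cancel, Finset.prod_const, Finset.card_univ, Fintype.card_fin]
  rw [← pow_mul, ← pow_add]
  refine le_of_eq ?_
  congr 1; ring

theorem ae_gen (k : ℕ) : ∀ᵐ x : Fin k → ℝ, Genc x := by
  unfold Genc
  rw [ae_all_iff]
  intro M
  have key : ∀ R : ℕ, ∀ᵐ x : Fin k → ℝ, (∀ j, |x j| ≤ R) → ∀ᶠ X : ℕ in atTop, ∀ n n' : Fin k → ℕ,
      (∀ i, 1 ≤ n i ∧ n i ≤ X ^ M) → (∀ i, 1 ≤ n' i ∧ n' i ≤ X ^ M) → (∃ i, n i ≠ n' i) →
      ((X : ℝ) ^ (2 * k * M + M + 2))⁻¹ ≤ |∑ i, (Real.log (n i) - Real.log (n' i)) * x i| := by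
    intro R
    set S : ℕ → Set (Fin k → ℝ) := fun X => ⋃ z ∈ FF k M (X + 1), {x : Fin k → ℝ | (∀ j, |x j| ≤ (R : ℝ)) ∧
      |∑ i, (Real.log (z.1 i) - Real.log (z.2 i)) * x i| < (((X + 1 : ℕ) : ℝ) ^ (2 * k * M + M + 2))⁻¹} with hS
    have hSm : ∀ X, volume (S X) ≤ ENNReal.ofReal (2 * (2 * R) ^ (k - 1) * (((X + 1 : ℕ) : ℝ) ^ 2)⁻¹) := by
      intro X
      set Y : ℝ := ((X + 1 : ℕ) : ℝ) with hY
      have hY0 : 0 < Y := by rw [hY]; positivity
      have h1 : ∀ z ∈ FF k M (X + 1), volume {x : Fin k → ℝ | (∀ j, |x j| ≤ (R : ℝ)) ∧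
          |∑ i, (Real.log (z.1 i) - Real.log (z.2 i)) * x i| < (Y ^ (2 * k * M + M + 2))⁻¹} ≤
          ENNReal.ofReal (2 * (Y ^ (2 * k * M + M + 2))⁻¹ * Y ^ M) * ENNReal.ofReal (2 * R) ^ (k - 1) := by
        rintro ⟨n, n'⟩ hz
        simp only [FF, Finset.mem_filter, Finset.mem_product, Fintype.mem_piFinset, Finset.mem_Icc] at hz
        obtain ⟨⟨h2, h3⟩, i, hi⟩ := hz
        have hb1 : (n i : ℝ) ≤ Y ^ M := by rw [hY]; exact_mod_cast (h2 i).2
        have hb2 : (n' i : ℝ) ≤ Y ^ M := by rw [hY]; exact_mod_cast (h3 i).2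
        have h4 := log_sep' (h2 i).1 (h3 i).1 hi hb1 hb2
        have hYM : 0 < (Y ^ M)⁻¹ := by positivity
        have h5 : 0 < |Real.log (n i) - Real.log (n' i)| := lt_of_lt_of_le hYM h4
        refine (slab (fun i => Real.log (n i) - Real.log (n' i)) i (abs_pos.1 h5)).trans ?_
        refine mul_le_mul' (ENNReal.ofReal_le_ofReal ?_) le_rfl
        rw [div_le_iff₀ h5]
        have h6 : 1 ≤ Y ^ M * |Real.log (n i) - Real.log (n' i)| := by
          rwa [inv_le_iff_one_le_mul₀' (by positivity)] at h4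
        have h7 : 0 < 2 * (Y ^ (2 * k * M + M + 2))⁻¹ := by positivity
        calc 2 * (Y ^ (2 * k * M + M + 2))⁻¹ = 2 * (Y ^ (2 * k * M + M + 2))⁻¹ * 1 := by ring
          _ ≤ 2 * (Y ^ (2 * k * M + M + 2))⁻¹ * (Y ^ M * |Real.log (n i) - Real.log (n' i)|) :=
            mul_le_mul_of_nonneg_left h6 h7.le
          _ = _ := by ring
      refine (measure_biUnion_finset_le _ _).trans ((Finset.sum_le_sum h1).trans ?_)
      rw [Finset.sum_const, nsmul_eq_mul]
      have h8 : ((FF k M (X + 1)).card : ENNReal) ≤ ENNReal.ofReal (Y ^ (2 * k * M)) := by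
        rw [← ENNReal.ofReal_natCast]
        refine ENNReal.ofReal_le_ofReal ?_
        rw [hY]
        exact_mod_cast FF_card k M (X + 1)
      refine (mul_le_mul' h8 le_rfl).trans ?_
      rw [← ENNReal.ofReal_pow (by positivity), ← ENNReal.ofReal_mul (by positivity), ← ENNReal.ofReal_mul (by positivity)]
      refine ENNReal.ofReal_le_ofReal (le_of_eq ?_)
      rw [show 2 * k * M + M + 2 = 2 * k * M + (M + 2) by ring, pow_add Y (2 * k * M), pow_add Y M]
      field_simp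
    have hsum : ∑' X, volume (S X) ≠ ⊤ := by
      have h2 : Summable fun X : ℕ => 2 * (2 * (R : ℝ)) ^ (k - 1) * (((X + 1 : ℕ) : ℝ) ^ 2)⁻¹ := by
        refine Summable.mul_left _ ?_
        exact (summable_nat_add_iff 1).2 (Real.summable_nat_pow_inv.2 (by norm_num : 1 < 2))
      refine ne_top_of_le_ne_top ?_ (ENNReal.tsum_le_tsum hSm)
      rw [← ENNReal.ofReal_tsum_of_nonneg (fun X => by positivity) h2]
      exact ENNReal.ofReal_ne_top
    filter_upwards [ae_eventually_notMem hsum] with x hx hR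
    rw [eventually_atTop] at hx ⊢
    obtain ⟨X0, hX0⟩ := hx
    refine ⟨X0 + 1, fun X hX n n' h1 h2 h3 => ?_⟩
    obtain ⟨X', rfl⟩ : ∃ X', X = X' + 1 := ⟨X - 1, by omega⟩
    have h4 := hX0 X' (by omega)
    by_contra hcon
    push Not at hcon
    apply h4
    simp only [hS, Set.mem_iUnion, Set.mem_ofPred_eq]
    refine ⟨(n, n'), ?_, hR, hcon⟩
    simp only [FF, Finset.mem_filter, Finset.mem_product, Fintype.mem_piFinset, Finset.mem_Icc]
    exact ⟨⟨h1, h2⟩, h3⟩
  rw [← ae_all_iff] at key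
  filter_upwards [key] with x hx
  obtain ⟨R, hR⟩ := exists_nat_ge (∑ j, |x j|)
  refine hx R fun j => ?_
  exact (Finset.single_le_sum (f := fun j => |x j|) (fun j _ => abs_nonneg _) (Finset.mem_univ j)).trans hR

/-! ### polynomials with generic leading coefficients -/

lemma xT_tendsto : Tendsto xT atTop atTop := by
  have h1 : Tendsto (fun y : ℝ => y / Real.log y) atTop atTop := by
    have h2 : Tendsto (fun y : ℝ => Real.sqrt y / 2) atTop atTop :=
      (Real.tendsto_sqrt_atTop).atTop_div_const (by norm_num)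
    refine tendsto_atTop_mono' _ ?_ h2
    filter_upwards [eventually_gt_atTop 1] with y hy
    have hy0 : 0 < y := by linarith
    have hs : 0 < Real.sqrt y := Real.sqrt_pos.2 hy0
    have hl : 0 < Real.log y := Real.log_pos hy
    have h3 := Real.log_le_sub_one_of_pos hs
    rw [Real.log_sqrt hy0.le] at h3
    rw [le_div_iff₀ hl]
    nlinarith [Real.mul_self_sqrt hy0.le]
  exact Real.tendsto_exp_atTop.comp (h1.comp Real.tendsto_log_atTop)

lemma osc_abs {m : ℕ} (lam : Fin m → ℝ) (i₀ : Fin m) {ρ T : ℝ} (hρ : 0 < ρ) (h0 : ρ ≤ |lam i₀|)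
    (h1 : ∀ i, i₀ < i → lam i = 0) (h2 : ∀ i, |lam i| ≤ ρ⁻¹) (hT1 : 1 ≤ T) (hT : 2 * m ^ 3 * ρ⁻¹ ^ 2 ≤ T) :
    ‖∫ t in T..2 * T, cexp (I * ((∑ i, lam i * t ^ ((i : ℕ) + 1) : ℝ) : ℂ))‖ ≤ 8 * ρ⁻¹ := by
  rcases le_or_gt 0 (lam i₀) with h | h
  · rw [abs_of_nonneg h] at h0
    exact osc_top lam i₀ hρ h0 h1 h2 hT1 hT
  · rw [abs_of_neg h] at h0
    have h9 := osc_top (fun i => -lam i) i₀ hρ h0 (fun i hi => by rw [h1 i hi, neg_zero])
      (fun i => by rw [abs_neg]; exact h2 i) hT1 hT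
    have e : ∀ t : ℝ, ∑ i, -lam i * t ^ ((i : ℕ) + 1) = -∑ i, lam i * t ^ ((i : ℕ) + 1) := fun t => by
      rw [← Finset.sum_neg_distrib]
      exact Finset.sum_congr rfl fun i _ => by ring
    simp_rw [e] at h9
    rwa [Pool.Agent.Helper276.VdC.norm_integral_conj] at h9

theorem nrc_gen {k e : ℕ} (C : Fin k → Fin (e + 1) → ℝ) {x : Fin k → ℝ} (hx : Genc x)
    (hC : ∀ i, C i (Fin.last e) = x i) :
    Nrc (fun (i : Fin k) (t : ℝ) => ∑ l : Fin (e + 1), C i l * t ^ ((l : ℕ) + 1)) := by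
  refine ⟨8, 1, by norm_num, one_pos, fun M => ⟨2 * k * M + M + 2 + M + 1, ?_⟩⟩
  set b : ℕ := 2 * k * M + M + 2 with hb
  set Cs : ℝ := ∑ i, ∑ l, |C i l| with hCs
  have hCs0 : 0 ≤ Cs := Finset.sum_nonneg fun i _ => Finset.sum_nonneg fun l _ => abs_nonneg _
  have hxt : Tendsto (fun T => ⌊xT T⌋₊) atTop atTop := tendsto_nat_floor_atTop.comp xT_tendsto
  filter_upwards [hxt.eventually (hx M), (tendsto_natCast_atTop_atTop.comp hxt).eventually_ge_atTop (max Cs (2 * ((e + 1 : ℕ) : ℝ) ^ 3)),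
    xT_pow (2 * (b + M + 1) + 1) one_pos, Pool.Agent.Y41.SW.N_bound 1] with T h1 h2 h3 h4 E hE hM
  obtain ⟨hx1, -, hT1, -⟩ := h4
  have hT0 : 0 < T := by linarith
  simp only [Function.comp_apply] at h2
  set X : ℕ := ⌊xT T⌋₊ with hX
  have hXR : (1 : ℝ) ≤ X := by exact_mod_cast hx1
  have hX0 : (0 : ℝ) < X := by linarith
  have hxf : (X : ℝ) ≤ xT T := Nat.floor_le (Real.exp_pos _).le
  -- the integers
  choose n n' g1 g2 g3 g4 g5 g6 using fun i => lin_rep hx1 (fun p => E p i) (hM i)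
  obtain ⟨i₁, hi₁⟩ : ∃ i, (fun p => E p i) ≠ 0 := by
    obtain ⟨p, hp⟩ := Function.ne_iff.1 hE
    obtain ⟨i, hi⟩ := Function.ne_iff.1 hp
    exact ⟨i, fun h => hi (congrFun h p)⟩
  have hM1 : 1 ≤ M := by
    by_contra hM0
    have hM0' : M = 0 := by omega
    apply hi₁
    funext p
    have h5 := hM i₁
    rw [hM0', Nat.cast_zero] at h5
    have h6 : |E p i₁| ≤ 0 := (Finset.single_le_sum (f := fun p => |E p i₁|) (fun _ _ => abs_nonneg _) (Finset.mem_univ p)).trans h5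
    exact abs_nonpos_iff.1 h6
  have hlow := h1 n n' (fun i => ⟨g1 i, g3 i⟩) (fun i => ⟨g2 i, g4 i⟩) ⟨i₁, g5 i₁ hi₁⟩
  -- the polynomial
  set lam : Fin (e + 1) → ℝ := fun l => ∑ i, (∑ p, (E p i : ℝ) * wP (xT T) p) * C i l with hlam
  have e1 : ∀ t : ℝ, ∑ p, ∑ i, (E p i : ℂ) * ((wP (xT T) p * (∑ l : Fin (e + 1), C i l * t ^ ((l : ℕ) + 1)) : ℝ) : ℂ) =
      ((∑ l, lam l * t ^ ((l : ℕ) + 1) : ℝ) : ℂ) := by
    intro t
    have e2 : ∑ l, lam l * t ^ ((l : ℕ) + 1) = ∑ p, ∑ i, (E p i : ℝ) * (wP (xT T) p * ∑ l : Fin (e + 1), C i l * t ^ ((l : ℕ) + 1)) := by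
      simp only [hlam]
      rw [Finset.sum_comm (s := Finset.univ) (t := Finset.univ) (f := fun p i => (E p i : ℝ) * (wP (xT T) p * ∑ l : Fin (e + 1), C i l * t ^ ((l : ℕ) + 1)))]
      simp_rw [Finset.sum_mul, Finset.mul_sum]
      rw [Finset.sum_comm]
      refine Finset.sum_congr rfl fun i _ => ?_
      rw [Finset.sum_comm]
      refine Finset.sum_congr rfl fun p _ => Finset.sum_congr rfl fun l _ => ?_
      ring
    rw [e2]
    push_cast
    rfl
  simp_rw [e1]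
  rw [muT_int hT0, norm_smul, Real.norm_eq_abs, abs_of_pos (inv_pos.2 hT0)]
  set ρ : ℝ := ((X : ℝ) ^ (b + M + 1))⁻¹ with hρ
  have hρ0 : 0 < ρ := by positivity
  have htop : ρ ≤ |lam (Fin.last e)| := by
    have : lam (Fin.last e) = ∑ i, (Real.log (n i) - Real.log (n' i)) * x i := by
      simp only [hlam, hC, g6]
    rw [this]
    refine le_trans ?_ hlow
    exact inv_anti₀ (by positivity) (pow_le_pow_right₀ hXR (by omega))
  have hL : ∀ i, |∑ p, (E p i : ℝ) * wP (xT T) p| ≤ (X : ℝ) ^ M := by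
    intro i
    rw [g6 i]
    have hlogle : ∀ m : ℕ, 1 ≤ m → m ≤ X ^ M → 0 ≤ Real.log m ∧ Real.log m ≤ (X : ℝ) ^ M := by
      intro m hm1 hm2
      refine ⟨Real.log_natCast_nonneg _, ?_⟩
      have hm0 : (0 : ℝ) < m := by exact_mod_cast hm1
      have : (m : ℝ) ≤ (X : ℝ) ^ M := by exact_mod_cast hm2
      have := Real.log_le_sub_one_of_pos hm0
      linarith
    have a1 := hlogle (n i) (g1 i) (g3 i)
    have a2 := hlogle (n' i) (g2 i) (g4 i)
    rw [abs_le]
    constructor <;> linarith [a1.1, a1.2, a2.1, a2.2]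
  have hup : ∀ l, |lam l| ≤ ρ⁻¹ := by
    intro l
    rw [hρ, inv_inv]
    calc |lam l| ≤ ∑ i, (X : ℝ) ^ M * |C i l| := by
          refine (Finset.abs_sum_le_sum_abs _ _).trans (Finset.sum_le_sum fun i _ => ?_)
          rw [abs_mul]
          exact mul_le_mul_of_nonneg_right (hL i) (abs_nonneg _)
      _ = (X : ℝ) ^ M * ∑ i, |C i l| := by rw [Finset.mul_sum]
      _ ≤ (X : ℝ) ^ M * Cs := by
          refine mul_le_mul_of_nonneg_left ?_ (by positivity)
          exact Finset.sum_le_sum fun i _ => Finset.single_le_sum (f := fun l => |C i l|) (fun _ _ => abs_nonneg _) (Finset.mem_univ l)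
      _ ≤ (X : ℝ) ^ M * X := mul_le_mul_of_nonneg_left ((le_max_left _ _).trans h2) (by positivity)
      _ = (X : ℝ) ^ (M + 1) := by rw [pow_succ]
      _ ≤ (X : ℝ) ^ (b + M + 1) := pow_le_pow_right₀ hXR (by omega)
  have hT2 : 2 * ((e + 1 : ℕ) : ℝ) ^ 3 * ρ⁻¹ ^ 2 ≤ T := by
    rw [hρ, inv_inv, ← pow_mul]
    calc 2 * ((e + 1 : ℕ) : ℝ) ^ 3 * (X : ℝ) ^ ((b + M + 1) * 2) ≤ X * (X : ℝ) ^ ((b + M + 1) * 2) :=
          mul_le_mul_of_nonneg_right ((le_max_right _ _).trans h2) (by positivity)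
      _ = (X : ℝ) ^ (2 * (b + M + 1) + 1) := by rw [← pow_succ']; congr 1; ring
      _ ≤ xT T ^ (2 * (b + M + 1) + 1) := pow_le_pow_left₀ hX0.le hxf _
      _ ≤ T := by rw [Real.rpow_one] at h3; exact h3
  have h5 := osc_abs lam (Fin.last e) hρ0 htop (fun i hi => absurd hi (not_lt.2 (Fin.le_last i))) hup hT1.le hT2
  have hpow : (X : ℝ) ^ (b + M + 1) ≤ ((X : ℝ) ^ M) ^ (b + M + 1) := by
    refine pow_le_pow_left₀ hX0.le ?_ _
    calc (X : ℝ) = (X : ℝ) ^ 1 := (pow_one _).symm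
      _ ≤ (X : ℝ) ^ M := pow_le_pow_right₀ hXR hM1
  rw [hρ, inv_inv] at h5
  rw [Real.rpow_neg_one, mul_comm]
  exact mul_le_mul_of_nonneg_right (h5.trans (by linarith)) (inv_pos.2 hT0).le

/-- **polynomials with generic leading coefficients** -/
theorem gen_char {k : ℕ} {d : ℕ} (hd : 1 ≤ d) {x : Fin k → ℝ} (hx : Genc x) (hpos : ∀ j, 0 < x j)
    (r : Fin k → Polynomial ℝ) (hr : ∀ j, (r j).degree < d) (c : Fin k → ℝ) :
    Tendsto (fun T => ∫ t, cexp (I * ((∑ j, c j * (zT T * Dd (x j * t ^ d + (r j).eval t)) : ℝ) : ℂ)) ∂(muT T)) atTop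
      (𝓝 ((Real.exp (-(1 / 2 * ∑ j, c j ^ 2)) : ℝ) : ℂ)) := by
  obtain ⟨e, rfl⟩ : ∃ e, d = e + 1 := ⟨d - 1, by omega⟩
  set C : Fin k → Fin (e + 1) → ℝ := fun i l => if l = Fin.last e then x i else (r i).coeff ((l : ℕ) + 1) with hC
  set φ : Fin k → ℝ → ℝ := fun i t => ∑ l : Fin (e + 1), C i l * t ^ ((l : ℕ) + 1) with hφ
  set D : Dat k k := ⟨fun j i => if i = j then 1 else 0, fun j => (r j).coeff 0⟩ with hD
  have hOk : D.Ok := by
    refine ⟨fun j h => ?_, fun j j' h => ?_, fun j j' h1 h2 => ?_⟩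
    · have := congrFun h j
      simp [hD] at this
    · have := congrFun h j
      simp only [hD, if_true, Pi.neg_apply] at this
      split_ifs at this
      all_goals omega
    · have := congrFun h1 j
      simp only [hD, if_true] at this
      by_contra h3
      rw [if_neg h3] at this
      exact one_ne_zero this
  have harg : ∀ j t, D.arg φ j t = x j * t ^ (e + 1) + (r j).eval t := by
    intro j t
    unfold Dat.arg
    have e1 : ∑ i, ((D.a j i : ℤ) : ℝ) * φ i t = φ j t := by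
      simp [hD]
    rw [e1]
    simp only [hφ, hD]
    have hnd : (r j).natDegree < e + 1 := by
      by_cases h0 : r j = 0
      · rw [h0]; simp
      · exact (Polynomial.natDegree_lt_iff_degree_lt h0).2 (hr j)
    rw [Polynomial.eval_eq_sum_range' hnd, Fin.sum_univ_castSucc, Finset.sum_range_succ', Finset.sum_range]
    simp only [hC, if_true, Fin.val_last, pow_zero, mul_one, Fin.val_castSucc]
    have e2 : ∑ l : Fin e, (if l.castSucc = Fin.last e then x j else (r j).coeff ((l : ℕ) + 1)) * t ^ ((l : ℕ) + 1) =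
        ∑ l : Fin e, (r j).coeff ((l : ℕ) + 1) * t ^ ((l : ℕ) + 1) :=
      Finset.sum_congr rfl fun l _ => by rw [if_neg (Fin.castSucc_lt_last l).ne]
    rw [e2]
    ring
  have hAdm : ∀ j, Adm (D.arg φ j) := by
    intro j
    set P : Polynomial ℝ := Polynomial.C (x j) * Polynomial.X ^ (e + 1) + r j with hP
    have hlt : (r j).degree < (Polynomial.C (x j) * Polynomial.X ^ (e + 1)).degree := by
      rw [Polynomial.degree_C_mul_X_pow _ (hpos j).ne']
      exact hr j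
    have h1 : P.natDegree = e + 1 := by
      rw [hP, Polynomial.natDegree_add_eq_left_of_degree_lt hlt, Polynomial.natDegree_C_mul_X_pow _ _ (hpos j).ne']
    have h2 : P.leadingCoeff = x j := by
      rw [hP, Polynomial.leadingCoeff_add_of_degree_lt' hlt, Polynomial.leadingCoeff_C_mul_X_pow]
    have h3 := Adm_poly P (by omega) (by rw [h2]; exact hpos j)
    have h4 : D.arg φ j = fun t => P.eval t := by
      funext t
      rw [harg j t, hP]
      simp
    rw [h4]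
    exact h3
  have h := disp_char hOk (φ := φ) (fun i => by simp only [hφ]; fun_prop)
    (nrc_gen C hx fun i => by simp [hC]) hAdm c
  simp_rw [harg] at h
  exact h

end

end Pool.Agent.Q173.JD
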