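import Pool.Agent.Q173.JD.Per

set_option autoImplicit false

/-! # Inverse functions of polynomials -/

namespace Pool.Agent.Q173.JD

open Filter Topology MeasureTheory Complex Set

noncomputable section

/-- the data of the inverse function -/
structure IV (Q : Polynomial ℝ) (q : ℝ → ℝ) (y0 t0 : ℝ) : Prop where
  y1 : 1 ≤ y0
  t1 : 1 ≤ t0
  lo : ∀ y, y0 ≤ y → Q.leadingCoeff / 2 * y ^ Q.natDegree ≤ Q.eval y
  hi : ∀ y, y0 ≤ y → Q.eval y ≤ 2 * Q.leadingCoeff * y ^ Q.natDegree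
  dlo : ∀ y, y0 ≤ y → Q.leadingCoeff / 2 ≤ Q.derivative.eval y
  dhi : ∀ y, y0 ≤ y → Q.derivative.eval y ≤ 2 * (Q.leadingCoeff * Q.natDegree) * y ^ (Q.natDegree - 1)
  ge : ∀ t, t0 ≤ t → y0 ≤ q t
  inv : ∀ t, t0 ≤ t → Q.eval (q t) = t

lemma iv_ex {Q : Polynomial ℝ} {q : ℝ → ℝ} (hn : 0 < Q.natDegree) (hl : 0 < Q.leadingCoeff) (hq : Tendsto q atTop atTop)
    (hinv : ∀ᶠ t in atTop, Q.eval (q t) = t) : ∃ y0 t0, IV Q q y0 t0 := by
  have hn1 : (1 : ℝ) ≤ Q.natDegree := by exact_mod_cast hn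
  have hdl : Q.derivative.leadingCoeff = Q.leadingCoeff * Q.natDegree := by
    rw [Polynomial.leadingCoeff_derivative]
  have hdn : Q.derivative.natDegree = Q.natDegree - 1 := Polynomial.natDegree_derivative Q
  have h1 := poly_bd Q hl
  have h2 := poly_bd Q.derivative (by rw [hdl]; positivity)
  rw [hdn, hdl] at h2
  obtain ⟨y1, hy1⟩ := eventually_atTop.1 (h1.and (h2.and (eventually_ge_atTop (1 : ℝ))))
  obtain ⟨t1, ht1⟩ := eventually_atTop.1 ((hq.eventually_ge_atTop (max y1 1)).and hinv)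
  refine ⟨max y1 1, max t1 1, le_max_right _ _, le_max_right _ _, fun y hy => (hy1 y ((le_max_left _ _).trans hy)).1.1,
    fun y hy => (hy1 y ((le_max_left _ _).trans hy)).1.2, fun y hy => ?_, fun y hy => (hy1 y ((le_max_left _ _).trans hy)).2.1.2,
    fun t ht => (ht1 t ((le_max_left _ _).trans ht)).1, fun t ht => (ht1 t ((le_max_left _ _).trans ht)).2⟩
  have hy1' : (1 : ℝ) ≤ y := (le_max_right _ _).trans hy
  refine le_trans ?_ (hy1 y ((le_max_left _ _).trans hy)).2.1.1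
  have h3 : (1 : ℝ) ≤ y ^ (Q.natDegree - 1) := one_le_pow₀ hy1'
  calc Q.leadingCoeff / 2 = Q.leadingCoeff * 1 / 2 * 1 := by ring
    _ ≤ Q.leadingCoeff * Q.natDegree / 2 * y ^ (Q.natDegree - 1) := by gcongr

variable {Q : Polynomial ℝ} {q : ℝ → ℝ} {y0 t0 : ℝ}

/-- the modified function -/
def qh (q : ℝ → ℝ) (t0 t : ℝ) : ℝ := q (max t t0)

lemma qh_eq (q : ℝ → ℝ) {t0 t : ℝ} (h : t0 ≤ t) : qh q t0 t = q t := by
  unfold qh; rw [max_eq_left h]

lemma IV.step (h : IV Q q y0 t0) (hl : 0 < Q.leadingCoeff) {y y' : ℝ} (hy : y0 ≤ y) (hyy : y ≤ y') :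
    Q.leadingCoeff / 2 * (y' - y) ≤ Q.eval y' - Q.eval y := by
  have hcv : Convex ℝ (Icc y y') := convex_Icc _ _
  have := hcv.mul_sub_le_image_sub_of_le_deriv (f := fun x => Q.eval x) (C := Q.leadingCoeff / 2)
    (Q.continuous.continuousOn) (Q.differentiable.differentiableOn) (fun x hx => by
      rw [interior_Icc] at hx
      rw [Polynomial.deriv]
      exact h.dlo x (hy.trans hx.1.le)) y ⟨le_rfl, hyy⟩ y' ⟨hyy, le_rfl⟩ hyy
  exact this

lemma IV.mono (h : IV Q q y0 t0) (hl : 0 < Q.leadingCoeff) {t t' : ℝ} (ht : t0 ≤ t) (htt : t ≤ t') :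
    q t ≤ q t' ∧ q t' - q t ≤ 2 / Q.leadingCoeff * (t' - t) := by
  have h1 := h.inv t ht
  have h2 := h.inv t' (ht.trans htt)
  have h3 : q t ≤ q t' := by
    by_contra hc
    push Not at hc
    have h4 := h.step hl (h.ge t' (ht.trans htt)) hc.le
    rw [h1, h2] at h4
    nlinarith
  refine ⟨h3, ?_⟩
  have h4 := h.step hl (h.ge t ht) h3
  rw [h1, h2] at h4
  rw [div_mul_eq_mul_div, le_div_iff₀ hl]
  linarith

lemma IV.qmono (h : IV Q q y0 t0) (hl : 0 < Q.leadingCoeff) : Monotone (qh q t0) := by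
  intro t t' htt
  unfold qh
  exact (h.mono hl (le_max_right _ _) (max_le_max htt le_rfl)).1

lemma IV.cont (h : IV Q q y0 t0) (hl : 0 < Q.leadingCoeff) : Continuous (qh q t0) := by
  have hK : (0 : ℝ) ≤ 2 / Q.leadingCoeff := by positivity
  refine LipschitzWith.continuous (K := ⟨2 / Q.leadingCoeff, hK⟩) (LipschitzWith.of_dist_le_mul fun t t' => ?_)
  wlog htt : t ≤ t' generalizing t t' with H
  · rw [dist_comm, dist_comm t]
    exact H t' t (le_of_not_ge htt)
  · unfold qh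
    obtain ⟨h1, h2⟩ := h.mono hl (le_max_right t t0) (max_le_max htt le_rfl)
    rw [dist_comm, dist_comm t, Real.dist_eq, Real.dist_eq, abs_of_nonneg (by linarith), abs_of_nonneg (by linarith)]
    refine h2.trans ?_
    show 2 / Q.leadingCoeff * (max t' t0 - max t t0) ≤ 2 / Q.leadingCoeff * (t' - t)
    refine mul_le_mul_of_nonneg_left ?_ hK
    rcases le_total t t0 with a | a
    · rcases le_total t' t0 with b | b
      · rw [max_eq_right a, max_eq_right b]; linarith
      · rw [max_eq_right a, max_eq_left b]; linarith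
    · rw [max_eq_left a, max_eq_left (a.trans htt)]

lemma IV.deriv (h : IV Q q y0 t0) (hl : 0 < Q.leadingCoeff) {t : ℝ} (ht : t0 < t) :
    HasDerivAt (qh q t0) (Q.derivative.eval (qh q t0 t))⁻¹ t := by
  have hne : Q.derivative.eval (qh q t0 t) ≠ 0 := by
    rw [qh_eq q ht.le]
    have := h.dlo (q t) (h.ge t ht.le)
    have : 0 < Q.leadingCoeff / 2 := by positivity
    linarith
  refine HasDerivAt.of_local_left_inverse (f := fun x => Q.eval x) (h.cont hl).continuousAt (Q.hasDerivAt _) hne ?_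
  filter_upwards [lt_mem_nhds ht] with s hs
  rw [qh_eq q (le_of_lt hs)]
  exact h.inv s (le_of_lt hs)

/-- sizes -/
lemma IV.size (h : IV Q q y0 t0) (hn : 0 < Q.natDegree) {t : ℝ} (ht : t0 ≤ t) :
    1 ≤ q t ∧ Q.leadingCoeff / 2 * q t ^ Q.natDegree ≤ t ∧ t ≤ 2 * Q.leadingCoeff * q t ^ Q.natDegree ∧
      q t ≤ q t ^ Q.natDegree := by
  have h1 := h.lo _ (h.ge t ht)
  have h2 := h.hi _ (h.ge t ht)
  rw [h.inv t ht] at h1 h2
  have h3 : 1 ≤ q t := h.y1.trans (h.ge t ht)
  exact ⟨h3, h1, h2, le_self_pow₀ h3 hn.ne'⟩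

lemma IV.HHq (h : IV Q q y0 t0) (hn : 0 < Q.natDegree) (hl : 0 < Q.leadingCoeff) : HH (qh q t0) := by
  have hm : (0 : ℝ) < Q.natDegree := by exact_mod_cast hn
  refine ⟨1 / (2 * Q.natDegree), 2, by positivity, two_pos, ?_⟩
  filter_upwards [eventually_ge_atTop (max (max t0 1) (max (4 * Q.leadingCoeff ^ 2) (2 / Q.leadingCoeff)))] with T hT
  have hT0 : t0 ≤ T := (le_max_left _ _).trans ((le_max_left _ _).trans hT)
  have hT1 : 1 ≤ T := (le_max_right _ _).trans ((le_max_left _ _).trans hT)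
  have hT2 : 4 * Q.leadingCoeff ^ 2 ≤ T := (le_max_left _ _).trans ((le_max_right _ _).trans hT)
  have hT3 : 2 / Q.leadingCoeff ≤ T := (le_max_right _ _).trans ((le_max_right _ _).trans hT)
  have hTp : 0 < T := by linarith
  rw [qh_eq q hT0]
  obtain ⟨h1, h2, h3, h4⟩ := h.size hn hT0
  constructor
  · rw [← pow_le_pow_iff_left₀ (by positivity) (by linarith) hn.ne', ← Real.rpow_natCast (T ^ _), ← Real.rpow_mul hTp.le,
      show 1 / (2 * (Q.natDegree : ℝ)) * Q.natDegree = 1 / 2 by field_simp, ← Real.sqrt_eq_rpow]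
    have h5 : T ≤ 2 * Q.leadingCoeff * q T ^ Q.natDegree := h3
    have hs : 0 < Real.sqrt T := Real.sqrt_pos.2 hTp
    have hs2 : Real.sqrt T * Real.sqrt T = T := Real.mul_self_sqrt hTp.le
    have h6 : 2 * Q.leadingCoeff ≤ Real.sqrt T := by
      rw [Real.le_sqrt (by positivity) hTp.le]; linarith
    have h7 : 2 * Q.leadingCoeff * Real.sqrt T ≤ 2 * Q.leadingCoeff * q T ^ Q.natDegree := by
      refine le_trans ?_ h5
      calc 2 * Q.leadingCoeff * Real.sqrt T ≤ Real.sqrt T * Real.sqrt T := mul_le_mul_of_nonneg_right h6 hs.le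
        _ = T := hs2
    exact le_of_mul_le_mul_left h7 (by positivity)
  · have h5 : q T ^ Q.natDegree ≤ 2 / Q.leadingCoeff * T := by
      rw [div_mul_eq_mul_div, le_div_iff₀ hl]; linarith
    have h6 : 2 / Q.leadingCoeff * T ≤ T ^ 2 := by nlinarith
    have e : T ^ (2 : ℝ) = T ^ 2 := Real.rpow_two T
    rw [e]
    linarith

lemma IV.adm (h : IV Q q y0 t0) (hn : 0 < Q.natDegree) (hl : 0 < Q.leadingCoeff) : Adm (qh q t0) := by
  have hm : (0 : ℝ) < Q.natDegree := by exact_mod_cast hn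
  refine ⟨fun t => (Q.derivative.eval (qh q t0 t))⁻¹, qh q t0, 1 / (8 * Q.natDegree), 8, by positivity, by norm_num,
    h.HHq hn hl, ?_⟩
  filter_upwards [eventually_gt_atTop (max t0 1)] with T hT
  have hT0 : t0 < T := lt_of_le_of_lt (le_max_left _ _) hT
  have hT1 : 1 < T := lt_of_le_of_lt (le_max_right _ _) hT
  have hTp : 0 < T := by linarith
  refine ⟨fun t ht => ⟨h.deriv hl (lt_of_lt_of_le hT0 ht.1), ?_⟩, le_rfl, ?_⟩
  · have ht0 : t0 ≤ t := hT0.le.trans ht.1
    have htp : 0 < t := by linarith [ht.1]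
    rw [qh_eq q hT0.le, qh_eq q ht0]
    obtain ⟨h1, h2, h3, h4⟩ := h.size hn ht0
    have h5 := (h.mono hl hT0.le ht.1).1
    have h6 := h.dhi (q t) (h.ge t ht0)
    have h7 := h.dlo (q t) (h.ge t ht0)
    have h8 : 0 < Q.derivative.eval (q t) := by
      have : 0 < Q.leadingCoeff / 2 := by positivity
      linarith
    have hqT := (h.size hn hT0.le).1
    rw [← one_div, le_div_iff₀ h8]
    have h9 : q t ^ (Q.natDegree - 1) * q t = q t ^ Q.natDegree := by
      rw [← pow_succ]; congr 1; omega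
    have h10 : q T * Q.derivative.eval (q t) ≤ 8 * Q.natDegree * T := by
      calc q T * Q.derivative.eval (q t) ≤ q t * (2 * (Q.leadingCoeff * Q.natDegree) * q t ^ (Q.natDegree - 1)) :=
            mul_le_mul h5 h6 h8.le (by linarith)
        _ = 4 * Q.natDegree * (Q.leadingCoeff / 2 * (q t ^ (Q.natDegree - 1) * q t)) := by ring
        _ = 4 * Q.natDegree * (Q.leadingCoeff / 2 * q t ^ Q.natDegree) := by rw [h9]
        _ ≤ 4 * Q.natDegree * (2 * T) := by
            refine mul_le_mul_of_nonneg_left (h2.trans ht.2) (by positivity)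
        _ = 8 * Q.natDegree * T := by ring
    have e : 1 / (8 * (Q.natDegree : ℝ)) * q T / T * Q.derivative.eval (q t) =
        (q T * Q.derivative.eval (q t)) / (8 * Q.natDegree * T) := by field_simp
    rw [e, div_le_one (by positivity)]
    exact h10
  · have h2T : t0 ≤ 2 * T := by linarith
    rw [qh_eq q hT0.le, qh_eq q h2T]
    obtain ⟨a1, a2, a3, a4⟩ := h.size hn hT0.le
    obtain ⟨b1, b2, b3, b4⟩ := h.size hn h2T
    rw [← pow_le_pow_iff_left₀ (by linarith) (by linarith) hn.ne', mul_pow]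
    have h8 : (8 : ℝ) ≤ 8 ^ Q.natDegree := le_self_pow₀ (by norm_num) hn.ne'
    have hp : 0 < q T ^ Q.natDegree := pow_pos (by linarith) _
    have h9 : Q.leadingCoeff / 2 * q (2 * T) ^ Q.natDegree ≤ Q.leadingCoeff / 2 * (8 * q T ^ Q.natDegree) := by
      linarith
    have h10 := le_of_mul_le_mul_left h9 (by positivity)
    exact h10.trans (mul_le_mul_of_nonneg_right h8 hp.le)

lemma pow_sub_low {s τ : ℝ} (hs : 0 < s) (hτ : 0 ≤ τ) {m : ℕ} (hm : 0 < m) : |s - τ| * s ^ (m - 1) ≤ |s ^ m - τ ^ m| := by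
  have h := geom_sum₂_mul s τ m
  rw [← h, abs_mul, mul_comm]
  refine mul_le_mul_of_nonneg_right ?_ (abs_nonneg _)
  have h1 : s ^ (m - 1) ≤ ∑ i ∈ Finset.range m, s ^ i * τ ^ (m - 1 - i) := by
    have h2 := Finset.single_le_sum (f := fun i => s ^ i * τ ^ (m - 1 - i)) (s := Finset.range m)
      (fun i _ => by positivity) (Finset.mem_range.2 (by omega : m - 1 < m))
    simpa using h2
  exact h1.trans (le_abs_self _)

lemma IV.close (h : IV Q q y0 t0) (hn : 0 < Q.natDegree) (hl : 0 < Q.leadingCoeff) :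
    ∀ᶠ T : ℝ in atTop, ∀ t ∈ Icc T (2 * T), |qh q t0 t - ((t / Q.leadingCoeff) ^ ((Q.natDegree : ℝ)⁻¹) -
      Q.coeff (Q.natDegree - 1) / (Q.natDegree * Q.leadingCoeff))| ≤ T ^ (-(1 / (4 * (Q.natDegree : ℝ)))) := by
  set m := Q.natDegree with hmm
  set a := Q.leadingCoeff with ha
  have hm : (0 : ℝ) < m := by exact_mod_cast hn
  set β : ℝ := Q.coeff (m - 1) / (m * a) with hβ
  set R : Polynomial ℝ := Polynomial.C a * (Polynomial.X + Polynomial.C β) ^ m - Q with hR
  have hcoef : ∀ i, m - 1 ≤ i → R.coeff i = 0 := by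
    intro i hi
    rw [hR, Polynomial.coeff_sub, Polynomial.coeff_C_mul, Polynomial.coeff_X_add_C_pow]
    rcases Nat.lt_or_ge m i with h1 | h1
    · rw [Nat.choose_eq_zero_of_lt h1, Polynomial.coeff_eq_zero_of_natDegree_lt h1]; simp
    · rcases Nat.lt_or_ge i m with h2 | h2
      · have h3 : i = m - 1 := by omega
        subst h3
        have h4 : m - (m - 1) = 1 := by omega
        have h5 : m.choose (m - 1) = m := by
          have := Nat.choose_symm (n := m) (k := 1) hn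
          rw [this, Nat.choose_one_right]
        rw [h4, h5, pow_one, hβ]
        field_simp
        ring
      · have h3 : i = m := le_antisymm h1 h2
        subst h3
        rw [Nat.sub_self, Nat.choose_self, pow_zero, ha, Polynomial.leadingCoeff, ← hmm]
        simp
  set CR : ℝ := ∑ i ∈ Finset.range (m + 1), |R.coeff i| with hCR
  have hCR0 : 0 ≤ CR := Finset.sum_nonneg fun i _ => abs_nonneg _
  have hnd : R.natDegree < m + 1 := by
    rw [Nat.lt_succ_iff, Polynomial.natDegree_le_iff_coeff_eq_zero]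
    intro i hi
    exact hcoef i (by omega)
  have hRb : ∀ y : ℝ, 1 ≤ y → |R.eval y| * y ≤ CR * y ^ (m - 1) := by
    intro y hy
    have hy0 : 0 < y := by linarith
    rw [Polynomial.eval_eq_sum_range' hnd, hCR, Finset.sum_mul]
    calc |∑ i ∈ Finset.range (m + 1), R.coeff i * y ^ i| * y ≤ (∑ i ∈ Finset.range (m + 1), |R.coeff i * y ^ i|) * y :=
          mul_le_mul_of_nonneg_right (Finset.abs_sum_le_sum_abs _ _) hy0.le
      _ = ∑ i ∈ Finset.range (m + 1), |R.coeff i * y ^ i| * y := by rw [Finset.sum_mul]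
      _ ≤ _ := by
          refine Finset.sum_le_sum fun i _ => ?_
          rcases Nat.lt_or_ge i (m - 1) with h1 | h1
          · rw [abs_mul, abs_of_pos (pow_pos hy0 i), mul_assoc, ← pow_succ]
            exact mul_le_mul_of_nonneg_left (pow_le_pow_right₀ hy h1) (abs_nonneg _)
          · rw [hcoef i h1]; simp
  obtain ⟨c1, c2, hc1, -, hHH⟩ := h.HHq hn hl
  have hlow : ∀ᶠ T : ℝ in atTop, T ^ (1 / (2 * (m : ℝ))) ≤ qh q t0 T := by
    -- from the proof of `HHq`
    filter_upwards [eventually_ge_atTop (max (max t0 1) (4 * a ^ 2))] with T hT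
    have hT0 : t0 ≤ T := (le_max_left _ _).trans ((le_max_left _ _).trans hT)
    have hT1 : 1 ≤ T := (le_max_right _ _).trans ((le_max_left _ _).trans hT)
    have hT2 : 4 * a ^ 2 ≤ T := (le_max_right _ _).trans hT
    have hTp : 0 < T := by linarith
    rw [qh_eq q hT0]
    obtain ⟨h1, h2, h3, h4⟩ := h.size hn hT0
    rw [← pow_le_pow_iff_left₀ (by positivity) (by linarith) hn.ne', ← Real.rpow_natCast (T ^ _), ← Real.rpow_mul hTp.le,
      show 1 / (2 * (m : ℝ)) * m = 1 / 2 by field_simp, ← Real.sqrt_eq_rpow]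
    have hs : 0 < Real.sqrt T := Real.sqrt_pos.2 hTp
    have hs2 : Real.sqrt T * Real.sqrt T = T := Real.mul_self_sqrt hTp.le
    have h6 : 2 * a ≤ Real.sqrt T := by
      rw [Real.le_sqrt (by positivity) hTp.le]; linarith
    have h7 : 2 * a * Real.sqrt T ≤ 2 * a * q T ^ m := by
      refine le_trans ?_ h3
      calc 2 * a * Real.sqrt T ≤ Real.sqrt T * Real.sqrt T := mul_le_mul_of_nonneg_right h6 hs.le
        _ = T := hs2
    exact le_of_mul_le_mul_left h7 (by positivity)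
  have hlim : Tendsto (fun T : ℝ => CR * 2 ^ (m - 1) / a * T ^ (-(1 / (4 * (m : ℝ))))) atTop (𝓝 0) := by
    have := (tendsto_rpow_neg_atTop (show (0:ℝ) < 1 / (4 * m) by positivity)).const_mul (CR * 2 ^ (m - 1) / a)
    simpa using this
  have hqlim : Tendsto (fun T : ℝ => T ^ (1 / (2 * (m : ℝ)))) atTop atTop := tendsto_rpow_atTop (by positivity)
  filter_upwards [eventually_forall_ge_atTop.2 hlow, hlim.eventually (gt_mem_nhds (show (0:ℝ) < 1 by norm_num)),
    hqlim.eventually_ge_atTop (2 * |β|), eventually_ge_atTop (max t0 1)] with T g1 g2 g3 g4 t ht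
  have hT0 : t0 ≤ T := (le_max_left _ _).trans g4
  have hT1 : 1 ≤ T := (le_max_right _ _).trans g4
  have hTp : 0 < T := by linarith
  have ht0 : t0 ≤ t := hT0.trans ht.1
  have htp : 0 < t := by linarith [ht.1]
  have g5 := g1 t ht.1
  rw [qh_eq q ht0] at g5 ⊢
  set y := q t with hy
  obtain ⟨h1, h2, h3, h4⟩ := h.size hn ht0
  have hy1 : 1 ≤ y := h1
  have g6 : T ^ (1 / (2 * (m : ℝ))) ≤ y := (Real.rpow_le_rpow hTp.le ht.1 (by positivity)).trans g5
  have hβ1 := neg_abs_le β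
  set s : ℝ := y + β with hs
  have hs1 : y / 2 ≤ s := by linarith
  have hs0 : 0 < s := by linarith
  set τ : ℝ := (t / a) ^ ((m : ℝ)⁻¹) with hτ
  have hτ0 : 0 ≤ τ := by positivity
  have hτm : τ ^ m = t / a := Real.rpow_inv_natCast_pow (by positivity) hn.ne'
  have hRy : R.eval y = a * s ^ m - t := by
    rw [hR]
    simp only [Polynomial.eval_sub, Polynomial.eval_mul, Polynomial.eval_C, Polynomial.eval_pow, Polynomial.eval_add,
      Polynomial.eval_X]
    rw [h.inv t ht0]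
  have hdiff : |s ^ m - τ ^ m| = |R.eval y| / a := by
    rw [hRy, hτm, ← abs_of_pos hl, ← abs_div, abs_of_pos hl]
    congr 1
    field_simp
  have h5 := pow_sub_low hs0 hτ0 hn
  rw [hdiff] at h5
  have h6 := hRb y hy1
  have hy0 : 0 < y := by linarith
  have h7 : (y / 2) ^ (m - 1) ≤ s ^ (m - 1) := pow_le_pow_left₀ (by positivity) hs1 _
  have h8 : |s - τ| * (y / 2) ^ (m - 1) ≤ CR * y ^ (m - 1) / y / a := by
    calc |s - τ| * (y / 2) ^ (m - 1) ≤ |s - τ| * s ^ (m - 1) := mul_le_mul_of_nonneg_left h7 (abs_nonneg _)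
      _ ≤ |R.eval y| / a := h5
      _ ≤ CR * y ^ (m - 1) / y / a := by
          refine div_le_div_of_nonneg_right ?_ hl.le
          rw [le_div_iff₀ hy0]
          exact h6
  have h9 : |s - τ| ≤ CR * 2 ^ (m - 1) / a * y⁻¹ := by
    have hp : 0 < (y / 2) ^ (m - 1) := by positivity
    rw [← le_div_iff₀ hp] at h8
    refine h8.trans (le_of_eq ?_)
    rw [div_pow]
    have : y ^ (m - 1) ≠ 0 := (pow_pos hy0 _).ne'
    field_simp
  have e1 : y - (τ - β) = s - τ := by rw [hs]; ring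
  rw [e1]
  refine h9.trans ?_
  have h10 : y⁻¹ ≤ T ^ (-(1 / (4 * (m : ℝ)))) * T ^ (-(1 / (4 * (m : ℝ)))) := by
    rw [← Real.rpow_add hTp, show -(1 / (4 * (m : ℝ))) + -(1 / (4 * (m : ℝ))) = -(1 / (2 * (m : ℝ))) by field_simp; ring,
      Real.rpow_neg hTp.le]
    exact inv_anti₀ (by positivity) g6
  calc CR * 2 ^ (m - 1) / a * y⁻¹ ≤ CR * 2 ^ (m - 1) / a * (T ^ (-(1 / (4 * (m : ℝ)))) * T ^ (-(1 / (4 * (m : ℝ))))) :=
        mul_le_mul_of_nonneg_left h10 (by positivity)
    _ = (CR * 2 ^ (m - 1) / a * T ^ (-(1 / (4 * (m : ℝ))))) * T ^ (-(1 / (4 * (m : ℝ)))) := by ring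
    _ ≤ 1 * T ^ (-(1 / (4 * (m : ℝ)))) := mul_le_mul_of_nonneg_right g2.le (by positivity)
    _ = _ := one_mul _

end

end Pool.Agent.Q173.JD
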