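import Pool.Agent.Q173.JD.Clt

set_option autoImplicit false

/-! # From characteristic functions to boxes in several dimensions -/

namespace Pool.Agent.Q173.JD

open Filter Topology MeasureTheory Complex ProbabilityTheory

noncomputable section

variable {k : ℕ}

/-- the standard Gaussian law -/
def Gk (k : ℕ) : Measure (EuclideanSpace ℝ (Fin k)) :=
  (Measure.pi fun _ : Fin k => gaussianReal 0 1).map (WithLp.toLp 2)

lemma toLp_meas : Measurable (WithLp.toLp 2 : (Fin k → ℝ) → EuclideanSpace ℝ (Fin k)) :=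
  (MeasurableEquiv.toLp 2 (Fin k → ℝ)).measurable

instance : IsProbabilityMeasure (Gk k) := Measure.isProbabilityMeasure_map toLp_meas.aemeasurable

lemma Gk_char (c : EuclideanSpace ℝ (Fin k)) :
    charFun (Gk k) c = ((Real.exp (-(1 / 2 * ∑ j, c j ^ 2)) : ℝ) : ℂ) := by
  unfold Gk
  rw [charFun_pi]
  have h : ∀ j, charFun (gaussianReal 0 1) (c j) = ((Real.exp (-(1 / 2 * c j ^ 2)) : ℝ) : ℂ) := by
    intro j
    rw [charFun_gaussianReal]
    push_cast
    congr 1
    ring
  simp_rw [h]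
  rw [← Complex.ofReal_prod, ← Real.exp_sum, Finset.mul_sum, Finset.sum_neg_distrib]

/-- the open box -/
def Bo (a b : Fin k → ℝ) : Set (EuclideanSpace ℝ (Fin k)) := {x | ∀ j, a j < x j ∧ x j < b j}

/-- the closed box -/
def Bc (a b : Fin k → ℝ) : Set (EuclideanSpace ℝ (Fin k)) := {x | ∀ j, a j ≤ x j ∧ x j ≤ b j}

lemma Bo_open (a b : Fin k → ℝ) : IsOpen (Bo a b) := by
  have e : Bo a b = ⋂ j, {x : EuclideanSpace ℝ (Fin k) | a j < x j ∧ x j < b j} := by
    ext x; simp [Bo]
  rw [e]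
  refine isOpen_iInter_of_finite fun j => ?_
  have hc : Continuous fun x : EuclideanSpace ℝ (Fin k) => x j := by fun_prop
  exact (isOpen_lt continuous_const hc).inter (isOpen_lt hc continuous_const)

lemma Bc_closed (a b : Fin k → ℝ) : IsClosed (Bc a b) := by
  have e : Bc a b = ⋂ j, {x : EuclideanSpace ℝ (Fin k) | a j ≤ x j ∧ x j ≤ b j} := by
    ext x; simp [Bc]
  rw [e]
  refine isClosed_iInter fun j => ?_
  have hc : Continuous fun x : EuclideanSpace ℝ (Fin k) => x j := by fun_prop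
  exact (isClosed_le continuous_const hc).inter (isClosed_le hc continuous_const)

lemma Gk_Bo (a b : Fin k → ℝ) : Gk k (Bo a b) = ∏ j, gaussianReal 0 1 (Set.Ioo (a j) (b j)) := by
  unfold Gk
  rw [Measure.map_apply toLp_meas (Bo_open a b).measurableSet]
  have e : (WithLp.toLp 2 : (Fin k → ℝ) → EuclideanSpace ℝ (Fin k)) ⁻¹' (Bo a b) =
      Set.univ.pi fun j => Set.Ioo (a j) (b j) := by
    ext x
    simp [Bo, Set.mem_pi]
  rw [e, Measure.pi_pi]

lemma Gk_Bc (a b : Fin k → ℝ) : Gk k (Bc a b) = ∏ j, gaussianReal 0 1 (Set.Icc (a j) (b j)) := by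
  unfold Gk
  rw [Measure.map_apply toLp_meas (Bc_closed a b).measurableSet]
  have e : (WithLp.toLp 2 : (Fin k → ℝ) → EuclideanSpace ℝ (Fin k)) ⁻¹' (Bc a b) =
      Set.univ.pi fun j => Set.Icc (a j) (b j) := by
    ext x
    rw [Set.mem_preimage, Set.mem_univ_pi]
    rfl
  rw [e, Measure.pi_pi]

lemma Gk_frontier (a b : Fin k → ℝ) : Gk k (frontier (Bo a b)) = 0 := by
  have hna : NullSingletonClass (gaussianReal 0 1) := nullSingletonClass_gaussianReal (by norm_num)
  have h1 : frontier (Bo a b) ⊆ Bc a b \ Bo a b := by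
    rw [frontier, (Bo_open a b).interior_eq]
    refine Set.diff_subset_diff_left ?_
    refine closure_minimal (fun x hx j => ⟨(hx j).1.le, (hx j).2.le⟩) (Bc_closed a b)
  refine measure_mono_null h1 ?_
  rw [measure_sdiff (fun x hx j => ⟨(hx j).1.le, (hx j).2.le⟩) (Bo_open a b).measurableSet.nullMeasurableSet
    (measure_ne_top _ _), Gk_Bo, Gk_Bc]
  have h2 : ∀ j, gaussianReal 0 1 (Set.Icc (a j) (b j)) = gaussianReal 0 1 (Set.Ioo (a j) (b j)) := fun j =>
    (measure_congr Ioo_ae_eq_Icc).symm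
  simp_rw [h2]
  exact tsub_self _

/-- the law of a random vector under `muT` -/
def PT (X : ℝ → ℝ → Fin k → ℝ) (T : ℝ) : Measure (EuclideanSpace ℝ (Fin k)) :=
  if 0 < T then (muT T).map (fun t => WithLp.toLp 2 (X T t)) else Measure.dirac 0

variable {X : ℝ → ℝ → Fin k → ℝ}

lemma X_meas (hm : ∀ T j, Measurable fun t => X T t j) (T : ℝ) :
    Measurable fun t => (WithLp.toLp 2 (X T t) : EuclideanSpace ℝ (Fin k)) :=
  toLp_meas.comp (measurable_pi_lambda _ fun j => hm T j)

lemma PT_prob (hm : ∀ T j, Measurable fun t => X T t j) (T : ℝ) : IsProbabilityMeasure (PT X T) := by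
  unfold PT
  split_ifs with h
  · have := muT_prob h
    exact Measure.isProbabilityMeasure_map (X_meas hm T).aemeasurable
  · infer_instance

/-- **convergence of the joint laws** -/
theorem box_lim (hm : ∀ T j, Measurable fun t => X T t j)
    (hchar : ∀ c : Fin k → ℝ, Tendsto (fun T => ∫ t, cexp (I * ((∑ j, c j * X T t j : ℝ) : ℂ)) ∂(muT T)) atTop
      (𝓝 ((Real.exp (-(1 / 2 * ∑ j, c j ^ 2)) : ℝ) : ℂ))) (a b : Fin k → ℝ) :
    Tendsto (fun T => (muT T).real {t | ∀ j, a j < X T t j ∧ X T t j < b j}) atTop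
      (𝓝 (∏ j, (gaussianReal 0 1).real (Set.Ioo (a j) (b j)))) := by
  refine tendsto_of_seq_tendsto fun u hu => ?_
  have hpos : ∀ᶠ n in atTop, 0 < u n := hu.eventually_gt_atTop 0
  set P : ℕ → ProbabilityMeasure (EuclideanSpace ℝ (Fin k)) := fun n => ⟨PT X (u n), PT_prob hm _⟩ with hP
  set G : ProbabilityMeasure (EuclideanSpace ℝ (Fin k)) := ⟨Gk k, inferInstance⟩ with hG
  have hlim : Tendsto P atTop (𝓝 G) := by
    refine ProbabilityMeasure.tendsto_iff_tendsto_charFun.2 fun c => ?_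
    have e1 : charFun (G : Measure (EuclideanSpace ℝ (Fin k))) c =
        ((Real.exp (-(1 / 2 * ∑ j, c j ^ 2)) : ℝ) : ℂ) := Gk_char c
    rw [e1]
    refine ((hchar (fun j => c j)).comp hu).congr' ?_
    filter_upwards [hpos] with n hn
    show (∫ t, cexp (I * ((∑ j, c j * X (u n) t j : ℝ) : ℂ)) ∂(muT (u n))) = charFun (PT X (u n)) c
    unfold PT
    rw [if_pos hn, charFun_apply, integral_map (X_meas hm _).aemeasurable]
    · refine integral_congr_ae (Eventually.of_forall fun t => ?_)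
      show cexp (I * ((∑ j, c j * X (u n) t j : ℝ) : ℂ)) = _
      congr 1
      rw [mul_comm]
      congr 2
    · exact (Continuous.measurable (by fun_prop)).aestronglyMeasurable
  have hfr : (G : Measure (EuclideanSpace ℝ (Fin k))) (frontier (Bo a b)) = 0 := Gk_frontier a b
  have h2 := ProbabilityMeasure.tendsto_measure_of_null_frontier_of_tendsto' hlim hfr
  have h3 : Tendsto (fun n => (PT X (u n)).real (Bo a b)) atTop (𝓝 ((Gk k).real (Bo a b))) :=
    (ENNReal.tendsto_toReal (measure_ne_top _ _)).comp h2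
  have e3 : (Gk k).real (Bo a b) = ∏ j, (gaussianReal 0 1).real (Set.Ioo (a j) (b j)) := by
    rw [Measure.real, Gk_Bo, ENNReal.toReal_prod]
    rfl
  rw [e3] at h3
  refine h3.congr' ?_
  filter_upwards [hpos] with n hn
  unfold PT
  rw [if_pos hn, Measure.real, Measure.map_apply (X_meas hm _) (Bo_open a b).measurableSet]
  rfl

end

end Pool.Agent.Q173.JD
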