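import Pool.Agent.Q173.JD.Dir
import Pool.Agent.Y726.AFTM
import Pool.Agent.Y726.AFTW
import Pool.Agent.Y655.SW.MC
import Pool.Agent.Y41.SW.FM

set_option autoImplicit false

/-! # Asymptotic normality of combinations of the sums over the small primes at several arguments -/

namespace Pool.Agent.Q173.JD

open Filter Topology MeasureTheory Complex
open Pool.Agent.Y745.SW (Py Px xT)
open Pool.Agent.Y743.AF (Prm)

noncomputable section

/-- the primes up to `y` -/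
def SS (y : ℝ) : Finset ℕ := (Finset.Icc 1 ⌊y⌋₊).filter Nat.Prime

lemma mem_SS {y : ℝ} {p : ℕ} (h : p ∈ SS y) : p.Prime ∧ p ≤ ⌊y⌋₊ := by
  unfold SS at h
  rw [Finset.mem_filter, Finset.mem_Icc] at h
  exact ⟨h.2, h.1.2⟩

/-- twisted sums of `1 / p` are bounded -/
lemma tw_bd (c : ℝ) (hc : c ≠ 0) : ∃ C : ℝ, 0 ≤ C ∧ ∀ N : ℕ,
    |∑ p ∈ Prm N, Real.cos (c * Real.log p) / p| ≤ C := by
  obtain ⟨C, hC⟩ := Pool.Agent.Y726.TM.tm c hc
  have hC0 : 0 ≤ C := (abs_nonneg _).trans (hC 0)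
  have hl2 : 0 < Real.log 2 := Real.log_pos (by norm_num)
  refine ⟨C * (1 / Real.log 2), by positivity, fun X => ?_⟩
  rcases Nat.lt_or_ge X 2 with hX2 | hX2
  · have h1 : Prm X = ∅ := by
      unfold Prm
      rw [Finset.filter_eq_empty_iff]
      intro p hp hpp
      have := (Finset.mem_Icc.1 hp).2
      have := hpp.two_le
      omega
    rw [h1]; simp; positivity
  obtain ⟨n, rfl⟩ : ∃ n, X = n + 1 := ⟨X - 1, by omega⟩
  have e1 : ∑ p ∈ Prm (n + 1), Real.cos (c * Real.log p) / p =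
      ∑ p ∈ Prm (n + 1), Real.log p / p * Real.cos (c * Real.log p) * (1 / Real.log p) := by
    refine Finset.sum_congr rfl fun p hp => ?_
    have hp' := (Finset.mem_filter.1 hp).2
    have hl : 0 < Real.log p := Real.log_pos (by exact_mod_cast hp'.one_lt)
    field_simp
  rw [e1, Pool.Agent.Y726.TW.abel c (fun p => 1 / Real.log p) n]
  have hA : ∀ j, |Pool.Agent.Y726.TW.A c j| ≤ C := fun j => hC j
  have hg : ∀ j : ℕ, 2 ≤ j → 1 / Real.log ((j + 1 : ℕ) : ℝ) ≤ 1 / Real.log (j : ℝ) := by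
    intro j hj
    refine one_div_le_one_div_of_le (Real.log_pos (by exact_mod_cast hj)) ?_
    exact Real.log_le_log (by exact_mod_cast (by omega : 0 < j)) (by push_cast; linarith)
  have h1 : |Pool.Agent.Y726.TW.A c (n + 1) * (1 / Real.log ((n + 1 : ℕ) : ℝ))| ≤
      C * (1 / Real.log ((n + 1 : ℕ) : ℝ)) := by
    have : 0 ≤ 1 / Real.log ((n + 1 : ℕ) : ℝ) := by
      have : 0 ≤ Real.log ((n + 1 : ℕ) : ℝ) := Real.log_natCast_nonneg _
      positivity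
    rw [abs_mul, abs_of_nonneg this]
    exact mul_le_mul_of_nonneg_right (hA _) this
  have h2 : |∑ j ∈ Finset.Icc 2 n, Pool.Agent.Y726.TW.A c j *
      (1 / Real.log ((j + 1 : ℕ) : ℝ) - 1 / Real.log (j : ℝ))| ≤
      C * ∑ j ∈ Finset.Icc 2 n, (1 / Real.log (j : ℝ) - 1 / Real.log ((j + 1 : ℕ) : ℝ)) := by
    rw [Finset.mul_sum]
    refine (Finset.abs_sum_le_sum_abs _ _).trans (Finset.sum_le_sum fun j hj => ?_)
    have h3 := hg j (Finset.mem_Icc.1 hj).1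
    rw [abs_mul, abs_of_nonpos (by linarith : 1 / Real.log ((j + 1 : ℕ) : ℝ) - 1 / Real.log (j : ℝ) ≤ 0), neg_sub]
    exact mul_le_mul_of_nonneg_right (hA _) (by linarith)
  have h3 : ∀ n : ℕ, 1 ≤ n → ∑ j ∈ Finset.Icc 2 n, (1 / Real.log (j : ℝ) - 1 / Real.log ((j + 1 : ℕ) : ℝ)) =
      1 / Real.log 2 - 1 / Real.log ((n + 1 : ℕ) : ℝ) := by
    intro n hn
    induction n, hn using Nat.le_induction with
    | base => simp
    | succ n hn ih =>
      rw [Finset.sum_Icc_succ_top (by omega : 2 ≤ n + 1), ih]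
      ring
  rw [h3 n (by omega)] at h2
  refine (abs_sub _ _).trans ((add_le_add h1 h2).trans (le_of_eq ?_))
  ring

/-! ### the sums over the small primes -/

lemma cpow_term (p : ℕ) (hp : 1 ≤ p) (t : ℝ) :
    ((p : ℂ) ^ (-(1 / 2 + (t : ℂ) * I))).im = -((Real.sqrt p)⁻¹ * Real.sin (t * Real.log p)) := by
  have hp0 : (p : ℂ) ≠ 0 := by exact_mod_cast (by omega : p ≠ 0)
  have hpp : (0 : ℝ) < p := by exact_mod_cast hp
  have e1 : (p : ℂ) ^ (-(1 / 2 + (t : ℂ) * I)) = (((Real.sqrt p)⁻¹ : ℝ) : ℂ) * cexp (((-(t * Real.log p) : ℝ) : ℂ) * I) := by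
    have e2 : (-(1 / 2 + (t : ℂ) * I)) = -(1 / 2 : ℂ) + -((t : ℂ) * I) := by ring
    rw [e2, Complex.cpow_add _ _ hp0]
    congr 1
    · rw [Complex.cpow_neg, Complex.ofReal_inv, Real.sqrt_eq_rpow, Complex.ofReal_cpow hpp.le]
      push_cast
      rfl
    · rw [Complex.cpow_def_of_ne_zero hp0, ← Complex.natCast_log]
      congr 1
      push_cast
      ring
  rw [e1, Complex.im_ofReal_mul, Complex.exp_ofReal_mul_I_im, Real.sin_neg]
  ring

/-- `s p = p ^ (-1/2)` -/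
def sP (y : ℝ) (p : ↥(SS y)) : ℝ := (Real.sqrt ((p : ℕ) : ℝ))⁻¹

/-- `w p = log p` -/
def wP (y : ℝ) (p : ↥(SS y)) : ℝ := Real.log ((p : ℕ) : ℝ)

variable {k m : ℕ} (D : Dat k m) (φ : Fin m → ℝ → ℝ)

/-- the arguments -/
def Dat.arg (j : Fin k) (t : ℝ) : ℝ := ∑ i, (D.a j i : ℝ) * φ i t + D.b j

lemma Ys_eq (c : Fin k → ℝ) (y t : ℝ) :
    Ys (fun p => gg D c (sP y p) (wP y p)) (Th φ (wP y) t) = ∑ j, c j * (Py y (D.arg φ j t)).im := by
  unfold Ys gg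
  rw [Finset.sum_comm]
  refine Finset.sum_congr rfl fun j _ => ?_
  rw [← Finset.mul_sum]
  congr 1
  unfold Py
  rw [Complex.im_sum]
  have e1 : (Finset.Icc 1 ⌊y⌋₊).filter Nat.Prime = SS y := rfl
  rw [e1, ← Finset.sum_coe_sort (SS y)]
  refine Finset.sum_congr rfl fun p _ => ?_
  rw [cpow_term _ (mem_SS p.2).1.one_le]
  unfold sP ph Th wP Dat.arg
  congr 3
  rw [add_mul, Finset.sum_mul]
  congr 1
  refine Finset.sum_congr rfl fun i _ => ?_
  ring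

lemma sum_sP2 (y : ℝ) : ∑ p, sP y p ^ 2 = Pool.Agent.Y655.SW.VV y := by
  have e : Pool.Agent.Y655.SW.VV y = ∑ p ∈ SS y, (1 : ℝ) / p := rfl
  rw [e, ← Finset.sum_coe_sort (SS y)]
  refine Finset.sum_congr rfl fun p _ => ?_
  unfold sP
  rw [inv_pow, Real.sq_sqrt (Nat.cast_nonneg _), one_div]

/-- `∑ n ^ (-3/2)` -/
def Z3 : ℝ := ∑' n : ℕ, 1 / (n : ℝ) ^ (3 / 2 : ℝ)

lemma sum_sP3 (y : ℝ) : ∑ p, sP y p ^ 3 ≤ Z3 := by
  have e : ∀ p : ↥(SS y), sP y p ^ 3 = 1 / ((p : ℕ) : ℝ) ^ (3 / 2 : ℝ) := by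
    intro p
    unfold sP
    rw [inv_pow, one_div, Real.sqrt_eq_rpow, ← Real.rpow_natCast, ← Real.rpow_mul (Nat.cast_nonneg _)]
    norm_num
  simp_rw [e]
  rw [Finset.sum_coe_sort (SS y) (fun p : ℕ => 1 / (p : ℝ) ^ (3 / 2 : ℝ))]
  exact Summable.sum_le_tsum _ (fun n _ => by positivity) (Real.summable_one_div_nat_rpow.2 (by norm_num))

lemma sP_le (y : ℝ) (p : ↥(SS y)) : sP y p ≤ 1 := by
  unfold sP
  have h : (1 : ℝ) ≤ Real.sqrt ((p : ℕ) : ℝ) := Real.one_le_sqrt.2 (by exact_mod_cast (mem_SS p.2).1.one_le)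
  exact inv_le_one_of_one_le₀ h

lemma sP_nonneg (y : ℝ) (p : ↥(SS y)) : 0 ≤ sP y p := by unfold sP; positivity

lemma Z3_nonneg : 0 ≤ Z3 := tsum_nonneg fun n => by positivity

variable {D}

/-- the variance of the sum -/
lemma Dat.Ok.var_sum (hD : D.Ok) (c : Fin k → ℝ) : ∃ C : ℝ, 0 ≤ C ∧ ∀ y : ℝ,
    |∑ p, (∫ x, gg D c (sP y p) (wP y p) x ^ 2 ∂(nu m)) - 1 / 2 * (∑ j, c j ^ 2) * Pool.Agent.Y655.SW.VV y| ≤ C := by
  have hC : ∀ j j' : Fin k, ∃ C : ℝ, 0 ≤ C ∧ ∀ y : ℝ, j ≠ j' →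
      |∑ p ∈ SS y, 1 / (p : ℝ) * (c j * c j' * (if D.a j = D.a j' then
        Real.cos ((D.b j - D.b j') * Real.log p) else 0))| ≤ C := by
    intro j j'
    by_cases h : j ≠ j' ∧ D.a j = D.a j'
    · have hb : D.b j - D.b j' ≠ 0 := fun h1 => h.1 (hD.inj j j' h.2 (sub_eq_zero.1 h1))
      obtain ⟨C, hC0, hC⟩ := tw_bd _ hb
      refine ⟨|c j * c j'| * C, by positivity, fun y _ => ?_⟩
      have e1 : ∑ p ∈ SS y, 1 / (p : ℝ) * (c j * c j' * (if D.a j = D.a j' then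
        Real.cos ((D.b j - D.b j') * Real.log p) else 0)) =
          (c j * c j') * ∑ p ∈ Prm ⌊y⌋₊, Real.cos ((D.b j - D.b j') * Real.log p) / p := by
        rw [Finset.mul_sum]
        refine Finset.sum_congr rfl fun p _ => ?_
        rw [if_pos h.2]; ring
      rw [e1, abs_mul]
      exact mul_le_mul_of_nonneg_left (hC _) (abs_nonneg _)
    · refine ⟨0, le_rfl, fun y hne => ?_⟩
      have h2 : D.a j ≠ D.a j' := fun h3 => h ⟨hne, h3⟩
      simp [h2]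
  choose C hC0 hC using hC
  refine ⟨1 / 2 * ∑ j, ∑ j', C j j', by
    have : 0 ≤ ∑ j, ∑ j', C j j' := Finset.sum_nonneg fun j _ => Finset.sum_nonneg fun j' _ => hC0 j j'
    positivity, fun y => ?_⟩
  have e1 : ∑ p, (∫ x, gg D c (sP y p) (wP y p) x ^ 2 ∂(nu m)) = 1 / 2 * ∑ j, ∑ j', ∑ p ∈ SS y, 1 / (p : ℝ) *
      (c j * c j' * (if D.a j = D.a j' then Real.cos ((D.b j - D.b j') * Real.log p) else 0)) := by
    have e2 : ∀ p : ↥(SS y), (∫ x, gg D c (sP y p) (wP y p) x ^ 2 ∂(nu m)) =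
        1 / 2 * ∑ j, ∑ j', 1 / ((p : ℕ) : ℝ) * (c j * c j' * (if D.a j = D.a j' then
          Real.cos ((D.b j - D.b j') * Real.log ((p : ℕ) : ℝ)) else 0)) := by
      intro p
      rw [hD.var]
      unfold sP wP
      rw [inv_pow, Real.sq_sqrt (Nat.cast_nonneg _)]
      simp_rw [← Finset.mul_sum]
      ring
    simp_rw [e2]
    rw [← Finset.mul_sum, Finset.sum_coe_sort (SS y) (fun p : ℕ => ∑ j, ∑ j', 1 / (p : ℝ) * (c j * c j' *
      (if D.a j = D.a j' then Real.cos ((D.b j - D.b j') * Real.log (p : ℝ)) else 0))), Finset.sum_comm]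
    congr 1
    refine Finset.sum_congr rfl fun j _ => ?_
    rw [Finset.sum_comm]
  have e3 : 1 / 2 * (∑ j, c j ^ 2) * Pool.Agent.Y655.SW.VV y = 1 / 2 * ∑ j, ∑ j', if j = j' then
      ∑ p ∈ SS y, 1 / (p : ℝ) * (c j * c j' * (if D.a j = D.a j' then
        Real.cos ((D.b j - D.b j') * Real.log p) else 0)) else 0 := by
    rw [mul_assoc]
    congr 1
    rw [Finset.sum_mul]
    refine Finset.sum_congr rfl fun j _ => ?_
    rw [Finset.sum_ite_eq, if_pos (Finset.mem_univ _)]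
    have e : Pool.Agent.Y655.SW.VV y = ∑ p ∈ SS y, (1 : ℝ) / p := rfl
    rw [e, Finset.mul_sum]
    refine Finset.sum_congr rfl fun p _ => ?_
    simp
    ring
  rw [e1, e3, ← mul_sub, abs_mul, abs_of_pos (by norm_num : (0 : ℝ) < 1 / 2)]
  refine mul_le_mul_of_nonneg_left ?_ (by norm_num)
  rw [← Finset.sum_sub_distrib]
  refine (Finset.abs_sum_le_sum_abs _ _).trans (Finset.sum_le_sum fun j _ => ?_)
  rw [← Finset.sum_sub_distrib]
  refine (Finset.abs_sum_le_sum_abs _ _).trans (Finset.sum_le_sum fun j' _ => ?_)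
  by_cases h : j = j'
  · rw [if_pos h, sub_self, abs_zero]; exact hC0 j j'
  · rw [if_neg h, sub_zero]; exact hC j j' y h

end

end Pool.Agent.Q173.JD
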