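import Pool.Agent.Q173.JD.Gen
import Pool.Agent.Y743.NC.Block

set_option autoImplicit false

/-! # From the heights to the ordinates -/

namespace Pool.Agent.Q173.JD

open Filter Topology MeasureTheory Complex Set ProbabilityTheory
open Pool.Agent.Q173.JL (Dd)
open SG (ord NZ)
open Pool.Agent.Y743.NC (dev dev_nonneg dev_int var_le unit_count)

noncomputable section

/-! ### convergence in law for general families of measures -/

open Classical in
/-- the law of a random vector under `ν` -/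
def PN {k : ℕ} (ν : ℝ → Measure ℝ) (X : ℝ → ℝ → Fin k → ℝ) (T : ℝ) : Measure (EuclideanSpace ℝ (Fin k)) :=
  if IsProbabilityMeasure (ν T) then (ν T).map (fun t => WithLp.toLp 2 (X T t)) else Measure.dirac 0

variable {k : ℕ} {X : ℝ → ℝ → Fin k → ℝ} {ν : ℝ → Measure ℝ}

lemma PN_prob (hm : ∀ T j, Measurable fun t => X T t j) (T : ℝ) : IsProbabilityMeasure (PN ν X T) := by
  unfold PN
  split_ifs with h
  · exact Measure.isProbabilityMeasure_map (X_meas hm T).aemeasurable
  · infer_instance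

/-- **convergence of the joint laws** -/
theorem box_lim' (hν : ∀ᶠ T in atTop, IsProbabilityMeasure (ν T)) (hm : ∀ T j, Measurable fun t => X T t j)
    (hchar : ∀ c : Fin k → ℝ, Tendsto (fun T => ∫ t, cexp (I * ((∑ j, c j * X T t j : ℝ) : ℂ)) ∂(ν T)) atTop
      (𝓝 ((Real.exp (-(1 / 2 * ∑ j, c j ^ 2)) : ℝ) : ℂ))) (a b : Fin k → ℝ) :
    Tendsto (fun T => (ν T).real {t | ∀ j, a j < X T t j ∧ X T t j < b j}) atTop
      (𝓝 (∏ j, (gaussianReal 0 1).real (Set.Ioo (a j) (b j)))) := by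
  refine tendsto_of_seq_tendsto fun u hu => ?_
  have hpos : ∀ᶠ n in atTop, IsProbabilityMeasure (ν (u n)) := hu.eventually hν
  set P : ℕ → ProbabilityMeasure (EuclideanSpace ℝ (Fin k)) := fun n => ⟨PN ν X (u n), PN_prob hm _⟩ with hP
  set G : ProbabilityMeasure (EuclideanSpace ℝ (Fin k)) := ⟨Gk k, inferInstance⟩ with hG
  have hlim : Tendsto P atTop (𝓝 G) := by
    refine ProbabilityMeasure.tendsto_iff_tendsto_charFun.2 fun c => ?_
    have e1 : charFun (G : Measure (EuclideanSpace ℝ (Fin k))) c =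
        ((Real.exp (-(1 / 2 * ∑ j, c j ^ 2)) : ℝ) : ℂ) := Gk_char c
    rw [e1]
    refine ((hchar (fun j => c j)).comp hu).congr' ?_
    filter_upwards [hpos] with n hn
    show (∫ t, cexp (I * ((∑ j, c j * X (u n) t j : ℝ) : ℂ)) ∂(ν (u n))) = charFun (PN ν X (u n)) c
    unfold PN
    rw [if_pos hn, charFun_apply, integral_map (X_meas hm _).aemeasurable]
    · refine integral_congr_ae (Eventually.of_forall fun t => ?_)
      show cexp (I * ((∑ j, c j * X (u n) t j : ℝ) : ℂ)) = _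
      congr 1
      rw [mul_comm]
      congr 2
    · exact (Continuous.measurable (by fun_prop)).aestronglyMeasurable
  have hfr : (G : Measure (EuclideanSpace ℝ (Fin k))) (frontier (Bo a b)) = 0 := Gk_frontier a b
  have h2 := ProbabilityMeasure.tendsto_measure_of_null_frontier_of_tendsto' hlim hfr
  have h3 : Tendsto (fun n => (PN ν X (u n)).real (Bo a b)) atTop (𝓝 ((Gk k).real (Bo a b))) :=
    (ENNReal.tendsto_toReal (measure_ne_top _ _)).comp h2
  have e3 : (Gk k).real (Bo a b) = ∏ j, (gaussianReal 0 1).real (Set.Ioo (a j) (b j)) := by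
    rw [Measure.real, Gk_Bo, ENNReal.toReal_prod]
    rfl
  rw [e3] at h3
  refine h3.congr' ?_
  filter_upwards [hpos] with n hn
  unfold PN
  rw [if_pos hn, Measure.real, Measure.map_apply (X_meas hm _) (Bo_open a b).measurableSet]
  rfl

/-- linear combinations -/
theorem lin_law' (hν : ∀ᶠ T in atTop, IsProbabilityMeasure (ν T)) (hm : ∀ T j, Measurable fun t => X T t j)
    (hchar : ∀ c : Fin k → ℝ, Tendsto (fun T => ∫ t, cexp (I * ((∑ j, c j * X T t j : ℝ) : ℂ)) ∂(ν T)) atTop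
      (𝓝 ((Real.exp (-(1 / 2 * ∑ j, c j ^ 2)) : ℝ) : ℂ))) (c : Fin k → ℝ) (hc : 0 < ∑ j, c j ^ 2) (a b : ℝ) :
    Tendsto (fun T => (ν T).real {t | a < (∑ j, c j * X T t j) / Real.sqrt (∑ j, c j ^ 2) ∧
      (∑ j, c j * X T t j) / Real.sqrt (∑ j, c j ^ 2) < b}) atTop
      (𝓝 ((ProbabilityTheory.gaussianReal 0 1).real (Set.Ioo a b))) := by
  set r := Real.sqrt (∑ j, c j ^ 2) with hr
  have hr0 : 0 < r := Real.sqrt_pos.2 hc
  have hr2 : r ^ 2 = ∑ j, c j ^ 2 := Real.sq_sqrt hc.le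
  have h := box_lim' (k := 1) (X := fun T t _ => (∑ j, c j * X T t j) / r) hν
    (fun T _ => (Finset.measurable_sum _ fun j _ => (hm T j).const_mul _).div_const _) (fun c' => by
      have h1 := hchar (fun j => c' 0 / r * c j)
      have e1 : ∑ j, (c' 0 / r * c j) ^ 2 = ∑ i : Fin 1, c' i ^ 2 := by
        simp_rw [mul_pow]
        rw [← Finset.mul_sum, ← hr2, Fin.sum_univ_one]
        field_simp
      rw [e1] at h1
      refine h1.congr fun T => ?_
      refine integral_congr_ae (Eventually.of_forall fun t => ?_)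
      show cexp (I * ((∑ j, c' 0 / r * c j * X T t j : ℝ) : ℂ)) = cexp (I * ((∑ i : Fin 1, c' i * ((∑ j, c j * X T t j) / r) : ℝ) : ℂ))
      congr 3
      rw [Fin.sum_univ_one, Finset.sum_div, Finset.mul_sum]
      refine Finset.sum_congr rfl fun j _ => ?_
      ring) (fun _ => a) (fun _ => b)
  simpa using h

/-! ### the measure on the ordinates -/

/-- the indices of the ordinates in `(T, 2T]` -/
def SO (T : ℝ) : Finset ℕ := Finset.Ioc (NZ T) (NZ (2 * T))

lemma mem_SO {T : ℝ} {n : ℕ} (hn : n ∈ SO T) : 1 ≤ n ∧ T < ord n ∧ ord n ≤ 2 * T := by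
  unfold SO at hn
  rw [Finset.mem_Ioc] at hn
  have h1 : 1 ≤ n := by omega
  refine ⟨h1, ?_, (SG.ord_le_iff h1 _).2 hn.2⟩
  by_contra h
  push Not at h
  have := (SG.ord_le_iff h1 _).1 h
  omega

/-- the uniform distribution on the ordinates in `(T, 2T]` -/
def nuT (T : ℝ) : Measure ℝ := ((SO T).card : ENNReal)⁻¹ • ∑ n ∈ SO T, Measure.dirac (ord n)

lemma nuT_prob {T : ℝ} (h : 0 < (SO T).card) : IsProbabilityMeasure (nuT T) := by
  constructor
  unfold nuT
  rw [Measure.smul_apply, Measure.finsetSum_apply, smul_eq_mul]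
  simp only [measure_univ, Finset.sum_const, nsmul_eq_mul, mul_one]
  exact ENNReal.inv_mul_cancel (by exact_mod_cast h.ne') (ENNReal.natCast_ne_top _)

lemma nuT_int {T : ℝ} (f : ℝ → ℂ) : ∫ t, f t ∂(nuT T) = ((SO T).card : ℂ)⁻¹ * ∑ n ∈ SO T, f (ord n) := by
  unfold nuT
  rw [integral_smul_measure, integral_finsetSum_measure (fun n _ => integrable_dirac (by simp))]
  simp only [integral_dirac]
  rw [ENNReal.toReal_inv, ENNReal.toReal_natCast, Complex.real_smul]
  push_cast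
  rfl

open Classical in
lemma nuT_real {T : ℝ} (P : ℝ → Prop) (hP : MeasurableSet {t | P t}) :
    (nuT T).real {t | P t} = (((SO T).filter fun n => P (ord n)).card : ℝ) / (SO T).card := by
  unfold nuT
  rw [measureReal_ennreal_smul_apply, Measure.real, Measure.finsetSum_apply, ENNReal.toReal_inv, ENNReal.toReal_natCast]
  simp only [Measure.dirac_apply' _ hP]
  rw [ENNReal.toReal_sum (fun n _ => by
    rw [Set.indicator_apply]; split_ifs <;> simp), div_eq_inv_mul]
  congr 1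
  rw [Finset.card_filter]
  push_cast
  refine Finset.sum_congr rfl fun n _ => ?_
  rw [Set.indicator_apply]
  by_cases h : P (ord n)
  · rw [if_pos h, if_pos (show ord n ∈ {t | P t} from h)]; simp
  · rw [if_neg h, if_neg (show ord n ∉ {t | P t} from h)]; simp

/-! ### comparison of the averages -/

open Classical in
/-- the sum over the ordinates in the window behind `t` -/
def FO (T ℓ : ℝ) (g : ℝ → ℂ) (t : ℝ) : ℂ := ∑ n ∈ SO T, if ord n - ℓ ≤ t ∧ t < ord n then g (ord n) else 0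

open Classical in
/-- their number -/
def cO (T ℓ t : ℝ) : ℕ := ((SO T).filter fun n => ord n - ℓ ≤ t ∧ t < ord n).card

lemma term_eq (o ℓ : ℝ) (c : ℂ) : (fun t : ℝ => open Classical in if o - ℓ ≤ t ∧ t < o then c else 0) =
    (Ico (o - ℓ) o).indicator fun _ => c := by
  funext t
  rw [Set.indicator_apply]
  rfl

lemma term_int (o ℓ : ℝ) (c : ℂ) (A B : ℝ) : IntervalIntegrable (fun t : ℝ => open Classical in
    if o - ℓ ≤ t ∧ t < o then c else 0) volume A B := by
  rw [term_eq]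
  refine (intervalIntegrable_const (c := c)).mono_fun ((measurable_const.indicator measurableSet_Ico).aestronglyMeasurable)
    (Eventually.of_forall fun t => ?_)
  exact norm_indicator_le_norm_self _ _

lemma term_val {o ℓ A B : ℝ} (hℓ : 0 ≤ ℓ) (hA : A < o - ℓ) (hB : o ≤ B) (c : ℂ) :
    ∫ t in A..B, (open Classical in if o - ℓ ≤ t ∧ t < o then c else 0) = ℓ * c := by
  rw [intervalIntegral.integral_of_le (by linarith), term_eq, integral_indicator measurableSet_Ico,
    Measure.restrict_restrict measurableSet_Ico, setIntegral_const]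
  have : Ico (o - ℓ) o ∩ Ioc A B = Ico (o - ℓ) o := by
    apply inter_eq_left.mpr
    intro t ht
    exact ⟨by linarith [ht.1], by linarith [ht.2]⟩
  rw [this, Measure.real, Real.volume_Ico, ENNReal.toReal_ofReal (by linarith), Complex.real_smul]
  congr 2
  ring

lemma FO_int (T ℓ : ℝ) (g : ℝ → ℂ) (A B : ℝ) : IntervalIntegrable (FO T ℓ g) volume A B := by
  classical
  have h : FO T ℓ g = ∑ n ∈ SO T, fun t : ℝ => if ord n - ℓ ≤ t ∧ t < ord n then g (ord n) else 0 := by
    funext t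
    rw [Finset.sum_apply]
    unfold FO
    refine Finset.sum_congr rfl fun n _ => ?_
    congr
  rw [h]
  refine IntervalIntegrable.sum _ fun n _ => ?_
  exact term_int (ord n) ℓ (g (ord n)) A B

lemma FO_val {T ℓ : ℝ} (hℓ : 0 ≤ ℓ) (g : ℝ → ℂ) : ∫ t in (T - ℓ)..2 * T, FO T ℓ g t = ℓ * ∑ n ∈ SO T, g (ord n) := by
  classical
  unfold FO
  rw [intervalIntegral.integral_finsetSum fun n _ => term_int (ord n) ℓ (g (ord n)) _ _, Finset.mul_sum]
  refine Finset.sum_congr rfl fun n hn => ?_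
  obtain ⟨-, h2, h3⟩ := mem_SO hn
  exact term_val hℓ (by linarith) h3 _

lemma cO_le {T ℓ : ℝ} (hℓ : 0 ≤ ℓ) (t : ℝ) : (cO T ℓ t : ℝ) ≤ (NZ (t + ℓ) : ℝ) - NZ t := by
  classical
  have hmono : NZ t ≤ NZ (t + ℓ) := SG.NZ_mono (by linarith)
  rw [← Nat.cast_sub hmono, ← Nat.card_Ioc]
  have : cO T ℓ t ≤ (Finset.Ioc (NZ t) (NZ (t + ℓ))).card := by
    unfold cO
    refine Finset.card_le_card fun n hn => ?_
    rw [Finset.mem_filter] at hn
    obtain ⟨h1, h2, h3⟩ := hn
    have h4 := (mem_SO h1).1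
    rw [Finset.mem_Ioc]
    refine ⟨?_, (SG.ord_le_iff h4 _).1 (by linarith)⟩
    by_contra h
    push Not at h
    have := (SG.ord_le_iff h4 _).2 h
    linarith
  exact_mod_cast this

lemma cO_eq {T ℓ t : ℝ} (hℓ : 0 ≤ ℓ) (h1 : T ≤ t) (h2 : t + ℓ ≤ 2 * T) : (cO T ℓ t : ℝ) = (NZ (t + ℓ) : ℝ) - NZ t := by
  classical
  refine le_antisymm (cO_le hℓ t) ?_
  have hmono : NZ t ≤ NZ (t + ℓ) := SG.NZ_mono (by linarith)
  rw [← Nat.cast_sub hmono, ← Nat.card_Ioc]
  have : (Finset.Ioc (NZ t) (NZ (t + ℓ))).card ≤ cO T ℓ t := by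
    unfold cO
    refine Finset.card_le_card fun n hn => ?_
    rw [Finset.mem_Ioc] at hn
    have h4 : 1 ≤ n := by omega
    rw [Finset.mem_filter]
    have h5 := (SG.ord_le_iff h4 _).2 hn.2
    refine ⟨?_, by linarith, ?_⟩
    · unfold SO
      rw [Finset.mem_Ioc]
      exact ⟨lt_of_le_of_lt (SG.NZ_mono h1) hn.1, hn.2.trans (SG.NZ_mono h2)⟩
    · by_contra h
      push Not at h
      have := (SG.ord_le_iff h4 _).1 h
      omega
  exact_mod_cast this

lemma FO_bd {T ℓ : ℝ} {g : ℝ → ℂ} (hg : ∀ t, ‖g t‖ ≤ 1) (t : ℝ) : ‖FO T ℓ g t‖ ≤ cO T ℓ t := by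
  classical
  unfold FO cO
  refine (norm_sum_le _ _).trans ?_
  rw [Finset.card_filter]
  push_cast
  refine Finset.sum_le_sum fun n _ => ?_
  split_ifs
  · exact hg _
  · simp

lemma FO_pt {T ℓ A w t : ℝ} {g : ℝ → ℂ} (hℓ : 0 ≤ ℓ) (hA : 0 ≤ A) (hw : 0 ≤ w) (hg : ∀ t, ‖g t‖ ≤ 1) (h1 : T ≤ t)
    (h2 : t + ℓ ≤ 2 * T) (hlip : ∀ v, t ≤ v → v ≤ t + ℓ → ‖g v - g t‖ ≤ w) :
    ‖FO T ℓ g t - A * g t‖ ≤ A * w + 3 * |(NZ (t + ℓ) : ℝ) - NZ t - A| := by
  classical
  rw [← cO_eq hℓ h1 h2]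
  set c : ℝ := (cO T ℓ t : ℝ) with hc
  have hc0 : 0 ≤ c := Nat.cast_nonneg _
  have e1 : FO T ℓ g t - A * g t = (∑ n ∈ SO T, if ord n - ℓ ≤ t ∧ t < ord n then (g (ord n) - g t) else 0) +
      ((c - A : ℝ) : ℂ) * g t := by
    have e2 : ((c : ℝ) : ℂ) * g t = ∑ n ∈ SO T, if ord n - ℓ ≤ t ∧ t < ord n then g t else 0 := by
      rw [hc]
      unfold cO
      rw [Finset.card_filter]
      push_cast
      rw [Finset.sum_mul]
      refine Finset.sum_congr rfl fun n _ => ?_
      split_ifs <;> simp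
    have e3 : FO T ℓ g t = (∑ n ∈ SO T, if ord n - ℓ ≤ t ∧ t < ord n then (g (ord n) - g t) else 0) +
        ∑ n ∈ SO T, if ord n - ℓ ≤ t ∧ t < ord n then g t else 0 := by
      unfold FO
      rw [← Finset.sum_add_distrib]
      refine Finset.sum_congr rfl fun n _ => ?_
      split_ifs <;> simp
    rw [e3, ← e2]
    push_cast
    ring
  have h3 : ‖∑ n ∈ SO T, if ord n - ℓ ≤ t ∧ t < ord n then (g (ord n) - g t) else 0‖ ≤ c * min 2 w := by
    rw [hc]
    unfold cO
    refine (norm_sum_le _ _).trans ?_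
    rw [Finset.card_filter]
    push_cast
    rw [Finset.sum_mul]
    refine Finset.sum_le_sum fun n _ => ?_
    split_ifs with h
    · rw [one_mul]
      refine le_min ?_ (hlip _ h.2.le (by linarith [h.1]))
      exact (norm_sub_le _ _).trans (by linarith [hg (ord n), hg t])
    · simp
  have h4 : c * min 2 w ≤ A * w + 2 * |c - A| := by
    have h5 : 0 ≤ |c - A| := abs_nonneg _
    rcases le_total c A with h | h
    · calc c * min 2 w ≤ A * w := mul_le_mul h (min_le_right _ _) (le_min (by norm_num) hw) hA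
        _ ≤ _ := by linarith
    · rw [abs_of_nonneg (by linarith)]
      have h6 : A * min 2 w ≤ A * w := mul_le_mul_of_nonneg_left (min_le_right _ _) hA
      have h7 : (c - A) * min 2 w ≤ (c - A) * 2 := mul_le_mul_of_nonneg_left (min_le_left _ _) (by linarith)
      linarith
  have h8 : ‖((c - A : ℝ) : ℂ) * g t‖ ≤ |c - A| := by
    rw [norm_mul, Complex.norm_real, Real.norm_eq_abs]
    exact mul_le_of_le_one_right (abs_nonneg _) (hg t)
  rw [e1]
  refine (norm_add_le _ _).trans ?_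
  linarith

lemma W_int {W : ℝ → ℝ} {T ℓ : ℝ} (hℓ : 0 ≤ ℓ) (hT : 0 ≤ T) (hW : MonotoneOn W (Icc T (2 * T + ℓ))) :
    IntervalIntegrable (fun t => W (t + ℓ) - W t) volume T (2 * T) ∧
    ∫ t in T..2 * T, (W (t + ℓ) - W t) ≤ ℓ * (W (2 * T + ℓ) - W T) := by
  have i1 : ∀ a b, T ≤ a → a ≤ b → b ≤ 2 * T + ℓ → IntervalIntegrable W volume a b := fun a b h1 h2 h3 =>
    (hW.mono (by rw [uIcc_of_le h2]; exact Icc_subset_Icc h1 h3)).intervalIntegrable
  have i2 : IntervalIntegrable (fun t => W (t + ℓ)) volume T (2 * T) := by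
    have := (i1 (T + ℓ) (2 * T + ℓ) (by linarith) (by linarith) le_rfl).comp_add_right ℓ
    simpa using this
  have i3 := i1 T (2 * T) le_rfl (by linarith) (by linarith)
  refine ⟨i2.sub i3, ?_⟩
  rw [intervalIntegral.integral_sub i2 i3, intervalIntegral.integral_comp_add_right]
  by_cases hTℓ : T + ℓ ≤ 2 * T
  · have e1 : ∫ t in (T + ℓ)..(2 * T + ℓ), W t = (∫ t in (T + ℓ)..(2 * T), W t) + ∫ t in (2 * T)..(2 * T + ℓ), W t :=
      (intervalIntegral.integral_add_adjacent_intervals (i1 _ _ (by linarith) hTℓ (by linarith))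
        (i1 _ _ (by linarith) (by linarith) le_rfl)).symm
    have e2 : ∫ t in T..(2 * T), W t = (∫ t in T..(T + ℓ), W t) + ∫ t in (T + ℓ)..(2 * T), W t :=
      (intervalIntegral.integral_add_adjacent_intervals (i1 _ _ le_rfl (by linarith) (by linarith))
        (i1 _ _ (by linarith) hTℓ (by linarith))).symm
    have h1 : ∫ t in (2 * T)..(2 * T + ℓ), W t ≤ ∫ _ in (2 * T)..(2 * T + ℓ), W (2 * T + ℓ) :=
      intervalIntegral.integral_mono_on (by linarith) (i1 _ _ (by linarith) (by linarith) le_rfl)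
        intervalIntegrable_const fun t ht => hW ⟨by linarith [ht.1], by linarith [ht.2]⟩ ⟨by linarith, le_rfl⟩ ht.2
    have h2 : ∫ _ in T..(T + ℓ), W T ≤ ∫ t in T..(T + ℓ), W t :=
      intervalIntegral.integral_mono_on (by linarith) intervalIntegrable_const (i1 _ _ le_rfl (by linarith) (by linarith))
        fun t ht => hW ⟨le_rfl, by linarith⟩ ⟨ht.1, by linarith [ht.2]⟩ ht.1
    rw [intervalIntegral.integral_const, smul_eq_mul] at h1 h2
    rw [e1, e2]
    nlinarith
  · push Not at hTℓ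
    have h1 : ∫ t in (T + ℓ)..(2 * T + ℓ), W t ≤ ∫ _ in (T + ℓ)..(2 * T + ℓ), W (2 * T + ℓ) :=
      intervalIntegral.integral_mono_on (by linarith) (i1 _ _ (by linarith) (by linarith) le_rfl)
        intervalIntegrable_const fun t ht => hW ⟨by linarith [ht.1], ht.2⟩ ⟨by linarith, le_rfl⟩ ht.2
    have h2 : ∫ _ in T..(2 * T), W T ≤ ∫ t in T..(2 * T), W t :=
      intervalIntegral.integral_mono_on (by linarith) intervalIntegrable_const (i1 _ _ le_rfl (by linarith) (by linarith))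
        fun t ht => hW ⟨le_rfl, by linarith⟩ ⟨ht.1, by linarith [ht.2]⟩ ht.1
    rw [intervalIntegral.integral_const, smul_eq_mul] at h1 h2
    have h3 : W T ≤ W (2 * T + ℓ) := hW ⟨le_rfl, by linarith⟩ ⟨by linarith, le_rfl⟩ (by linarith)
    nlinarith

lemma dev_abs {T A C0 : ℝ} (hC : 1 ≤ C0) (hA : 0 < A) (hT : 0 < T)
    (h : ∫ t in Icc T (2 * T), dev T A t ≤ T * (C0 + Real.log (1 + A))) :
    IntervalIntegrable (fun t => |(NZ (t + 2 * Real.pi * A / Real.log T) : ℝ) - NZ t - A|) volume T (2 * T) ∧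
    ∫ t in T..2 * T, |(NZ (t + 2 * Real.pi * A / Real.log T) : ℝ) - NZ t - A| ≤
      T * Real.sqrt (C0 + Real.log (1 + A)) := by
  have hTT : T ≤ 2 * T := by linarith
  have i1 : IntegrableOn (fun t => |(NZ (t + 2 * Real.pi * A / Real.log T) : ℝ) - NZ t - A|) (Icc T (2 * T)) :=
    Pool.Agent.Y743.LR.step_int SG.NZ_mono (fun n m => |(m : ℝ) - n - A|) _ _ _
  refine ⟨(intervalIntegrable_iff_integrableOn_Icc_of_le hTT).2 i1, ?_⟩
  set s := Real.sqrt (C0 + Real.log (1 + A)) with hs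
  have hl : 0 ≤ Real.log (1 + A) := Real.log_nonneg (by linarith)
  have hs0 : 0 < s := Real.sqrt_pos.2 (by linarith)
  have hs2 : s * s = C0 + Real.log (1 + A) := Real.mul_self_sqrt (by linarith)
  rw [intervalIntegral.integral_of_le hTT, ← integral_Icc_eq_integral_Ioc]
  have i2 : IntegrableOn (dev T A) (Icc T (2 * T)) := dev_int _ _ _ _
  have i3 : IntegrableOn (fun _ : ℝ => s) (Icc T (2 * T)) :=
    integrableOn_const (by rw [Real.volume_Icc]; exact ENNReal.ofReal_ne_top)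
  have h1 : ∫ t in Icc T (2 * T), |(NZ (t + 2 * Real.pi * A / Real.log T) : ℝ) - NZ t - A| ≤
      ∫ t in Icc T (2 * T), (s + (1 / s) * dev T A t) / 2 := by
    refine setIntegral_mono i1 ((i3.add (i2.const_mul (1 / s))).div_const 2) fun t => ?_
    show |(NZ (t + 2 * Real.pi * A / Real.log T) : ℝ) - NZ t - A| ≤ (s + (1 / s) * dev T A t) / 2
    unfold dev
    set x := (NZ (t + 2 * Real.pi * A / Real.log T) : ℝ) - NZ t - A with hx
    have h6 : 0 ≤ (s - |x|) ^ 2 / s := by positivity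
    have h7 : (s - |x|) ^ 2 / s = s - 2 * |x| + 1 / s * x ^ 2 := by
      rw [sub_sq, sq_abs]
      field_simp
    linarith
  refine h1.trans ?_
  have e1 : ∫ t in Icc T (2 * T), (s + (1 / s) * dev T A t) / 2 = (s * T + (1 / s) * ∫ t in Icc T (2 * T), dev T A t) / 2 := by
    rw [integral_div]
    congr 1
    have : ∫ t in Icc T (2 * T), (s + (1 / s) * dev T A t) = (∫ t in Icc T (2 * T), s) + ∫ t in Icc T (2 * T), (1 / s) * dev T A t :=
      integral_add i3 (i2.const_mul (1 / s))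
    rw [this, integral_const_mul, setIntegral_const, smul_eq_mul, Real.volume_real_Icc_of_le hTT]
    ring
  rw [e1]
  have h2 : (1 / s) * ∫ t in Icc T (2 * T), dev T A t ≤ T * s := by
    calc (1 / s) * ∫ t in Icc T (2 * T), dev T A t ≤ (1 / s) * (T * (C0 + Real.log (1 + A))) :=
          mul_le_mul_of_nonneg_left h (by positivity)
      _ = T * s := by rw [← hs2]; field_simp
  linarith

theorem ord_est : ∃ C0 C1 : ℝ, 1 ≤ C0 ∧ 0 < C1 ∧ ∀ A : ℝ, 1 ≤ A → ∀ᶠ T : ℝ in atTop,
    ∀ (g : ℝ → ℂ) (z : ℝ) (W : ℝ → ℝ), Measurable g → (∀ t, ‖g t‖ ≤ 1) → 0 ≤ z → MonotoneOn W (Icc T (2 * T + 1)) →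
    (∀ t v, T ≤ t → t ≤ v → v ≤ 2 * T → ‖g v - g t‖ ≤ z * (W v - W t)) →
    ‖((2 * Real.pi * A / Real.log T : ℝ) : ℂ) * ∑ n ∈ SO T, g (ord n) - A * ∫ t in T..2 * T, g t‖ ≤
      A * z * (2 * Real.pi * A / Real.log T * (W (2 * T + 1) - W T)) + 3 * (T * Real.sqrt (C0 + Real.log (1 + A))) +
      2 * (2 * Real.pi * A / Real.log T) * (C1 * Real.log T + A) := by
  obtain ⟨C0, T0, hC0, hT0, hv⟩ := var_le
  obtain ⟨C, hC, hu⟩ := unit_count
  refine ⟨C0, 2 * C, hC0, by positivity, fun A hA => ?_⟩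
  have hpi := Real.pi_pos
  have hA0 : 0 < A := by linarith
  filter_upwards [eventually_ge_atTop T0, Real.tendsto_log_atTop.eventually_ge_atTop (max (A * Real.log A) (2 * Real.pi * A))]
    with T h1 h2 g z W hgm hg hz hW hlip
  have hT10 : 10 ≤ T := hT0.trans h1
  have hT : 0 < T := by linarith
  have hL : 0 < Real.log T := Real.log_pos (by linarith)
  set ℓ : ℝ := 2 * Real.pi * A / Real.log T with hℓ
  have hℓ0 : 0 < ℓ := by positivity
  have hℓ1 : ℓ ≤ 1 := by rw [hℓ, div_le_one hL]; exact (le_max_right _ _).trans h2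
  have hd := hv T h1 A hA0 ((le_max_left _ _).trans h2)
  obtain ⟨i0, hd2⟩ := dev_abs hC0 hA0 hT hd
  rw [← hℓ] at i0 hd2
  -- the number of zeros in a window
  have hcnt : ∀ t, T - ℓ ≤ t → t ≤ 2 * T → (cO T ℓ t : ℝ) ≤ 2 * C * Real.log T := by
    intro t ht1 ht2
    have a1 := cO_le (T := T) hℓ0.le t
    have a2 : (NZ (t + ℓ) : ℝ) ≤ NZ (t + 1) := by exact_mod_cast SG.NZ_mono (by linarith)
    have a3 := hu t (by linarith)
    have a4 : Real.log t ≤ 2 * Real.log T := by
      have : Real.log t ≤ Real.log (T ^ 2) := Real.log_le_log (by linarith) (by nlinarith)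
      rwa [Real.log_pow] at this
    nlinarith
  have hgi : ∀ a b : ℝ, IntervalIntegrable g volume a b := fun a b =>
    (intervalIntegrable_const (c := (1 : ℝ))).mono_fun hgm.aestronglyMeasurable
      (Eventually.of_forall fun t => by simpa using hg t)
  have hFi := FO_int T ℓ g
  have e1 : ((ℓ : ℝ) : ℂ) * ∑ n ∈ SO T, g (ord n) - A * ∫ t in T..2 * T, g t =
      (∫ t in (T - ℓ)..T, FO T ℓ g t) + (∫ t in T..(2 * T - ℓ), (FO T ℓ g t - A * g t)) +
      ∫ t in (2 * T - ℓ)..(2 * T), (FO T ℓ g t - A * g t) := by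
    rw [← FO_val hℓ0.le g, intervalIntegral.integral_sub (hFi _ _) ((hgi _ _).const_mul _),
      intervalIntegral.integral_sub (hFi _ _) ((hgi _ _).const_mul _),
      ← intervalIntegral.integral_add_adjacent_intervals (hFi (T - ℓ) T) (hFi T (2 * T)),
      ← intervalIntegral.integral_add_adjacent_intervals (hFi T (2 * T - ℓ)) (hFi (2 * T - ℓ) (2 * T)),
      ← intervalIntegral.integral_add_adjacent_intervals (hgi T (2 * T - ℓ)) (hgi (2 * T - ℓ) (2 * T)),
      intervalIntegral.integral_const_mul, intervalIntegral.integral_const_mul]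
    ring
  rw [e1]
  have b1 : ‖∫ t in (T - ℓ)..T, FO T ℓ g t‖ ≤ 2 * C * Real.log T * ℓ := by
    have := intervalIntegral.norm_integral_le_of_norm_le_const (a := T - ℓ) (b := T) (C := 2 * C * Real.log T)
      (f := FO T ℓ g) fun t ht => by
        rw [uIoc_of_le (by linarith)] at ht
        exact (FO_bd hg t).trans (hcnt t ht.1.le (by linarith [ht.2]))
    rwa [show T - (T - ℓ) = ℓ by ring, abs_of_pos hℓ0] at this
  have b3 : ‖∫ t in (2 * T - ℓ)..(2 * T), (FO T ℓ g t - A * g t)‖ ≤ (2 * C * Real.log T + A) * ℓ := by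
    have := intervalIntegral.norm_integral_le_of_norm_le_const (a := 2 * T - ℓ) (b := 2 * T) (C := 2 * C * Real.log T + A)
      (f := fun t => FO T ℓ g t - A * g t) fun t ht => by
        rw [uIoc_of_le (by linarith)] at ht
        refine (norm_sub_le _ _).trans (add_le_add ((FO_bd hg t).trans (hcnt t (by linarith [ht.1]) ht.2)) ?_)
        rw [norm_mul, Complex.norm_real, Real.norm_eq_abs, abs_of_pos hA0]
        exact mul_le_of_le_one_right hA0.le (hg t)
    rwa [show 2 * T - (2 * T - ℓ) = ℓ by ring, abs_of_pos hℓ0] at this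
  have hW' : MonotoneOn W (Icc T (2 * T + ℓ)) := hW.mono (Icc_subset_Icc le_rfl (by linarith))
  obtain ⟨i2, hw2⟩ := W_int hℓ0.le hT.le hW'
  have b2 : ‖∫ t in T..(2 * T - ℓ), (FO T ℓ g t - A * g t)‖ ≤
      A * z * (ℓ * (W (2 * T + 1) - W T)) + 3 * (T * Real.sqrt (C0 + Real.log (1 + A))) := by
    have i3 : IntervalIntegrable (fun t => A * (z * (W (t + ℓ) - W t)) + 3 * |(NZ (t + ℓ) : ℝ) - NZ t - A|) volume T (2 * T) :=
      ((i2.const_mul z).const_mul A).add (i0.const_mul 3)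
    have i4 : IntervalIntegrable (fun t => A * (z * (W (t + ℓ) - W t)) + 3 * |(NZ (t + ℓ) : ℝ) - NZ t - A|) volume T (2 * T - ℓ) :=
      i3.mono_set (by rw [uIcc_of_le (by linarith), uIcc_of_le (by linarith)]; exact Icc_subset_Icc le_rfl (by linarith))
    have hWW : ∀ t ∈ Icc T (2 * T), 0 ≤ W (t + ℓ) - W t := fun t ht =>
      sub_nonneg.2 (hW' ⟨ht.1, by linarith [ht.2]⟩ ⟨by linarith [ht.1], by linarith [ht.2]⟩ (by linarith))
    calc ‖∫ t in T..(2 * T - ℓ), (FO T ℓ g t - A * g t)‖ ≤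
          ∫ t in T..(2 * T - ℓ), (A * (z * (W (t + ℓ) - W t)) + 3 * |(NZ (t + ℓ) : ℝ) - NZ t - A|) := by
          refine intervalIntegral.norm_integral_le_of_norm_le (by linarith) (Eventually.of_forall fun t ht => ?_) i4
          refine FO_pt hℓ0.le hA0.le (mul_nonneg hz (hWW t ⟨ht.1.le, by linarith [ht.2]⟩)) hg ht.1.le (by linarith [ht.2]) ?_
          intro v hv1 hv2
          refine (hlip t v ht.1.le hv1 (by linarith [ht.2])).trans (mul_le_mul_of_nonneg_left ?_ hz)
          have := hW' (a := v) (b := t + ℓ) ⟨by linarith [ht.1], by linarith [ht.2]⟩ ⟨by linarith [ht.1], by linarith [ht.2]⟩ hv2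
          linarith
      _ ≤ ∫ t in T..2 * T, (A * (z * (W (t + ℓ) - W t)) + 3 * |(NZ (t + ℓ) : ℝ) - NZ t - A|) := by
          have h5 := intervalIntegral.integral_add_adjacent_intervals i4 (i3.mono_set (c := 2 * T - ℓ) (d := 2 * T)
            (by rw [uIcc_of_le (by linarith), uIcc_of_le (by linarith)]; exact Icc_subset_Icc (by linarith) le_rfl))
          have h6 : 0 ≤ ∫ t in (2 * T - ℓ)..(2 * T), (A * (z * (W (t + ℓ) - W t)) + 3 * |(NZ (t + ℓ) : ℝ) - NZ t - A|) :=
            intervalIntegral.integral_nonneg (by linarith) fun t ht => by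
              have := hWW t ⟨by linarith [ht.1], ht.2⟩
              positivity
          linarith
      _ = A * (z * ∫ t in T..2 * T, (W (t + ℓ) - W t)) + 3 * ∫ t in T..2 * T, |(NZ (t + ℓ) : ℝ) - NZ t - A| := by
          rw [intervalIntegral.integral_add ((i2.const_mul z).const_mul A) (i0.const_mul 3),
            intervalIntegral.integral_const_mul, intervalIntegral.integral_const_mul, intervalIntegral.integral_const_mul]
      _ ≤ _ := by
          have h7 : W (2 * T + ℓ) ≤ W (2 * T + 1) := hW ⟨by linarith, by linarith⟩ ⟨by linarith, le_rfl⟩ (by linarith)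
          have h8 : ℓ * (W (2 * T + ℓ) - W T) ≤ ℓ * (W (2 * T + 1) - W T) := mul_le_mul_of_nonneg_left (by linarith) hℓ0.le
          have h9 : A * (z * ∫ t in T..2 * T, (W (t + ℓ) - W t)) ≤ A * (z * (ℓ * (W (2 * T + 1) - W T))) :=
            mul_le_mul_of_nonneg_left (mul_le_mul_of_nonneg_left (hw2.trans h8) hz) hA0.le
          nlinarith
  have hfin := (norm_add₃_le).trans (add_le_add (add_le_add b1 b2) b3)
  refine hfin.trans ?_
  nlinarith [mul_pos hA0 hℓ0]

open Pool.Agent.Q173.NL (XX XX_pos NZ_asymp) in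
lemma NX_lim : Tendsto (fun T : ℝ => (NZ T : ℝ) / XX T) atTop (𝓝 1) := by
  rw [Metric.tendsto_nhds]
  intro ε hε
  obtain ⟨T0, h0, h⟩ := NZ_asymp (ε / 2) (half_pos hε)
  filter_upwards [eventually_ge_atTop T0] with T hT
  have hX := XX_pos (show 1 < T by linarith)
  obtain ⟨h1, h2⟩ := h T hT
  rw [Real.dist_eq, abs_lt]
  constructor
  · have : 1 - ε / 2 ≤ (NZ T : ℝ) / XX T := by rwa [le_div_iff₀ hX]
    linarith
  · have : (NZ T : ℝ) / XX T ≤ 1 + ε / 2 := by rwa [div_le_iff₀ hX]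
    linarith

lemma SO_card (T : ℝ) (hT : 0 ≤ T) : ((SO T).card : ℝ) = (NZ (2 * T) : ℝ) - NZ T := by
  unfold SO
  rw [Nat.card_Ioc, Nat.cast_sub (SG.NZ_mono (by linarith))]

open Pool.Agent.Q173.NL (XX XX_pos NZ_asymp) in
lemma K_lim : Tendsto (fun T : ℝ => ((SO T).card : ℝ) * (2 * Real.pi) / (T * Real.log T)) atTop (𝓝 1) := by
  have h1 := NX_lim
  have h2 := h1.comp (tendsto_id.const_mul_atTop (two_pos : (0:ℝ) < 2))
  have h3 : Tendsto (fun T : ℝ => XX (2 * T) / XX T) atTop (𝓝 2) := by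
    have h4 : Tendsto (fun T : ℝ => 2 * (Real.log 2 / Real.log T + 1)) atTop (𝓝 (2 * (0 + 1))) :=
      ((Real.tendsto_log_atTop.const_div_atTop (Real.log 2)).add_const 1).const_mul 2
    rw [zero_add, mul_one] at h4
    refine h4.congr' ?_
    filter_upwards [eventually_gt_atTop 1] with T hT
    have hl : Real.log T ≠ 0 := (Real.log_pos hT).ne'
    have hT0 : T ≠ 0 := by linarith
    unfold XX
    rw [Real.log_mul two_ne_zero hT0]
    have hpi := Real.pi_pos
    field_simp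
  have h5 := (h2.mul h3).sub h1
  rw [show (1 : ℝ) * 2 - 1 = 1 by norm_num] at h5
  refine h5.congr' ?_
  filter_upwards [eventually_gt_atTop 1] with T hT
  have hX := XX_pos hT
  have hX2 := XX_pos (show (1:ℝ) < 2 * T by linarith)
  rw [SO_card T (by linarith)]
  simp only [Function.comp_apply, id]
  have e : (NZ (2 * T) : ℝ) / XX (2 * T) * (XX (2 * T) / XX T) = (NZ (2 * T) : ℝ) / XX T := by
    field_simp
  rw [e, ← sub_div]
  unfold XX
  have hl : Real.log T ≠ 0 := (Real.log_pos hT).ne'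
  have hpi := Real.pi_pos
  field_simp

/-- the main term is increasing -/
lemma MM_mono {a b : ℝ} (ha : 2 * Real.pi ≤ a) (hab : a ≤ b) : Pool.Agent.Q173.JL.MM a ≤ Pool.Agent.Q173.JL.MM b := by
  unfold Pool.Agent.Q173.JL.MM
  have hpi := Real.pi_pos
  set x := a / (2 * Real.pi) with hx
  set y := b / (2 * Real.pi) with hy
  have hx1 : 1 ≤ x := by rw [hx, one_le_div (by positivity)]; exact ha
  have hxy : x ≤ y := div_le_div_of_nonneg_right hab (by positivity)
  have hx0 : 0 < x := by linarith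
  have hy0 : 0 < y := by linarith
  have h1 := Real.one_sub_inv_le_log_of_pos (div_pos hy0 hx0)
  rw [Real.log_div hy0.ne' hx0.ne', inv_div] at h1
  have h2 : 0 ≤ Real.log x := Real.log_nonneg hx1
  have h3 : y * (1 - x / y) ≤ y * (Real.log y - Real.log x) := mul_le_mul_of_nonneg_left h1 hy0.le
  have h4 : y * (1 - x / y) = y - x := by field_simp
  nlinarith

open Pool.Agent.Q173.JL (MM)

open Pool.Agent.Q173.NL (XX XX_pos NZ_asymp) in
lemma W_up (x μ : ℝ) (hx : 0 < x) : ∃ C : ℝ, 0 < C ∧ ∀ᶠ T : ℝ in atTop, 2 * Real.pi ≤ x * T + μ ∧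
    (NZ (x * (2 * T + 1) + μ) : ℝ) + MM (x * (2 * T + 1) + μ) ≤ C * (T * Real.log T) := by
  have hpi := Real.pi_gt_three
  set Λ : ℝ := 3 * x + |μ| + 1 with hΛ
  have hΛ1 : 1 ≤ Λ := by have := abs_nonneg μ; linarith
  obtain ⟨T0, h0, hN⟩ := NZ_asymp 1 one_pos
  refine ⟨4 * Λ, by linarith, ?_⟩
  filter_upwards [eventually_ge_atTop (max T0 Λ), eventually_ge_atTop ((2 * Real.pi + |μ|) / x)] with T h1 h2
  have hT0 : T0 ≤ T := (le_max_left _ _).trans h1
  have hTΛ : Λ ≤ T := (le_max_right _ _).trans h1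
  have hT10 : 10 ≤ T := h0.trans hT0
  have hL : 0 < Real.log T := Real.log_pos (by linarith)
  have ha := abs_nonneg μ
  have hb := neg_abs_le μ
  have hb' := le_abs_self μ
  rw [div_le_iff₀ hx] at h2
  have g1 : 2 * Real.pi ≤ x * T + μ := by linarith
  have g2 : x * (2 * T + 1) + μ ≤ Λ * T := by
    have : |μ| ≤ |μ| * T := le_mul_of_one_le_right ha (by linarith)
    have : x ≤ x * T := le_mul_of_one_le_right hx.le (by linarith)
    rw [hΛ]
    nlinarith
  have g3 : x * T + μ ≤ x * (2 * T + 1) + μ := by nlinarith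
  have hlog : Real.log (Λ * T) ≤ 2 * Real.log T := by
    rw [Real.log_mul (by linarith) (by linarith)]
    have : Real.log Λ ≤ Real.log T := Real.log_le_log (by linarith) hTΛ
    linarith
  have hΛT : T0 ≤ Λ * T := by nlinarith
  have g4 : (NZ (x * (2 * T + 1) + μ) : ℝ) ≤ 2 * (Λ * T * Real.log T) := by
    have a1 : (NZ (x * (2 * T + 1) + μ) : ℝ) ≤ NZ (Λ * T) := by exact_mod_cast SG.NZ_mono g2
    have a2 := (hN (Λ * T) hΛT).2
    unfold XX at a2
    have a3 : Λ * T / (2 * Real.pi) * Real.log (Λ * T) ≤ Λ * T / 2 * (2 * Real.log T) := by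
      refine mul_le_mul ?_ hlog (Real.log_nonneg (by nlinarith)) (by positivity)
      exact div_le_div_of_nonneg_left (by positivity) (by norm_num) (by linarith)
    linarith
  have g5 : MM (x * (2 * T + 1) + μ) ≤ 2 * (Λ * T * Real.log T) := by
    refine (MM_mono (g1.trans g3) g2).trans ?_
    unfold MM
    have b1 : Λ * T / (2 * Real.pi) ≤ Λ * T := div_le_self (by positivity) (by linarith)
    have b2 : Real.log (Λ * T / (2 * Real.pi)) ≤ Real.log (Λ * T) := Real.log_le_log (by positivity) b1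
    have b0 : 0 ≤ Λ * T / (2 * Real.pi) := by positivity
    have b3 : Λ * T / (2 * Real.pi) * Real.log (Λ * T / (2 * Real.pi)) ≤ Λ * T * (2 * Real.log T) := by
      refine (mul_le_mul_of_nonneg_left (b2.trans hlog) b0).trans ?_
      exact mul_le_mul_of_nonneg_right b1 (by positivity)
    linarith
  exact ⟨g1, by linarith⟩

lemma Dd_lip {a b : ℝ} (ha : 2 * Real.pi ≤ a) (hab : a ≤ b) :
    |Dd b - Dd a| ≤ Real.pi * (((NZ b : ℝ) + MM b) - (NZ a + MM a)) := by
  have h1 : (NZ a : ℝ) ≤ NZ b := by exact_mod_cast SG.NZ_mono hab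
  have h2 := MM_mono ha hab
  unfold Dd
  rw [← Pool.Agent.Q173.NL.NZ_eq, ← Pool.Agent.Q173.NL.NZ_eq, ← mul_sub, abs_mul, abs_of_pos Real.pi_pos]
  refine mul_le_mul_of_nonneg_left ?_ Real.pi_pos.le
  rw [abs_le]
  constructor <;> linarith

/-- **from the heights to the ordinates** -/
theorem ord_char {k : ℕ} {x μ : Fin k → ℝ} (hx : ∀ j, 0 < x j)
    (hchar : ∀ c : Fin k → ℝ, Tendsto (fun T => ∫ t, cexp (I * ((∑ j, c j * (zT T * Dd (x j * t + μ j)) : ℝ) : ℂ)) ∂(muT T)) atTop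
      (𝓝 ((Real.exp (-(1 / 2 * ∑ j, c j ^ 2)) : ℝ) : ℂ))) (c : Fin k → ℝ) :
    Tendsto (fun T => ∫ t, cexp (I * ((∑ j, c j * (zT T * Dd (x j * t + μ j)) : ℝ) : ℂ)) ∂(nuT T)) atTop
      (𝓝 ((Real.exp (-(1 / 2 * ∑ j, c j ^ 2)) : ℝ) : ℂ)) := by
  obtain ⟨C0, C1, hC0, hC1, hest⟩ := ord_est
  choose Cw hCw hWup using fun j => W_up (x j) (μ j) (hx j)
  set Cs : ℝ := ∑ j, |c j| * (Real.pi * (Cw j + 1)) with hCs
  have hpi := Real.pi_pos
  have hCs0 : 0 ≤ Cs := Finset.sum_nonneg fun j _ => mul_nonneg (abs_nonneg _)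
    (mul_nonneg hpi.le (by linarith [hCw j]))
  suffices hdiff : Tendsto (fun T => (∫ t, cexp (I * ((∑ j, c j * (zT T * Dd (x j * t + μ j)) : ℝ) : ℂ)) ∂(nuT T)) -
      ∫ t, cexp (I * ((∑ j, c j * (zT T * Dd (x j * t + μ j)) : ℝ) : ℂ)) ∂(muT T)) atTop (𝓝 0) by
    have := hdiff.add (hchar c)
    simpa using this
  rw [Metric.tendsto_nhds]
  intro ε hε
  -- the choice of `A`
  obtain ⟨A, hA1, hA⟩ : ∃ A : ℝ, 1 ≤ A ∧ 3 * Real.sqrt (C0 + Real.log (1 + A)) / A < ε / 4 := by
    have h1 : Tendsto (fun A : ℝ => 3 * Real.sqrt ((C0 + A) * (A ^ 2)⁻¹)) atTop (𝓝 (3 * Real.sqrt 0)) := by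
      refine ((Real.continuous_sqrt.tendsto 0).comp ?_).const_mul 3
      have h2 : Tendsto (fun A : ℝ => C0 * (A ^ 2)⁻¹ + A⁻¹) atTop (𝓝 (C0 * 0 + 0)) :=
        (((tendsto_pow_atTop two_ne_zero).inv_tendsto_atTop).const_mul C0).add tendsto_inv_atTop_zero
      rw [mul_zero, add_zero] at h2
      refine h2.congr' ?_
      filter_upwards [eventually_gt_atTop 0] with A hA
      field_simp
    rw [Real.sqrt_zero, mul_zero] at h1
    obtain ⟨A, h2, h3⟩ := ((h1.eventually (gt_mem_nhds (show (0:ℝ) < ε / 4 by positivity))).and (eventually_ge_atTop 1)).exists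
    refine ⟨A, h3, lt_of_le_of_lt ?_ h2⟩
    have hA0 : 0 < A := by linarith
    rw [mul_div_assoc]
    refine mul_le_mul_of_nonneg_left ?_ (by norm_num)
    rw [div_le_iff₀ hA0]
    have h4 : Real.sqrt ((C0 + A) * (A ^ 2)⁻¹) * A = Real.sqrt (C0 + A) := by
      rw [Real.sqrt_mul (by linarith), Real.sqrt_inv, Real.sqrt_sq hA0.le]
      field_simp
    rw [h4]
    refine Real.sqrt_le_sqrt ?_
    have := Real.log_le_sub_one_of_pos (show (0:ℝ) < 1 + A by linarith)
    linarith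
  have hA0 : 0 < A := by linarith
  -- the small quantities
  have s1 : Tendsto (fun T : ℝ => |1 - ((SO T).card : ℝ) * (2 * Real.pi) / (T * Real.log T)|) atTop (𝓝 0) := by
    have := ((tendsto_const_nhds (x := (1:ℝ))).sub K_lim).abs
    simpa using this
  have s2 : Tendsto (fun T : ℝ => zT T * (2 * Real.pi * A * Cs)) atTop (𝓝 0) := by
    have := zT_lim.mul_const (2 * Real.pi * A * Cs)
    simpa using this
  have s3 : Tendsto (fun T : ℝ => (2 * (2 * Real.pi) * (C1 + A)) / T) atTop (𝓝 0) :=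
    tendsto_const_nhds.div_atTop tendsto_id
  filter_upwards [hest A hA1, s1.eventually (gt_mem_nhds (show (0:ℝ) < ε / 4 by positivity)),
    s2.eventually (gt_mem_nhds (show (0:ℝ) < ε / 4 by positivity)),
    s3.eventually (gt_mem_nhds (show (0:ℝ) < ε / 4 by positivity)), eventually_all.2 hWup,
    eventually_gt_atTop (Real.exp 1), K_lim.eventually (lt_mem_nhds (show (0:ℝ) < 1 by norm_num))]
    with T t1 t2 t3 t4 t5 t6 t7
  have hT1 : 1 < T := lt_trans (by have := Real.add_one_lt_exp (one_ne_zero); linarith) t6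
  have hT : 0 < T := by linarith
  have hL1 : 1 ≤ Real.log T := by
    rw [Real.le_log_iff_exp_le hT]; exact t6.le
  have hL : 0 < Real.log T := by linarith
  have hz := zT_nonneg T
  set g : ℝ → ℂ := fun t => cexp (I * ((∑ j, c j * (zT T * Dd (x j * t + μ j)) : ℝ) : ℂ)) with hg
  set W : ℝ → ℝ := fun t => ∑ j, |c j| * (Real.pi * ((NZ (x j * t + μ j) : ℝ) + MM (x j * t + μ j))) with hW
  have hgm : Measurable g := by
    have hm1 : Measurable fun t => ∑ j, c j * (zT T * Dd (x j * t + μ j)) :=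
      Finset.measurable_sum _ fun j _ => ((Dd_meas.comp (by fun_prop)).const_mul _).const_mul _
    exact Complex.measurable_exp.comp ((Complex.measurable_ofReal.comp hm1).const_mul I)
  have hg1 : ∀ t, ‖g t‖ ≤ 1 := fun t => by rw [hg]; exact (norm_exp_I_mul_ofReal _).le
  have harg : ∀ j t v, T ≤ t → t ≤ v → 2 * Real.pi ≤ x j * t + μ j ∧ x j * t + μ j ≤ x j * v + μ j := by
    intro j t v h1 h2
    refine ⟨(t5 j).1.trans ?_, ?_⟩
    · have := mul_le_mul_of_nonneg_left h1 (hx j).le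
      linarith
    · have := mul_le_mul_of_nonneg_left h2 (hx j).le
      linarith
  have hWm : MonotoneOn W (Icc T (2 * T + 1)) := by
    intro t ht v hv htv
    rw [hW]
    refine Finset.sum_le_sum fun j _ => mul_le_mul_of_nonneg_left (mul_le_mul_of_nonneg_left ?_ hpi.le) (abs_nonneg _)
    obtain ⟨a1, a2⟩ := harg j t v ht.1 htv
    have a3 : (NZ (x j * t + μ j) : ℝ) ≤ NZ (x j * v + μ j) := by exact_mod_cast SG.NZ_mono a2
    have a4 := MM_mono a1 a2
    linarith
  have hlip : ∀ t v, T ≤ t → t ≤ v → v ≤ 2 * T → ‖g v - g t‖ ≤ zT T * (W v - W t) := by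
    intro t v h1 h2 _
    refine (exp_lip _ _).trans ?_
    rw [← Finset.sum_sub_distrib, hW]
    simp only
    rw [← Finset.sum_sub_distrib, Finset.mul_sum]
    refine (Finset.abs_sum_le_sum_abs _ _).trans (Finset.sum_le_sum fun j _ => ?_)
    obtain ⟨a1, a2⟩ := harg j t v h1 h2
    have a3 := Dd_lip a1 a2
    have e : c j * (zT T * Dd (x j * v + μ j)) - c j * (zT T * Dd (x j * t + μ j)) =
        c j * (zT T * (Dd (x j * v + μ j) - Dd (x j * t + μ j))) := by ring
    rw [e, abs_mul, abs_mul, abs_of_nonneg hz]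
    calc |c j| * (zT T * |Dd (x j * v + μ j) - Dd (x j * t + μ j)|) ≤
          |c j| * (zT T * (Real.pi * (((NZ (x j * v + μ j) : ℝ) + MM (x j * v + μ j)) - (NZ (x j * t + μ j) + MM (x j * t + μ j))))) :=
          mul_le_mul_of_nonneg_left (mul_le_mul_of_nonneg_left a3 hz) (abs_nonneg _)
      _ = _ := by ring
  have hW1 : W (2 * T + 1) - W T ≤ Cs * (T * Real.log T) := by
    rw [hW, hCs]
    simp only
    rw [← Finset.sum_sub_distrib, Finset.sum_mul]
    refine Finset.sum_le_sum fun j _ => ?_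
    have b2 := (t5 j).2
    have b4 : (0:ℝ) ≤ NZ (x j * T + μ j) := Nat.cast_nonneg _
    have b5 : MM (2 * Real.pi) ≤ MM (x j * T + μ j) := MM_mono le_rfl (t5 j).1
    have b6 : MM (2 * Real.pi) = -1 := by
      unfold MM
      rw [div_self (by positivity), Real.log_one]; ring
    have b7 : 1 ≤ T * Real.log T := one_le_mul_of_one_le_of_one_le hT1.le hL1
    rw [← mul_sub, ← mul_sub, mul_assoc, mul_assoc]
    refine mul_le_mul_of_nonneg_left (mul_le_mul_of_nonneg_left ?_ hpi.le) (abs_nonneg _)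
    rw [add_mul, one_mul]
    linarith
  have hmain := t1 g (zT T) W hgm hg1 hz hWm hlip
  have hAT : 0 < A * T := by positivity
  have hK : 0 < ((SO T).card : ℝ) := by
    by_contra h
    push Not at h
    have h0 : ((SO T).card : ℝ) = 0 := le_antisymm h (Nat.cast_nonneg _)
    rw [h0] at t7
    simp at t7
  rw [dist_zero_right, nuT_int, muT_int hT]
  set Sg : ℂ := ∑ n ∈ SO T, g (ord n) with hSg
  set Ig : ℂ := ∫ t in T..2 * T, g t with hIg
  set ρ : ℝ := ((SO T).card : ℝ) * (2 * Real.pi) / (T * Real.log T) with hρ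
  have ha1 : ‖((SO T).card : ℂ)⁻¹ * Sg‖ ≤ 1 := by
    rw [norm_mul, norm_inv, Complex.norm_natCast, inv_mul_le_iff₀ hK, mul_one]
    refine (norm_sum_le _ _).trans ((Finset.sum_le_sum fun n _ => hg1 (ord n)).trans ?_)
    simp
  have e1 : ((SO T).card : ℂ)⁻¹ * Sg - T⁻¹ • Ig = ((1 - ρ : ℝ) : ℂ) * (((SO T).card : ℂ)⁻¹ * Sg) +
      ((A * T : ℝ) : ℂ)⁻¹ * (((2 * Real.pi * A / Real.log T : ℝ) : ℂ) * Sg - A * Ig) := by
    have hK' : ((SO T).card : ℂ) ≠ 0 := by exact_mod_cast hK.ne'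
    have hT' : (T : ℂ) ≠ 0 := by exact_mod_cast hT.ne'
    have hA' : (A : ℂ) ≠ 0 := by exact_mod_cast hA0.ne'
    have hL' : ((Real.log T : ℝ) : ℂ) ≠ 0 := by exact_mod_cast hL.ne'
    rw [hρ, Complex.real_smul]
    push_cast
    field_simp
    ring
  have hb : (A * T)⁻¹ * ‖((2 * Real.pi * A / Real.log T : ℝ) : ℂ) * Sg - A * Ig‖ <
      ε / 4 + ε / 4 + ε / 4 := by
    have c1 : A * zT T * (2 * Real.pi * A / Real.log T * (W (2 * T + 1) - W T)) ≤
        A * T * (zT T * (2 * Real.pi * A * Cs)) := by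
      calc A * zT T * (2 * Real.pi * A / Real.log T * (W (2 * T + 1) - W T)) ≤
            A * zT T * (2 * Real.pi * A / Real.log T * (Cs * (T * Real.log T))) :=
            mul_le_mul_of_nonneg_left (mul_le_mul_of_nonneg_left hW1 (by positivity)) (by positivity)
        _ = _ := by field_simp
    have c2 : 3 * (T * Real.sqrt (C0 + Real.log (1 + A))) = A * T * (3 * Real.sqrt (C0 + Real.log (1 + A)) / A) := by
      field_simp
    have c3 : 2 * (2 * Real.pi * A / Real.log T) * (C1 * Real.log T + A) ≤ A * T * (2 * (2 * Real.pi) * (C1 + A) / T) := by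
      have d1 : 2 * (2 * Real.pi * A / Real.log T) * (C1 * Real.log T + A) =
          A * (2 * (2 * Real.pi) * (C1 + A / Real.log T)) := by field_simp
      have d2 : A * T * (2 * (2 * Real.pi) * (C1 + A) / T) = A * (2 * (2 * Real.pi) * (C1 + A)) := by field_simp
      rw [d1, d2]
      have d3 : A / Real.log T ≤ A := div_le_self hA0.le hL1
      refine mul_le_mul_of_nonneg_left (mul_le_mul_of_nonneg_left (by linarith) (by positivity)) hA0.le
    have hall := hmain.trans (add_le_add (add_le_add c1 (le_of_eq c2)) c3)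
    rw [inv_mul_lt_iff₀ hAT]
    refine lt_of_le_of_lt hall ?_
    have : A * T * (zT T * (2 * Real.pi * A * Cs)) + A * T * (3 * Real.sqrt (C0 + Real.log (1 + A)) / A) +
        A * T * (2 * (2 * Real.pi) * (C1 + A) / T) = A * T * (zT T * (2 * Real.pi * A * Cs) +
        3 * Real.sqrt (C0 + Real.log (1 + A)) / A + 2 * (2 * Real.pi) * (C1 + A) / T) := by ring
    rw [this]
    refine mul_lt_mul_of_pos_left ?_ hAT
    linarith
  rw [e1]
  refine lt_of_le_of_lt (norm_add_le _ _) ?_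
  have hc1 : ‖((1 - ρ : ℝ) : ℂ) * (((SO T).card : ℂ)⁻¹ * Sg)‖ < ε / 4 := by
    rw [norm_mul, Complex.norm_real, Real.norm_eq_abs]
    exact lt_of_le_of_lt (mul_le_of_le_one_right (abs_nonneg _) ha1) t2
  have hc2 : ‖((A * T : ℝ) : ℂ)⁻¹ * (((2 * Real.pi * A / Real.log T : ℝ) : ℂ) * Sg - A * Ig)‖ =
      (A * T)⁻¹ * ‖((2 * Real.pi * A / Real.log T : ℝ) : ℂ) * Sg - A * Ig‖ := by
    rw [norm_mul, norm_inv, Complex.norm_real, Real.norm_eq_abs, abs_of_pos hAT]
  rw [hc2]
  linarith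

/-- generic real dilations -/
theorem aff_gen {k : ℕ} {x : Fin k → ℝ} (hx : Genc x) (hpos : ∀ j, 0 < x j) (μ : Fin k → ℝ) (c : Fin k → ℝ) :
    Tendsto (fun T => ∫ t, cexp (I * ((∑ j, c j * (zT T * Dd (x j * t + μ j)) : ℝ) : ℂ)) ∂(muT T)) atTop
      (𝓝 ((Real.exp (-(1 / 2 * ∑ j, c j ^ 2)) : ℝ) : ℂ)) := by
  have h := gen_char (d := 1) le_rfl hx hpos (fun j => Polynomial.C (μ j))
    (fun j => lt_of_le_of_lt Polynomial.degree_C_le (by norm_num)) c
  simpa using h

lemma SO_pos : ∀ᶠ T : ℝ in atTop, 0 < (SO T).card := by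
  filter_upwards [K_lim.eventually (lt_mem_nhds (show (0:ℝ) < 1 by norm_num))] with T h
  by_contra h0
  have h1 : (SO T).card = 0 := by omega
  rw [h1] at h
  simp at h

open Classical in
/-- both forms of the law at the ordinates -/
theorem outO {k : ℕ} (q : Fin k → ℝ → ℝ) (hq : ∀ j, Measurable (q j)) {d : ℝ → ℝ} (hd : ∀ t, Dd t = Real.pi * d t)
    (hchar : ∀ c : Fin k → ℝ, Tendsto (fun T => ∫ t, cexp (I * ((∑ j, c j * (zT T * Dd (q j t)) : ℝ) : ℂ)) ∂(nuT T)) atTop
      (𝓝 ((Real.exp (-(1 / 2 * ∑ j, c j ^ 2)) : ℝ) : ℂ))) :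
    (∀ a b : Fin k → ℝ, (∀ j, a j < b j) → Tendsto (fun T : ℝ =>
      (((SO T).filter fun n => ∀ j, a j < Real.pi * d (q j (ord n)) / Real.sqrt (Real.log (Real.log T) / 2) ∧
        Real.pi * d (q j (ord n)) / Real.sqrt (Real.log (Real.log T) / 2) < b j).card : ℝ) / (SO T).card) atTop
      (𝓝 (∏ j, ∫ x in (a j)..(b j), Real.exp (-x ^ 2 / 2) / Real.sqrt (2 * Real.pi)))) ∧
    (∀ c : Fin k → ℝ, (∃ j, c j ≠ 0) → ∀ a b : ℝ, a < b → Tendsto (fun T : ℝ =>
      (((SO T).filter fun n =>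
        a < Real.pi * (∑ j, c j * d (q j (ord n))) / Real.sqrt ((∑ j, c j ^ 2) * (Real.log (Real.log T) / 2)) ∧
        Real.pi * (∑ j, c j * d (q j (ord n))) / Real.sqrt ((∑ j, c j ^ 2) * (Real.log (Real.log T) / 2)) < b).card : ℝ) /
          (SO T).card) atTop
      (𝓝 (∫ x in a..b, Real.exp (-x ^ 2 / 2) / Real.sqrt (2 * Real.pi)))) := by
  have hm : ∀ (T : ℝ) (j : Fin k), Measurable fun t => zT T * Dd (q j t) := fun T j =>
    (Dd_meas.comp (hq j)).const_mul _
  have hν : ∀ᶠ T in atTop, IsProbabilityMeasure (nuT T) := SO_pos.mono fun T h => nuT_prob h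
  constructor
  · intro a b hab
    have h := box_lim' hν hm hchar a b
    simp_rw [mass_eq (hab _)] at h
    refine h.congr fun T => ?_
    rw [nuT_real]
    · congr 3
      ext n
      simp_rw [zT_eq, hd]
    · have e : {t | ∀ j, a j < zT T * Dd (q j t) ∧ zT T * Dd (q j t) < b j} =
          ⋂ j, {t | a j < zT T * Dd (q j t) ∧ zT T * Dd (q j t) < b j} := by
        ext t; simp
      rw [e]
      exact MeasurableSet.iInter fun j => (measurableSet_lt measurable_const (hm T j)).inter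
        (measurableSet_lt (hm T j) measurable_const)
  · intro c hc a b hab
    have hc0 : 0 < ∑ j, c j ^ 2 := by
      obtain ⟨j, hj⟩ := hc
      exact Finset.sum_pos' (fun i _ => sq_nonneg _) ⟨j, Finset.mem_univ j, by positivity⟩
    have h := lin_law' hν hm hchar c hc0 a b
    rw [mass_eq hab] at h
    refine h.congr fun T => ?_
    have hsm : Measurable fun t => (∑ j, c j * (zT T * Dd (q j t))) / Real.sqrt (∑ j, c j ^ 2) :=
      (Finset.measurable_sum _ fun j _ => (hm T j).const_mul _).div_const _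
    have hms : MeasurableSet {t : ℝ | a < (∑ j, c j * (zT T * Dd (q j t))) / Real.sqrt (∑ j, c j ^ 2) ∧
        (∑ j, c j * (zT T * Dd (q j t))) / Real.sqrt (∑ j, c j ^ 2) < b} :=
      (measurableSet_lt measurable_const hsm).inter (measurableSet_lt hsm measurable_const)
    rw [nuT_real _ hms]
    congr 3
    have e : ∀ t, (∑ j, c j * (zT T * Dd (q j t))) / Real.sqrt (∑ j, c j ^ 2) =
        Real.pi * (∑ j, c j * d (q j t)) / Real.sqrt ((∑ j, c j ^ 2) * (Real.log (Real.log T) / 2)) := by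
      intro t
      rw [Real.sqrt_mul hc0.le, mul_comm (Real.sqrt (∑ j, c j ^ 2)), ← div_div]
      congr 1
      rw [Finset.mul_sum, Finset.sum_div]
      refine Finset.sum_congr rfl fun j _ => ?_
      rw [zT_eq, hd]
      ring
    ext n
    simp only [Finset.mem_filter, e]

end

end Pool.Agent.Q173.JD
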