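import Pool.Agent.Q173.JD.Aff

set_option autoImplicit false

/-! # Conversions for the final statements -/

namespace Pool.Agent.Q173.JD

open Filter Topology MeasureTheory Complex Set

noncomputable section

lemma muT_real {T : ℝ} (hT : 0 < T) (P : ℝ → Prop) (hP : MeasurableSet {t | P t}) :
    (muT T).real {t | P t} = (volume {t : ℝ | T < t ∧ t ≤ 2 * T ∧ P t}).toReal / T := by
  unfold muT
  rw [measureReal_ennreal_smul_apply, Measure.real, Measure.restrict_apply hP, ENNReal.toReal_inv,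
    ENNReal.toReal_ofReal hT.le, div_eq_inv_mul]
  congr 3
  ext t
  simp only [mem_inter_iff, Set.mem_ofPred_eq, mem_Ioc]
  tauto

lemma zT_eq (T y : ℝ) : zT T * y = y / Real.sqrt (Real.log (Real.log T) / 2) := by
  unfold zT
  rw [Real.sqrt_div' _ (by norm_num : (0:ℝ) ≤ 2), div_div_eq_mul_div]
  ring

lemma mass_eq {a b : ℝ} (hab : a < b) : (ProbabilityTheory.gaussianReal 0 1).real (Set.Ioo a b) =
    ∫ x in a..b, Real.exp (-x ^ 2 / 2) / Real.sqrt (2 * Real.pi) := by
  rw [MeasureTheory.measureReal_def, ProbabilityTheory.gaussianReal_apply_eq_integral _ one_ne_zero,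
    ENNReal.toReal_ofReal (MeasureTheory.integral_nonneg fun x => ProbabilityTheory.gaussianPDFReal_nonneg _ _ _),
    intervalIntegral.integral_of_le hab.le, MeasureTheory.integral_Ioc_eq_integral_Ioo]
  refine MeasureTheory.integral_congr_ae (Filter.Eventually.of_forall fun x => ?_)
  simp only [ProbabilityTheory.gaussianPDFReal, NNReal.coe_one, mul_one, sub_zero]
  rw [div_eq_inv_mul (Real.exp _)]

/-- both forms of the law -/
theorem out {k : ℕ} (q : Fin k → ℝ → ℝ) (hq : ∀ j, Measurable (q j)) {d : ℝ → ℝ} (hd : ∀ t, Pool.Agent.Q173.JL.Dd t = Real.pi * d t)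
    (hchar : ∀ c : Fin k → ℝ, Tendsto (fun T => ∫ t, cexp (I * ((∑ j, c j * (zT T * Pool.Agent.Q173.JL.Dd (q j t)) : ℝ) : ℂ)) ∂(muT T)) atTop
      (𝓝 ((Real.exp (-(1 / 2 * ∑ j, c j ^ 2)) : ℝ) : ℂ))) :
    (∀ a b : Fin k → ℝ, (∀ j, a j < b j) → Tendsto (fun T : ℝ =>
      (volume {t : ℝ | T < t ∧ t ≤ 2 * T ∧ ∀ j, a j < Real.pi * d (q j t) / Real.sqrt (Real.log (Real.log T) / 2) ∧
        Real.pi * d (q j t) / Real.sqrt (Real.log (Real.log T) / 2) < b j}).toReal / T) atTop
      (𝓝 (∏ j, ∫ x in (a j)..(b j), Real.exp (-x ^ 2 / 2) / Real.sqrt (2 * Real.pi)))) ∧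
    (∀ c : Fin k → ℝ, (∃ j, c j ≠ 0) → ∀ a b : ℝ, a < b → Tendsto (fun T : ℝ =>
      (volume {t : ℝ | T < t ∧ t ≤ 2 * T ∧
        a < Real.pi * (∑ j, c j * d (q j t)) / Real.sqrt ((∑ j, c j ^ 2) * (Real.log (Real.log T) / 2)) ∧
        Real.pi * (∑ j, c j * d (q j t)) / Real.sqrt ((∑ j, c j ^ 2) * (Real.log (Real.log T) / 2)) < b}).toReal / T) atTop
      (𝓝 (∫ x in a..b, Real.exp (-x ^ 2 / 2) / Real.sqrt (2 * Real.pi)))) := by
  have hm : ∀ (T : ℝ) (j : Fin k), Measurable fun t => zT T * Pool.Agent.Q173.JL.Dd (q j t) := fun T j =>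
    (Dd_meas.comp (hq j)).const_mul _
  constructor
  · intro a b hab
    have h := box_lim hm hchar a b
    simp_rw [mass_eq (hab _)] at h
    refine h.congr' ?_
    filter_upwards [eventually_gt_atTop 0] with T hT
    rw [muT_real hT]
    · congr 2
      simp_rw [zT_eq, hd]
    · have e : {t | ∀ j, a j < zT T * Pool.Agent.Q173.JL.Dd (q j t) ∧ zT T * Pool.Agent.Q173.JL.Dd (q j t) < b j} =
          ⋂ j, {t | a j < zT T * Pool.Agent.Q173.JL.Dd (q j t) ∧ zT T * Pool.Agent.Q173.JL.Dd (q j t) < b j} := by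
        ext t; simp
      rw [e]
      exact MeasurableSet.iInter fun j => (measurableSet_lt measurable_const (hm T j)).inter
        (measurableSet_lt (hm T j) measurable_const)
  · intro c hc a b hab
    have hc0 : 0 < ∑ j, c j ^ 2 := by
      obtain ⟨j, hj⟩ := hc
      exact Finset.sum_pos' (fun i _ => sq_nonneg _) ⟨j, Finset.mem_univ j, by positivity⟩
    have h := lin_law hm hchar c hc0 a b
    rw [mass_eq hab] at h
    refine h.congr' ?_
    filter_upwards [eventually_gt_atTop 0, Pool.Agent.Y41.SW.LL_tendsto.eventually_gt_atTop 0] with T hT hL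
    have hsm : Measurable fun t => (∑ j, c j * (zT T * Pool.Agent.Q173.JL.Dd (q j t))) / Real.sqrt (∑ j, c j ^ 2) :=
      (Finset.measurable_sum _ fun j _ => (hm T j).const_mul _).div_const _
    have hms : MeasurableSet {t : ℝ | a < (∑ j, c j * (zT T * Pool.Agent.Q173.JL.Dd (q j t))) / Real.sqrt (∑ j, c j ^ 2) ∧
        (∑ j, c j * (zT T * Pool.Agent.Q173.JL.Dd (q j t))) / Real.sqrt (∑ j, c j ^ 2) < b} :=
      (measurableSet_lt measurable_const hsm).inter (measurableSet_lt hsm measurable_const)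
    rw [muT_real hT _ hms]
    congr 2
    have e : ∀ t, (∑ j, c j * (zT T * Pool.Agent.Q173.JL.Dd (q j t))) / Real.sqrt (∑ j, c j ^ 2) =
        Real.pi * (∑ j, c j * d (q j t)) / Real.sqrt ((∑ j, c j ^ 2) * (Real.log (Real.log T) / 2)) := by
      intro t
      rw [Real.sqrt_mul hc0.le, mul_comm (Real.sqrt (∑ j, c j ^ 2)), ← div_div]
      congr 1
      rw [Finset.mul_sum, Finset.sum_div]
      refine Finset.sum_congr rfl fun j _ => ?_
      rw [zT_eq, hd]
      ring
    simp_rw [e]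

end

end Pool.Agent.Q173.JD
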