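import Pool.Agent.Q173.JD.Pow

set_option autoImplicit false

/-! # General arguments -/

namespace Pool.Agent.Q173.JD

open Filter Topology MeasureTheory Complex Set
open Pool.Agent.Y745.SW (Py Px xT P_MVB)
open Pool.Agent.Y41.SW (LL_tendsto)
open Pool.Agent.Q173.JL (MB DN MM Dd)
open SG (ord NZ)

noncomputable section

/-- from the prime sums to the displacements -/
theorem disp_gen {k : ℕ} {q : Fin k → ℝ → ℝ} (hqm : ∀ j, Measurable (q j)) (hA : ∀ j, Adm (q j)) (c : Fin k → ℝ)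
    (h1 : Tendsto (fun T => ∫ t, cexp (I * ((zT T * ∑ j, c j * (Px T (q j t)).im : ℝ) : ℂ)) ∂(muT T)) atTop
      (𝓝 ((Real.exp (-(1 / 2 * ∑ j, c j ^ 2)) : ℝ) : ℂ))) :
    Tendsto (fun T => ∫ t, cexp (I * ((∑ j, c j * (zT T * Dd (q j t)) : ℝ) : ℂ)) ∂(muT T)) atTop
      (𝓝 ((Real.exp (-(1 / 2 * ∑ j, c j ^ 2)) : ℝ) : ℂ)) := by
  have h2 : Tendsto (fun T => (∫ t, cexp (I * ((∑ j, c j * (zT T * Dd (q j t)) : ℝ) : ℂ)) ∂(muT T)) -
      ∫ t, cexp (I * ((zT T * ∑ j, c j * (Px T (q j t)).im : ℝ) : ℂ)) ∂(muT T)) atTop (𝓝 0) := by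
    rw [Metric.tendsto_nhds]
    intro ε hε
    set A : ℝ := ∑ j, |c j| with hA'
    have hA0 : 0 ≤ A := Finset.sum_nonneg fun j _ => abs_nonneg _
    set δ : ℝ := ε / (4 * (A + 1)) with hδ
    have hδ0 : 0 < δ := by positivity
    have hall : ∀ᶠ T : ℝ in atTop, ∀ j, (∫ t in T..2 * T, er T (q j t) ≤
        δ * (T * Real.sqrt (Real.log (Real.log T)))) ∧ MB T (2 * T) (fun t => er T (q j t)) := by
      rw [eventually_all]
      exact fun j => ((hA j).small δ hδ0).and ((hA j).mb (hqm j))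
    filter_upwards [hall, eventually_gt_atTop 0, LL_tendsto.eventually_gt_atTop 0] with T t1 t2 t3
    have := muT_prob t2
    rw [dist_zero_right]
    have hTT : T ≤ 2 * T := by linarith
    have hz0 := zT_nonneg T
    have hm1 : Measurable fun t => ∑ j, c j * (zT T * Dd (q j t)) :=
      Finset.measurable_sum _ fun j _ => ((Dd_meas.comp (hqm j)).const_mul _).const_mul _
    have hm2 : Measurable fun t => zT T * ∑ j, c j * (Px T (q j t)).im :=
      (Finset.measurable_sum _ fun j _ => (((Complex.continuous_im.comp (Py_cont (xT T))).measurable.comp (hqm j)).const_mul _)).const_mul _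
    have hi1 : Integrable (fun t => cexp (I * ((∑ j, c j * (zT T * Dd (q j t)) : ℝ) : ℂ))) (muT T) :=
      Integrable.of_bound (Complex.measurable_exp.comp ((Complex.measurable_ofReal.comp hm1).const_mul I)).aestronglyMeasurable
        1 (Eventually.of_forall fun t => by rw [norm_exp_I_mul_ofReal])
    have hi2 : Integrable (fun t => cexp (I * ((zT T * ∑ j, c j * (Px T (q j t)).im : ℝ) : ℂ))) (muT T) :=
      Integrable.of_bound (Complex.measurable_exp.comp ((Complex.measurable_ofReal.comp hm2).const_mul I)).aestronglyMeasurable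
        1 (Eventually.of_forall fun t => by rw [norm_exp_I_mul_ofReal])
    rw [← integral_sub hi1 hi2]
    have hei : ∀ j, Integrable (fun t => er T (q j t)) (muT T) := by
      intro j
      unfold muT
      refine Integrable.smul_measure ?_ (ENNReal.inv_ne_top.2 (by rw [Ne, ENNReal.ofReal_eq_zero, not_le]; exact t2))
      exact (((t1 j).2.int hTT).1)
    have hb : ∫ t, ‖cexp (I * ((∑ j, c j * (zT T * Dd (q j t)) : ℝ) : ℂ)) -
        cexp (I * ((zT T * ∑ j, c j * (Px T (q j t)).im : ℝ) : ℂ))‖ ∂(muT T) ≤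
        ∫ t, ∑ j, (|c j| * zT T) * er T (q j t) ∂(muT T) := by
      refine integral_mono (hi1.sub hi2).norm (integrable_finsetSum _ fun j _ => (hei j).const_mul _) fun t => ?_
      refine (exp_lip _ _).trans ?_
      have e : ∑ j, c j * (zT T * Dd (q j t)) - zT T * ∑ j, c j * (Px T (q j t)).im =
          ∑ j, c j * zT T * (Dd (q j t) - (Px T (q j t)).im) := by
        rw [Finset.mul_sum, ← Finset.sum_sub_distrib]
        exact Finset.sum_congr rfl fun j _ => by ring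
      rw [e]
      refine (Finset.abs_sum_le_sum_abs _ _).trans (Finset.sum_le_sum fun j _ => ?_)
      rw [abs_mul, abs_mul, abs_of_nonneg hz0]
      rfl
    refine lt_of_le_of_lt ((norm_integral_le_integral_norm _).trans hb) ?_
    rw [integral_finsetSum _ (fun j _ => (hei j).const_mul _)]
    have hj : ∀ j, ∫ t, (|c j| * zT T) * er T (q j t) ∂(muT T) ≤ |c j| * (2 * δ) := by
      intro j
      rw [integral_const_mul, muT_int t2, smul_eq_mul]
      have h5 := (t1 j).1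
      have h6 : T⁻¹ * ∫ t in T..2 * T, er T (q j t) ≤ δ * Real.sqrt (Real.log (Real.log T)) := by
        rw [inv_mul_le_iff₀ t2]
        linarith
      have h7 : zT T * (δ * Real.sqrt (Real.log (Real.log T))) ≤ 2 * δ := by
        unfold zT
        have hs : 0 < Real.sqrt (Real.log (Real.log T)) := Real.sqrt_pos.2 t3
        have h8 : Real.sqrt 2 ≤ 2 := by
          rw [Real.sqrt_le_left (by norm_num)]; norm_num
        have e : Real.sqrt 2 / Real.sqrt (Real.log (Real.log T)) * (δ * Real.sqrt (Real.log (Real.log T))) =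
          Real.sqrt 2 * δ := by field_simp
        rw [e]
        exact mul_le_mul_of_nonneg_right h8 hδ0.le
      calc |c j| * zT T * (T⁻¹ * ∫ t in T..2 * T, er T (q j t)) ≤
            |c j| * zT T * (δ * Real.sqrt (Real.log (Real.log T))) := mul_le_mul_of_nonneg_left h6 (by positivity)
        _ = |c j| * (zT T * (δ * Real.sqrt (Real.log (Real.log T)))) := by ring
        _ ≤ _ := mul_le_mul_of_nonneg_left h7 (abs_nonneg _)
    refine lt_of_le_of_lt (Finset.sum_le_sum fun j _ => hj j) ?_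
    rw [← Finset.sum_mul, ← hA', hδ]
    have h9 : A * (2 * (ε / (4 * (A + 1)))) = ε / 2 * (A / (A + 1)) := by field_simp; ring
    rw [h9]
    have h10 : A / (A + 1) ≤ 1 := by rw [div_le_one (by linarith)]; linarith
    nlinarith
  have h3 := h2.add h1
  rw [zero_add] at h3
  refine h3.congr fun T => ?_
  ring


lemma half_term (p : ℕ) (hp : 1 ≤ p) (v v' : ℝ) :
    ‖(p : ℂ) ^ (-(1 / 2 + v * I)) - (p : ℂ) ^ (-(1 / 2 + v' * I))‖ ≤ p * |v - v'| := by
  have hp0 : (p : ℂ) ≠ 0 := by exact_mod_cast (by omega : p ≠ 0)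
  have hpR : (1 : ℝ) ≤ p := by exact_mod_cast hp
  have hpR0 : (0 : ℝ) < p := by linarith
  have e : ∀ v : ℝ, (p : ℂ) ^ (-(1 / 2 + v * I)) = (p : ℂ) ^ (-(1 / 2) : ℂ) * cexp (I * ((-(v * Real.log p) : ℝ) : ℂ)) := by
    intro v
    rw [show (-(1 / 2 + v * I) : ℂ) = -(1 / 2) + -(v * I) by ring, Complex.cpow_add _ _ hp0, Complex.cpow_def_of_ne_zero hp0 (-(v * I)),
      ← Complex.natCast_log]
    congr 2
    push_cast
    ring
  rw [e, e, ← mul_sub, norm_mul]
  have h1 : ‖(p : ℂ) ^ (-(1 / 2) : ℂ)‖ ≤ 1 := by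
    rw [Complex.norm_natCast_cpow_of_pos (by omega)]
    refine Real.rpow_le_one_of_one_le_of_nonpos hpR ?_
    norm_num
  have h2 := exp_lip (-(v * Real.log p)) (-(v' * Real.log p))
  have h3 : |-(v * Real.log p) - -(v' * Real.log p)| = |v - v'| * Real.log p := by
    rw [show -(v * Real.log p) - -(v' * Real.log p) = -((v - v') * Real.log p) by ring, abs_neg, abs_mul,
      abs_of_nonneg (Real.log_nonneg hpR)]
  have h4 : Real.log p ≤ p := (Real.log_le_sub_one_of_pos hpR0).trans (by linarith)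
  calc ‖(p : ℂ) ^ (-(1 / 2) : ℂ)‖ * ‖cexp (I * ((-(v * Real.log p) : ℝ) : ℂ)) - cexp (I * ((-(v' * Real.log p) : ℝ) : ℂ))‖ ≤
        1 * (|v - v'| * Real.log p) := mul_le_mul h1 (h3 ▸ h2) (norm_nonneg _) (by norm_num)
    _ ≤ _ := by
        rw [one_mul, mul_comm]
        exact mul_le_mul_of_nonneg_right h4 (abs_nonneg _)

lemma Py_lip (y v v' : ℝ) : ‖Py y v - Py y v'‖ ≤ (⌊y⌋₊ : ℝ) ^ 2 * |v - v'| := by
  unfold Py
  rw [← Finset.sum_sub_distrib]
  have h1 : ∀ p ∈ (Finset.Icc 1 ⌊y⌋₊).filter Nat.Prime, ‖(p : ℂ) ^ (-(1 / 2 + v * I)) - (p : ℂ) ^ (-(1 / 2 + v' * I))‖ ≤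
      ⌊y⌋₊ * |v - v'| := by
    intro p hp
    rw [Finset.mem_filter, Finset.mem_Icc] at hp
    refine (half_term p hp.1.1 v v').trans (mul_le_mul_of_nonneg_right ?_ (abs_nonneg _))
    exact_mod_cast hp.1.2
  refine (norm_sum_le _ _).trans ((Finset.sum_le_sum h1).trans ?_)
  rw [Finset.sum_const, nsmul_eq_mul, pow_two, mul_assoc]
  refine mul_le_mul_of_nonneg_right ?_ (by positivity)
  exact_mod_cast (Finset.card_filter_le _ _).trans (by simp)

/-- small perturbations of the arguments -/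
theorem im_pert {k : ℕ} {q q₁ : Fin k → ℝ → ℝ} (hq : ∀ j, Measurable (q j)) (hq₁ : ∀ j, Measurable (q₁ j)) {c₀ : ℝ}
    (hc₀ : 0 < c₀) (hcl : ∀ j, ∀ᶠ T : ℝ in atTop, ∀ t ∈ Icc T (2 * T), |q₁ j t - q j t| ≤ T ^ (-c₀)) (c : Fin k → ℝ)
    (h : Tendsto (fun T => ∫ t, cexp (I * ((zT T * ∑ j, c j * (Px T (q j t)).im : ℝ) : ℂ)) ∂(muT T)) atTop
      (𝓝 ((Real.exp (-(1 / 2 * ∑ j, c j ^ 2)) : ℝ) : ℂ))) :
    Tendsto (fun T => ∫ t, cexp (I * ((zT T * ∑ j, c j * (Px T (q₁ j t)).im : ℝ) : ℂ)) ∂(muT T)) atTop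
      (𝓝 ((Real.exp (-(1 / 2 * ∑ j, c j ^ 2)) : ℝ) : ℂ)) := by
  set A : ℝ := ∑ j, |c j| with hA
  have hA0 : 0 ≤ A := Finset.sum_nonneg fun j _ => abs_nonneg _
  have hlim : Tendsto (fun T : ℝ => A * T ^ (-(c₀ / 2))) atTop (𝓝 0) := by
    have := (tendsto_rpow_neg_atTop (half_pos hc₀)).const_mul A
    simpa using this
  suffices hd : Tendsto (fun T => (∫ t, cexp (I * ((zT T * ∑ j, c j * (Px T (q₁ j t)).im : ℝ) : ℂ)) ∂(muT T)) -
      ∫ t, cexp (I * ((zT T * ∑ j, c j * (Px T (q j t)).im : ℝ) : ℂ)) ∂(muT T)) atTop (𝓝 0) by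
    have := hd.add h
    simpa using this
  refine squeeze_zero_norm' ?_ hlim
  filter_upwards [eventually_all.2 hcl, xT_pow 2 (half_pos hc₀), eventually_gt_atTop 0,
    zT_lim.eventually (gt_mem_nhds (show (0 : ℝ) < 1 by norm_num)), Pool.Agent.Y41.SW.N_bound 1] with T t1 t2 t3 t4 t5
  have hxf : (⌊xT T⌋₊ : ℝ) ≤ xT T := Nat.floor_le (Real.exp_pos _).le
  have hz0 := zT_nonneg T
  have hmeas : ∀ q : Fin k → ℝ → ℝ, (∀ j, Measurable (q j)) →
      Measurable fun t => cexp (I * ((zT T * ∑ j, c j * (Px T (q j t)).im : ℝ) : ℂ)) := by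
    intro q hq
    have hm2 : Measurable fun t => zT T * ∑ j, c j * (Px T (q j t)).im :=
      (Finset.measurable_sum _ fun j _ => (((Complex.continuous_im.comp (Py_cont (xT T))).measurable.comp (hq j)).const_mul _)).const_mul _
    exact Complex.measurable_exp.comp ((Complex.measurable_ofReal.comp hm2).const_mul I)
  have hint : ∀ q : Fin k → ℝ → ℝ, (∀ j, Measurable (q j)) →
      IntervalIntegrable (fun t => cexp (I * ((zT T * ∑ j, c j * (Px T (q j t)).im : ℝ) : ℂ))) volume T (2 * T) := by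
    intro q hq
    exact (intervalIntegrable_const (c := (1 : ℝ))).mono_fun (hmeas q hq).aestronglyMeasurable
      (Eventually.of_forall fun t => by simp only [norm_exp_I_mul_ofReal, norm_one, le_refl])
  rw [muT_int t3, muT_int t3, ← smul_sub, ← intervalIntegral.integral_sub (hint q₁ hq₁) (hint q hq), norm_smul,
    Real.norm_eq_abs, abs_of_pos (inv_pos.2 t3)]
  have hpt : ∀ t ∈ Set.uIoc T (2 * T), ‖cexp (I * ((zT T * ∑ j, c j * (Px T (q₁ j t)).im : ℝ) : ℂ)) -
      cexp (I * ((zT T * ∑ j, c j * (Px T (q j t)).im : ℝ) : ℂ))‖ ≤ A * T ^ (-(c₀ / 2)) := by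
    intro t ht
    rw [uIoc_of_le (by linarith)] at ht
    refine (exp_lip _ _).trans ?_
    rw [← mul_sub, ← Finset.sum_sub_distrib, abs_mul, abs_of_nonneg hz0]
    have h5 : |∑ j, (c j * (Px T (q₁ j t)).im - c j * (Px T (q j t)).im)| ≤ A * T ^ (-(c₀ / 2)) := by
      rw [hA, Finset.sum_mul]
      refine (Finset.abs_sum_le_sum_abs _ _).trans (Finset.sum_le_sum fun j _ => ?_)
      rw [← mul_sub, abs_mul]
      refine mul_le_mul_of_nonneg_left ?_ (abs_nonneg _)
      rw [← Complex.sub_im]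
      refine (Complex.abs_im_le_norm _).trans ((Py_lip _ _ _).trans ?_)
      have h6 := t1 j t ⟨ht.1.le, ht.2⟩
      have h7 : (⌊xT T⌋₊ : ℝ) ^ 2 ≤ T ^ (c₀ / 2) := (pow_le_pow_left₀ (Nat.cast_nonneg _) hxf 2).trans t2
      calc (⌊xT T⌋₊ : ℝ) ^ 2 * |q₁ j t - q j t| ≤ T ^ (c₀ / 2) * T ^ (-c₀) :=
            mul_le_mul h7 h6 (abs_nonneg _) (by positivity)
        _ = T ^ (-(c₀ / 2)) := by rw [← Real.rpow_add t3]; congr 1; ring
    calc zT T * |∑ j, (c j * (Px T (q₁ j t)).im - c j * (Px T (q j t)).im)| ≤ 1 * (A * T ^ (-(c₀ / 2))) :=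
          mul_le_mul t4.le h5 (abs_nonneg _) (by norm_num)
      _ = _ := one_mul _
  have h8 := intervalIntegral.norm_integral_le_of_norm_le_const hpt
  rw [show 2 * T - T = T by ring, abs_of_pos t3] at h8
  rw [inv_mul_le_iff₀ t3]
  linarith

end

end Pool.Agent.Q173.JD
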