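import Pool.Agent.Q173.JD.Out
import Pool.Agent.Helper276.VdC

set_option autoImplicit false

/-! # Polynomial arguments -/

namespace Pool.Agent.Q173.JD

open Filter Topology MeasureTheory Complex Set
open Pool.Agent.Q173.JL (Dd)

noncomputable section

/-! ### the exponential integrals of polynomials -/

/-- the dominant term -/
lemma dom {m : ℕ} (c : Fin m → ℝ) (e : Fin m → ℕ) (i₀ : Fin m) {ρ R t : ℝ} (hρ : 0 < ρ) (hR : 0 ≤ R) (h0 : ρ ≤ c i₀)
    (h1 : ∀ i, i ≠ i₀ → c i = 0 ∨ (|c i| ≤ R ∧ e i + 1 ≤ e i₀)) (ht1 : 1 ≤ t) (ht : 2 * m * R / ρ ≤ t) :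
    ρ / 2 * t ^ e i₀ ≤ ∑ i, c i * t ^ e i := by
  have ht0 : 0 < t := by linarith
  rw [← Finset.add_sum_erase _ _ (Finset.mem_univ i₀)]
  have h2 : ∀ i ∈ Finset.univ.erase i₀, |c i * t ^ e i| ≤ R * t ^ e i₀ / t := by
    intro i hi
    rcases h1 i (Finset.ne_of_mem_erase hi) with h | ⟨h, h'⟩
    · rw [h, zero_mul, abs_zero]; positivity
    · rw [abs_mul, abs_of_pos (pow_pos ht0 _), le_div_iff₀ ht0, mul_assoc, ← pow_succ]
      exact mul_le_mul h (pow_le_pow_right₀ ht1 h') (by positivity) hR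
  have h3 : |∑ i ∈ Finset.univ.erase i₀, c i * t ^ e i| ≤ m * (R * t ^ e i₀ / t) := by
    refine (Finset.abs_sum_le_sum_abs _ _).trans ((Finset.sum_le_sum h2).trans ?_)
    rw [Finset.sum_const, nsmul_eq_mul]
    refine mul_le_mul_of_nonneg_right ?_ (by positivity)
    exact_mod_cast (Finset.card_le_univ _).trans (by simp)
  have h4 : (m : ℝ) * (R * t ^ e i₀ / t) ≤ ρ / 2 * t ^ e i₀ := by
    rw [div_le_iff₀ hρ] at ht
    have hp : 0 < t ^ e i₀ := pow_pos ht0 _
    rw [mul_div_assoc', div_le_iff₀ ht0]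
    nlinarith
  have h5 := (abs_le.1 h3).1
  have h6 : ρ * t ^ e i₀ ≤ c i₀ * t ^ e i₀ := mul_le_mul_of_nonneg_right h0 (by positivity)
  linarith

lemma osc_top {m : ℕ} (lam : Fin m → ℝ) (i₀ : Fin m) {ρ T : ℝ} (hρ : 0 < ρ) (h0 : ρ ≤ lam i₀)
    (h1 : ∀ i, i₀ < i → lam i = 0) (h2 : ∀ i, |lam i| ≤ ρ⁻¹) (hT1 : 1 ≤ T) (hT : 2 * m ^ 3 * ρ⁻¹ ^ 2 ≤ T) :
    ‖∫ t in T..2 * T, cexp (I * ((∑ i, lam i * t ^ ((i : ℕ) + 1) : ℝ) : ℂ))‖ ≤ 8 * ρ⁻¹ := by
  have hT0 : 0 < T := by linarith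
  have hm : (1 : ℝ) ≤ m := by
    have := i₀.pos
    exact_mod_cast this
  set R : ℝ := ρ⁻¹ * m ^ 2 with hR
  have hρi : 0 < ρ⁻¹ := inv_pos.2 hρ
  have hR0 : 0 ≤ R := by positivity
  have hTR : ∀ t ∈ Icc T (2 * T), 1 ≤ t ∧ 2 * m * R / ρ ≤ t := by
    intro t ht
    refine ⟨hT1.trans ht.1, le_trans (le_of_eq ?_) (hT.trans ht.1)⟩
    rw [hR]; field_simp
  have hder : ∀ t : ℝ, HasDerivAt (fun t : ℝ => ∑ i, lam i * t ^ ((i : ℕ) + 1))
      (∑ i : Fin m, lam i * ((i : ℕ) + 1) * t ^ (i : ℕ)) t := by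
    intro t
    have h := HasDerivAt.fun_sum (u := Finset.univ) (A := fun (i : Fin m) (t : ℝ) => lam i * t ^ ((i : ℕ) + 1))
      (A' := fun i => lam i * ((i : ℕ) + 1) * t ^ (i : ℕ)) (x := t) fun i _ => by
        have h3 := (hasDerivAt_pow ((i : ℕ) + 1) t).const_mul (lam i)
        simpa [mul_assoc] using h3
    exact h
  have hder2 : ∀ t : ℝ, HasDerivAt (fun t : ℝ => ∑ i : Fin m, lam i * ((i : ℕ) + 1) * t ^ (i : ℕ))
      (∑ i : Fin m, lam i * ((i : ℕ) + 1) * (i : ℕ) * t ^ ((i : ℕ) - 1)) t := by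
    intro t
    have h := HasDerivAt.fun_sum (u := Finset.univ) (A := fun (i : Fin m) (t : ℝ) => lam i * ((i : ℕ) + 1) * t ^ (i : ℕ))
      (A' := fun i => lam i * ((i : ℕ) + 1) * (i : ℕ) * t ^ ((i : ℕ) - 1)) (x := t) fun i _ => by
        have h3 := (hasDerivAt_pow (i : ℕ) t).const_mul (lam i * ((i : ℕ) + 1))
        simpa [mul_assoc] using h3
    exact h
  have hi1 : ∀ i : Fin m, ((i : ℕ) : ℝ) + 1 ≤ m := fun i => by exact_mod_cast i.isLt
  have hb : ∀ i : Fin m, |lam i * ((i : ℕ) + 1)| ≤ R := by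
    intro i
    rw [abs_mul, abs_of_nonneg (by positivity : (0:ℝ) ≤ ((i : ℕ) : ℝ) + 1)]
    calc |lam i| * (((i : ℕ) : ℝ) + 1) ≤ ρ⁻¹ * m := mul_le_mul (h2 i) (hi1 i) (by positivity) hρi.le
      _ ≤ ρ⁻¹ * m ^ 2 := by nlinarith
  have hb2 : ∀ i : Fin m, |lam i * ((i : ℕ) + 1) * (i : ℕ)| ≤ R := by
    intro i
    rw [abs_mul, abs_mul, abs_of_nonneg (by positivity : (0:ℝ) ≤ ((i : ℕ) : ℝ) + 1), Nat.abs_cast]
    calc |lam i| * (((i : ℕ) : ℝ) + 1) * (i : ℕ) ≤ ρ⁻¹ * m * m :=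
          mul_le_mul (mul_le_mul (h2 i) (hi1 i) (by positivity) hρi.le) (by have := hi1 i; linarith)
            (by positivity) (by positivity)
      _ = ρ⁻¹ * m ^ 2 := by ring
  have hlt : ∀ i, i ≠ i₀ → lam i = 0 ∨ (i : ℕ) + 1 ≤ (i₀ : ℕ) := by
    intro i hi
    rcases lt_or_gt_of_ne hi with h | h
    · exact Or.inr h
    · exact Or.inl (h1 i h)
  have key := Pool.Agent.Helper276.VdC.first_test (ψ := fun t : ℝ => ∑ i, lam i * t ^ ((i : ℕ) + 1))
    (ψ1 := fun t : ℝ => ∑ i : Fin m, lam i * ((i : ℕ) + 1) * t ^ (i : ℕ))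
    (ψ2 := fun t : ℝ => ∑ i : Fin m, lam i * ((i : ℕ) + 1) * (i : ℕ) * t ^ ((i : ℕ) - 1)) (a := T) (b := 2 * T)
    (l := ρ / 2) (by linarith) (half_pos hρ) (fun t _ => hder t) (fun t _ => hder2 t)
    (Continuous.continuousOn (by fun_prop)) ?_ ?_
  · refine key.trans (le_of_eq ?_)
    field_simp
    norm_num
  · intro t ht
    obtain ⟨ht1, ht2⟩ := hTR t ht
    show 0 ≤ ∑ i : Fin m, lam i * ((i : ℕ) + 1) * (i : ℕ) * t ^ ((i : ℕ) - 1)
    by_cases h00 : (i₀ : ℕ) = 0
    · refine le_of_eq (Finset.sum_eq_zero fun i _ => ?_).symm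
      by_cases hi : (i : ℕ) = 0
      · rw [hi]; simp
      · rw [h1 i (by rw [Fin.lt_def, h00]; omega)]; simp
    · have h3 := dom (fun i : Fin m => lam i * ((i : ℕ) + 1) * (i : ℕ)) (fun i => (i : ℕ) - 1) i₀ hρ hR0 ?_ ?_ ht1 ht2
      · refine le_trans ?_ h3
        have : 0 < t := by linarith
        positivity
      · have h4 : (1 : ℝ) ≤ (i₀ : ℕ) := by exact_mod_cast Nat.one_le_iff_ne_zero.2 h00
        calc ρ ≤ lam i₀ := h0
          _ ≤ lam i₀ * (((i₀ : ℕ) : ℝ) + 1) := le_mul_of_one_le_right (by linarith) (by linarith)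
          _ ≤ lam i₀ * (((i₀ : ℕ) : ℝ) + 1) * (i₀ : ℕ) := le_mul_of_one_le_right
            (mul_nonneg (by linarith) (by linarith)) h4
      · intro i hi
        rcases hlt i hi with h | h
        · left; simp [h]
        · by_cases hi0 : (i : ℕ) = 0
          · left; simp [hi0]
          · right
            refine ⟨hb2 i, ?_⟩
            show (i : ℕ) - 1 + 1 ≤ (i₀ : ℕ) - 1
            omega
  · intro t ht
    obtain ⟨ht1, ht2⟩ := hTR t ht
    have h3 := dom (fun i : Fin m => lam i * ((i : ℕ) + 1)) (fun i => (i : ℕ)) i₀ hρ hR0 ?_ ?_ ht1 ht2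
    · refine le_trans ?_ (le_abs_self _)
      refine le_trans ?_ h3
      exact le_mul_of_one_le_right (by linarith) (one_le_pow₀ ht1)
    · calc ρ ≤ lam i₀ := h0
        _ ≤ lam i₀ * (((i₀ : ℕ) : ℝ) + 1) := le_mul_of_one_le_right (by linarith)
          (by have : (0 : ℝ) ≤ (i₀ : ℕ) := by positivity
              linarith)
    · intro i hi
      rcases hlt i hi with h | h
      · left; simp [h]
      · right; exact ⟨hb i, h⟩

/-- the exponential integrals of monomials -/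
lemma Osc_mono (m : ℕ) : Osc (fun (i : Fin m) (t : ℝ) => t ^ ((i : ℕ) + 1)) := by
  refine ⟨8 + 2 * m ^ 3, 1, 2, by positivity, one_pos, ?_⟩
  filter_upwards [eventually_ge_atTop 1] with T hT1 ρ hρ hρ1 lam h1 h2 h3
  have hT0 : 0 < T := by linarith
  have hρi : 1 ≤ ρ⁻¹ := (one_le_inv₀ hρ).2 hρ1
  rw [sub_self, Real.rpow_zero, mul_one]
  by_cases hT : 2 * m ^ 3 * ρ⁻¹ ^ 2 ≤ T
  · -- the top index
    set S : Finset (Fin m) := Finset.univ.filter fun i => lam i ≠ 0 with hS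
    have hSne : S.Nonempty := by
      obtain ⟨i, hi⟩ := h3
      exact ⟨i, by simp [hS, hi]⟩
    set i₀ := S.max' hSne with hi₀
    have hm0 : lam i₀ ≠ 0 := by
      have := S.max'_mem hSne
      simpa [hS] using this
    have htop : ∀ i, i₀ < i → lam i = 0 := by
      intro i hi
      by_contra h
      have := S.le_max' i (by simp [hS, h])
      exact absurd hi (not_lt.2 this)
    have h8 : 8 * ρ⁻¹ ≤ (8 + 2 * (m : ℝ) ^ 3) * ρ⁻¹ ^ 2 := by
      have : (0 : ℝ) ≤ 2 * (m : ℝ) ^ 3 := by positivity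
      nlinarith [sq_nonneg ρ⁻¹, mul_nonneg this (sq_nonneg ρ⁻¹)]
    refine le_trans ?_ h8
    have habs := (h1 i₀).resolve_left hm0
    rcases le_or_gt 0 (lam i₀) with h | h
    · rw [abs_of_nonneg h] at habs
      exact osc_top lam i₀ hρ habs htop h2 hT1 hT
    · rw [abs_of_neg h] at habs
      have h9 := osc_top (fun i => -lam i) i₀ hρ habs (fun i hi => by rw [htop i hi, neg_zero])
        (fun i => by rw [abs_neg]; exact h2 i) hT1 hT
      have e : ∀ t : ℝ, ∑ i, -lam i * t ^ ((i : ℕ) + 1) = -∑ i, lam i * t ^ ((i : ℕ) + 1) := fun t => by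
        rw [← Finset.sum_neg_distrib]
        exact Finset.sum_congr rfl fun i _ => by ring
      simp_rw [e] at h9
      rwa [Pool.Agent.Helper276.VdC.norm_integral_conj] at h9
  · push Not at hT
    have h4 : ‖∫ t in T..2 * T, cexp (I * ((∑ i, lam i * t ^ ((i : ℕ) + 1) : ℝ) : ℂ))‖ ≤ 1 * |2 * T - T| :=
      intervalIntegral.norm_integral_le_of_norm_le_const fun t _ => by rw [norm_exp_I_mul_ofReal]
    rw [one_mul, show 2 * T - T = T by ring, abs_of_pos hT0] at h4
    refine h4.trans (hT.le.trans ?_)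
    have : (0 : ℝ) ≤ ρ⁻¹ ^ 2 := by positivity
    nlinarith

/-- nonzero multiples of the base functions -/
lemma Osc.smul {m : ℕ} {φ : Fin m → ℝ → ℝ} (h : Osc φ) (θ : Fin m → ℝ) (hθ : ∀ i, θ i ≠ 0) :
    Osc (fun i t => θ i * φ i t) := by
  obtain ⟨C, κ, B, hC, hκ, hev⟩ := h
  obtain ⟨δ, hδ, hδ1, hd⟩ : ∃ δ : ℝ, 0 < δ ∧ δ ≤ 1 ∧ ∀ i, δ ≤ |θ i| ∧ δ * |θ i| ≤ 1 := by
    by_cases hm : Nonempty (Fin m)
    · set f : Fin m → ℝ := fun i => min |θ i| |θ i|⁻¹ with hf
      have hfp : ∀ i, 0 < f i := fun i => lt_min (abs_pos.2 (hθ i)) (inv_pos.2 (abs_pos.2 (hθ i)))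
      obtain ⟨i, -, hi⟩ := Finset.exists_min_image Finset.univ f Finset.univ_nonempty
      refine ⟨min 1 (f i), lt_min one_pos (hfp i), min_le_left _ _, fun j => ⟨?_, ?_⟩⟩
      · exact (min_le_right _ _).trans ((hi j (Finset.mem_univ j)).trans (min_le_left _ _))
      · have h1 : min 1 (f i) ≤ |θ j|⁻¹ := (min_le_right _ _).trans ((hi j (Finset.mem_univ j)).trans (min_le_right _ _))
        calc min 1 (f i) * |θ j| ≤ |θ j|⁻¹ * |θ j| := mul_le_mul_of_nonneg_right h1 (abs_nonneg _)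
          _ = 1 := inv_mul_cancel₀ (abs_ne_zero.2 (hθ j))
    · exact ⟨1, one_pos, le_rfl, fun i => absurd ⟨i⟩ hm⟩
  refine ⟨C * δ⁻¹ ^ B, κ, B, by positivity, hκ, ?_⟩
  filter_upwards [hev] with T hT ρ hρ hρ1 lam h1 h2 h3
  have hρi : 0 < ρ⁻¹ := inv_pos.2 hρ
  have h4 := hT (ρ * δ) (by positivity) (mul_le_one₀ hρ1 hδ.le hδ1) (fun i => lam i * θ i) (fun i => ?_) (fun i => ?_) ?_
  · have e : ∀ t, ∑ i, lam i * θ i * φ i t = ∑ i, lam i * (θ i * φ i t) := fun t =>
      Finset.sum_congr rfl fun i _ => by ring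
    simp_rw [e] at h4
    refine h4.trans (le_of_eq ?_)
    rw [mul_inv, mul_pow]; ring
  · rcases h1 i with h | h
    · left; simp [h]
    · right
      rw [abs_mul]
      exact mul_le_mul h (hd i).1 hδ.le (abs_nonneg _)
  · simp only [abs_mul]
    rw [mul_inv]
    refine mul_le_mul (h2 i) ?_ (abs_nonneg _) hρi.le
    have h5 := (hd i).2
    rw [← one_div, le_div_iff₀ hδ]
    linarith
  · obtain ⟨i, hi⟩ := h3
    exact ⟨i, mul_ne_zero hi (hθ i)⟩

/-! ### polynomials as arguments -/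

lemma poly_bd (P : Polynomial ℝ) (hl : 0 < P.leadingCoeff) : ∀ᶠ t : ℝ in atTop,
    P.leadingCoeff / 2 * t ^ P.natDegree ≤ P.eval t ∧ P.eval t ≤ 2 * P.leadingCoeff * t ^ P.natDegree := by
  have hP : P ≠ 0 := fun h => by rw [h, Polynomial.leadingCoeff_zero] at hl; exact lt_irrefl _ hl
  have h1 := Polynomial.div_tendsto_atTop_leadingCoeff_div_of_degree_eq P (Polynomial.X ^ P.natDegree : Polynomial ℝ)
    (by rw [Polynomial.degree_X_pow, Polynomial.degree_eq_natDegree hP])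
  rw [Polynomial.leadingCoeff_X_pow, div_one] at h1
  filter_upwards [h1.eventually (lt_mem_nhds (half_lt_self hl)), h1.eventually (gt_mem_nhds (by linarith : P.leadingCoeff < 2 * P.leadingCoeff)),
    eventually_gt_atTop 0] with t h2 h3 h4
  have h5 : 0 < t ^ P.natDegree := pow_pos h4 _
  simp only [Polynomial.eval_pow, Polynomial.eval_X] at h2 h3
  rw [lt_div_iff₀ h5] at h2
  rw [div_lt_iff₀ h5] at h3
  exact ⟨h2.le, h3.le⟩

lemma Adm_poly (P : Polynomial ℝ) (hn : 0 < P.natDegree) (hl : 0 < P.leadingCoeff) : Adm fun t => P.eval t := by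
  set n := P.natDegree with hnn
  set a := P.leadingCoeff with ha
  have hH : HH fun T : ℝ => T ^ n := ⟨n, n, by exact_mod_cast hn, by exact_mod_cast hn,
    Eventually.of_forall fun T => by rw [Real.rpow_natCast]; exact ⟨le_rfl, le_rfl⟩⟩
  refine ⟨fun t => P.derivative.eval t, fun T => a / 2 * T ^ n, 1, 2 ^ (n + 2), one_pos, ?_,
    hH.scale (half_pos hl), ?_⟩
  · exact one_le_pow₀ one_le_two
  have hn1 : (1 : ℝ) ≤ n := by exact_mod_cast hn
  have hcf : P.derivative.coeff (n - 1) = a * n := by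
    rw [Polynomial.coeff_derivative]
    have : n - 1 + 1 = n := by omega
    rw [this, ha, Polynomial.leadingCoeff, ← hnn]
    congr 1
    have h2 : ((n - 1 : ℕ) : ℝ) = (n : ℝ) - 1 := by
      rw [Nat.cast_sub hn]; simp
    rw [h2]; ring
  have hdn : P.derivative.natDegree = n - 1 := by
    refine le_antisymm (Polynomial.natDegree_derivative_le P) (Polynomial.le_natDegree_of_ne_zero ?_)
    rw [hcf]; positivity
  have hdl : P.derivative.leadingCoeff = a * n := by
    rw [Polynomial.leadingCoeff, hdn, hcf]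
  have h1 := poly_bd P hl
  have h2 := poly_bd P.derivative (by rw [hdl]; positivity)
  rw [hdn, hdl] at h2
  filter_upwards [h1, (tendsto_id.const_mul_atTop (two_pos : (0:ℝ) < 2)).eventually h1,
    eventually_forall_ge_atTop.2 h2, eventually_gt_atTop 0] with T h3 h4 h5 hT
  refine ⟨fun t ht => ⟨P.hasDerivAt t, ?_⟩, h3.1, ?_⟩
  · refine le_trans ?_ (h5 t ht.1).1
    have h6 : T ^ n = T * T ^ (n - 1) := by rw [← pow_succ']; congr 1; omega
    rw [one_mul, h6, show a / 2 * (T * T ^ (n - 1)) / T = a / 2 * T ^ (n - 1) by field_simp]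
    have h7 : T ^ (n - 1) ≤ t ^ (n - 1) := pow_le_pow_left₀ hT.le ht.1 _
    calc a / 2 * T ^ (n - 1) ≤ a / 2 * t ^ (n - 1) := mul_le_mul_of_nonneg_left h7 (by positivity)
      _ ≤ a * n / 2 * t ^ (n - 1) := mul_le_mul_of_nonneg_right (by nlinarith) (by
        have : 0 < t := lt_of_lt_of_le hT ht.1
        positivity)
  · have h6 : P.eval (2 * T) ≤ 2 * a * (2 * T) ^ n := h4.2
    refine h6.trans (le_of_eq ?_)
    rw [mul_pow, pow_add]; ring

/-- **polynomial arguments** -/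
theorem poly_char {k : ℕ} (Q : Fin k → Polynomial ℝ) (hQ : Function.Injective Q) (hd : ∀ j, 0 < (Q j).natDegree)
    (hl : ∀ j, 0 < (Q j).leadingCoeff) (hr : ∀ i, 0 < i → ∃ θ : ℝ, ∀ j, ∃ r : ℚ, (Q j).coeff i = r * θ) (c : Fin k → ℝ) :
    Tendsto (fun T => ∫ t, cexp (I * ((∑ j, c j * (zT T * Dd ((Q j).eval t)) : ℝ) : ℂ)) ∂(muT T)) atTop
      (𝓝 ((Real.exp (-(1 / 2 * ∑ j, c j ^ 2)) : ℝ) : ℂ)) := by
  set m : ℕ := Finset.univ.sup fun j => (Q j).natDegree with hm
  have hle : ∀ j, (Q j).natDegree ≤ m := fun j => Finset.le_sup (f := fun j => (Q j).natDegree) (Finset.mem_univ j)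
  choose θ' r hθ' using fun i : Fin m => hr ((i : ℕ) + 1) (Nat.succ_pos _)
  -- nonzero reals
  set θ : Fin m → ℝ := fun i => if θ' i = 0 then 1 else θ' i with hθd
  have hθ0 : ∀ i, θ i ≠ 0 := by
    intro i
    simp only [hθd]
    split_ifs with h
    · exact one_ne_zero
    · exact h
  obtain ⟨r, hr'⟩ : ∃ r : Fin m → Fin k → ℚ, ∀ (i : Fin m) (j : Fin k),
      (Q j).coeff ((i : ℕ) + 1) = r i j * θ i := by
    refine ⟨fun i j => if θ' i = 0 then 0 else r i j, fun i j => ?_⟩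
    simp only [hθd]
    split_ifs with h
    · rw [hθ' i j, h]; simp
    · exact hθ' i j
  -- the common denominator
  set d : ℕ := ∏ i, ∏ j, (r i j).den with hd'
  have hd0 : 0 < d := Finset.prod_pos fun i _ => Finset.prod_pos fun j _ => (r i j).den_pos
  have hdR : (d : ℝ) ≠ 0 := by exact_mod_cast hd0.ne'
  have hn : ∀ j i, ∃ n : ℤ, (n : ℚ) = r i j * d := by
    intro j i
    obtain ⟨e, he⟩ : (r i j).den ∣ d := (Finset.dvd_prod_of_mem _ (Finset.mem_univ j)).trans
      (Finset.dvd_prod_of_mem (fun i => ∏ j, (r i j).den) (Finset.mem_univ i))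
    refine ⟨(r i j).num * e, ?_⟩
    rw [he]
    push_cast
    rw [← mul_assoc, Rat.mul_den_eq_num]
  choose n hn using hn
  have hnR : ∀ j i, (n j i : ℝ) = (r i j : ℝ) * d := fun j i => by exact_mod_cast hn j i
  set D : Dat k m := ⟨n, fun j => (Q j).coeff 0⟩ with hD
  -- the coefficients
  have hcoef : ∀ (j : Fin k) (i : Fin m), (Q j).coeff ((i : ℕ) + 1) * d = n j i * θ i := by
    intro j i
    rw [hr' i j, hnR]; ring
  have hsm : Osc (fun (i : Fin m) (t : ℝ) => (θ i / d) * t ^ ((i : ℕ) + 1)) :=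
    (Osc_mono m).smul (fun i => θ i / d) fun i => div_ne_zero (hθ0 i) hdR
  have harg : ∀ j t, D.arg (fun (i : Fin m) (t : ℝ) => (θ i / d) * t ^ ((i : ℕ) + 1)) j t = (Q j).eval t := by
    intro j t
    unfold Dat.arg
    rw [Polynomial.eval_eq_sum_range' (Nat.lt_succ_of_le (hle j)), Finset.sum_range_succ', Finset.sum_range]
    simp only [hD, pow_zero, mul_one]
    congr 1
    refine Finset.sum_congr rfl fun i _ => ?_
    have h1 := hcoef j i
    field_simp
    linear_combination (-(t ^ ((i : ℕ) + 1))) * h1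
  have hco : ∀ j, ∃ i : Fin m, (i : ℕ) + 1 = (Q j).natDegree := fun j =>
    ⟨⟨(Q j).natDegree - 1, by have := hle j; have := hd j; omega⟩, by have := hd j; simp; omega⟩
  have hOk : D.Ok := by
    refine ⟨fun j h => ?_, fun j j' h => ?_, fun j j' h1 h2 => ?_⟩
    · obtain ⟨i, hi⟩ := hco j
      have h1 := hcoef j i
      have h2 : n j i = 0 := congrFun h i
      rw [h2, hi, Int.cast_zero, zero_mul] at h1
      exact absurd h1 (mul_ne_zero (hl j).ne' hdR)
    · have hopp : ∀ i : Fin m, (Q j).coeff ((i : ℕ) + 1) = -(Q j').coeff ((i : ℕ) + 1) := by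
        intro i
        have h1 := hcoef j i
        have h2 := hcoef j' i
        have h3 : n j i = -n j' i := congrFun h i
        rw [h3] at h1
        push_cast at h1
        refine mul_right_cancel₀ hdR ?_
        linarith
      obtain ⟨i, hi⟩ := hco j
      obtain ⟨i', hi'⟩ := hco j'
      have hp := hopp i
      have hp' := hopp i'
      rw [hi] at hp
      rw [hi'] at hp'
      have hl1 : 0 < (Q j).coeff (Q j).natDegree := hl j
      have hl2 : 0 < (Q j').coeff (Q j').natDegree := hl j'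
      have g1 : (Q j).natDegree ≤ (Q j').natDegree := Polynomial.le_natDegree_of_ne_zero (by linarith : (Q j').coeff (Q j).natDegree < 0).ne
      have g2 : (Q j').natDegree ≤ (Q j).natDegree := Polynomial.le_natDegree_of_ne_zero (by linarith : (Q j).coeff (Q j').natDegree < 0).ne
      rw [le_antisymm g1 g2] at hp hl1
      linarith
    · refine hQ (Polynomial.ext fun l => ?_)
      rcases Nat.eq_zero_or_pos l with h | h
      · rw [h]; exact h2
      · by_cases hlm : l ≤ m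
        · have h3 := hcoef j ⟨l - 1, by omega⟩
          have h4 := hcoef j' ⟨l - 1, by omega⟩
          have h5 : n j = n j' := h1
          rw [h5, ← h4] at h3
          have h6 : l - 1 + 1 = l := by omega
          simp only [h6] at h3
          exact mul_right_cancel₀ hdR h3
        · rw [Polynomial.coeff_eq_zero_of_natDegree_lt (by have := hle j; omega),
            Polynomial.coeff_eq_zero_of_natDegree_lt (by have := hle j'; omega)]
  have h := disp_char hOk (φ := fun (i : Fin m) (t : ℝ) => (θ i / d) * t ^ ((i : ℕ) + 1)) (fun _ => by fun_prop) (nr_of_osc hsm)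
    (fun j => by
      have := Adm_poly (Q j) (hd j) (hl j)
      rw [show D.arg (fun (i : Fin m) (t : ℝ) => (θ i / d) * t ^ ((i : ℕ) + 1)) j = fun t => (Q j).eval t from
        funext (harg j)]
      exact this) c
  simp_rw [harg] at h
  exact h

end

end Pool.Agent.Q173.JD
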