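import Pool.Agent.Q173.JD.Ord

set_option autoImplicit false

/-! # Real powers -/

namespace Pool.Agent.Q173.JD

open Filter Topology MeasureTheory Complex Set
open Pool.Agent.Q173.JL (Dd)

noncomputable section

/-- the dominant term -/
lemma dom_r {n : ℕ} (c α : Fin n → ℝ) (i₀ : Fin n) {ρ R δ t : ℝ} (hρ : 0 < ρ) (hR : 0 ≤ R) (h0 : ρ ≤ |c i₀|)
    (h1 : ∀ i, i ≠ i₀ → c i = 0 ∨ (|c i| ≤ R ∧ α i + δ ≤ α i₀)) (ht1 : 1 ≤ t) (ht : 2 * n * R / ρ ≤ t ^ δ) :
    |(∑ i, c i * t ^ α i) - c i₀ * t ^ α i₀| ≤ 1 / 2 * (|c i₀| * t ^ α i₀) := by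
  have ht0 : 0 < t := by linarith
  rw [← Finset.add_sum_erase _ _ (Finset.mem_univ i₀), add_sub_cancel_left]
  have h2 : ∀ i ∈ Finset.univ.erase i₀, |c i * t ^ α i| ≤ R * t ^ (α i₀ - δ) := by
    intro i hi
    rcases h1 i (Finset.ne_of_mem_erase hi) with h | ⟨h, h'⟩
    · rw [h, zero_mul, abs_zero]; positivity
    · rw [abs_mul, abs_of_pos (Real.rpow_pos_of_pos ht0 _)]
      exact mul_le_mul h (Real.rpow_le_rpow_of_exponent_le ht1 (by linarith)) (by positivity) hR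
  have h3 : |∑ i ∈ Finset.univ.erase i₀, c i * t ^ α i| ≤ n * (R * t ^ (α i₀ - δ)) := by
    refine (Finset.abs_sum_le_sum_abs _ _).trans ((Finset.sum_le_sum h2).trans ?_)
    rw [Finset.sum_const, nsmul_eq_mul]
    refine mul_le_mul_of_nonneg_right ?_ (by positivity)
    exact_mod_cast (Finset.card_le_univ _).trans (by simp)
  refine h3.trans ?_
  rw [div_le_iff₀ hρ] at ht
  have h4 : t ^ α i₀ = t ^ (α i₀ - δ) * t ^ δ := by rw [← Real.rpow_add ht0]; congr 1; ring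
  have h5 : 0 < t ^ (α i₀ - δ) := Real.rpow_pos_of_pos ht0 _
  have h6 : 0 < t ^ δ := Real.rpow_pos_of_pos ht0 _
  rw [h4]
  calc (n : ℝ) * (R * t ^ (α i₀ - δ)) = 1 / 2 * (2 * n * R) * t ^ (α i₀ - δ) := by ring
    _ ≤ 1 / 2 * (t ^ δ * ρ) * t ^ (α i₀ - δ) := by gcongr
    _ ≤ 1 / 2 * (t ^ δ * |c i₀|) * t ^ (α i₀ - δ) := by gcongr
    _ = _ := by ring

/-- the first derivative test -/
lemma first_abs {ψ ψ1 ψ2 : ℝ → ℝ} {a b l : ℝ} (hab : a ≤ b) (hl : 0 < l)
    (h1 : ∀ x ∈ Icc a b, HasDerivAt ψ (ψ1 x) x) (h2 : ∀ x ∈ Icc a b, HasDerivAt ψ1 (ψ2 x) x)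
    (h2c : ContinuousOn ψ2 (Icc a b)) (hs : (∀ x ∈ Icc a b, 0 ≤ ψ2 x) ∨ ∀ x ∈ Icc a b, ψ2 x ≤ 0)
    (hlow : ∀ x ∈ Icc a b, l ≤ |ψ1 x|) : ‖∫ x in a..b, cexp (I * (ψ x : ℂ))‖ ≤ 4 / l := by
  rcases hs with hs | hs
  · exact Pool.Agent.Helper276.VdC.first_test hab hl h1 h2 h2c hs hlow
  · rw [← Pool.Agent.Helper276.VdC.norm_integral_conj]
    exact Pool.Agent.Helper276.VdC.first_test (ψ := fun x => -ψ x) (ψ1 := fun x => -ψ1 x) (ψ2 := fun x => -ψ2 x) hab hl
      (fun x hx => (h1 x hx).neg) (fun x hx => (h2 x hx).neg) h2c.neg (fun x hx => neg_nonneg.2 (hs x hx))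
      fun x hx => by rw [abs_neg]; exact hlow x hx

/-- the top index of a nonzero vector -/
lemma top_idx {n : ℕ} {α : Fin n → ℝ} {δ : ℝ} (hδ : ∀ i j, i ≠ j → δ ≤ |α i - α j|) (c : Fin n → ℝ) (hc : ∃ i, c i ≠ 0) :
    ∃ i₀, c i₀ ≠ 0 ∧ ∀ i, i ≠ i₀ → c i = 0 ∨ α i + δ ≤ α i₀ := by
  classical
  set S : Finset (Fin n) := Finset.univ.filter fun i => c i ≠ 0 with hS
  have hne : S.Nonempty := by
    obtain ⟨i, hi⟩ := hc
    exact ⟨i, by simp [hS, hi]⟩
  obtain ⟨i₀, hi₀, hmax⟩ := S.exists_max_image α hne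
  refine ⟨i₀, by simpa [hS] using hi₀, fun i hi => ?_⟩
  by_cases h : c i = 0
  · exact Or.inl h
  · right
    have h1 := hmax i (by simp [hS, h])
    have h2 := hδ i i₀ hi
    rw [abs_of_nonpos (by linarith)] at h2
    linarith

/-- the exponential integrals of real powers -/
lemma Osc_pow {n : ℕ} (α : Fin n → ℝ) (hα : Function.Injective α) (h0 : ∀ i, 0 < α i) (h1 : ∀ i, α i ≤ 1) :
    Osc (fun (i : Fin n) (t : ℝ) => t ^ α i) := by
  classical
  -- the constants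
  obtain ⟨δ, hδ, hδ2⟩ : ∃ δ : ℝ, 0 < δ ∧ ∀ i j, i ≠ j → δ ≤ |α i - α j| := by
    by_cases hne : (Finset.univ.offDiag : Finset (Fin n × Fin n)).Nonempty
    · obtain ⟨p, hp, hmin⟩ := Finset.exists_min_image _ (fun p : Fin n × Fin n => |α p.1 - α p.2|) hne
      rw [Finset.mem_offDiag] at hp
      refine ⟨|α p.1 - α p.2|, abs_pos.2 (sub_ne_zero.2 fun h => hp.2.2 (hα h)), fun i j hij => ?_⟩
      exact hmin (i, j) (by simp [hij])
    · refine ⟨1, one_pos, fun i j hij => ?_⟩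
      exact absurd ⟨(i, j), by simp [hij]⟩ hne
  obtain ⟨κ, hκ, hκ1, hκ2⟩ : ∃ κ : ℝ, 0 < κ ∧ κ ≤ 1 ∧ ∀ i, κ ≤ α i := by
    by_cases hne : Nonempty (Fin n)
    · obtain ⟨i, -, hi⟩ := Finset.exists_min_image Finset.univ α Finset.univ_nonempty
      exact ⟨α i, h0 i, h1 i, fun j => hi j (Finset.mem_univ j)⟩
    · exact ⟨1, one_pos, le_rfl, fun i => absurd ⟨i⟩ hne⟩
  obtain ⟨η, hη, hη1, hη2⟩ : ∃ η : ℝ, 0 < η ∧ η ≤ 1 ∧ ∀ i, α i ≠ 1 → η ≤ α i * (1 - α i) := by
    by_cases hne : (Finset.univ.filter fun i => α i ≠ 1).Nonempty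
    · obtain ⟨i, hi, hmin⟩ := Finset.exists_min_image _ (fun i => α i * (1 - α i)) hne
      rw [Finset.mem_filter] at hi
      have h2 : 0 < 1 - α i := by
        rcases lt_or_eq_of_le (h1 i) with h | h
        · linarith
        · exact absurd h hi.2
      refine ⟨α i * (1 - α i), mul_pos (h0 i) h2, by nlinarith [h0 i], fun j hj => hmin j (by simp [hj])⟩
    · exact ⟨1, one_pos, le_rfl, fun i hi => absurd ⟨i, by simp [hi]⟩ hne⟩
  set K : ℝ := 2 * n / κ + 2 * n / η + 1 with hK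
  have hK1 : 1 ≤ K := by
    have : 0 ≤ 2 * (n : ℝ) / κ := by positivity
    have : 0 ≤ 2 * (n : ℝ) / η := by positivity
    linarith
  obtain ⟨B, hB⟩ := exists_nat_ge (2 * (κ / δ))
  refine ⟨16 / κ + K ^ (κ / δ), κ, B + 1, by positivity, hκ, ?_⟩
  filter_upwards [eventually_ge_atTop 1] with T hT1 ρ hρ hρ1 lam hl1 hl2 hl3
  have hT0 : 0 < T := by linarith
  have hρi : 1 ≤ ρ⁻¹ := (one_le_inv₀ hρ).2 hρ1
  have hρi0 : 0 < ρ⁻¹ := by linarith
  have hTp : 0 < T ^ (1 - κ) := Real.rpow_pos_of_pos hT0 _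
  by_cases hT : K * ρ⁻¹ ^ 2 ≤ T ^ δ
  · -- the derivatives
    have hder : ∀ t ∈ Icc T (2 * T), HasDerivAt (fun t : ℝ => ∑ i, lam i * t ^ α i)
        (∑ i, lam i * α i * t ^ (α i - 1)) t := by
      intro t ht
      have ht0 : 0 < t := by linarith [ht.1]
      have h := HasDerivAt.fun_sum (u := Finset.univ) (A := fun (i : Fin n) (t : ℝ) => lam i * t ^ α i)
        (A' := fun i => lam i * α i * t ^ (α i - 1)) (x := t) fun i _ => by
          have h3 := (Real.hasDerivAt_rpow_const (p := α i) (Or.inl ht0.ne')).const_mul (lam i)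
          simpa [mul_assoc] using h3
      exact h
    have hder2 : ∀ t ∈ Icc T (2 * T), HasDerivAt (fun t : ℝ => ∑ i, lam i * α i * t ^ (α i - 1))
        (∑ i, lam i * α i * (α i - 1) * t ^ (α i - 1 - 1)) t := by
      intro t ht
      have ht0 : 0 < t := by linarith [ht.1]
      have h := HasDerivAt.fun_sum (u := Finset.univ) (A := fun (i : Fin n) (t : ℝ) => lam i * α i * t ^ (α i - 1))
        (A' := fun i => lam i * α i * (α i - 1) * t ^ (α i - 1 - 1)) (x := t) fun i _ => by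
          have h3 := (Real.hasDerivAt_rpow_const (p := α i - 1) (Or.inl ht0.ne')).const_mul (lam i * α i)
          simpa [mul_assoc] using h3
      exact h
    have hc2 : ContinuousOn (fun t : ℝ => ∑ i, lam i * α i * (α i - 1) * t ^ (α i - 1 - 1)) (Icc T (2 * T)) := by
      refine continuousOn_finsetSum _ fun i _ => ContinuousOn.mul continuousOn_const ?_
      exact ContinuousOn.rpow_const continuousOn_id fun t ht => Or.inl (by
        have := ht.1
        show t ≠ 0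
        linarith)
    have hthr : ∀ t ∈ Icc T (2 * T), 1 ≤ t ∧ K * ρ⁻¹ ^ 2 ≤ t ^ δ := fun t ht =>
      ⟨hT1.trans ht.1, hT.trans (Real.rpow_le_rpow hT0.le ht.1 hδ.le)⟩
    have hn0 : (0 : ℝ) ≤ n := Nat.cast_nonneg n
    have hK2 : 2 * n * ρ⁻¹ / (ρ * κ) ≤ K * ρ⁻¹ ^ 2 := by
      have e : 2 * n * ρ⁻¹ / (ρ * κ) = (2 * n / κ) * ρ⁻¹ ^ 2 := by field_simp
      rw [e]
      refine mul_le_mul_of_nonneg_right ?_ (by positivity)
      have : 0 ≤ 2 * (n : ℝ) / η := by positivity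
      linarith
    have hK3 : 2 * n * ρ⁻¹ / (ρ * η) ≤ K * ρ⁻¹ ^ 2 := by
      have e : 2 * n * ρ⁻¹ / (ρ * η) = (2 * n / η) * ρ⁻¹ ^ 2 := by field_simp
      rw [e]
      refine mul_le_mul_of_nonneg_right ?_ (by positivity)
      have : 0 ≤ 2 * (n : ℝ) / κ := by positivity
      linarith
    -- the sign of the second derivative
    have hsign : (∀ t ∈ Icc T (2 * T), 0 ≤ ∑ i, lam i * α i * (α i - 1) * t ^ (α i - 1 - 1)) ∨
        ∀ t ∈ Icc T (2 * T), ∑ i, lam i * α i * (α i - 1) * t ^ (α i - 1 - 1) ≤ 0 := by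
      by_cases hz : ∃ i, lam i * α i * (α i - 1) ≠ 0
      · obtain ⟨i₁, hi1, htop⟩ := top_idx (α := α) hδ2 (fun i => lam i * α i * (α i - 1)) hz
        have hne1 : α i₁ ≠ 1 := fun h => hi1 (by simp [h])
        have hlam1 : lam i₁ ≠ 0 := fun h => hi1 (by simp [h])
        have hlow : ρ * η ≤ |lam i₁ * α i₁ * (α i₁ - 1)| := by
          rw [mul_assoc, abs_mul]
          have h5 : |α i₁ * (α i₁ - 1)| = α i₁ * (1 - α i₁) := by
            rw [abs_mul, abs_of_pos (h0 i₁), abs_sub_comm, abs_of_nonneg (by linarith [h1 i₁])]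
          rw [h5]
          exact mul_le_mul ((hl1 i₁).resolve_left hlam1) (hη2 i₁ hne1) hη.le (abs_nonneg _)
        have hup : ∀ i, |lam i * α i * (α i - 1)| ≤ ρ⁻¹ := by
          intro i
          rw [mul_assoc, abs_mul]
          have h5 : |α i * (α i - 1)| ≤ 1 := by
            rw [abs_mul, abs_of_pos (h0 i), abs_sub_comm, abs_of_nonneg (by linarith [h1 i])]
            nlinarith [h0 i, h1 i]
          calc |lam i| * |α i * (α i - 1)| ≤ ρ⁻¹ * 1 := mul_le_mul (hl2 i) h5 (abs_nonneg _) hρi0.le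
            _ = ρ⁻¹ := mul_one _
        have hdom : ∀ t ∈ Icc T (2 * T), |(∑ i, lam i * α i * (α i - 1) * t ^ (α i - 1 - 1)) -
            lam i₁ * α i₁ * (α i₁ - 1) * t ^ (α i₁ - 1 - 1)| ≤
            1 / 2 * (|lam i₁ * α i₁ * (α i₁ - 1)| * t ^ (α i₁ - 1 - 1)) := fun t ht =>
          dom_r (fun i => lam i * α i * (α i - 1)) (fun i => α i - 1 - 1) i₁ (by positivity) hρi0.le hlow
            (fun i hi => (htop i hi).imp_right fun h => ⟨hup i, by linarith⟩) (hthr t ht).1 (hK3.trans (hthr t ht).2)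
        rcases lt_or_gt_of_ne hi1 with h | h
        · right
          intro t ht
          have h6 := (abs_le.1 (hdom t ht)).2
          have h7 : 0 < t ^ (α i₁ - 1 - 1) := Real.rpow_pos_of_pos (by linarith [ht.1]) _
          rw [abs_of_neg h] at h6
          nlinarith
        · left
          intro t ht
          have h6 := (abs_le.1 (hdom t ht)).1
          have h7 : 0 < t ^ (α i₁ - 1 - 1) := Real.rpow_pos_of_pos (by linarith [ht.1]) _
          rw [abs_of_pos h] at h6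
          nlinarith
      · push Not at hz
        left
        intro t _
        exact le_of_eq (Finset.sum_eq_zero fun i _ => by rw [hz i, zero_mul]).symm
    -- the size of the first derivative
    obtain ⟨i₀, hi0, htop⟩ := top_idx (α := α) hδ2 lam hl3
    have hlow : ρ * κ ≤ |lam i₀ * α i₀| := by
      rw [abs_mul, abs_of_pos (h0 i₀)]
      exact mul_le_mul ((hl1 i₀).resolve_left hi0) (hκ2 i₀) hκ.le (abs_nonneg _)
    have hup : ∀ i, |lam i * α i| ≤ ρ⁻¹ := by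
      intro i
      rw [abs_mul, abs_of_pos (h0 i)]
      calc |lam i| * α i ≤ ρ⁻¹ * 1 := mul_le_mul (hl2 i) (h1 i) (h0 i).le hρi0.le
        _ = ρ⁻¹ := mul_one _
    have hlow2 : ∀ t ∈ Icc T (2 * T), ρ * κ / 4 * T ^ (κ - 1) ≤ |∑ i, lam i * α i * t ^ (α i - 1)| := by
      intro t ht
      have ht0 : 0 < t := by linarith [ht.1]
      have h5 := dom_r (fun i => lam i * α i) (fun i => α i - 1) i₀ (by positivity) hρi0.le hlow
        (fun i hi => (htop i hi).imp (fun h => by simp [h]) fun h => ⟨hup i, by linarith⟩) (hthr t ht).1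
        (hK2.trans (hthr t ht).2)
      have h7 : 0 < t ^ (α i₀ - 1) := Real.rpow_pos_of_pos ht0 _
      have h8 : |lam i₀ * α i₀ * t ^ (α i₀ - 1)| ≤ |∑ i, lam i * α i * t ^ (α i - 1)| +
          |(∑ i, lam i * α i * t ^ (α i - 1)) - lam i₀ * α i₀ * t ^ (α i₀ - 1)| := by
        have := abs_sub (∑ i, lam i * α i * t ^ (α i - 1)) ((∑ i, lam i * α i * t ^ (α i - 1)) - lam i₀ * α i₀ * t ^ (α i₀ - 1))
        simpa using this
      rw [abs_mul (lam i₀ * α i₀), abs_of_pos h7] at h8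
      have h9 : 1 / 2 * T ^ (κ - 1) ≤ t ^ (α i₀ - 1) := by
        calc 1 / 2 * T ^ (κ - 1) ≤ (2 : ℝ) ^ (κ - 1) * T ^ (κ - 1) := by
              refine mul_le_mul_of_nonneg_right ?_ (by positivity)
              calc (1 / 2 : ℝ) = (2 : ℝ) ^ (-1 : ℝ) := by rw [Real.rpow_neg_one]; norm_num
                _ ≤ (2 : ℝ) ^ (κ - 1) := Real.rpow_le_rpow_of_exponent_le one_le_two (by linarith)
          _ = (2 * T) ^ (κ - 1) := by rw [Real.mul_rpow two_pos.le hT0.le]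
          _ ≤ t ^ (κ - 1) := Real.rpow_le_rpow_of_nonpos ht0 ht.2 (by linarith)
          _ ≤ t ^ (α i₀ - 1) := Real.rpow_le_rpow_of_exponent_le (hthr t ht).1 (by linarith [hκ2 i₀])
      calc ρ * κ / 4 * T ^ (κ - 1) = 1 / 2 * ((ρ * κ) * (1 / 2 * T ^ (κ - 1))) := by ring
        _ ≤ 1 / 2 * (|lam i₀ * α i₀| * t ^ (α i₀ - 1)) := by
            refine mul_le_mul_of_nonneg_left (mul_le_mul hlow h9 (by positivity) (abs_nonneg _)) (by norm_num)
        _ ≤ _ := by linarith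
    have hTk : 0 < T ^ (κ - 1) := Real.rpow_pos_of_pos hT0 _
    have key := first_abs (a := T) (b := 2 * T) (l := ρ * κ / 4 * T ^ (κ - 1)) (by linarith) (by positivity) hder hder2 hc2
      hsign hlow2
    refine key.trans ?_
    have e1 : 4 / (ρ * κ / 4 * T ^ (κ - 1)) = 16 / κ * ρ⁻¹ * T ^ (1 - κ) := by
      rw [show 1 - κ = -(κ - 1) by ring, Real.rpow_neg hT0.le]
      field_simp
      norm_num
    rw [e1]
    refine mul_le_mul_of_nonneg_right ?_ hTp.le
    have e2 : ρ⁻¹ ≤ ρ⁻¹ ^ (B + 1) := by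
      calc ρ⁻¹ = ρ⁻¹ ^ 1 := (pow_one _).symm
        _ ≤ ρ⁻¹ ^ (B + 1) := pow_le_pow_right₀ hρi (by omega)
    have e3 : 0 < 16 / κ := by positivity
    have e4 : 0 ≤ K ^ (κ / δ) := by positivity
    have e5 : 0 < ρ⁻¹ ^ (B + 1) := by positivity
    nlinarith [mul_le_mul_of_nonneg_left e2 e3.le, mul_nonneg e4 e5.le]
  · push Not at hT
    have h4 : ‖∫ t in T..2 * T, cexp (I * ((∑ i, lam i * t ^ α i : ℝ) : ℂ))‖ ≤ 1 * |2 * T - T| :=
      intervalIntegral.norm_integral_le_of_norm_le_const fun t _ => by rw [norm_exp_I_mul_ofReal]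
    rw [one_mul, show 2 * T - T = T by ring, abs_of_pos hT0] at h4
    refine h4.trans ?_
    have h5 : T = T ^ κ * T ^ (1 - κ) := by rw [← Real.rpow_add hT0]; simp
    have h6 : T ^ κ ≤ K ^ (κ / δ) * ρ⁻¹ ^ (B + 1) := by
      calc T ^ κ = (T ^ δ) ^ (κ / δ) := by rw [← Real.rpow_mul hT0.le]; congr 1; field_simp
        _ ≤ (K * ρ⁻¹ ^ 2) ^ (κ / δ) := Real.rpow_le_rpow (by positivity) hT.le (by positivity)
        _ = K ^ (κ / δ) * ρ⁻¹ ^ (2 * (κ / δ)) := by
            rw [Real.mul_rpow (by positivity) (by positivity), ← Real.rpow_natCast, ← Real.rpow_mul hρi0.le]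
            norm_num
        _ ≤ K ^ (κ / δ) * ρ⁻¹ ^ ((B + 1 : ℕ) : ℝ) := by
            refine mul_le_mul_of_nonneg_left (Real.rpow_le_rpow_of_exponent_le hρi ?_) (by positivity)
            push_cast
            linarith
        _ = _ := by rw [Real.rpow_natCast]
    calc T = T ^ κ * T ^ (1 - κ) := h5
      _ ≤ (K ^ (κ / δ) * ρ⁻¹ ^ (B + 1)) * T ^ (1 - κ) := mul_le_mul_of_nonneg_right h6 hTp.le
      _ ≤ _ := by
          refine mul_le_mul_of_nonneg_right ?_ hTp.le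
          have e3 : 0 < 16 / κ := by positivity
          have e5 : 0 < ρ⁻¹ ^ (B + 1) := by positivity
          nlinarith [mul_pos e3 e5]

end

end Pool.Agent.Q173.JD
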