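import Pool.Agent.Q173.JD.Ord
import Pool.Agent.Q173.JD.Inv

set_option autoImplicit false

/-! # The law at the preimages of the ordinates under polynomials -/

namespace Pool.Agent.Q173.JD

open Filter Topology MeasureTheory Complex Set ProbabilityTheory
open Pool.Agent.Y745.SW (Py Px xT P_MVB)
open Pool.Agent.Q173.JL (Dd MM)
open SG (ord NZ)
open Pool.Agent.Y743.NC (dev dev_nonneg dev_int var_le unit_count)

noncomputable section

/-- increasing arguments of at most linear growth -/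
def Up (q : ℝ → ℝ) : Prop := ∃ Λ : ℝ, ∀ᶠ T : ℝ in atTop,
  (∀ t v, T ≤ t → t ≤ v → 2 * Real.pi ≤ q t ∧ q t ≤ q v) ∧ q (2 * T + 1) ≤ Λ * T

open Pool.Agent.Q173.NL (XX XX_pos NZ_asymp) in
lemma Up.w_up {q : ℝ → ℝ} (h : Up q) : ∃ C : ℝ, 0 < C ∧ ∀ᶠ T : ℝ in atTop,
    (∀ t v, T ≤ t → t ≤ v → 2 * Real.pi ≤ q t ∧ q t ≤ q v) ∧
    (NZ (q (2 * T + 1)) : ℝ) + MM (q (2 * T + 1)) ≤ C * (T * Real.log T) := by
  have hpi := Real.pi_gt_three
  obtain ⟨Λ0, hΛ0⟩ := h
  set Λ : ℝ := max Λ0 1 with hΛ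
  have hΛ1 : 1 ≤ Λ := le_max_right _ _
  obtain ⟨T0, h0, hN⟩ := NZ_asymp 1 one_pos
  refine ⟨4 * Λ, by linarith, ?_⟩
  filter_upwards [eventually_ge_atTop (max T0 Λ), hΛ0] with T h1 h2
  have hT0 : T0 ≤ T := (le_max_left _ _).trans h1
  have hTΛ : Λ ≤ T := (le_max_right _ _).trans h1
  have hT10 : 10 ≤ T := h0.trans hT0
  have hL : 0 < Real.log T := Real.log_pos (by linarith)
  have g1 : 2 * Real.pi ≤ q (2 * T + 1) := (h2.1 (2 * T + 1) (2 * T + 1) (by linarith) le_rfl).1
  have g2 : q (2 * T + 1) ≤ Λ * T := h2.2.trans (mul_le_mul_of_nonneg_right (le_max_left _ _) (by linarith))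
  have hlog : Real.log (Λ * T) ≤ 2 * Real.log T := by
    rw [Real.log_mul (by linarith) (by linarith)]
    have : Real.log Λ ≤ Real.log T := Real.log_le_log (by linarith) hTΛ
    linarith
  have hΛT : T0 ≤ Λ * T := by nlinarith
  have g4 : (NZ (q (2 * T + 1)) : ℝ) ≤ 2 * (Λ * T * Real.log T) := by
    have a1 : (NZ (q (2 * T + 1)) : ℝ) ≤ NZ (Λ * T) := by exact_mod_cast SG.NZ_mono g2
    have a2 := (hN (Λ * T) hΛT).2
    unfold XX at a2
    have a3 : Λ * T / (2 * Real.pi) * Real.log (Λ * T) ≤ Λ * T / 2 * (2 * Real.log T) := by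
      refine mul_le_mul ?_ hlog (Real.log_nonneg (by nlinarith)) (by positivity)
      exact div_le_div_of_nonneg_left (by positivity) (by norm_num) (by linarith)
    linarith
  have g5 : MM (q (2 * T + 1)) ≤ 2 * (Λ * T * Real.log T) := by
    refine (MM_mono g1 g2).trans ?_
    unfold MM
    have b1 : Λ * T / (2 * Real.pi) ≤ Λ * T := div_le_self (by positivity) (by linarith)
    have b2 : Real.log (Λ * T / (2 * Real.pi)) ≤ Real.log (Λ * T) := Real.log_le_log (by positivity) b1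
    have b0 : 0 ≤ Λ * T / (2 * Real.pi) := by positivity
    have b3 : Λ * T / (2 * Real.pi) * Real.log (Λ * T / (2 * Real.pi)) ≤ Λ * T * (2 * Real.log T) := by
      refine (mul_le_mul_of_nonneg_left (b2.trans hlog) b0).trans ?_
      exact mul_le_mul_of_nonneg_right b1 (by positivity)
    linarith
  exact ⟨h2.1, by linarith⟩

/-- the inverse functions are of this kind -/
lemma IV.up {Q : Polynomial ℝ} {q : ℝ → ℝ} {y0 t0 : ℝ} (h : IV Q q y0 t0) (hn : 0 < Q.natDegree)
    (hl : 0 < Q.leadingCoeff) : Up (qh q t0) := by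
  have hpi := Real.pi_pos
  refine ⟨6 / Q.leadingCoeff, ?_⟩
  filter_upwards [(h.HHq hn hl).tendsto.eventually_ge_atTop (2 * Real.pi), eventually_ge_atTop (max t0 1)] with T h1 h2
  have hT0 : t0 ≤ T := (le_max_left _ _).trans h2
  have hT1 : 1 ≤ T := (le_max_right _ _).trans h2
  refine ⟨fun t v h3 h4 => ⟨h1.trans (h.qmono hl h3), h.qmono hl h4⟩, ?_⟩
  have h5 : t0 ≤ 2 * T + 1 := by linarith
  rw [qh_eq q h5]
  obtain ⟨a1, a2, a3, a4⟩ := h.size hn h5
  rw [div_mul_eq_mul_div, le_div_iff₀ hl]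
  have h6 : Q.leadingCoeff / 2 * q (2 * T + 1) ≤ Q.leadingCoeff / 2 * q (2 * T + 1) ^ Q.natDegree :=
    mul_le_mul_of_nonneg_left a4 (by positivity)
  linarith

/-- **from the heights to the ordinates** -/
theorem ordq_char {k : ℕ} {q : Fin k → ℝ → ℝ} (hqm : ∀ j, Measurable (q j)) (hup : ∀ j, Up (q j))
    (hchar : ∀ c : Fin k → ℝ, Tendsto (fun T => ∫ t, cexp (I * ((∑ j, c j * (zT T * Dd (q j t)) : ℝ) : ℂ)) ∂(muT T)) atTop
      (𝓝 ((Real.exp (-(1 / 2 * ∑ j, c j ^ 2)) : ℝ) : ℂ))) (c : Fin k → ℝ) :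
    Tendsto (fun T => ∫ t, cexp (I * ((∑ j, c j * (zT T * Dd (q j t)) : ℝ) : ℂ)) ∂(nuT T)) atTop
      (𝓝 ((Real.exp (-(1 / 2 * ∑ j, c j ^ 2)) : ℝ) : ℂ)) := by
  obtain ⟨C0, C1, hC0, hC1, hest⟩ := ord_est
  choose Cw hCw hWup using fun j => (hup j).w_up
  set Cs : ℝ := ∑ j, |c j| * (Real.pi * (Cw j + 1)) with hCs
  have hpi := Real.pi_pos
  have hCs0 : 0 ≤ Cs := Finset.sum_nonneg fun j _ => mul_nonneg (abs_nonneg _)
    (mul_nonneg hpi.le (by linarith [hCw j]))
  suffices hdiff : Tendsto (fun T => (∫ t, cexp (I * ((∑ j, c j * (zT T * Dd (q j t)) : ℝ) : ℂ)) ∂(nuT T)) -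
      ∫ t, cexp (I * ((∑ j, c j * (zT T * Dd (q j t)) : ℝ) : ℂ)) ∂(muT T)) atTop (𝓝 0) by
    have := hdiff.add (hchar c)
    simpa using this
  rw [Metric.tendsto_nhds]
  intro ε hε
  -- the choice of `A`
  obtain ⟨A, hA1, hA⟩ : ∃ A : ℝ, 1 ≤ A ∧ 3 * Real.sqrt (C0 + Real.log (1 + A)) / A < ε / 4 := by
    have h1 : Tendsto (fun A : ℝ => 3 * Real.sqrt ((C0 + A) * (A ^ 2)⁻¹)) atTop (𝓝 (3 * Real.sqrt 0)) := by
      refine ((Real.continuous_sqrt.tendsto 0).comp ?_).const_mul 3
      have h2 : Tendsto (fun A : ℝ => C0 * (A ^ 2)⁻¹ + A⁻¹) atTop (𝓝 (C0 * 0 + 0)) :=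
        (((tendsto_pow_atTop two_ne_zero).inv_tendsto_atTop).const_mul C0).add tendsto_inv_atTop_zero
      rw [mul_zero, add_zero] at h2
      refine h2.congr' ?_
      filter_upwards [eventually_gt_atTop 0] with A hA
      field_simp
    rw [Real.sqrt_zero, mul_zero] at h1
    obtain ⟨A, h2, h3⟩ := ((h1.eventually (gt_mem_nhds (show (0:ℝ) < ε / 4 by positivity))).and (eventually_ge_atTop 1)).exists
    refine ⟨A, h3, lt_of_le_of_lt ?_ h2⟩
    have hA0 : 0 < A := by linarith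
    rw [mul_div_assoc]
    refine mul_le_mul_of_nonneg_left ?_ (by norm_num)
    rw [div_le_iff₀ hA0]
    have h4 : Real.sqrt ((C0 + A) * (A ^ 2)⁻¹) * A = Real.sqrt (C0 + A) := by
      rw [Real.sqrt_mul (by linarith), Real.sqrt_inv, Real.sqrt_sq hA0.le]
      field_simp
    rw [h4]
    refine Real.sqrt_le_sqrt ?_
    have := Real.log_le_sub_one_of_pos (show (0:ℝ) < 1 + A by linarith)
    linarith
  have hA0 : 0 < A := by linarith
  -- the small quantities
  have s1 : Tendsto (fun T : ℝ => |1 - ((SO T).card : ℝ) * (2 * Real.pi) / (T * Real.log T)|) atTop (𝓝 0) := by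
    have := ((tendsto_const_nhds (x := (1:ℝ))).sub K_lim).abs
    simpa using this
  have s2 : Tendsto (fun T : ℝ => zT T * (2 * Real.pi * A * Cs)) atTop (𝓝 0) := by
    have := zT_lim.mul_const (2 * Real.pi * A * Cs)
    simpa using this
  have s3 : Tendsto (fun T : ℝ => (2 * (2 * Real.pi) * (C1 + A)) / T) atTop (𝓝 0) :=
    tendsto_const_nhds.div_atTop tendsto_id
  filter_upwards [hest A hA1, s1.eventually (gt_mem_nhds (show (0:ℝ) < ε / 4 by positivity)),
    s2.eventually (gt_mem_nhds (show (0:ℝ) < ε / 4 by positivity)),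
    s3.eventually (gt_mem_nhds (show (0:ℝ) < ε / 4 by positivity)), eventually_all.2 hWup,
    eventually_gt_atTop (Real.exp 1), K_lim.eventually (lt_mem_nhds (show (0:ℝ) < 1 by norm_num))]
    with T t1 t2 t3 t4 t5 t6 t7
  have hT1 : 1 < T := lt_trans (by have := Real.add_one_lt_exp (one_ne_zero); linarith) t6
  have hT : 0 < T := by linarith
  have hL1 : 1 ≤ Real.log T := by
    rw [Real.le_log_iff_exp_le hT]; exact t6.le
  have hL : 0 < Real.log T := by linarith
  have hz := zT_nonneg T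
  set g : ℝ → ℂ := fun t => cexp (I * ((∑ j, c j * (zT T * Dd (q j t)) : ℝ) : ℂ)) with hg
  set W : ℝ → ℝ := fun t => ∑ j, |c j| * (Real.pi * ((NZ (q j t) : ℝ) + MM (q j t))) with hW
  have hgm : Measurable g := by
    have hm1 : Measurable fun t => ∑ j, c j * (zT T * Dd (q j t)) :=
      Finset.measurable_sum _ fun j _ => ((Dd_meas.comp (hqm j)).const_mul _).const_mul _
    exact Complex.measurable_exp.comp ((Complex.measurable_ofReal.comp hm1).const_mul I)
  have hg1 : ∀ t, ‖g t‖ ≤ 1 := fun t => by rw [hg]; exact (norm_exp_I_mul_ofReal _).le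
  have harg : ∀ j t v, T ≤ t → t ≤ v → 2 * Real.pi ≤ q j t ∧ q j t ≤ q j v := by
    intro j t v h1 h2
    exact (t5 j).1 t v h1 h2
  have hWm : MonotoneOn W (Icc T (2 * T + 1)) := by
    intro t ht v hv htv
    rw [hW]
    refine Finset.sum_le_sum fun j _ => mul_le_mul_of_nonneg_left (mul_le_mul_of_nonneg_left ?_ hpi.le) (abs_nonneg _)
    obtain ⟨a1, a2⟩ := harg j t v ht.1 htv
    have a3 : (NZ (q j t) : ℝ) ≤ NZ (q j v) := by exact_mod_cast SG.NZ_mono a2
    have a4 := MM_mono a1 a2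
    linarith
  have hlip : ∀ t v, T ≤ t → t ≤ v → v ≤ 2 * T → ‖g v - g t‖ ≤ zT T * (W v - W t) := by
    intro t v h1 h2 _
    refine (exp_lip _ _).trans ?_
    rw [← Finset.sum_sub_distrib, hW]
    simp only
    rw [← Finset.sum_sub_distrib, Finset.mul_sum]
    refine (Finset.abs_sum_le_sum_abs _ _).trans (Finset.sum_le_sum fun j _ => ?_)
    obtain ⟨a1, a2⟩ := harg j t v h1 h2
    have a3 := Dd_lip a1 a2
    have e : c j * (zT T * Dd (q j v)) - c j * (zT T * Dd (q j t)) =
        c j * (zT T * (Dd (q j v) - Dd (q j t))) := by ring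
    rw [e, abs_mul, abs_mul, abs_of_nonneg hz]
    calc |c j| * (zT T * |Dd (q j v) - Dd (q j t)|) ≤
          |c j| * (zT T * (Real.pi * (((NZ (q j v) : ℝ) + MM (q j v)) - (NZ (q j t) + MM (q j t))))) :=
          mul_le_mul_of_nonneg_left (mul_le_mul_of_nonneg_left a3 hz) (abs_nonneg _)
      _ = _ := by ring
  have hW1 : W (2 * T + 1) - W T ≤ Cs * (T * Real.log T) := by
    rw [hW, hCs]
    simp only
    rw [← Finset.sum_sub_distrib, Finset.sum_mul]
    refine Finset.sum_le_sum fun j _ => ?_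
    have b2 := (t5 j).2
    have b4 : (0:ℝ) ≤ NZ (q j T) := Nat.cast_nonneg _
    have b5 : MM (2 * Real.pi) ≤ MM (q j T) := MM_mono le_rfl ((t5 j).1 T T le_rfl le_rfl).1
    have b6 : MM (2 * Real.pi) = -1 := by
      unfold MM
      rw [div_self (by positivity), Real.log_one]; ring
    have b7 : 1 ≤ T * Real.log T := one_le_mul_of_one_le_of_one_le hT1.le hL1
    rw [← mul_sub, ← mul_sub, mul_assoc, mul_assoc]
    refine mul_le_mul_of_nonneg_left (mul_le_mul_of_nonneg_left ?_ hpi.le) (abs_nonneg _)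
    rw [add_mul, one_mul]
    linarith
  have hmain := t1 g (zT T) W hgm hg1 hz hWm hlip
  have hAT : 0 < A * T := by positivity
  have hK : 0 < ((SO T).card : ℝ) := by
    by_contra h
    push Not at h
    have h0 : ((SO T).card : ℝ) = 0 := le_antisymm h (Nat.cast_nonneg _)
    rw [h0] at t7
    simp at t7
  rw [dist_zero_right, nuT_int, muT_int hT]
  set Sg : ℂ := ∑ n ∈ SO T, g (ord n) with hSg
  set Ig : ℂ := ∫ t in T..2 * T, g t with hIg
  set ρ : ℝ := ((SO T).card : ℝ) * (2 * Real.pi) / (T * Real.log T) with hρ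
  have ha1 : ‖((SO T).card : ℂ)⁻¹ * Sg‖ ≤ 1 := by
    rw [norm_mul, norm_inv, Complex.norm_natCast, inv_mul_le_iff₀ hK, mul_one]
    refine (norm_sum_le _ _).trans ((Finset.sum_le_sum fun n _ => hg1 (ord n)).trans ?_)
    simp
  have e1 : ((SO T).card : ℂ)⁻¹ * Sg - T⁻¹ • Ig = ((1 - ρ : ℝ) : ℂ) * (((SO T).card : ℂ)⁻¹ * Sg) +
      ((A * T : ℝ) : ℂ)⁻¹ * (((2 * Real.pi * A / Real.log T : ℝ) : ℂ) * Sg - A * Ig) := by
    have hK' : ((SO T).card : ℂ) ≠ 0 := by exact_mod_cast hK.ne'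
    have hT' : (T : ℂ) ≠ 0 := by exact_mod_cast hT.ne'
    have hA' : (A : ℂ) ≠ 0 := by exact_mod_cast hA0.ne'
    have hL' : ((Real.log T : ℝ) : ℂ) ≠ 0 := by exact_mod_cast hL.ne'
    rw [hρ, Complex.real_smul]
    push_cast
    field_simp
    ring
  have hb : (A * T)⁻¹ * ‖((2 * Real.pi * A / Real.log T : ℝ) : ℂ) * Sg - A * Ig‖ <
      ε / 4 + ε / 4 + ε / 4 := by
    have c1 : A * zT T * (2 * Real.pi * A / Real.log T * (W (2 * T + 1) - W T)) ≤
        A * T * (zT T * (2 * Real.pi * A * Cs)) := by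
      calc A * zT T * (2 * Real.pi * A / Real.log T * (W (2 * T + 1) - W T)) ≤
            A * zT T * (2 * Real.pi * A / Real.log T * (Cs * (T * Real.log T))) :=
            mul_le_mul_of_nonneg_left (mul_le_mul_of_nonneg_left hW1 (by positivity)) (by positivity)
        _ = _ := by field_simp
    have c2 : 3 * (T * Real.sqrt (C0 + Real.log (1 + A))) = A * T * (3 * Real.sqrt (C0 + Real.log (1 + A)) / A) := by
      field_simp
    have c3 : 2 * (2 * Real.pi * A / Real.log T) * (C1 * Real.log T + A) ≤ A * T * (2 * (2 * Real.pi) * (C1 + A) / T) := by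
      have d1 : 2 * (2 * Real.pi * A / Real.log T) * (C1 * Real.log T + A) =
          A * (2 * (2 * Real.pi) * (C1 + A / Real.log T)) := by field_simp
      have d2 : A * T * (2 * (2 * Real.pi) * (C1 + A) / T) = A * (2 * (2 * Real.pi) * (C1 + A)) := by field_simp
      rw [d1, d2]
      have d3 : A / Real.log T ≤ A := div_le_self hA0.le hL1
      refine mul_le_mul_of_nonneg_left (mul_le_mul_of_nonneg_left (by linarith) (by positivity)) hA0.le
    have hall := hmain.trans (add_le_add (add_le_add c1 (le_of_eq c2)) c3)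
    rw [inv_mul_lt_iff₀ hAT]
    refine lt_of_le_of_lt hall ?_
    have : A * T * (zT T * (2 * Real.pi * A * Cs)) + A * T * (3 * Real.sqrt (C0 + Real.log (1 + A)) / A) +
        A * T * (2 * (2 * Real.pi) * (C1 + A) / T) = A * T * (zT T * (2 * Real.pi * A * Cs) +
        3 * Real.sqrt (C0 + Real.log (1 + A)) / A + 2 * (2 * Real.pi) * (C1 + A) / T) := by ring
    rw [this]
    refine mul_lt_mul_of_pos_left ?_ hAT
    linarith
  rw [e1]
  refine lt_of_le_of_lt (norm_add_le _ _) ?_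
  have hc1 : ‖((1 - ρ : ℝ) : ℂ) * (((SO T).card : ℂ)⁻¹ * Sg)‖ < ε / 4 := by
    rw [norm_mul, Complex.norm_real, Real.norm_eq_abs]
    exact lt_of_le_of_lt (mul_le_of_le_one_right (abs_nonneg _) ha1) t2
  have hc2 : ‖((A * T : ℝ) : ℂ)⁻¹ * (((2 * Real.pi * A / Real.log T : ℝ) : ℂ) * Sg - A * Ig)‖ =
      (A * T)⁻¹ * ‖((2 * Real.pi * A / Real.log T : ℝ) : ℂ) * Sg - A * Ig‖ := by
    rw [norm_mul, norm_inv, Complex.norm_real, Real.norm_eq_abs, abs_of_pos hAT]
  rw [hc2]
  linarith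


/-- **inverse functions of polynomials** -/
theorem inv_char {k : ℕ} (Q : Fin k → Polynomial ℝ) (hn : ∀ j, 0 < (Q j).natDegree) (hl : ∀ j, 0 < (Q j).leadingCoeff)
    (hrat : ∀ i j, (Q i).natDegree = (Q j).natDegree →
      ∃ r : ℚ, (Q i).leadingCoeff = (r : ℝ) ^ (Q i).natDegree * (Q j).leadingCoeff)
    (hinj : ∀ i j, (Q i).natDegree = (Q j).natDegree → (Q i).leadingCoeff = (Q j).leadingCoeff →
      (Q i).nextCoeff = (Q j).nextCoeff → i = j)
    {q : Fin k → ℝ → ℝ} {y0 t0 : Fin k → ℝ} (hIV : ∀ j, IV (Q j) (q j) (y0 j) (t0 j)) (c : Fin k → ℝ) :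
    Tendsto (fun T => ∫ t, cexp (I * ((∑ j, c j * (zT T * Dd (qh (q j) (t0 j) t)) : ℝ) : ℂ)) ∂(muT T)) atTop
      (𝓝 ((Real.exp (-(1 / 2 * ∑ j, c j ^ 2)) : ℝ) : ℂ)) := by
  classical
  set n : ℕ := Finset.univ.sup fun j => (Q j).natDegree with hnd
  have hle : ∀ j, (Q j).natDegree ≤ n := fun j => Finset.le_sup (f := fun j => (Q j).natDegree) (Finset.mem_univ j)
  -- the index of a polynomial
  set ix : Fin k → Fin n := fun j => ⟨(Q j).natDegree - 1, by have := hle j; have := hn j; omega⟩ with hix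
  have hixv : ∀ j, ((ix j : Fin n) : ℕ) + 1 = (Q j).natDegree := fun j => by
    have := hn j
    simp only [hix]; omega
  -- the base lengths
  obtain ⟨θ, hθ0, hθ⟩ : ∃ θ : Fin n → ℝ, (∀ i, 0 < θ i) ∧ ∀ j, ∃ s : ℚ, 0 < s ∧
      ((Q j).leadingCoeff) ^ (-((Q j).natDegree : ℝ)⁻¹) = (s : ℝ) * θ (ix j) := by
    refine ⟨fun i => if h : ∃ j, (Q j).natDegree = (i : ℕ) + 1 then (Q h.choose).leadingCoeff ^ (-((Q h.choose).natDegree : ℝ)⁻¹) else 1,
      fun i => ?_, fun j => ?_⟩
    · simp only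
      split_ifs with h
      · exact Real.rpow_pos_of_pos (hl _) _
      · exact one_pos
    · have h : ∃ j', (Q j').natDegree = ((ix j : Fin n) : ℕ) + 1 := ⟨j, (hixv j).symm⟩
      simp only [h, dif_pos]
      set j' := h.choose with hj'
      have hd : (Q j').natDegree = (Q j).natDegree := h.choose_spec.trans (hixv j)
      obtain ⟨r, hr⟩ := hrat j' j hd
      rw [hd] at hr ⊢
      have hr0 : r ≠ 0 := by
        rintro rfl
        have h1 := hl j'
        rw [hr, Rat.cast_zero, zero_pow (hn j).ne', zero_mul] at h1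
        exact lt_irrefl _ h1
      have hrR : (0 : ℝ) < |(r : ℝ)| := abs_pos.2 (by exact_mod_cast hr0)
      have hrp : (r : ℝ) ^ (Q j).natDegree = |(r : ℝ)| ^ (Q j).natDegree := by
        have h1 : 0 < (r : ℝ) ^ (Q j).natDegree := by
          have h2 := hl j'
          rw [hr] at h2
          exact (pos_iff_pos_of_mul_pos h2).2 (hl j)
        rw [← abs_pow, abs_of_pos h1]
      refine ⟨|r|, abs_pos.2 hr0, ?_⟩
      rw [hr, hrp, Real.mul_rpow (by positivity) (hl j).le, ← Real.rpow_natCast, ← Real.rpow_mul hrR.le]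
      have hm : ((Q j).natDegree : ℝ) ≠ 0 := by exact_mod_cast (hn j).ne'
      rw [show ((Q j).natDegree : ℝ) * -((Q j).natDegree : ℝ)⁻¹ = -1 by field_simp, Real.rpow_neg_one, ← mul_assoc]
      push_cast
      rw [mul_inv_cancel₀ hrR.ne', one_mul]
  choose s hs0 hs using hθ
  -- the common denominator
  set d : ℕ := ∏ j, (s j).den with hd'
  have hd0 : 0 < d := Finset.prod_pos fun j _ => (s j).den_pos
  have hdR : (0 : ℝ) < d := by exact_mod_cast hd0
  have hN : ∀ j, ∃ N : ℤ, (N : ℚ) = s j * d := by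
    intro j
    obtain ⟨e, he⟩ : (s j).den ∣ d := Finset.dvd_prod_of_mem (fun j => (s j).den) (Finset.mem_univ j)
    refine ⟨(s j).num * e, ?_⟩
    rw [he]
    push_cast
    rw [← mul_assoc, Rat.mul_den_eq_num]
  choose N hN using hN
  have hNR : ∀ j, (N j : ℝ) = (s j : ℝ) * d := fun j => by exact_mod_cast hN j
  have hN0 : ∀ j, 0 < N j := fun j => by
    have h1 : (0 : ℝ) < N j := by
      rw [hNR]
      exact mul_pos (by exact_mod_cast hs0 j) hdR
    exact_mod_cast h1
  set D : Dat k n := ⟨fun j i => if i = ix j then N j else 0,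
    fun j => -((Q j).coeff ((Q j).natDegree - 1) / ((Q j).natDegree * (Q j).leadingCoeff))⟩ with hD
  have hOk : D.Ok := by
    refine ⟨fun j h => ?_, fun j j' h => ?_, fun j j' h1 h2 => ?_⟩
    · have h1 := congrFun h (ix j)
      simp only [hD, if_true, Pi.zero_apply] at h1
      exact (hN0 j).ne' h1
    · have h1 := congrFun h (ix j)
      simp only [hD, if_true, Pi.neg_apply] at h1
      have h2 := hN0 j
      have h3 := hN0 j'
      split_ifs at h1 <;> omega
    · have h3 := congrFun h1 (ix j)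
      simp only [hD, if_true] at h3
      have h4 := hN0 j
      split_ifs at h3 with h5
      · have hdeg : (Q j).natDegree = (Q j').natDegree := by rw [← hixv j, ← hixv j', h5]
        have hss : s j = s j' := by
          have h6 : (N j : ℚ) = N j' := by rw [h3]
          rw [hN, hN] at h6
          exact mul_right_cancel₀ (by exact_mod_cast hd0.ne') h6
        have hm : ((Q j').natDegree : ℝ) ≠ 0 := by exact_mod_cast (hn j').ne'
        have hll : (Q j).leadingCoeff = (Q j').leadingCoeff := by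
          have h6 := hs j
          rw [hss, h5, ← hs j', hdeg] at h6
          have h7 := congrArg (fun x : ℝ => x ^ (-((Q j').natDegree : ℝ))) h6
          beta_reduce at h7
          rwa [← Real.rpow_mul (hl j).le, ← Real.rpow_mul (hl j').le,
            show -((Q j').natDegree : ℝ)⁻¹ * -((Q j').natDegree : ℝ) = 1 by field_simp, Real.rpow_one, Real.rpow_one] at h7
        refine hinj j j' hdeg hll ?_
        rw [Polynomial.nextCoeff_of_natDegree_pos (hn j), Polynomial.nextCoeff_of_natDegree_pos (hn j')]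
        have h8 : (Q j).coeff ((Q j).natDegree - 1) / ((Q j).natDegree * (Q j).leadingCoeff) =
            (Q j').coeff ((Q j').natDegree - 1) / ((Q j').natDegree * (Q j').leadingCoeff) := neg_injective h2
        have h9 : ((Q j').natDegree * (Q j').leadingCoeff) ≠ 0 := mul_ne_zero hm (hl j').ne'
        rw [hdeg, hll, div_left_inj' h9] at h8
        rw [hdeg]
        exact h8
      · omega
  -- the base functions
  set φ : Fin n → ℝ → ℝ := fun i t => θ i / d * t ^ (1 / (((i : ℕ) : ℝ) + 1)) with hφ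
  have hφm : ∀ i, Measurable (φ i) := fun i => (measurable_id.pow_const _).const_mul _
  have hOsc : Osc φ := by
    refine (Osc_pow (fun i : Fin n => 1 / (((i : ℕ) : ℝ) + 1)) ?_ ?_ ?_).smul (fun i => θ i / d) fun i =>
      (div_pos (hθ0 i) hdR).ne'
    · intro i j h
      simp only [one_div, inv_inj, add_left_inj, Nat.cast_inj] at h
      exact Fin.ext h
    · intro i; positivity
    · intro i
      rw [div_le_one (by positivity)]
      have : (0 : ℝ) ≤ ((i : ℕ) : ℝ) := Nat.cast_nonneg _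
      linarith
  have harg : ∀ j t, 0 ≤ t → D.arg φ j t = (t / (Q j).leadingCoeff) ^ (((Q j).natDegree : ℝ)⁻¹) -
      (Q j).coeff ((Q j).natDegree - 1) / ((Q j).natDegree * (Q j).leadingCoeff) := by
    intro j t ht
    unfold Dat.arg
    simp only [hD]
    rw [sub_eq_add_neg]
    congr 1
    rw [Finset.sum_eq_single (ix j)]
    · rw [if_pos rfl, hNR]
      simp only [hφ]
      have h1 : (((ix j : Fin n) : ℕ) : ℝ) + 1 = (Q j).natDegree := by exact_mod_cast hixv j
      rw [h1, one_div, Real.div_rpow ht (hl j).le, div_eq_mul_inv (t ^ _), ← Real.rpow_neg (hl j).le, hs j]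
      field_simp
    · intro i _ hi
      rw [if_neg hi]; simp
    · intro h
      exact absurd (Finset.mem_univ _) h
  have hqm : ∀ j, Measurable (qh (q j) (t0 j)) := fun j => ((hIV j).cont (hl j)).measurable
  refine disp_gen hqm (fun j => (hIV j).adm (hn j) (hl j)) c ?_
  -- the exponent
  obtain ⟨c₀, hc₀, hc1⟩ : ∃ c₀ : ℝ, 0 < c₀ ∧ ∀ j, c₀ ≤ 1 / (4 * ((Q j).natDegree : ℝ)) := by
    refine ⟨1 / (4 * ((n : ℝ) + 1)), by positivity, fun j => ?_⟩
    have h1 : ((Q j).natDegree : ℝ) ≤ n := by exact_mod_cast hle j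
    have h2 : (0 : ℝ) < (Q j).natDegree := by exact_mod_cast hn j
    exact one_div_le_one_div_of_le (by positivity) (by linarith)
  refine im_pert (q := fun j => D.arg φ j) (arg_meas hφm) hqm hc₀ (fun j => ?_) c
    (hOk.char_lim hφm (nr_of_osc hOsc) c)
  filter_upwards [(hIV j).close (hn j) (hl j), eventually_ge_atTop 1] with T h1 h2 t ht
  rw [harg j t (by linarith [ht.1])]
  refine (h1 t ht).trans (Real.rpow_le_rpow_of_exponent_le h2 ?_)
  exact neg_le_neg (hc1 j)

end

end Pool.Agent.Q173.JD
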