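import Pool.Agent.Q173.JD.Cmp

set_option autoImplicit false

/-! # The random model: independent points on tori -/

namespace Pool.Agent.Q173.JD

open Filter Topology MeasureTheory Complex

noncomputable section

/-- the uniform distribution on `(0, 2π]` -/
def Uc : Measure ℝ := (ENNReal.ofReal (2 * Real.pi))⁻¹ • volume.restrict (Set.Ioc 0 (2 * Real.pi))

instance : IsProbabilityMeasure Uc := by
  refine ⟨?_⟩
  unfold Uc
  rw [Measure.smul_apply, Measure.restrict_apply_univ, Real.volume_Ioc, sub_zero, smul_eq_mul]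
  refine ENNReal.inv_mul_cancel ?_ ENNReal.ofReal_ne_top
  rw [Ne, ENNReal.ofReal_eq_zero, not_le]
  positivity

lemma Uc_char (e : ℤ) : ∫ x, cexp (I * ((e : ℂ) * (x : ℂ))) ∂Uc = if e = 0 then 1 else 0 := by
  have hpi : (0 : ℝ) < 2 * Real.pi := by positivity
  split_ifs with h
  · subst h
    simp
  · unfold Uc
    rw [integral_smul_measure, ← intervalIntegral.integral_of_le hpi.le]
    have hc : (I * (e : ℂ)) ≠ 0 := mul_ne_zero I_ne_zero (by exact_mod_cast h)
    have e1 : ∀ x : ℝ, cexp (I * ((e : ℂ) * (x : ℂ))) = cexp ((I * (e : ℂ)) * (x : ℂ)) := fun x => by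
      congr 1; ring
    simp_rw [e1]
    rw [integral_exp_mul_complex hc]
    have e2 : cexp (I * (e : ℂ) * ((2 * Real.pi : ℝ) : ℂ)) = 1 := by
      rw [Complex.exp_eq_one_iff]
      exact ⟨e, by push_cast; ring⟩
    rw [e2]
    simp

/-- the uniform distribution on the torus -/
def nu (m : ℕ) : Measure (Fin m → ℝ) := Measure.pi fun _ => Uc

instance (m : ℕ) : IsProbabilityMeasure (nu m) := by unfold nu; infer_instance

lemma nu_char (m : ℕ) (e : Fin m → ℤ) :
    ∫ x, cexp (I * ∑ i, (e i : ℂ) * (x i : ℂ)) ∂(nu m) = if e = 0 then 1 else 0 := by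
  have e1 : ∀ x : Fin m → ℝ, cexp (I * ∑ i, (e i : ℂ) * (x i : ℂ)) = ∏ i, cexp (I * ((e i : ℂ) * (x i : ℂ))) := by
    intro x
    rw [Finset.mul_sum, Complex.exp_sum]
  simp_rw [e1]
  unfold nu
  rw [integral_fintype_prod_eq_prod (fun i (y : ℝ) => cexp (I * ((e i : ℂ) * (y : ℂ))))]
  simp_rw [Uc_char]
  split_ifs with h
  · subst h; simp
  · rw [Finset.prod_eq_zero_iff]
    obtain ⟨i, hi⟩ := Function.ne_iff.1 h
    exact ⟨i, Finset.mem_univ _, by simpa using hi⟩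

variable {ι : Type*} [Fintype ι]

/-- the product of the tori -/
def mu (ι : Type*) [Fintype ι] (m : ℕ) : Measure (ι → Fin m → ℝ) := Measure.pi fun _ => nu m

instance (m : ℕ) : IsProbabilityMeasure (mu ι m) := by unfold mu; infer_instance

lemma mu_char (m : ℕ) (E : ι → Fin m → ℤ) :
    ∫ θ, cexp (I * ∑ p, ∑ i, (E p i : ℂ) * (θ p i : ℂ)) ∂(mu ι m) = if E = 0 then 1 else 0 := by
  have e1 : ∀ θ : ι → Fin m → ℝ, cexp (I * ∑ p, ∑ i, (E p i : ℂ) * (θ p i : ℂ)) =
      ∏ p, cexp (I * ∑ i, (E p i : ℂ) * (θ p i : ℂ)) := by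
    intro θ
    rw [Finset.mul_sum, Complex.exp_sum]
  simp_rw [e1]
  unfold mu
  rw [integral_fintype_prod_eq_prod (fun p (y : Fin m → ℝ) => cexp (I * ∑ i, (E p i : ℂ) * (y i : ℂ)))]
  simp_rw [nu_char]
  split_ifs with h
  · subst h; simp
  · rw [Finset.prod_eq_zero_iff]
    obtain ⟨i, hi⟩ := Function.ne_iff.1 h
    exact ⟨i, Finset.mem_univ _, by simpa using hi⟩

/-! ### sums of independent bounded centred variables -/

section ind

variable {m : ℕ} {g : ι → (Fin m → ℝ) → ℝ} {b : ι → ℝ}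

/-- `g p`, `p ∈ ι`, are bounded by `b p` and centred -/
structure Cent (g : ι → (Fin m → ℝ) → ℝ) (b : ι → ℝ) : Prop where
  meas : ∀ p, Measurable (g p)
  bd : ∀ p x, |g p x| ≤ b p
  cent : ∀ p, ∫ x, g p x ∂(nu m) = 0

lemma Cent.int (h : Cent g b) (p : ι) (k : ℕ) : Integrable (fun x => g p x ^ k) (nu m) :=
  Integrable.of_bound ((h.meas p).pow_const k).aestronglyMeasurable (b p ^ k) (Eventually.of_forall fun x => by
    rw [norm_pow, Real.norm_eq_abs]
    exact pow_le_pow_left₀ (abs_nonneg _) (h.bd p x) k)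

lemma Cent.b0 (h : Cent g b) (p : ι) : 0 ≤ b p := (abs_nonneg _).trans (h.bd p 0)

lemma Cent.exp_int (h : Cent g b) (s : ℝ) (p : ι) : Integrable (fun x => Real.exp (s * g p x)) (nu m) :=
  Integrable.of_bound (((h.meas p).const_mul s).exp).aestronglyMeasurable (Real.exp (|s| * b p))
    (Eventually.of_forall fun x => by
      rw [Real.norm_eq_abs, abs_of_pos (Real.exp_pos _), Real.exp_le_exp]
      refine (le_abs_self _).trans ?_
      rw [abs_mul]
      exact mul_le_mul_of_nonneg_left (h.bd p x) (abs_nonneg _))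

lemma Cent.exp_one (h : Cent g b) {s : ℝ} (p : ι) (hs : |s| * b p ≤ 1) :
    ∫ x, Real.exp (s * g p x) ∂(nu m) ≤ Real.exp (s ^ 2 * b p ^ 2) := by
  have hi1 := h.int p 1
  simp only [pow_one] at hi1
  have h1 : ∫ x, Real.exp (s * g p x) ∂(nu m) ≤ ∫ x, (1 + s * g p x + s ^ 2 * b p ^ 2) ∂(nu m) := by
    refine integral_mono (h.exp_int s p) (((integrable_const _).add (hi1.const_mul s)).add (integrable_const _))
      fun x => ?_
    have h2 : |s * g p x| ≤ |s| * b p := by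
      rw [abs_mul]; exact mul_le_mul_of_nonneg_left (h.bd p x) (abs_nonneg _)
    have h3 := Real.abs_exp_sub_one_sub_id_le (h2.trans hs)
    have h4 : (s * g p x) ^ 2 ≤ (|s| * b p) ^ 2 := by
      rw [← sq_abs (s * g p x)]
      exact pow_le_pow_left₀ (abs_nonneg _) h2 2
    rw [mul_pow |s|, sq_abs] at h4
    have h5 := (abs_le.1 h3).2
    show Real.exp (s * g p x) ≤ 1 + s * g p x + s ^ 2 * b p ^ 2
    linarith
  refine h1.trans ?_
  have e0 : ∫ x, (1 + s * g p x + s ^ 2 * b p ^ 2) ∂(nu m) = 1 + s ^ 2 * b p ^ 2 := by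
    have e1 : ∀ x, 1 + s * g p x + s ^ 2 * b p ^ 2 = s * g p x + (1 + s ^ 2 * b p ^ 2) := fun x => by ring
    simp_rw [e1]
    rw [integral_add (hi1.const_mul s) (integrable_const _), integral_const_mul, h.cent p]
    simp
  rw [e0]
  have := Real.add_one_le_exp (s ^ 2 * b p ^ 2)
  linarith

/-- the sum -/
def Ys (g : ι → (Fin m → ℝ) → ℝ) (θ : ι → Fin m → ℝ) : ℝ := ∑ p, g p (θ p)

lemma Cent.Ys_meas (h : Cent g b) : Measurable (Ys g) :=
  Finset.measurable_sum _ fun p _ => (h.meas p).comp (measurable_pi_apply p)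

lemma Cent.Ys_bd (h : Cent g b) (θ : ι → Fin m → ℝ) : |Ys g θ| ≤ ∑ p, b p :=
  (Finset.abs_sum_le_sum_abs _ _).trans (Finset.sum_le_sum fun p _ => h.bd p _)

lemma Cent.exp_sum (h : Cent g b) {s : ℝ} (hs : ∀ p, |s| * b p ≤ 1) :
    ∫ θ, Real.exp (s * Ys g θ) ∂(mu ι m) ≤ Real.exp (s ^ 2 * ∑ p, b p ^ 2) := by
  have e1 : ∀ θ, Real.exp (s * Ys g θ) = ∏ p, Real.exp (s * g p (θ p)) := by
    intro θ
    unfold Ys
    rw [Finset.mul_sum, Real.exp_sum]
  simp_rw [e1]
  unfold mu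
  rw [integral_fintype_prod_eq_prod (fun p (y : Fin m → ℝ) => Real.exp (s * g p y)), Finset.mul_sum, Real.exp_sum]
  exact Finset.prod_le_prod (fun p _ => integral_nonneg fun x => (Real.exp_pos _).le) fun p _ => h.exp_one p (hs p)

lemma pow_le_exp {K : ℕ} (hK : Even K) (y : ℝ) : y ^ K / (K.factorial : ℝ) ≤ Real.exp y + Real.exp (-y) := by
  rcases le_total 0 y with h | h
  · have := Real.pow_div_factorial_le_exp y h K
    have := Real.exp_pos (-y)
    linarith
  · have h1 := Real.pow_div_factorial_le_exp (-y) (by linarith) K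
    rw [hK.neg_pow] at h1
    have := Real.exp_pos y
    linarith

/-- the moments of the sum -/
theorem Cent.mom (h : Cent g b) {s : ℝ} (hs : ∀ p, |s| * b p ≤ 1) {K : ℕ} (hK : Even K) :
    |s| ^ K / (K.factorial : ℝ) * ∫ θ, Ys g θ ^ K ∂(mu ι m) ≤ 2 * Real.exp (s ^ 2 * ∑ p, b p ^ 2) := by
  have hb := h.Ys_bd
  have hI : ∀ s : ℝ, Integrable (fun θ => Real.exp (s * Ys g θ)) (mu ι m) := fun s =>
    Integrable.of_bound (((h.Ys_meas).const_mul s).exp).aestronglyMeasurable (Real.exp (|s| * ∑ p, b p))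
      (Eventually.of_forall fun x => by
        rw [Real.norm_eq_abs, abs_of_pos (Real.exp_pos _), Real.exp_le_exp]
        refine (le_abs_self _).trans ?_
        rw [abs_mul]
        exact mul_le_mul_of_nonneg_left (hb x) (abs_nonneg _))
  have hK1 : Integrable (fun θ => Ys g θ ^ K) (mu ι m) :=
    Integrable.of_bound ((h.Ys_meas).pow_const K).aestronglyMeasurable ((∑ p, b p) ^ K)
      (Eventually.of_forall fun x => by
        rw [norm_pow, Real.norm_eq_abs]
        exact pow_le_pow_left₀ (abs_nonneg _) (hb x) K)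
  rw [← integral_const_mul]
  have h1 : ∫ θ, |s| ^ K / (K.factorial : ℝ) * Ys g θ ^ K ∂(mu ι m) ≤
      ∫ θ, (Real.exp (s * Ys g θ) + Real.exp (-s * Ys g θ)) ∂(mu ι m) := by
    refine integral_mono (hK1.const_mul _) ((hI s).add (hI (-s))) fun θ => ?_
    have h2 := pow_le_exp hK (s * Ys g θ)
    rw [mul_pow, ← hK.pow_abs s] at h2
    show |s| ^ K / (K.factorial : ℝ) * Ys g θ ^ K ≤ Real.exp (s * Ys g θ) + Real.exp (-s * Ys g θ)
    rw [neg_mul]
    refine le_trans (le_of_eq ?_) h2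
    ring
  refine h1.trans ?_
  rw [integral_add (hI s) (hI (-s))]
  have h3 := h.exp_sum hs
  have h4 := h.exp_sum (s := -s) (fun p => by rw [abs_neg]; exact hs p)
  rw [neg_sq] at h4
  linarith

open Pool.Agent.Y586.SW (Sm tay)

lemma sm3 (y : ℝ) : Sm 3 y = ((1 - y ^ 2 / 2 : ℝ) : ℂ) + I * y := by
  unfold Sm
  simp only [Finset.sum_range_succ, Finset.sum_range_zero, Nat.factorial]
  push_cast
  ring_nf
  rw [Complex.I_sq]
  ring

/-- the characteristic function of one summand -/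
lemma Cent.char_one (h : Cent g b) (z : ℝ) (p : ι) :
    ‖(∫ x, cexp (I * ((z * g p x : ℝ) : ℂ)) ∂(nu m)) -
      ((1 - z ^ 2 / 2 * ∫ x, g p x ^ 2 ∂(nu m) : ℝ) : ℂ)‖ ≤ |z| ^ 3 * b p ^ 3 := by
  have hi1 := h.int p 1
  simp only [pow_one] at hi1
  have hi2 := h.int p 2
  have hE : Integrable (fun x => cexp (I * ((z * g p x : ℝ) : ℂ))) (nu m) := by
    refine Integrable.of_bound ?_ 1 (Eventually.of_forall fun x => ?_)
    · exact (Complex.measurable_exp.comp ((Complex.measurable_ofReal.comp ((h.meas p).const_mul z)).const_mul I)).aestronglyMeasurable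
    · rw [norm_exp_I_mul_ofReal]
  have hR : Integrable (fun x => ((1 - (z * g p x) ^ 2 / 2 : ℝ) : ℂ) + I * ((z * g p x : ℝ) : ℂ)) (nu m) := by
    refine Integrable.add ?_ ?_
    · refine Integrable.ofReal ((integrable_const _).sub ?_)
      refine ((hi2.const_mul (z ^ 2)).div_const 2).congr (Eventually.of_forall fun x => ?_)
      show z ^ 2 * g p x ^ 2 / 2 = (z * g p x) ^ 2 / 2
      ring
    · exact (Integrable.ofReal (hi1.const_mul z)).const_mul I
  have e1 : ((1 - z ^ 2 / 2 * ∫ x, g p x ^ 2 ∂(nu m) : ℝ) : ℂ) =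
      ∫ x, (((1 - (z * g p x) ^ 2 / 2 : ℝ) : ℂ) + I * ((z * g p x : ℝ) : ℂ)) ∂(nu m) := by
    rw [integral_add]
    · rw [integral_const_mul, integral_complex_ofReal, integral_complex_ofReal, integral_const_mul, h.cent p,
        mul_zero, Complex.ofReal_zero, mul_zero, add_zero]
      congr 1
      rw [integral_sub (integrable_const _)]
      · have e2 : ∀ x, (z * g p x) ^ 2 / 2 = z ^ 2 / 2 * g p x ^ 2 := fun x => by ring
        simp_rw [e2]
        rw [integral_const_mul]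
        simp
      · refine ((hi2.const_mul (z ^ 2)).div_const 2).congr (Eventually.of_forall fun x => ?_)
        show z ^ 2 * g p x ^ 2 / 2 = (z * g p x) ^ 2 / 2
        ring
    · refine Integrable.ofReal ((integrable_const _).sub ?_)
      refine ((hi2.const_mul (z ^ 2)).div_const 2).congr (Eventually.of_forall fun x => ?_)
      show z ^ 2 * g p x ^ 2 / 2 = (z * g p x) ^ 2 / 2
      ring
    · exact (Integrable.ofReal (hi1.const_mul z)).const_mul I
  rw [e1, ← integral_sub hE hR]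
  refine (norm_integral_le_integral_norm _).trans ?_
  have h3 : ∫ x, ‖cexp (I * ((z * g p x : ℝ) : ℂ)) -
      (((1 - (z * g p x) ^ 2 / 2 : ℝ) : ℂ) + I * ((z * g p x : ℝ) : ℂ))‖ ∂(nu m) ≤
      ∫ _x, |z| ^ 3 * b p ^ 3 ∂(nu m) := by
    refine integral_mono (hE.sub hR).norm (integrable_const _) fun x => ?_
    show ‖cexp (I * ((z * g p x : ℝ) : ℂ)) -
      (((1 - (z * g p x) ^ 2 / 2 : ℝ) : ℂ) + I * ((z * g p x : ℝ) : ℂ))‖ ≤ |z| ^ 3 * b p ^ 3
    rw [← sm3]
    have h4 := tay 3 (z * g p x)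
    have h5 : |z * g p x| ^ 3 ≤ |z| ^ 3 * b p ^ 3 := by
      rw [abs_mul, mul_pow]
      exact mul_le_mul_of_nonneg_left (pow_le_pow_left₀ (abs_nonneg _) (h.bd p x) 3) (by positivity)
    have h6 : |z * g p x| ^ 3 / ((Nat.factorial 3 : ℕ) : ℝ) ≤ |z * g p x| ^ 3 :=
      div_le_self (by positivity) (by norm_num [Nat.factorial])
    linarith
  refine h3.trans (le_of_eq ?_)
  simp

lemma prod_diff {κ : Type*} (s : Finset κ) (a c : κ → ℂ) (ha : ∀ i ∈ s, ‖a i‖ ≤ 1) (hc : ∀ i ∈ s, ‖c i‖ ≤ 1) :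
    ‖∏ i ∈ s, a i - ∏ i ∈ s, c i‖ ≤ ∑ i ∈ s, ‖a i - c i‖ := by
  classical
  induction s using Finset.induction_on with
  | empty => simp
  | insert i s hi ih =>
    rw [Finset.prod_insert hi, Finset.prod_insert hi, Finset.sum_insert hi]
    have e : a i * ∏ j ∈ s, a j - c i * ∏ j ∈ s, c j =
        (a i - c i) * ∏ j ∈ s, a j + c i * (∏ j ∈ s, a j - ∏ j ∈ s, c j) := by ring
    rw [e]
    refine (norm_add_le _ _).trans (add_le_add ?_ ?_)
    · rw [norm_mul]
      refine mul_le_of_le_one_right (norm_nonneg _) ?_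
      rw [norm_prod]
      exact Finset.prod_le_one (fun j _ => norm_nonneg _) fun j hj => ha j (Finset.mem_insert_of_mem hj)
    · rw [norm_mul]
      have h1 := ih (fun j hj => ha j (Finset.mem_insert_of_mem hj)) (fun j hj => hc j (Finset.mem_insert_of_mem hj))
      calc ‖c i‖ * ‖∏ j ∈ s, a j - ∏ j ∈ s, c j‖ ≤ 1 * ‖∏ j ∈ s, a j - ∏ j ∈ s, c j‖ :=
            mul_le_mul_of_nonneg_right (hc i (Finset.mem_insert_self _ _)) (norm_nonneg _)
        _ ≤ _ := by rw [one_mul]; exact h1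

lemma exp_quad {x : ℝ} (hx : 0 ≤ x) : |Real.exp (-x) - (1 - x)| ≤ x ^ 2 := by
  rcases le_total x 1 with h | h
  · have := Real.abs_exp_sub_one_sub_id_le (x := -x) (by rw [abs_neg, abs_of_nonneg hx]; exact h)
    rw [neg_sq] at this
    convert this using 2
    ring
  · have h1 : Real.exp (-x) ≤ 1 := Real.exp_le_one_iff.2 (by linarith)
    have h2 := Real.exp_pos (-x)
    rw [abs_le]
    constructor <;> nlinarith

/-- **the characteristic function of the sum** -/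
theorem Cent.char (h : Cent g b) (z : ℝ) :
    ‖(∫ θ, cexp (I * ((z * Ys g θ : ℝ) : ℂ)) ∂(mu ι m)) -
      ((Real.exp (-(z ^ 2 / 2 * ∑ p, ∫ x, g p x ^ 2 ∂(nu m))) : ℝ) : ℂ)‖ ≤
      ∑ p, (|z| ^ 3 * b p ^ 3 + z ^ 4 * b p ^ 4) := by
  have e1 : ∀ θ, cexp (I * ((z * Ys g θ : ℝ) : ℂ)) = ∏ p, cexp (I * ((z * g p (θ p) : ℝ) : ℂ)) := by
    intro θ
    unfold Ys
    rw [Finset.mul_sum]
    push_cast
    rw [Finset.mul_sum, Complex.exp_sum]
  simp_rw [e1]
  unfold mu
  rw [integral_fintype_prod_eq_prod (fun p (y : Fin m → ℝ) => cexp (I * ((z * g p y : ℝ) : ℂ)))]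
  have e2 : ((Real.exp (-(z ^ 2 / 2 * ∑ p, ∫ x, g p x ^ 2 ∂(nu m))) : ℝ) : ℂ) =
      ∏ p, ((Real.exp (-(z ^ 2 / 2 * ∫ x, g p x ^ 2 ∂(nu m))) : ℝ) : ℂ) := by
    rw [← Complex.ofReal_prod, ← Real.exp_sum, Finset.mul_sum, Finset.sum_neg_distrib]
  rw [e2]
  have hv0 : ∀ p, 0 ≤ ∫ x, g p x ^ 2 ∂(nu m) := fun p => integral_nonneg fun x => sq_nonneg _
  have hv1 : ∀ p, ∫ x, g p x ^ 2 ∂(nu m) ≤ b p ^ 2 := by
    intro p
    have : ∫ x, g p x ^ 2 ∂(nu m) ≤ ∫ _x, b p ^ 2 ∂(nu m) := by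
      refine integral_mono (h.int p 2) (integrable_const _) fun x => ?_
      show g p x ^ 2 ≤ b p ^ 2
      rw [← sq_abs (g p x)]
      exact pow_le_pow_left₀ (abs_nonneg _) (h.bd p x) 2
    refine this.trans (le_of_eq ?_)
    simp
  refine (prod_diff _ _ _ (fun p _ => ?_) (fun p _ => ?_)).trans (Finset.sum_le_sum fun p _ => ?_)
  · refine (norm_integral_le_integral_norm _).trans ?_
    simp_rw [norm_exp_I_mul_ofReal]
    simp
  · rw [Complex.norm_real, Real.norm_eq_abs, abs_of_pos (Real.exp_pos _), Real.exp_le_one_iff]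
    have := hv0 p
    have : 0 ≤ z ^ 2 / 2 * ∫ x, g p x ^ 2 ∂(nu m) := by positivity
    linarith
  · have h1 := h.char_one z p
    have h2 := exp_quad (x := z ^ 2 / 2 * ∫ x, g p x ^ 2 ∂(nu m)) (mul_nonneg (by positivity) (hv0 p))
    have h3 : (z ^ 2 / 2 * ∫ x, g p x ^ 2 ∂(nu m)) ^ 2 ≤ z ^ 4 * b p ^ 4 := by
      have h4 : z ^ 2 / 2 * ∫ x, g p x ^ 2 ∂(nu m) ≤ z ^ 2 * b p ^ 2 := by
        have := hv1 p
        have h5 := hv0 p
        have h6 := sq_nonneg z
        have h7 : 0 ≤ b p ^ 2 := sq_nonneg _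
        nlinarith
      calc (z ^ 2 / 2 * ∫ x, g p x ^ 2 ∂(nu m)) ^ 2 ≤ (z ^ 2 * b p ^ 2) ^ 2 :=
            pow_le_pow_left₀ (mul_nonneg (by positivity) (hv0 p)) h4 2
        _ = z ^ 4 * b p ^ 4 := by ring
    have h8 : ‖((1 - z ^ 2 / 2 * ∫ x, g p x ^ 2 ∂(nu m) : ℝ) : ℂ) -
        ((Real.exp (-(z ^ 2 / 2 * ∫ x, g p x ^ 2 ∂(nu m))) : ℝ) : ℂ)‖ ≤ z ^ 4 * b p ^ 4 := by
      rw [← Complex.ofReal_sub, Complex.norm_real, Real.norm_eq_abs, abs_sub_comm]
      exact h2.trans h3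
    refine le_trans ?_ (add_le_add h1 h8)
    exact norm_sub_le_norm_sub_add_norm_sub _ _ _

end ind

end

end Pool.Agent.Q173.JD
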