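import Pool.Agent.Q173.JD.Levy
import Pool.Agent.Q173.JL.Fin2
import Pool.Agent.Q173.NL.Zeta

set_option autoImplicit false

/-! # From the sums over the small primes to the displacement of the zeros -/

namespace Pool.Agent.Q173.JD

open Filter Topology MeasureTheory Complex Set
open Pool.Agent.Y745.SW (Py Px xT P_MVB)
open Pool.Agent.Y655.SW (VV VV_lim)
open Pool.Agent.Y41.SW (LL_tendsto)
open Pool.Agent.Q173.JL (MB DN MM Dd)
open H370 (NN)

noncomputable section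

/-! ### sums over primes of different lengths -/

lemma py_ext {y : ℝ} {X : ℕ} (h : ⌊y⌋₊ ≤ X) (t : ℝ) : Py y t = ∑ n ∈ Finset.Icc 1 X,
    if n.Prime ∧ n ≤ ⌊y⌋₊ then (Real.sqrt n : ℂ)⁻¹ * (n : ℂ) ^ (-(t : ℂ) * I) else 0 := by
  unfold Py
  rw [← Finset.sum_filter]
  have e : (Finset.Icc 1 ⌊y⌋₊).filter Nat.Prime = (Finset.Icc 1 X).filter (fun n => n.Prime ∧ n ≤ ⌊y⌋₊) := by
    ext n
    simp only [Finset.mem_filter, Finset.mem_Icc]
    constructor
    · rintro ⟨⟨h1, h2⟩, h3⟩; exact ⟨⟨h1, h2.trans h⟩, h3, h2⟩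
    · rintro ⟨⟨h1, _⟩, h3, h4⟩; exact ⟨⟨h1, h4⟩, h3⟩
  rw [e]
  refine Finset.sum_congr rfl fun n hn => ?_
  rw [Finset.mem_filter] at hn
  exact Pool.Agent.Q173.JL.half_cpow n hn.2.1.one_le t

/-- the coefficients of the difference -/
def dc (y : ℝ) (n : ℕ) : ℂ := if n.Prime ∧ ⌊y⌋₊ < n then (Real.sqrt n : ℂ)⁻¹ else 0

lemma py_diff {y₁ y₂ : ℝ} (h : y₁ ≤ y₂) (t : ℝ) : Py y₂ t - Py y₁ t =
    ∑ n ∈ Finset.Icc 1 ⌊y₂⌋₊, dc y₁ n * (n : ℂ) ^ (-(t : ℂ) * I) := by
  rw [py_ext (le_refl ⌊y₂⌋₊), py_ext (Nat.floor_mono h), ← Finset.sum_sub_distrib]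
  refine Finset.sum_congr rfl fun n hn => ?_
  have hn2 := (Finset.mem_Icc.1 hn).2
  unfold dc
  by_cases hp : n.Prime
  · by_cases h1 : n ≤ ⌊y₁⌋₊
    · rw [if_pos ⟨hp, hn2⟩, if_pos ⟨hp, h1⟩, if_neg (fun h => absurd h.2 (not_lt.2 h1))]; ring
    · rw [if_pos ⟨hp, hn2⟩, if_neg (fun h => h1 h.2), if_pos ⟨hp, not_le.1 h1⟩]; ring
  · rw [if_neg (fun h => hp h.1), if_neg (fun h => hp h.1), if_neg (fun h => hp h.1)]; ring

lemma dc_sum {y₁ y₂ : ℝ} (h : y₁ ≤ y₂) : ∑ n ∈ Finset.Icc 1 ⌊y₂⌋₊, ‖dc y₁ n‖ ^ 2 = VV y₂ - VV y₁ := by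
  have e2 : VV y₂ = ∑ n ∈ Finset.Icc 1 ⌊y₂⌋₊, if n.Prime then (1 : ℝ) / n else 0 := by
    have : VV y₂ = ∑ p ∈ (Finset.Icc 1 ⌊y₂⌋₊).filter Nat.Prime, (1 : ℝ) / p := rfl
    rw [this, Finset.sum_filter]
  have e1 : VV y₁ = ∑ n ∈ Finset.Icc 1 ⌊y₂⌋₊, if n.Prime ∧ n ≤ ⌊y₁⌋₊ then (1 : ℝ) / n else 0 := by
    have : VV y₁ = ∑ p ∈ (Finset.Icc 1 ⌊y₁⌋₊).filter Nat.Prime, (1 : ℝ) / p := rfl
    rw [this, ← Finset.sum_filter]
    refine Finset.sum_congr ?_ fun _ _ => rfl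
    ext n
    simp only [Finset.mem_filter, Finset.mem_Icc]
    constructor
    · rintro ⟨⟨h1, h2⟩, h3⟩; exact ⟨⟨h1, h2.trans (Nat.floor_mono h)⟩, h3, h2⟩
    · rintro ⟨⟨h1, _⟩, h3, h4⟩; exact ⟨⟨h1, h4⟩, h3⟩
  rw [e1, e2, ← Finset.sum_sub_distrib]
  refine Finset.sum_congr rfl fun n hn => ?_
  unfold dc
  have hs : ‖((Real.sqrt n : ℝ) : ℂ)⁻¹‖ ^ 2 = 1 / n := by
    rw [norm_inv, Complex.norm_real, Real.norm_eq_abs, abs_of_nonneg (Real.sqrt_nonneg _), inv_pow,
      Real.sq_sqrt (Nat.cast_nonneg _), one_div]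
  by_cases hp : n.Prime
  · by_cases h1 : n ≤ ⌊y₁⌋₊
    · rw [if_neg (fun h => absurd h.2 (not_lt.2 h1)), if_pos hp, if_pos ⟨hp, h1⟩]; simp
    · rw [if_pos ⟨hp, not_le.1 h1⟩, if_pos hp, if_neg (fun h => h1 h.2), hs]; ring
  · rw [if_neg (fun h => hp h.1), if_neg hp, if_neg (fun h => hp h.1)]; simp

lemma Py_cont (y : ℝ) : Continuous (Py y) := by
  unfold Py
  refine continuous_finsetSum _ fun p hp => ?_
  have hp0 : (p : ℂ) ≠ 0 := by exact_mod_cast (Finset.mem_filter.1 hp).2.ne_zero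
  exact Continuous.const_cpow (by fun_prop) (Or.inl hp0)

/-- the mean square of the difference -/
lemma py_ms {y₁ y₂ a b : ℝ} (h : y₁ ≤ y₂) (hab : a ≤ b) : ∫ t in a..b, ‖Py y₂ t - Py y₁ t‖ ^ 2 ≤
    ((b - a) + 8 * ⌊y₂⌋₊ * (1 + Real.log ⌊y₂⌋₊)) * (VV y₂ - VV y₁) := by
  have h1 := Pool.Agent.Y840.SW.t_MVB ⌊y₂⌋₊ a b hab (dc y₁) (dc y₁)
  have e1 : ∀ n, dc y₁ n * (starRingEnd ℂ) (dc y₁ n) = ((‖dc y₁ n‖ ^ 2 : ℝ) : ℂ) := fun n => by
    rw [Complex.mul_conj, Complex.normSq_eq_norm_sq]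
  simp_rw [e1] at h1
  rw [← Complex.ofReal_sum, dc_sum h] at h1
  have e2 : (∫ t in a..b, (∑ n ∈ Finset.Icc 1 ⌊y₂⌋₊, dc y₁ n * (n : ℂ) ^ (-(t : ℂ) * I)) *
      (starRingEnd ℂ) (∑ n ∈ Finset.Icc 1 ⌊y₂⌋₊, dc y₁ n * (n : ℂ) ^ (-(t : ℂ) * I))) =
      ((∫ t in a..b, ‖Py y₂ t - Py y₁ t‖ ^ 2 : ℝ) : ℂ) := by
    rw [← intervalIntegral.integral_ofReal]
    refine intervalIntegral.integral_congr fun t _ => ?_
    show _ = ((‖Py y₂ t - Py y₁ t‖ ^ 2 : ℝ) : ℂ)
    rw [← py_diff h, Complex.mul_conj, Complex.normSq_eq_norm_sq]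
  rw [e2, ← Complex.ofReal_mul, ← Complex.ofReal_sub, Complex.norm_real, Real.norm_eq_abs] at h1
  have h2 := (abs_le.1 h1).2
  have h0 : 0 ≤ VV y₂ - VV y₁ := by rw [← dc_sum h]; positivity
  rw [Real.mul_self_sqrt h0] at h2
  linarith

/-! ### scales -/

/-- `H` is a scale: between two positive powers of `T` -/
def HH (H : ℝ → ℝ) : Prop := ∃ c₁ c₂ : ℝ, 0 < c₁ ∧ 0 < c₂ ∧ ∀ᶠ T : ℝ in atTop, T ^ c₁ ≤ H T ∧ H T ≤ T ^ c₂

variable {H : ℝ → ℝ}

lemma HH.tendsto (h : HH H) : Tendsto H atTop atTop := by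
  obtain ⟨c₁, c₂, h1, h2, h3⟩ := h
  exact tendsto_atTop_mono' _ (h3.mono fun T hT => hT.1) (tendsto_rpow_atTop h1)

lemma HH.scale (h : HH H) {c : ℝ} (hc : 0 < c) : HH (fun T => c * H T) := by
  obtain ⟨c₁, c₂, h1, h2, h3⟩ := h
  refine ⟨c₁ / 2, c₂ + 1, by positivity, by linarith, ?_⟩
  filter_upwards [h3, (tendsto_rpow_atTop (half_pos h1)).eventually_ge_atTop (1 / c), eventually_ge_atTop c,
    eventually_ge_atTop 1] with T t1 t2 t3 t4
  have hT0 : 0 < T := by linarith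
  constructor
  · have e : T ^ c₁ = T ^ (c₁ / 2) * T ^ (c₁ / 2) := by rw [← Real.rpow_add hT0]; congr 1; ring
    have h5 : 1 ≤ c * T ^ (c₁ / 2) := by rwa [div_le_iff₀' hc] at t2
    calc T ^ (c₁ / 2) ≤ (c * T ^ (c₁ / 2)) * T ^ (c₁ / 2) :=
          le_mul_of_one_le_left (Real.rpow_pos_of_pos hT0 _).le h5
      _ = c * T ^ c₁ := by rw [e]; ring
      _ ≤ c * H T := mul_le_mul_of_nonneg_left t1.1 hc.le
  · calc c * H T ≤ c * T ^ c₂ := mul_le_mul_of_nonneg_left t1.2 hc.le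
      _ ≤ T * T ^ c₂ := mul_le_mul_of_nonneg_right t3 (Real.rpow_pos_of_pos hT0 _).le
      _ = T ^ (c₂ + 1) := by rw [Real.rpow_add hT0, Real.rpow_one]; ring

lemma HH.ll (h : HH H) : ∃ C : ℝ, 0 ≤ C ∧ ∀ᶠ T : ℝ in atTop,
    |Real.log (Real.log (H T)) - Real.log (Real.log T)| ≤ C := by
  obtain ⟨c₁, c₂, h1, h2, h3⟩ := h
  refine ⟨|Real.log c₁| + |Real.log c₂|, by positivity, ?_⟩
  filter_upwards [h3, eventually_gt_atTop 1] with T t1 t2
  have hT0 : 0 < T := by linarith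
  have hL : 0 < Real.log T := Real.log_pos t2
  have k1 := Real.log_le_log (Real.rpow_pos_of_pos hT0 _) t1.1
  have k2 := Real.log_le_log (lt_of_lt_of_le (Real.rpow_pos_of_pos hT0 _) t1.1) t1.2
  rw [Real.log_rpow hT0] at k1 k2
  have k3 := Real.log_le_log (mul_pos h1 hL) k1
  have k4 := Real.log_le_log (lt_of_lt_of_le (mul_pos h1 hL) k1) k2
  rw [Real.log_mul h1.ne' hL.ne'] at k3
  rw [Real.log_mul h2.ne' hL.ne'] at k4
  have a1 := neg_abs_le (Real.log c₁)
  have a2 := le_abs_self (Real.log c₂)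
  have a3 := abs_nonneg (Real.log c₁)
  have a4 := abs_nonneg (Real.log c₂)
  rw [abs_le]
  constructor <;> linarith

/-- the lengths of the sums at the heights `H T` and `T` are comparable -/
lemma HH.vv (h : HH H) (δ : ℝ) (hδ : 0 < δ) : ∀ᶠ T : ℝ in atTop,
    |VV (xT (H T)) - VV (xT T)| ≤ δ * Real.log (Real.log T) := by
  obtain ⟨C, hC, h1⟩ := h.ll
  have h2 := VV_lim.eventually (Metric.ball_mem_nhds (1 : ℝ) (show (0 : ℝ) < min 1 (δ / 4) by positivity))
  filter_upwards [h1, h2, h.tendsto.eventually h2, LL_tendsto.eventually_ge_atTop (max 1 (4 * C / δ)),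
    (LL_tendsto.comp h.tendsto).eventually_ge_atTop 1] with T t1 t2 t3 t4 t5
  rw [Real.dist_eq] at t2 t3
  simp only [Function.comp] at t5
  have hm : min 1 (δ / 4) ≤ δ / 4 := min_le_right _ _
  have hm1 : min 1 (δ / 4) ≤ 1 := min_le_left _ _
  set a := Real.log (Real.log T) with ha
  set b := Real.log (Real.log (H T)) with hb
  have ha1 : 1 ≤ a := (le_max_left _ _).trans t4
  have ha2 : 4 * C / δ ≤ a := (le_max_right _ _).trans t4
  rw [div_le_iff₀ hδ] at ha2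
  have h3 : |VV (xT T) - a| ≤ δ / 4 * a := by
    have e : VV (xT T) - a = (VV (xT T) / a - 1) * a := by field_simp
    rw [e, abs_mul, abs_of_pos (by linarith : 0 < a)]
    exact mul_le_mul_of_nonneg_right (t2.le.trans hm) (by linarith)
  have h4 : |VV (xT (H T)) - b| ≤ min 1 (δ / 4) * b := by
    have e : VV (xT (H T)) - b = (VV (xT (H T)) / b - 1) * b := by field_simp
    rw [e, abs_mul, abs_of_pos (by linarith : 0 < b)]
    exact mul_le_mul_of_nonneg_right t3.le (by linarith)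
  have h5 : b ≤ a + C := by linarith [(abs_le.1 t1).2]
  have h6 : min 1 (δ / 4) * b ≤ δ / 4 * a + C := by
    have h7 : min 1 (δ / 4) * b ≤ min 1 (δ / 4) * (a + C) := mul_le_mul_of_nonneg_left h5 (by positivity)
    nlinarith
  rw [abs_le] at t1 h3 h4 ⊢
  constructor <;> nlinarith

lemma floor_small (h : HH H) : ∀ᶠ T : ℝ in atTop, ∀ y : ℝ, (y = xT T ∨ y = xT (H T)) →
    8 * (⌊y⌋₊ : ℝ) * (1 + Real.log ⌊y⌋₊) ≤ H T := by
  have hh := h
  obtain ⟨c₁, c₂, h1, h2, h3⟩ := h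
  filter_upwards [h3, xT_pow 2 (show 0 < c₁ / 2 by positivity), hh.tendsto.eventually (xT_pow 2 (show (0 : ℝ) < 1 / 2 by norm_num)),
    hh.tendsto.eventually_ge_atTop 64, eventually_ge_atTop 1, (LL_tendsto.comp hh.tendsto).eventually_gt_atTop 0,
    LL_tendsto.eventually_gt_atTop 0, (Real.tendsto_log_atTop.comp hh.tendsto).eventually_ge_atTop 0] with T t1 t2 t3 t4 t5 t6 t7 t8
  intro y hy
  have hT0 : 0 < T := by linarith
  have hH0 : 0 < H T := by linarith
  have hy2 : y ^ 2 ≤ (H T) ^ (1 / 2 : ℝ) := by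
    rcases hy with rfl | rfl
    · refine t2.trans ?_
      have : T ^ (c₁ / 2) = (T ^ c₁) ^ (1 / 2 : ℝ) := by rw [← Real.rpow_mul hT0.le]; congr 1; ring
      rw [this]
      exact Real.rpow_le_rpow (Real.rpow_pos_of_pos hT0 _).le t1.1 (by norm_num)
    · exact t3
  have hy1 : 1 ≤ y := by
    rcases hy with rfl | rfl
    · unfold xT
      refine Real.one_le_exp (div_nonneg (Real.log_nonneg t5) t7.le)
    · unfold xT
      refine Real.one_le_exp (div_nonneg t8 t6.le)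
  have hf : (⌊y⌋₊ : ℝ) ≤ y := Nat.floor_le (by linarith)
  have hf1 : (1 : ℝ) ≤ ⌊y⌋₊ := by exact_mod_cast Nat.le_floor (by simpa using hy1)
  have hl : 1 + Real.log ⌊y⌋₊ ≤ ⌊y⌋₊ := by
    have := Real.log_le_sub_one_of_pos (by linarith : (0 : ℝ) < ⌊y⌋₊)
    linarith
  have hl0 : 0 ≤ Real.log (⌊y⌋₊ : ℝ) := Real.log_nonneg hf1
  have h5 : (⌊y⌋₊ : ℝ) * (1 + Real.log ⌊y⌋₊) ≤ (H T) ^ (1 / 2 : ℝ) := by
    calc (⌊y⌋₊ : ℝ) * (1 + Real.log ⌊y⌋₊) ≤ ⌊y⌋₊ * ⌊y⌋₊ := mul_le_mul_of_nonneg_left hl (by linarith)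
      _ ≤ y * y := mul_le_mul hf hf (by linarith) (by linarith)
      _ = y ^ 2 := by ring
      _ ≤ _ := hy2
  have h6 : 8 ≤ (H T) ^ (1 / 2 : ℝ) := by
    have : (8 : ℝ) = (64 : ℝ) ^ (1 / 2 : ℝ) := by
      rw [show (64 : ℝ) = 8 ^ (2 : ℝ) by norm_num, ← Real.rpow_mul (by norm_num)]; norm_num
    rw [this]
    exact Real.rpow_le_rpow (by norm_num) t4 (by norm_num)
  have h7 : (H T) ^ (1 / 2 : ℝ) * (H T) ^ (1 / 2 : ℝ) = H T := by
    rw [← Real.rpow_add hH0]; norm_num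
  have h8 : 0 ≤ (H T) ^ (1 / 2 : ℝ) := by linarith
  calc 8 * (⌊y⌋₊ : ℝ) * (1 + Real.log ⌊y⌋₊) = 8 * (⌊y⌋₊ * (1 + Real.log ⌊y⌋₊)) := by ring
    _ ≤ (H T) ^ (1 / 2 : ℝ) * (H T) ^ (1 / 2 : ℝ) := mul_le_mul h6 h5 (by positivity) h8
    _ = H T := h7

/-- change of the length of the sum -/
lemma HH.len (h : HH H) (ε : ℝ) (hε : 0 < ε) : ∀ᶠ T : ℝ in atTop, ∀ A B : ℝ, A ≤ B → B - A ≤ H T →
    ∫ s in A..B, |(Px (H T) s).im - (Px T s).im| ≤ ε * (H T * Real.sqrt (Real.log (Real.log T))) := by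
  filter_upwards [h.vv (ε ^ 2 / 2) (by positivity), floor_small h, h.tendsto.eventually_gt_atTop 0,
    LL_tendsto.eventually_gt_atTop 0] with T t1 t2 t3 t4
  intro A B hAB hBA
  set σ := Real.sqrt (Real.log (Real.log T)) with hσ
  have hσ0 : 0 < σ := Real.sqrt_pos.2 t4
  have hσ2 : σ ^ 2 = Real.log (Real.log T) := Real.sq_sqrt t4.le
  have hms : ∫ s in A..B, ‖Py (xT (H T)) s - Py (xT T) s‖ ^ 2 ≤ 2 * H T * (ε ^ 2 / 2 * σ ^ 2) := by
    rw [hσ2]
    rcases le_total (xT T) (xT (H T)) with h1 | h1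
    · refine (py_ms h1 hAB).trans ?_
      have h2 := t2 _ (Or.inr rfl)
      have h3 : 0 ≤ VV (xT (H T)) - VV (xT T) := by rw [← dc_sum h1]; positivity
      have h4 := (abs_le.1 t1).2
      exact mul_le_mul (by linarith) h4 h3 (by linarith)
    · have e : ∀ s, ‖Py (xT (H T)) s - Py (xT T) s‖ ^ 2 = ‖Py (xT T) s - Py (xT (H T)) s‖ ^ 2 := fun s => by
        rw [norm_sub_rev]
      simp_rw [e]
      refine (py_ms h1 hAB).trans ?_
      have h2 := t2 _ (Or.inl rfl)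
      have h3 : 0 ≤ VV (xT T) - VV (xT (H T)) := by rw [← dc_sum h1]; positivity
      have h4 : VV (xT T) - VV (xT (H T)) ≤ ε ^ 2 / 2 * Real.log (Real.log T) := by linarith [(abs_le.1 t1).1]
      exact mul_le_mul (by linarith) h4 h3 (by linarith)
  have hc1 : Continuous fun s => Py (xT (H T)) s - Py (xT T) s := (Py_cont _).sub (Py_cont _)
  have hes : 0 < ε * σ := mul_pos hε hσ0
  have hpt : ∀ s, |(Px (H T) s).im - (Px T s).im| ≤
      (1 / (2 * (ε * σ))) * ‖Py (xT (H T)) s - Py (xT T) s‖ ^ 2 + ε * σ / 2 := by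
    intro s
    have h1 : |(Px (H T) s).im - (Px T s).im| ≤ ‖Py (xT (H T)) s - Py (xT T) s‖ := by
      rw [← Complex.sub_im]; exact Complex.abs_im_le_norm _
    refine h1.trans ?_
    set x := ‖Py (xT (H T)) s - Py (xT T) s‖
    have h2 : x ≤ x ^ 2 / (2 * (ε * σ)) + ε * σ / 2 := by
      rw [div_add' _ _ _ (by positivity), le_div_iff₀ (by positivity)]
      nlinarith [sq_nonneg (x - (ε * σ))]
    linarith [h2, (by ring : x ^ 2 / (2 * (ε * σ)) = (1 / (2 * (ε * σ))) * x ^ 2)]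
  have i1 : IntervalIntegrable (fun s => |(Px (H T) s).im - (Px T s).im|) volume A B :=
    ((Complex.continuous_im.comp (Py_cont _)).sub (Complex.continuous_im.comp (Py_cont _))).abs.intervalIntegrable _ _
  have i2 : IntervalIntegrable (fun s => (1 / (2 * (ε * σ))) * ‖Py (xT (H T)) s - Py (xT T) s‖ ^ 2) volume A B :=
    (continuous_const.mul (hc1.norm.pow 2)).intervalIntegrable _ _
  refine (intervalIntegral.integral_mono_on hAB i1 (i2.add intervalIntegrable_const) fun s _ => hpt s).trans ?_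
  rw [intervalIntegral.integral_add i2 intervalIntegrable_const, intervalIntegral.integral_const_mul,
    intervalIntegral.integral_const, smul_eq_mul]
  have h1 : 1 / (2 * (ε * σ)) * ∫ s in A..B, ‖Py (xT (H T)) s - Py (xT T) s‖ ^ 2 ≤
      1 / (2 * (ε * σ)) * (2 * H T * (ε ^ 2 / 2 * σ ^ 2)) := mul_le_mul_of_nonneg_left hms (by positivity)
  have h2 : 1 / (2 * (ε * σ)) * (2 * H T * (ε ^ 2 / 2 * σ ^ 2)) = 1 / 2 * (ε * (H T * σ)) := by
    field_simp
  have h3 : (B - A) * (ε * σ / 2) ≤ H T * (ε * σ / 2) := mul_le_mul_of_nonneg_right hBA (by positivity)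
  have h4 : H T * (ε * σ / 2) = 1 / 2 * (ε * (H T * σ)) := by ring
  linarith

/-! ### the displacement -/

lemma NN0_mono : Monotone fun t : ℝ => (NN riemannZeta 0 t : ℝ) := by
  intro a b hab
  show (NN riemannZeta 0 a : ℝ) ≤ NN riemannZeta 0 b
  rw [← Pool.Agent.Q173.NL.NZ_eq, ← Pool.Agent.Q173.NL.NZ_eq]
  exact_mod_cast SG.NZ_mono hab

lemma Dd_meas : Measurable Dd := by
  unfold Dd
  exact (NN0_mono.measurable.sub Pool.Agent.Q173.JL.MM_meas).const_mul _

lemma MB_Dd {A B : ℝ} (hA : 0 < A) : MB A B Dd := by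
  unfold Dd
  refine (MB.cont continuous_const).mul (MB.sub ?_ (Pool.Agent.Q173.JL.MB_MM hA))
  refine ⟨NN0_mono.measurable, NN riemannZeta 0 B, fun t ht => ?_⟩
  rw [abs_of_nonneg (Nat.cast_nonneg _)]
  exact NN0_mono ht.2

/-- the error of the approximation -/
def er (T s : ℝ) : ℝ := |Dd s - (Px T s).im|

lemma MB_er {A B : ℝ} (T : ℝ) (hA : 0 < A) : MB A B (er T) :=
  ((MB_Dd hA).sub (MB.cont (Complex.continuous_im.comp (Py_cont _)))).abs

lemma er_nonneg (T s : ℝ) : 0 ≤ er T s := abs_nonneg _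

lemma log_small (c : ℝ) (hc : 0 < c) : ∀ᶠ T : ℝ in atTop, Real.log T ≤ c * T := by
  have h1 := (Real.isLittleO_log_id_atTop).bound hc
  filter_upwards [h1, eventually_ge_atTop 1] with T t1 t2
  have hL : 0 ≤ Real.log T := Real.log_nonneg (by linarith)
  simp only [id, Real.norm_eq_abs] at t1
  rwa [abs_of_nonneg hL, abs_of_nonneg (by linarith)] at t1

/-- one block -/
lemma HH.block (h : HH H) (ε : ℝ) (hε : 0 < ε) : ∀ᶠ T : ℝ in atTop,
    ∫ s in (H T)..(3 / 2 * H T), er T s ≤ ε * (H T * Real.sqrt (Real.log (Real.log T))) := by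
  have hpi := Real.pi_pos
  have hpi3 := Real.pi_gt_three
  have hpi4 := Real.pi_lt_four
  have h' := h.scale (show (0 : ℝ) < 5 / 6 by norm_num)
  obtain ⟨C, hC, hll⟩ := h'.ll
  have hds := Pool.Agent.Q173.JL.disp_small Pool.Agent.Y840.SW.t_MVB Pool.Agent.Y895.SW.t_DX
    Pool.Agent.Q173.JL.a_SF Pool.Agent.Q173.JL.a_RV Pool.Agent.Y340.OJ.t_BD (ε / 16) (by positivity)
  set K0 : ℝ := (NN riemannZeta 0 1 : ℝ) with hK0
  have hK00 : 0 ≤ K0 := Nat.cast_nonneg _
  filter_upwards [h'.tendsto.eventually hds, h'.len (ε / 4) (by positivity), hll, h'.tendsto.eventually_ge_atTop 10,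
    h'.tendsto.eventually (log_small (1 / 20) (by norm_num)), LL_tendsto.eventually_ge_atTop (max 1 C),
    (Real.tendsto_sqrt_atTop.comp LL_tendsto).eventually_ge_atTop (8 * (Real.pi * K0) / ε)] with T t1 t2 t3 t4 t5 t6 t7
  simp only [Function.comp] at t7
  set T' := 5 / 6 * H T with hT'
  set σ := Real.sqrt (Real.log (Real.log T)) with hσ
  have ha1 : 1 ≤ Real.log (Real.log T) := (le_max_left _ _).trans t6
  have haC : C ≤ Real.log (Real.log T) := (le_max_right _ _).trans t6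
  have hH0 : 0 < H T := by linarith
  have hσ0 : 0 ≤ σ := Real.sqrt_nonneg _
  have hσ' : Real.sqrt (Real.log (Real.log T')) ≤ 2 * σ := by
    rw [Real.sqrt_le_left (by positivity), mul_pow, Real.sq_sqrt (by linarith)]
    have := (abs_le.1 t3).2
    linarith
  have hlen : 3 / 2 * H T - H T ≤ T' := by rw [hT']; linarith
  have hHH : H T ≤ 3 / 2 * H T := by linarith
  have h1 := t2 (H T) (3 / 2 * H T) hHH hlen
  have m1 : MB (H T) (3 / 2 * H T) (fun s => |DN T' s|) := (Pool.Agent.Q173.JL.MB_DN T' hH0).abs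
  have m2 : MB (H T) (3 / 2 * H T) (fun s => |(Px T' s).im - (Px T s).im|) :=
    MB.cont ((Complex.continuous_im.comp (Py_cont _)).sub (Complex.continuous_im.comp (Py_cont _))).abs
  have hpt : ∀ s ∈ Icc (H T) (3 / 2 * H T), er T s ≤ Real.pi * |DN T' s| + |(Px T' s).im - (Px T s).im| + Real.pi * K0 := by
    intro s hs
    have hs1 : 1 ≤ s := by linarith [hs.1]
    have e1 : Dd s - (Px T s).im = Real.pi * DN T' s + ((Px T' s).im - (Px T s).im) + Real.pi * K0 := by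
      unfold Dd DN
      rw [Pool.Agent.Q173.JL.NN0 s hs1]
      field_simp
      ring
    unfold er
    rw [e1]
    refine (abs_add_le _ _).trans (add_le_add ((abs_add_le _ _).trans (add_le_add (le_of_eq ?_) le_rfl)) (le_of_eq ?_))
    · rw [abs_mul, abs_of_pos hpi]
    · exact abs_of_nonneg (by positivity)
  have i0 : IntervalIntegrable (er T) volume (H T) (3 / 2 * H T) := (MB_er T hH0).int hHH
  have i1 := (m1.int hHH).const_mul Real.pi
  have i2 := m2.int hHH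
  refine (intervalIntegral.integral_mono_on hHH i0 ((i1.add i2).add intervalIntegrable_const) hpt).trans ?_
  rw [intervalIntegral.integral_add (i1.add i2) intervalIntegrable_const, intervalIntegral.integral_add i1 i2,
    intervalIntegral.integral_const_mul, intervalIntegral.integral_const, smul_eq_mul]
  have hsub : ∫ s in (H T)..(3 / 2 * H T), |DN T' s| ≤
      ∫ s in (T' + 3 * Real.log T')..(2 * T' - 3 * Real.log T'), |DN T' s| := by
    have hT'H : T' = 5 / 6 * H T := rfl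
    refine intervalIntegral.integral_mono_interval ?_ hHH ?_ (Eventually.of_forall fun s => abs_nonneg _) ?_
    · linarith
    · linarith
    · refine ((Pool.Agent.Q173.JL.MB_DN T' ?_).abs).int ?_
      · have := Real.log_nonneg (show (1 : ℝ) ≤ T' by linarith)
        linarith
      · linarith
  have hT'le : T' ≤ H T := by rw [hT']; linarith
  have hT'0 : 0 < T' := by linarith
  have k1 : ∫ s in (H T)..(3 / 2 * H T), |DN T' s| ≤ ε / 8 * (H T * σ) := by
    refine (hsub.trans t1).trans ?_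
    calc ε / 16 * (T' * Real.sqrt (Real.log (Real.log T'))) ≤ ε / 16 * (H T * (2 * σ)) := by
          refine mul_le_mul_of_nonneg_left (mul_le_mul hT'le hσ' (Real.sqrt_nonneg _) hH0.le) (by positivity)
      _ = ε / 8 * (H T * σ) := by ring
  have k2 : Real.pi * ∫ s in (H T)..(3 / 2 * H T), |DN T' s| ≤ 4 * (ε / 8 * (H T * σ)) := by
    have h0 : 0 ≤ ∫ s in (H T)..(3 / 2 * H T), |DN T' s| := intervalIntegral.integral_nonneg hHH fun s _ => abs_nonneg _
    exact mul_le_mul hpi4.le k1 h0 (by norm_num)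
  have k3 : ∫ s in (H T)..(3 / 2 * H T), |(Px T' s).im - (Px T s).im| ≤ ε / 4 * (H T * σ) := by
    refine h1.trans ?_
    refine mul_le_mul_of_nonneg_left (mul_le_mul_of_nonneg_right hT'le hσ0) (by positivity)
  have k4 : (3 / 2 * H T - H T) * (Real.pi * K0) ≤ ε / 4 * (H T * σ) := by
    rw [div_le_iff₀ hε] at t7
    have : (3 / 2 * H T - H T) * (Real.pi * K0) = H T / 16 * (8 * (Real.pi * K0)) := by ring
    rw [this]
    calc H T / 16 * (8 * (Real.pi * K0)) ≤ H T / 16 * (σ * ε) := mul_le_mul_of_nonneg_left t7 (by positivity)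
      _ ≤ ε / 4 * (H T * σ) := by
        have : 0 ≤ ε * (H T * σ) := by positivity
        nlinarith
  linarith

/-- several blocks -/
lemma HH.blocks (h : HH H) (n : ℕ) : ∀ ε : ℝ, 0 < ε → ∀ᶠ T : ℝ in atTop,
    ∫ s in (H T)..((3 / 2) ^ n * H T), er T s ≤ ε * (H T * Real.sqrt (Real.log (Real.log T))) := by
  induction n with
  | zero =>
    intro ε hε
    filter_upwards [h.tendsto.eventually_gt_atTop 0] with T t1
    rw [pow_zero, one_mul, intervalIntegral.integral_same]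
    positivity
  | succ n ih =>
    intro ε hε
    have hn : (0 : ℝ) < (3 / 2) ^ n := by positivity
    filter_upwards [ih (ε / 2) (by positivity), (h.scale hn).block (ε / (2 * (3 / 2) ^ n)) (by positivity),
      h.tendsto.eventually_gt_atTop 0] with T t1 t2 t3
    have h1 : H T ≤ (3 / 2) ^ n * H T := le_mul_of_one_le_left t3.le (one_le_pow₀ (by norm_num))
    have h2 : (3 / 2 : ℝ) ^ n * H T ≤ (3 / 2) ^ (n + 1) * H T :=
      mul_le_mul_of_nonneg_right (pow_le_pow_right₀ (by norm_num) (by omega)) t3.le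
    have e : 3 / 2 * ((3 / 2 : ℝ) ^ n * H T) = (3 / 2) ^ (n + 1) * H T := by rw [pow_succ]; ring
    rw [e] at t2
    have e2 : ε / (2 * (3 / 2) ^ n) * ((3 / 2 : ℝ) ^ n * H T * Real.sqrt (Real.log (Real.log T))) =
        ε / 2 * (H T * Real.sqrt (Real.log (Real.log T))) := by field_simp
    rw [e2] at t2
    rw [← intervalIntegral.integral_add_adjacent_intervals ((MB_er T t3).int h1)
      ((MB_er T (lt_of_lt_of_le t3 h1)).int h2)]
    linarith

lemma HH.range (h : HH H) (Λ : ℝ) (hΛ : 1 ≤ Λ) (ε : ℝ) (hε : 0 < ε) : ∀ᶠ T : ℝ in atTop,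
    ∫ s in (H T)..(Λ * H T), er T s ≤ ε * (H T * Real.sqrt (Real.log (Real.log T))) := by
  obtain ⟨n, hn⟩ := pow_unbounded_of_one_lt Λ (show (1 : ℝ) < 3 / 2 by norm_num)
  filter_upwards [h.blocks n ε hε, h.tendsto.eventually_gt_atTop 0] with T t1 t2
  refine le_trans ?_ t1
  have h1 : Λ * H T ≤ (3 / 2) ^ n * H T := mul_le_mul_of_nonneg_right hn.le t2.le
  have h2 : H T ≤ Λ * H T := le_mul_of_one_le_left t2.le hΛ
  exact intervalIntegral.integral_mono_interval le_rfl h2 h1 (Eventually.of_forall fun s => er_nonneg _ _)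
    ((MB_er T t2).int (h2.trans h1))

/-! ### substitution -/

lemma subst {q q' F : ℝ → ℝ} {a b κ : ℝ} (hab : a ≤ b) (hκ : 0 < κ) (hd : ∀ x ∈ Icc a b, HasDerivAt q (q' x) x)
    (hq : ∀ x ∈ Icc a b, κ ≤ q' x) (hF : MB (q a) (q b) F) (h0 : ∀ s, 0 ≤ F s) :
    MonotoneOn q (Icc a b) ∧ κ * ∫ t in a..b, F (q t) ≤ ∫ s in (q a)..(q b), F s := by
  have hmono : StrictMonoOn q (Icc a b) := by
    refine strictMonoOn_of_deriv_pos (convex_Icc a b) (fun x hx => (hd x hx).continuousAt.continuousWithinAt)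
      fun x hx => ?_
    rw [interior_Icc] at hx
    rw [(hd x ⟨hx.1.le, hx.2.le⟩).deriv]
    exact lt_of_lt_of_le hκ (hq x ⟨hx.1.le, hx.2.le⟩)
  refine ⟨hmono.monotoneOn, ?_⟩
  have hqab : q a ≤ q b := hmono.monotoneOn ⟨le_rfl, hab⟩ ⟨hab, le_rfl⟩ hab
  have himg : q '' Icc a b ⊆ Icc (q a) (q b) := by
    rintro _ ⟨x, hx, rfl⟩
    exact ⟨hmono.monotoneOn ⟨le_rfl, hab⟩ hx hx.1, hmono.monotoneOn hx ⟨hab, le_rfl⟩ hx.2⟩
  have hFi : IntegrableOn F (Icc (q a) (q b)) := (intervalIntegrable_iff_integrableOn_Icc_of_le hqab).1 (hF.int hqab)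
  have hFi' : IntegrableOn F (q '' Icc a b) := hFi.mono_set himg
  have hdw : ∀ x ∈ Icc a b, HasDerivWithinAt q (q' x) (Icc a b) x := fun x hx => (hd x hx).hasDerivWithinAt
  have h1 := integral_image_eq_integral_abs_deriv_smul measurableSet_Icc hdw hmono.injOn F
  have h2 := (integrableOn_image_iff_integrableOn_abs_deriv_smul measurableSet_Icc hdw hmono.injOn F).1 hFi'
  have h3 : ∫ s in (q a)..(q b), F s = ∫ s in Icc (q a) (q b), F s := by
    rw [intervalIntegral.integral_of_le hqab, integral_Icc_eq_integral_Ioc]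
  have h4 : ∫ s in q '' Icc a b, F s ≤ ∫ s in Icc (q a) (q b), F s :=
    setIntegral_mono_set hFi (Eventually.of_forall h0) himg.eventuallyLE
  have h5 : κ * ∫ t in a..b, F (q t) ≤ ∫ x in Icc a b, |q' x| • F (q x) := by
    rw [← intervalIntegral.integral_const_mul, intervalIntegral.integral_of_le hab, ← integral_Icc_eq_integral_Ioc]
    by_cases hi : IntegrableOn (fun t => κ * F (q t)) (Icc a b)
    · refine setIntegral_mono_on hi h2 measurableSet_Icc fun x hx => ?_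
      rw [smul_eq_mul]
      exact mul_le_mul_of_nonneg_right ((hq x hx).trans (le_abs_self _)) (h0 _)
    · rw [integral_undef hi]
      exact setIntegral_nonneg measurableSet_Icc fun x _ => by
        rw [smul_eq_mul]; exact mul_nonneg (abs_nonneg _) (h0 _)
  rw [h3]
  exact h5.trans (h1 ▸ h4)

/-- admissible arguments -/
def Adm (q : ℝ → ℝ) : Prop := ∃ (q' H : ℝ → ℝ) (κ Λ : ℝ), 0 < κ ∧ 1 ≤ Λ ∧ HH H ∧ ∀ᶠ T : ℝ in atTop,
  (∀ t ∈ Icc T (2 * T), HasDerivAt q (q' t) t ∧ κ * H T / T ≤ q' t) ∧ H T ≤ q T ∧ q (2 * T) ≤ Λ * H T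

lemma Adm.small {q : ℝ → ℝ} (h : Adm q) (ε : ℝ) (hε : 0 < ε) : ∀ᶠ T : ℝ in atTop,
    ∫ t in T..2 * T, er T (q t) ≤ ε * (T * Real.sqrt (Real.log (Real.log T))) := by
  obtain ⟨q', H, κ, Λ, hκ, hΛ, hH, hev⟩ := h
  filter_upwards [hev, hH.range Λ hΛ (ε * κ) (by positivity), hH.tendsto.eventually_gt_atTop 0,
    eventually_gt_atTop 0] with T t1 t2 t3 t4
  obtain ⟨h1, h2, h3⟩ := t1
  have hκ' : 0 < κ * H T / T := by positivity
  have hTT : T ≤ 2 * T := by linarith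
  have hqT : 0 < q T := lt_of_lt_of_le t3 h2
  have hs := (subst (F := er T) hTT hκ' (fun x hx => (h1 x hx).1) (fun x hx => (h1 x hx).2)
    (MB_er T hqT) (er_nonneg T))
  have hqq : q T ≤ q (2 * T) := hs.1 ⟨le_rfl, hTT⟩ ⟨hTT, le_rfl⟩ hTT
  have hH2 : H T ≤ Λ * H T := le_mul_of_one_le_left t3.le hΛ
  have h4 : ∫ s in (q T)..(q (2 * T)), er T s ≤ ∫ s in (H T)..(Λ * H T), er T s :=
    intervalIntegral.integral_mono_interval h2 hqq h3 (Eventually.of_forall fun s => er_nonneg _ _)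
      ((MB_er T t3).int hH2)
  have h5 := (hs.2.trans h4).trans t2
  have e1 : κ * H T / T * ∫ t in T..2 * T, er T (q t) = κ * H T * ((∫ t in T..2 * T, er T (q t)) / T) := by ring
  have e2 : ε * κ * (H T * Real.sqrt (Real.log (Real.log T))) = κ * H T * (ε * Real.sqrt (Real.log (Real.log T))) := by ring
  rw [e1, e2] at h5
  have h6 := le_of_mul_le_mul_left h5 (by positivity)
  rw [div_le_iff₀ t4] at h6
  linarith

lemma Adm.mb {q : ℝ → ℝ} (h : Adm q) (hq : Measurable q) : ∀ᶠ T : ℝ in atTop, MB T (2 * T) (fun t => er T (q t)) := by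
  obtain ⟨q', H, κ, Λ, hκ, hΛ, hH, hev⟩ := h
  filter_upwards [hev, hH.tendsto.eventually_gt_atTop 0, eventually_gt_atTop 0] with T t1 t3 t4
  obtain ⟨h1, h2, h3⟩ := t1
  have hκ' : 0 < κ * H T / T := by positivity
  have hTT : T ≤ 2 * T := by linarith
  have hqT : 0 < q T := lt_of_lt_of_le t3 h2
  have hmono := (subst (F := er T) hTT hκ' (fun x hx => (h1 x hx).1) (fun x hx => (h1 x hx).2)
    (MB_er T hqT) (er_nonneg T)).1
  obtain ⟨m1, M, hM⟩ := MB_er (A := q T) (B := q (2 * T)) T hqT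
  exact ⟨m1.comp hq, M, fun t ht => hM _ ⟨hmono ⟨le_rfl, hTT⟩ ht ht.1, hmono ht ⟨hTT, le_rfl⟩ ht.2⟩⟩

lemma exp_lip (x y : ℝ) : ‖cexp (I * (x : ℂ)) - cexp (I * (y : ℂ))‖ ≤ |x - y| := by
  have e : cexp (I * (x : ℂ)) - cexp (I * (y : ℂ)) = cexp (I * (y : ℂ)) * (cexp (I * ((x - y : ℝ) : ℂ)) - 1) := by
    rw [mul_sub, ← Complex.exp_add, mul_one]
    congr 2
    push_cast
    ring
  rw [e, norm_mul, norm_exp_I_mul_ofReal, one_mul]
  exact Real.norm_exp_I_mul_ofReal_sub_one_le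

variable {k m : ℕ} {D : Dat k m} {φ : Fin m → ℝ → ℝ}

lemma arg_meas (hφ : ∀ i, Measurable (φ i)) (j : Fin k) : Measurable (D.arg φ j) :=
  (Finset.measurable_sum _ fun i _ => (hφ i).const_mul _).add_const _

/-- **the characteristic functions of combinations of the displacements** -/
theorem disp_char (hD : D.Ok) (hφ : ∀ i, Measurable (φ i)) (hO : Nrc φ) (hA : ∀ j, Adm (D.arg φ j)) (c : Fin k → ℝ) :
    Tendsto (fun T => ∫ t, cexp (I * ((∑ j, c j * (zT T * Dd (D.arg φ j t)) : ℝ) : ℂ)) ∂(muT T)) atTop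
      (𝓝 ((Real.exp (-(1 / 2 * ∑ j, c j ^ 2)) : ℝ) : ℂ)) := by
  have hqm : ∀ j, Measurable (D.arg φ j) := arg_meas hφ
  have h1 := hD.char_lim hφ hO c
  have h2 : Tendsto (fun T => (∫ t, cexp (I * ((∑ j, c j * (zT T * Dd (D.arg φ j t)) : ℝ) : ℂ)) ∂(muT T)) -
      ∫ t, cexp (I * ((zT T * ∑ j, c j * (Px T (D.arg φ j t)).im : ℝ) : ℂ)) ∂(muT T)) atTop (𝓝 0) := by
    rw [Metric.tendsto_nhds]
    intro ε hε
    set A : ℝ := ∑ j, |c j| with hA'
    have hA0 : 0 ≤ A := Finset.sum_nonneg fun j _ => abs_nonneg _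
    set δ : ℝ := ε / (4 * (A + 1)) with hδ
    have hδ0 : 0 < δ := by positivity
    have hall : ∀ᶠ T : ℝ in atTop, ∀ j, (∫ t in T..2 * T, er T (D.arg φ j t) ≤
        δ * (T * Real.sqrt (Real.log (Real.log T)))) ∧ MB T (2 * T) (fun t => er T (D.arg φ j t)) := by
      rw [eventually_all]
      exact fun j => ((hA j).small δ hδ0).and ((hA j).mb (hqm j))
    filter_upwards [hall, eventually_gt_atTop 0, LL_tendsto.eventually_gt_atTop 0] with T t1 t2 t3
    have := muT_prob t2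
    rw [dist_zero_right]
    have hTT : T ≤ 2 * T := by linarith
    have hz0 := zT_nonneg T
    have hm1 : Measurable fun t => ∑ j, c j * (zT T * Dd (D.arg φ j t)) :=
      Finset.measurable_sum _ fun j _ => ((Dd_meas.comp (hqm j)).const_mul _).const_mul _
    have hm2 : Measurable fun t => zT T * ∑ j, c j * (Px T (D.arg φ j t)).im :=
      (Finset.measurable_sum _ fun j _ => (((Complex.continuous_im.comp (Py_cont (xT T))).measurable.comp (hqm j)).const_mul _)).const_mul _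
    have hi1 : Integrable (fun t => cexp (I * ((∑ j, c j * (zT T * Dd (D.arg φ j t)) : ℝ) : ℂ))) (muT T) :=
      Integrable.of_bound (Complex.measurable_exp.comp ((Complex.measurable_ofReal.comp hm1).const_mul I)).aestronglyMeasurable
        1 (Eventually.of_forall fun t => by rw [norm_exp_I_mul_ofReal])
    have hi2 : Integrable (fun t => cexp (I * ((zT T * ∑ j, c j * (Px T (D.arg φ j t)).im : ℝ) : ℂ))) (muT T) :=
      Integrable.of_bound (Complex.measurable_exp.comp ((Complex.measurable_ofReal.comp hm2).const_mul I)).aestronglyMeasurable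
        1 (Eventually.of_forall fun t => by rw [norm_exp_I_mul_ofReal])
    rw [← integral_sub hi1 hi2]
    have hei : ∀ j, Integrable (fun t => er T (D.arg φ j t)) (muT T) := by
      intro j
      unfold muT
      refine Integrable.smul_measure ?_ (ENNReal.inv_ne_top.2 (by rw [Ne, ENNReal.ofReal_eq_zero, not_le]; exact t2))
      exact (((t1 j).2.int hTT).1)
    have hb : ∫ t, ‖cexp (I * ((∑ j, c j * (zT T * Dd (D.arg φ j t)) : ℝ) : ℂ)) -
        cexp (I * ((zT T * ∑ j, c j * (Px T (D.arg φ j t)).im : ℝ) : ℂ))‖ ∂(muT T) ≤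
        ∫ t, ∑ j, (|c j| * zT T) * er T (D.arg φ j t) ∂(muT T) := by
      refine integral_mono (hi1.sub hi2).norm (integrable_finsetSum _ fun j _ => (hei j).const_mul _) fun t => ?_
      refine (exp_lip _ _).trans ?_
      have e : ∑ j, c j * (zT T * Dd (D.arg φ j t)) - zT T * ∑ j, c j * (Px T (D.arg φ j t)).im =
          ∑ j, c j * zT T * (Dd (D.arg φ j t) - (Px T (D.arg φ j t)).im) := by
        rw [Finset.mul_sum, ← Finset.sum_sub_distrib]
        exact Finset.sum_congr rfl fun j _ => by ring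
      rw [e]
      refine (Finset.abs_sum_le_sum_abs _ _).trans (Finset.sum_le_sum fun j _ => ?_)
      rw [abs_mul, abs_mul, abs_of_nonneg hz0]
      rfl
    refine lt_of_le_of_lt ((norm_integral_le_integral_norm _).trans hb) ?_
    rw [integral_finsetSum _ (fun j _ => (hei j).const_mul _)]
    have hj : ∀ j, ∫ t, (|c j| * zT T) * er T (D.arg φ j t) ∂(muT T) ≤ |c j| * (2 * δ) := by
      intro j
      rw [integral_const_mul, muT_int t2, smul_eq_mul]
      have h5 := (t1 j).1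
      have h6 : T⁻¹ * ∫ t in T..2 * T, er T (D.arg φ j t) ≤ δ * Real.sqrt (Real.log (Real.log T)) := by
        rw [inv_mul_le_iff₀ t2]
        linarith
      have h7 : zT T * (δ * Real.sqrt (Real.log (Real.log T))) ≤ 2 * δ := by
        unfold zT
        have hs : 0 < Real.sqrt (Real.log (Real.log T)) := Real.sqrt_pos.2 t3
        have h8 : Real.sqrt 2 ≤ 2 := by
          rw [Real.sqrt_le_left (by norm_num)]; norm_num
        have e : Real.sqrt 2 / Real.sqrt (Real.log (Real.log T)) * (δ * Real.sqrt (Real.log (Real.log T))) =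
          Real.sqrt 2 * δ := by field_simp
        rw [e]
        exact mul_le_mul_of_nonneg_right h8 hδ0.le
      calc |c j| * zT T * (T⁻¹ * ∫ t in T..2 * T, er T (D.arg φ j t)) ≤
            |c j| * zT T * (δ * Real.sqrt (Real.log (Real.log T))) := mul_le_mul_of_nonneg_left h6 (by positivity)
        _ = |c j| * (zT T * (δ * Real.sqrt (Real.log (Real.log T)))) := by ring
        _ ≤ _ := mul_le_mul_of_nonneg_left h7 (abs_nonneg _)
    refine lt_of_le_of_lt (Finset.sum_le_sum fun j _ => hj j) ?_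
    rw [← Finset.sum_mul, ← hA', hδ]
    have h9 : A * (2 * (ε / (4 * (A + 1)))) = ε / 2 * (A / (A + 1)) := by field_simp; ring
    rw [h9]
    have h10 : A / (A + 1) ≤ 1 := by rw [div_le_one (by linarith)]; linarith
    nlinarith
  have h3 := h2.add h1
  rw [zero_add] at h3
  refine h3.congr fun T => ?_
  ring

/-- **the joint law of the displacements at several arguments** -/
theorem disp_law (hD : D.Ok) (hφ : ∀ i, Measurable (φ i)) (hO : Nrc φ) (hA : ∀ j, Adm (D.arg φ j)) (a b : Fin k → ℝ) :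
    Tendsto (fun T => (muT T).real {t | ∀ j, a j < zT T * Dd (D.arg φ j t) ∧ zT T * Dd (D.arg φ j t) < b j}) atTop
      (𝓝 (∏ j, (ProbabilityTheory.gaussianReal 0 1).real (Set.Ioo (a j) (b j)))) :=
  box_lim (X := fun T t j => zT T * Dd (D.arg φ j t)) (fun T j => (Dd_meas.comp (arg_meas hφ j)).const_mul _)
    (disp_char hD hφ hO hA) a b

/-- linear combinations -/
theorem lin_law {X : ℝ → ℝ → Fin k → ℝ} (hm : ∀ T j, Measurable fun t => X T t j)
    (hchar : ∀ c : Fin k → ℝ, Tendsto (fun T => ∫ t, cexp (I * ((∑ j, c j * X T t j : ℝ) : ℂ)) ∂(muT T)) atTop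
      (𝓝 ((Real.exp (-(1 / 2 * ∑ j, c j ^ 2)) : ℝ) : ℂ))) (c : Fin k → ℝ) (hc : 0 < ∑ j, c j ^ 2) (a b : ℝ) :
    Tendsto (fun T => (muT T).real {t | a < (∑ j, c j * X T t j) / Real.sqrt (∑ j, c j ^ 2) ∧
      (∑ j, c j * X T t j) / Real.sqrt (∑ j, c j ^ 2) < b}) atTop
      (𝓝 ((ProbabilityTheory.gaussianReal 0 1).real (Set.Ioo a b))) := by
  set r := Real.sqrt (∑ j, c j ^ 2) with hr
  have hr0 : 0 < r := Real.sqrt_pos.2 hc
  have hr2 : r ^ 2 = ∑ j, c j ^ 2 := Real.sq_sqrt hc.le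
  have h := box_lim (k := 1) (X := fun T t _ => (∑ j, c j * X T t j) / r)
    (fun T _ => (Finset.measurable_sum _ fun j _ => (hm T j).const_mul _).div_const _) (fun c' => by
      have h1 := hchar (fun j => c' 0 / r * c j)
      have e1 : ∑ j, (c' 0 / r * c j) ^ 2 = ∑ i : Fin 1, c' i ^ 2 := by
        simp_rw [mul_pow]
        rw [← Finset.mul_sum, ← hr2, Fin.sum_univ_one]
        field_simp
      rw [e1] at h1
      refine h1.congr fun T => ?_
      refine integral_congr_ae (Eventually.of_forall fun t => ?_)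
      show cexp (I * ((∑ j, c' 0 / r * c j * X T t j : ℝ) : ℂ)) = cexp (I * ((∑ i : Fin 1, c' i * ((∑ j, c j * X T t j) / r) : ℝ) : ℂ))
      congr 3
      rw [Fin.sum_univ_one, Finset.sum_div, Finset.mul_sum]
      refine Finset.sum_congr rfl fun j _ => ?_
      ring) (fun _ => a) (fun _ => b)
  simpa using h

end

end Pool.Agent.Q173.JD
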